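import Pool.Agent.Lib.MP_354e85_al.L2B.Walk

/-! Averages over random words. -/

set_option autoImplicit false

namespace Pool.Agent.Lib.MP_354e85_al.L2B

open Finset Filter Topology
open scoped InnerProductSpace

section Av

variable {V : Type*} [AddCommGroup V] [Module ℝ V] {V' : Type*} [AddCommGroup V'] [Module ℝ V']
variable (K : Type) [Fintype K]

/-- The average of `F` over the words of length `n`. -/
noncomputable def Av : ℕ → (List K → V) → V
  | 0, F => F []
  | n + 1, F => (Fintype.card K : ℝ)⁻¹ • ∑ i, Av n (fun l => F (i :: l))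

theorem Av_zero (F : List K → V) : Av K 0 F = F [] := rfl

theorem Av_succ (n : ℕ) (F : List K → V) :
    Av K (n + 1) F = (Fintype.card K : ℝ)⁻¹ • ∑ i, Av K n (fun l => F (i :: l)) := rfl

theorem Av_add (n : ℕ) (F F' : List K → V) :
    Av K n (fun l => F l + F' l) = Av K n F + Av K n F' := by
  induction n generalizing F F' with
  | zero => rfl
  | succ n ih =>
    rw [Av_succ, Av_succ, Av_succ, ← smul_add, ← sum_add_distrib]
    congr 1
    exact sum_congr rfl fun i _ => ih _ _

theorem Av_smul (n : ℕ) (c : ℝ) (F : List K → V) :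
    Av K n (fun l => c • F l) = c • Av K n F := by
  induction n generalizing F with
  | zero => rfl
  | succ n ih =>
    rw [Av_succ, Av_succ, smul_comm c]
    congr 1
    rw [smul_sum]
    exact sum_congr rfl fun i _ => ih _

theorem Av_mul (n : ℕ) (c : ℝ) (F : List K → ℝ) :
    Av K n (fun l => c * F l) = c * Av K n F := by
  simpa only [smul_eq_mul] using Av_smul K n c F

theorem Av_map (n : ℕ) (A : V →ₗ[ℝ] V') (F : List K → V) :
    A (Av K n F) = Av K n (fun l => A (F l)) := by
  induction n generalizing F with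
  | zero => rfl
  | succ n ih =>
    rw [Av_succ, Av_succ, map_smul, map_sum]
    congr 1
    exact sum_congr rfl fun i _ => ih _

theorem Av_const [Nonempty K] (n : ℕ) (v : V) : Av K n (fun _ => v) = v := by
  induction n with
  | zero => rfl
  | succ n ih =>
    have h1 : (Fintype.card K : ℝ) ≠ 0 := by exact_mod_cast Fintype.card_ne_zero
    rw [Av_succ, ih, sum_const, card_univ, ← Nat.cast_smul_eq_nsmul ℝ, smul_smul,
      inv_mul_cancel₀ h1, one_smul]

theorem Av_mono (n : ℕ) {F F' : List K → ℝ} (h : ∀ l, l.length = n → F l ≤ F' l) :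
    Av K n F ≤ Av K n F' := by
  induction n generalizing F F' with
  | zero => exact h [] rfl
  | succ n ih =>
    rw [Av_succ, Av_succ, smul_eq_mul, smul_eq_mul]
    refine mul_le_mul_of_nonneg_left (sum_le_sum fun i _ => ?_) (by positivity)
    exact ih fun l hl => h (i :: l) (by simp [hl])

theorem Av_congr (n : ℕ) {F F' : List K → V} (h : ∀ l, l.length = n → F l = F' l) :
    Av K n F = Av K n F' := by
  induction n generalizing F F' with
  | zero => exact h [] rfl
  | succ n ih =>
    rw [Av_succ, Av_succ]
    congr 1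
    refine sum_congr rfl fun i _ => ?_
    exact ih fun l hl => h (i :: l) (by simp [hl])

theorem Av_sum (n : ℕ) {κ : Type*} (S : Finset κ) (F : κ → List K → V) :
    Av K n (fun l => ∑ a ∈ S, F a l) = ∑ a ∈ S, Av K n (F a) := by
  classical
  induction S using Finset.induction_on with
  | empty =>
    have h := Av_smul K n 0 (fun _ : List K => (0 : V))
    simp only [zero_smul] at h
    simpa using h
  | insert a S ha ih =>
    rw [sum_insert ha, ← ih, ← Av_add]
    congr 1
    funext l
    rw [sum_insert ha]

theorem Av_append (m n : ℕ) (F : List K → V) :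
    Av K (m + n) F = Av K m (fun l => Av K n (fun l' => F (l ++ l'))) := by
  induction m generalizing F with
  | zero => rw [zero_add]; rfl
  | succ m ih =>
    rw [show m + 1 + n = (m + n) + 1 by ring, Av_succ, Av_succ]
    congr 1
    refine sum_congr rfl fun i _ => ?_
    rw [ih]
    rfl

theorem Av_sq [Nonempty K] (n : ℕ) (F : List K → ℝ) :
    (Av K n F) ^ 2 ≤ Av K n (fun l => F l ^ 2) := by
  set t : ℝ := Av K n F with ht
  have h1 : Av K n (fun _ => (0 : ℝ)) ≤ Av K n (fun l => (F l - t) ^ 2) :=
    Av_mono K n fun l _ => sq_nonneg _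
  have h2 : (fun l => (F l - t) ^ 2) = fun l => (F l ^ 2 + (-(2 * t)) • F l) + t ^ 2 := by
    funext g
    rw [smul_eq_mul]
    ring
  rw [h2, Av_add K n (fun l => F l ^ 2 + (-(2 * t)) • F l) (fun _ => t ^ 2),
    Av_add K n (fun l => F l ^ 2) (fun l => (-(2 * t)) • F l), Av_smul, Av_const, Av_const, ← ht,
    smul_eq_mul] at h1
  nlinarith

theorem Av_abs [Nonempty K] (n : ℕ) (F : List K → ℝ) {v : ℝ} (hv : 0 ≤ v)
    (h : Av K n (fun l => F l ^ 2) ≤ v ^ 2) : Av K n (fun l => |F l|) ≤ v := by
  have h1 := Av_sq K n (fun l => |F l|)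
  simp only [sq_abs] at h1
  exact le_of_sq_le_sq (h1.trans h) hv

theorem Av_nn [Nonempty K] (n : ℕ) {F : List K → ℝ} (h : ∀ l, l.length = n → 0 ≤ F l) :
    0 ≤ Av K n F := by
  have h1 := Av_mono K n (F := fun _ => (0 : ℝ)) (F' := F) h
  rwa [Av_const] at h1

/-- The mean over the words as a sum over the functions `Fin n → K`. -/
theorem Av_ofFn (n : ℕ) (F : List K → V) :
    Av K n F = ((Fintype.card K : ℝ) ^ n)⁻¹ • ∑ w : Fin n → K, F (List.ofFn w) := by
  induction n generalizing F with
  | zero =>
    rw [Av_zero]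
    simp
  | succ n ih =>
    rw [Av_succ]
    have h1 : ∑ w : Fin (n + 1) → K, F (List.ofFn w) =
        ∑ i : K, ∑ w : Fin n → K, F (i :: List.ofFn w) := by
      rw [← (Fin.consEquiv (fun _ : Fin (n + 1) => K)).sum_comp, Fintype.sum_prod_type]
      refine sum_congr rfl fun i _ => sum_congr rfl fun w _ => ?_
      change F (List.ofFn (Fin.cons i w : Fin (n + 1) → K)) = _
      rw [List.ofFn_cons]
    rw [h1, pow_succ', mul_inv, ← smul_smul]
    congr 1
    rw [smul_sum]
    exact sum_congr rfl fun i _ => ih _

theorem Av_win (L N : ℕ) (F : List K → V) :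
    Av K (L * N) F = Av (Fin L → K) N (fun τ => F (τ.map List.ofFn).flatten) := by
  induction N generalizing F with
  | zero => rfl
  | succ N ih =>
    rw [show L * (N + 1) = L + L * N by ring, Av_append, Av_ofFn, Av_succ]
    have h : (Fintype.card (Fin L → K) : ℝ) = (Fintype.card K : ℝ) ^ L := by
      rw [Fintype.card_fun, Fintype.card_fin]
      push_cast
      rfl
    rw [h]
    congr 1
    refine sum_congr rfl fun w _ => ?_
    rw [ih]
    rfl

/-- The variance of the number of occurrences of a letter. -/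
theorem Av_count [Nonempty K] [DecidableEq K] (w : K) (N : ℕ) (c : ℝ) :
    Av K N (fun τ => (c + ((τ.count w : ℕ) : ℝ) - N * (Fintype.card K : ℝ)⁻¹) ^ 2) =
      c ^ 2 + N * ((Fintype.card K : ℝ)⁻¹ - ((Fintype.card K : ℝ)⁻¹) ^ 2) := by
  have hq : (Fintype.card K : ℝ) ≠ 0 := by exact_mod_cast Fintype.card_ne_zero
  set p : ℝ := (Fintype.card K : ℝ)⁻¹ with hp
  induction N generalizing c with
  | zero =>
    rw [Av_zero]
    simp
  | succ N ih =>
    rw [Av_succ]
    have h1 : ∀ i : K, Av K N (fun l => (c + (((i :: l).count w : ℕ) : ℝ) -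
        ((N + 1 : ℕ) : ℝ) * p) ^ 2) = (c - p + (if i = w then 1 else 0)) ^ 2 + N * (p - p ^ 2) := by
      intro i
      rw [← ih]
      congr 1
      funext l
      rw [List.count_cons]
      by_cases h : i = w
      · simp only [h, beq_self_eq_true, if_true]
        push_cast
        ring
      · have h' : (i == w) = false := by simpa using h
        simp only [h', h, if_false]
        push_cast
        simp
        ring
    rw [sum_congr rfl fun i _ => h1 i]
    have h2 : ∀ i : K, (c - p + (if i = w then (1 : ℝ) else 0)) ^ 2 + N * (p - p ^ 2) =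
        ((c - p) ^ 2 + N * (p - p ^ 2)) + (if i = w then (2 * (c - p) + 1) else 0) := by
      intro i
      split_ifs <;> ring
    rw [sum_congr rfl fun i _ => h2 i, sum_add_distrib, sum_const, card_univ, nsmul_eq_mul,
      sum_ite_eq' univ w]
    simp only [mem_univ, if_true, smul_eq_mul]
    rw [mul_add, ← mul_assoc, ← hp]
    have h3 : p * (Fintype.card K : ℝ) = 1 := inv_mul_cancel₀ hq
    rw [h3]
    push_cast
    ring

theorem Av_dev [Nonempty K] [DecidableEq K] (w : K) (N : ℕ) :
    Av K N (fun τ => |((τ.count w : ℕ) : ℝ) - N * (Fintype.card K : ℝ)⁻¹|) ≤ Real.sqrt N := by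
  have hq : (0 : ℝ) < Fintype.card K := by exact_mod_cast Fintype.card_pos
  refine Av_abs K N _ (Real.sqrt_nonneg _) ?_
  rw [Real.sq_sqrt (Nat.cast_nonneg _)]
  have h := Av_count K w N 0
  simp only [zero_add] at h
  rw [h]
  have hp1 : (Fintype.card K : ℝ)⁻¹ ≤ 1 := by
    apply inv_le_one_of_one_le₀
    exact_mod_cast Fintype.card_pos
  have hN : (0 : ℝ) ≤ N := Nat.cast_nonneg _
  nlinarith [sq_nonneg ((Fintype.card K : ℝ)⁻¹)]

theorem count_sum [DecidableEq K] (τ : List K) (f : K → ℝ) :
    (τ.map f).sum = ∑ w, ((τ.count w : ℕ) : ℝ) * f w := by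
  induction τ with
  | nil => simp
  | cons i τ ih =>
    rw [List.map_cons, List.sum_cons, ih]
    have h1 : ∀ w, (((i :: τ).count w : ℕ) : ℝ) * f w =
        ((τ.count w : ℕ) : ℝ) * f w + (if i = w then f w else 0) := by
      intro w
      rw [List.count_cons]
      by_cases h : i = w
      · simp only [h, beq_self_eq_true, if_true]
        push_cast
        ring
      · have h' : (i == w) = false := by simpa using h
        simp [h', h]
    rw [sum_congr rfl fun w _ => h1 w, sum_add_distrib, sum_ite_eq univ i]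
    simp [add_comm]

end Av

/-- The walk as the product of a random word. -/
theorem Av_W {G : Type} [Group G] {ι : Type} [Fintype ι] {V : Type*} [AddCommGroup V]
    [Module ℝ V] (s : ι → G) (n : ℕ) (F : G → V) :
    Av ι n (fun l => F (pr s l)) = W s n F := by
  induction n generalizing F with
  | zero => rfl
  | succ n ih =>
    have h := Av_append ι n 1 (fun l => F (pr s l))
    rw [h]
    have h2 : (fun l : List ι => Av ι 1 (fun l' => F (pr s (l ++ l')))) =
        fun l => (fun g => (Fintype.card ι : ℝ)⁻¹ • ∑ i, F (g * s i)) (pr s l) := by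
      funext l
      rw [Av_succ]
      simp only [Av_zero]
      congr 1
      refine sum_congr rfl fun i _ => ?_
      congr 1
      simp [pr]
    rw [h2]
    exact ih (fun g => (Fintype.card ι : ℝ)⁻¹ • ∑ i, F (g * s i))

end Pool.Agent.Lib.MP_354e85_al.L2B
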