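import Pool.Agent.Lib.MP_354e85_al.L2B.Walk

/-! Increments and their representers. -/

set_option autoImplicit false

namespace Pool.Agent.Lib.MP_354e85_al.L2B

open Finset
open scoped InnerProductSpace

variable {G : Type} [Group G] {ι : Type}

theorem LL_LL (y z : G) (f : L G) : LL y (LL z f) = LL (z * y) f := by
  apply L_ext; intro x; simp [mul_assoc]

theorem lam_lam (y z : G) (ω : L (ι × G)) : lam y (lam z ω) = lam (z * y) ω := by
  apply L_ext; rintro ⟨i, x⟩; simp [mul_assoc]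

theorem lam_one (ω : L (ι × G)) : lam (1 : G) ω = ω := by
  apply L_ext; rintro ⟨i, x⟩; simp

theorem RR_RR (g h : G) (f : L G) : RR g (RR h f) = RR (g * h) f := by
  apply L_ext; intro x; simp [mul_assoc]

theorem RR_one (f : L G) : RR (1 : G) f = f := by
  apply L_ext; intro x; simp

theorem LL_one (f : L G) : LL (1 : G) f = f := by
  apply L_ext; intro x; simp

theorem RR_LL (g y : G) (f : L G) : RR g (LL y f) = LL y (RR g f) := by
  apply L_ext; intro x; simp [mul_assoc]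

theorem Tl_lam (s : ι → G) (l : List ι) (y : G) (ω : L (ι × G)) :
    Tl s l (lam y ω) = LL y (Tl s l ω) := by
  induction l with
  | nil => simp [Tl_nil]
  | cons i l ih =>
    apply L_ext
    intro x
    rw [Tl_cons, ih]
    simp only [LL_apply, lam_apply]
    rw [Tl_cons, mul_assoc]

theorem T_lam (s : ι → G) (g y : G) (ω : L (ι × G)) :
    T s g (lam y ω) = LL y (T s g ω) := by
  unfold T
  exact Tl_lam s _ y ω

theorem Tl_append (s : ι → G) (l l' : List ι) (ω : L (ι × G)) :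
    Tl s (l ++ l') ω = Tl s l ω + RR (pr s l) (Tl s l' ω) := by
  induction l with
  | nil =>
    apply L_ext; intro x
    simp [Tl_nil, pr]
  | cons i l ih =>
    apply L_ext
    intro x
    rw [List.cons_append, Tl_cons, ih]
    have e : pr s (i :: l) = s i * pr s l := by simp [pr]
    rw [e]
    change ω (i, x) + (Tl s l ω (x * s i) + Tl s l' ω (x * s i * pr s l)) =
      Tl s (i :: l) ω x + Tl s l' ω (x * (s i * pr s l))
    rw [Tl_cons, mul_assoc]
    ring

variable [Fintype ι] {s : ι → G} {Z : Submodule ℝ (L (ι × G))}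

theorem T_word (gen : ∀ g : G, ∃ l, pr s l = g) (hZ : Good s Z) (l : List ι) {ω : L (ι × G)}
    (hω : ω ∈ Z) : T s (pr s l) ω = Tl s l ω := by
  obtain ⟨l', h1, h2⟩ := T_eq gen (pr s l)
  rw [h2]
  exact hZ.path ω hω l' l h1

theorem T_one (gen : ∀ g : G, ∃ l, pr s l = g) (hZ : Good s Z) {ω : L (ι × G)}
    (hω : ω ∈ Z) : T s 1 ω = 0 := by
  have h := T_word gen hZ [] hω
  simpa [pr, Tl_nil] using h

theorem T_mul (gen : ∀ g : G, ∃ l, pr s l = g) (hZ : Good s Z) (g h : G) {ω : L (ι × G)}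
    (hω : ω ∈ Z) : T s (g * h) ω = T s g ω + RR g (T s h ω) := by
  obtain ⟨l, rfl⟩ := gen g
  obtain ⟨l', rfl⟩ := gen h
  have e : pr s l * pr s l' = pr s (l ++ l') := by simp [pr]
  rw [e, T_word gen hZ _ hω, T_word gen hZ _ hω, T_word gen hZ _ hω, Tl_append]

theorem T_gen (gen : ∀ g : G, ∃ l, pr s l = g) (hZ : Good s Z) (i : ι) {ω : L (ι × G)}
    (hω : ω ∈ Z) : T s (s i) ω = sl i ω := by
  have e : pr s [i] = s i := by simp [pr]
  rw [← e, T_word gen hZ _ hω]
  apply L_ext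
  intro x
  rw [Tl_cons]
  simp [Tl_nil]

/-- Representers of the increments at `1`. -/
structure Rep (s : ι → G) (Z : Submodule ℝ (L (ι × G))) (u : G → L (ι × G)) : Prop where
  mem : ∀ g, u g ∈ Z
  rep : ∀ ω ∈ Z, ∀ g x, T s g ω x = ⟪lam x ω, u g⟫_ℝ
  mul : ∀ g h, u (g * h) = u g + lam g⁻¹ (u h)
  sum : ∑ i, u (s i) = 0
  dm_eq : dm Z = ∑ i, ‖u (s i)‖ ^ 2

omit [Group G] in
theorem L_single [DecidableEq G] (f : L G) (x : G) : ⟪f, lp.single 2 x (1 : ℝ)⟫_ℝ = f x := by
  rw [lp.inner_single_right]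
  simp

theorem exists_rep (gen : ∀ g : G, ∃ l, pr s l = g) (hZ : Good s Z) : ∃ u, Rep s Z u := by
  classical
  have : CompleteSpace Z := hZ.closed.completeSpace_coe
  let δ : L G := lp.single 2 (1 : G) (1 : ℝ)
  let u : G → L (ι × G) := fun g => Z.starProjection (ContinuousLinearMap.adjoint (T s g) δ)
  have hmem : ∀ g, u g ∈ Z := fun g => Submodule.starProjection_apply_mem _ _
  have hproj : ∀ ω ∈ Z, ∀ v, ⟪ω, Z.starProjection v⟫_ℝ = ⟪ω, v⟫_ℝ := by
    intro ω hω v
    have h := Submodule.starProjection_inner_eq_zero (K := Z) v ω hω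
    rw [inner_sub_left, sub_eq_zero] at h
    rw [real_inner_comm, ← h, real_inner_comm]
  have h1 : ∀ ω ∈ Z, ∀ g, T s g ω 1 = ⟪ω, u g⟫_ℝ := by
    intro ω hω g
    rw [hproj ω hω, ContinuousLinearMap.adjoint_inner_right, L_single]
  have h2 : ∀ ω ∈ Z, ∀ g x, T s g ω x = ⟪lam x ω, u g⟫_ℝ := by
    intro ω hω g x
    rw [← h1 _ (hZ.inv x ω hω), T_lam]
    simp
  have huniq : ∀ a ∈ Z, ∀ b ∈ Z, (∀ ω ∈ Z, ⟪ω, a⟫_ℝ = ⟪ω, b⟫_ℝ) → a = b := by
    intro a ha b hb h
    have h3 := h (a - b) (Z.sub_mem ha hb)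
    rw [← sub_eq_zero, ← inner_sub_right] at h3
    exact sub_eq_zero.1 (inner_self_eq_zero.1 h3)
  refine ⟨u, hmem, h2, ?_, ?_, ?_⟩
  · intro g h
    refine huniq _ (hmem _) _ (Z.add_mem (hmem _) (hZ.inv _ _ (hmem _))) ?_
    intro ω hω
    rw [inner_add_right, ← h1 ω hω, T_mul gen hZ g h hω, ← h1 ω hω]
    change T s g ω 1 + T s h ω (1 * g) = _
    rw [one_mul, h2 ω hω h g]
    congr 1
    have h4 : ⟪lam g ω, lam g (lam g⁻¹ (u h))⟫_ℝ = ⟪ω, lam g⁻¹ (u h)⟫_ℝ :=
      LinearIsometry.inner_map_map _ _ _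
    rw [lam_lam, inv_mul_cancel, lam_one] at h4
    exact h4
  · refine huniq _ (Z.sum_mem fun i _ => hmem _) _ Z.zero_mem ?_
    intro ω hω
    rw [inner_sum, inner_zero_right]
    have h5 : ∀ i, ⟪ω, u (s i)⟫_ℝ = sl i ω 1 := by
      intro i
      rw [← h1 ω hω, T_gen gen hZ i hω]
    simp only [h5]
    have h6 := congrArg (fun f : L G => f 1) (hZ.harm ω hω)
    simp only [lp.coeFn_sum, Finset.sum_apply] at h6
    rw [h6]
    rfl
  · unfold dm
    have hcl : Z.topologicalClosure = Z := hZ.closed.submodule_topologicalClosure_eq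
    refine Finset.sum_congr rfl fun i _ => ?_
    have h7 : Z.topologicalClosure.starProjection (lp.single 2 ((i, 1) : ι × G) (1 : ℝ)) =
        u (s i) := by
      refine huniq _ ?_ _ (hmem _) ?_
      · have := Submodule.starProjection_apply_mem Z.topologicalClosure
          (lp.single 2 ((i, 1) : ι × G) (1 : ℝ))
        exact hcl.le this
      · intro ω hω
        rw [← h1 ω hω, T_gen gen hZ i hω]
        have h8 := Submodule.starProjection_inner_eq_zero (K := Z.topologicalClosure)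
          (lp.single 2 ((i, 1) : ι × G) (1 : ℝ)) ω (by rw [hcl]; exact hω)
        rw [inner_sub_left, sub_eq_zero] at h8
        rw [real_inner_comm, ← h8, real_inner_comm, lp.inner_single_right]
        simp
    rw [← h7]

end Pool.Agent.Lib.MP_354e85_al.L2B
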