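import Pool.Agent.Lib.MP_354e85_al.L2B.Av
import Pool.Agent.Lib.MP_354e85_al.L2B.Basic

/-! The norm of the sum of the right translations by the prefix products of a random word. -/

set_option autoImplicit false

namespace Pool.Agent.Lib.MP_354e85_al.L2B

open Finset Filter Topology
open scoped InnerProductSpace

variable {G : Type} [Group G] {ι : Type} [Fintype ι]

omit [Fintype ι] in
/-- The sum of the right translations by the proper prefix products of a word. -/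
noncomputable def Sw (s : ι → G) : List ι → (L G →L[ℝ] L G)
  | [] => 0
  | i :: l => ContinuousLinearMap.id ℝ (L G) + (RR (s i)).toContinuousLinearMap ∘L Sw s l

omit [Fintype ι] in
theorem Sw_nil (s : ι → G) (ψ : L G) : Sw s [] ψ = 0 := rfl

omit [Fintype ι] in
theorem Sw_cons (s : ι → G) (i : ι) (l : List ι) (ψ : L G) :
    Sw s (i :: l) ψ = ψ + RR (s i) (Sw s l ψ) := rfl

omit [Fintype ι] in
theorem Sw_append (s : ι → G) (l l' : List ι) (ψ : L G) :
    Sw s (l ++ l') ψ = Sw s l ψ + RR (pr s l) (Sw s l' ψ) := by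
  induction l with
  | nil =>
    rw [List.nil_append, Sw_nil, zero_add]
    have e : pr s [] = 1 := by simp [pr]
    rw [e, RR_one]
  | cons i l ih =>
    have e : pr s (i :: l) = s i * pr s l := by simp [pr]
    rw [List.cons_append, Sw_cons, ih, Sw_cons, map_add, e, RR_RR, add_assoc]

omit [Fintype ι] in
theorem Sw_le (s : ι → G) (l : List ι) (ψ : L G) : ‖Sw s l ψ‖ ≤ l.length * ‖ψ‖ := by
  induction l with
  | nil => simp [Sw_nil]
  | cons i l ih =>
    rw [Sw_cons]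
    refine (norm_add_le _ _).trans ?_
    rw [LinearIsometry.norm_map, List.length_cons]
    push_cast
    linarith

omit [Fintype ι] in
theorem Sw_flatten (s : ι → G) (τ : List (List ι)) (ψ : L G) :
    ‖Sw s τ.flatten ψ‖ ≤ (τ.map fun w => ‖Sw s w ψ‖).sum := by
  induction τ with
  | nil => simp [Sw_nil]
  | cons w τ ih =>
    rw [List.flatten_cons, Sw_append, List.map_cons, List.sum_cons]
    refine (norm_add_le _ _).trans ?_
    rw [LinearIsometry.norm_map]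
    linarith

/-- The mean of the right translations by the letters. -/
noncomputable def Rm (s : ι → G) (f : L G) : L G := (Fintype.card ι : ℝ)⁻¹ • ∑ i, RR (s i) f

/-- The linear map `Sw` as a function of the word, evaluated at `ψ`. -/
private noncomputable def mSw (s : ι → G) (ψ : L G) (n : ℕ) : L G := Av ι n (fun l => Sw s l ψ)

private noncomputable def RmL (s : ι → G) : L G →ₗ[ℝ] L G where
  toFun := Rm s
  map_add' f g := by
    unfold Rm
    simp only [map_add, sum_add_distrib, smul_add]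
  map_smul' c f := by
    unfold Rm
    simp only [map_smul, RingHom.id_apply]
    rw [← smul_sum, smul_comm]

private theorem mSw_succ [Nonempty ι] (s : ι → G) (ψ : L G) (n : ℕ) :
    mSw s ψ (n + 1) = ψ + Rm s (mSw s ψ n) := by
  have hq : (Fintype.card ι : ℝ) ≠ 0 := by exact_mod_cast Fintype.card_ne_zero
  unfold mSw
  rw [Av_succ]
  have h1 : ∀ i, Av ι n (fun l => Sw s (i :: l) ψ) = ψ + RR (s i) (Av ι n (fun l => Sw s l ψ)) := by
    intro i
    have h2 := Av_map ι n (RR (s i)).toLinearMap (fun l => Sw s l ψ)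
    change RR (s i) (Av ι n (fun l => Sw s l ψ)) = Av ι n (fun l => RR (s i) (Sw s l ψ)) at h2
    rw [h2]
    have h3 := Av_add ι n (fun _ => ψ) (fun l => RR (s i) (Sw s l ψ))
    rw [Av_const] at h3
    exact h3
  rw [sum_congr rfl fun i _ => h1 i, sum_add_distrib, smul_add, sum_const, card_univ,
    ← Nat.cast_smul_eq_nsmul ℝ, smul_smul, inv_mul_cancel₀ hq, one_smul]
  rfl

private theorem mSw_le [Nonempty ι] (s : ι → G) {r : ℝ} (hr0 : 0 ≤ r) (hr : r < 1)
    (hR : ∀ f : L G, ‖Rm s f‖ ≤ r * ‖f‖) (ψ : L G) (n : ℕ) :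
    ‖mSw s ψ n‖ ≤ (1 - r)⁻¹ * ‖ψ‖ := by
  have h0 : 0 < 1 - r := by linarith
  induction n with
  | zero =>
    unfold mSw
    rw [Av_zero, Sw_nil, norm_zero]
    positivity
  | succ n ih =>
    rw [mSw_succ]
    refine (norm_add_le _ _).trans ?_
    have h1 := hR (mSw s ψ n)
    have h2 := mul_le_mul_of_nonneg_left ih hr0
    have h3 : ‖ψ‖ + r * ((1 - r)⁻¹ * ‖ψ‖) = (1 - r)⁻¹ * ‖ψ‖ := by
      field_simp
      ring
    linarith

/-- The second moment of `‖Sw s l ψ‖`. -/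
theorem Sw_sq [Nonempty ι] (s : ι → G) {r : ℝ} (hr0 : 0 ≤ r) (hr : r < 1)
    (hR : ∀ f : L G, ‖Rm s f‖ ≤ r * ‖f‖) (ψ : L G) (n : ℕ) :
    Av ι n (fun l => ‖Sw s l ψ‖ ^ 2) ≤ n * (1 + 2 * (1 - r)⁻¹) * ‖ψ‖ ^ 2 := by
  have h0 : 0 < 1 - r := by linarith
  have hq : (Fintype.card ι : ℝ) ≠ 0 := by exact_mod_cast Fintype.card_ne_zero
  induction n with
  | zero =>
    rw [Av_zero, Sw_nil, norm_zero]
    simp
  | succ n ih =>
    rw [Av_succ]
    have h1 : ∀ i, Av ι n (fun l => ‖Sw s (i :: l) ψ‖ ^ 2) =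
        ‖ψ‖ ^ 2 + 2 * ⟪ψ, RR (s i) (mSw s ψ n)⟫_ℝ + Av ι n (fun l => ‖Sw s l ψ‖ ^ 2) := by
      intro i
      have e1 : (fun l : List ι => ‖Sw s (i :: l) ψ‖ ^ 2) = fun l =>
          (‖ψ‖ ^ 2 + 2 * ⟪ψ, RR (s i) (Sw s l ψ)⟫_ℝ) + ‖Sw s l ψ‖ ^ 2 := by
        funext l
        rw [Sw_cons, norm_add_sq_real, LinearIsometry.norm_map]
      rw [e1, Av_add, Av_add, Av_const, Av_mul]
      have h2 := Av_map ι n ((innerSL ℝ ψ).toLinearMap ∘ₗ (RR (s i)).toLinearMap)
        (fun l => Sw s l ψ)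
      simp only [LinearMap.coe_comp, Function.comp_apply, ContinuousLinearMap.coe_coe,
        innerSL_apply_apply] at h2
      change ⟪ψ, RR (s i) (mSw s ψ n)⟫_ℝ = Av ι n (fun l => ⟪ψ, RR (s i) (Sw s l ψ)⟫_ℝ) at h2
      rw [h2]
    rw [sum_congr rfl fun i _ => h1 i, sum_add_distrib, sum_add_distrib, sum_const, sum_const,
      card_univ, nsmul_eq_mul, nsmul_eq_mul, ← mul_sum, ← inner_sum, smul_eq_mul]
    have h3 : (Fintype.card ι : ℝ)⁻¹ * ((Fintype.card ι : ℝ) * ‖ψ‖ ^ 2 +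
        2 * ⟪ψ, ∑ i, RR (s i) (mSw s ψ n)⟫_ℝ + (Fintype.card ι : ℝ) *
          Av ι n (fun l => ‖Sw s l ψ‖ ^ 2)) = ‖ψ‖ ^ 2 + 2 * ⟪ψ, Rm s (mSw s ψ n)⟫_ℝ +
        Av ι n (fun l => ‖Sw s l ψ‖ ^ 2) := by
      unfold Rm
      rw [inner_smul_right]
      field_simp
    rw [h3]
    have h4 : ⟪ψ, Rm s (mSw s ψ n)⟫_ℝ ≤ (1 - r)⁻¹ * ‖ψ‖ ^ 2 := by
      refine (real_inner_le_norm _ _).trans ?_
      have h5 := hR (mSw s ψ n)
      have h6 := mSw_le s hr0 hr hR ψ n
      have h7 : ‖Rm s (mSw s ψ n)‖ ≤ (1 - r)⁻¹ * ‖ψ‖ := by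
        have h8 : r * ‖mSw s ψ n‖ ≤ 1 * ‖mSw s ψ n‖ :=
          mul_le_mul_of_nonneg_right hr.le (norm_nonneg _)
        linarith
      nlinarith [norm_nonneg ψ, mul_le_mul_of_nonneg_left h7 (norm_nonneg ψ)]
    push_cast
    nlinarith [sq_nonneg ‖ψ‖]

/-- The bound of `‖Sw‖` on a word cut into windows. -/
private theorem Sw_win [Nonempty ι] [DecidableEq ι] (s : ι → G) {r : ℝ} (hr0 : 0 ≤ r) (hr : r < 1)
    (hR : ∀ f : L G, ‖Rm s f‖ ≤ r * ‖f‖) (l N : ℕ) (τ : List (Fin l → ι)) :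
    ‖Sw s (τ.map List.ofFn).flatten‖ ≤
      N * Real.sqrt (l * (1 + 2 * (1 - r)⁻¹)) + l * ∑ w : Fin l → ι,
        |((τ.count w : ℕ) : ℝ) - N * (Fintype.card (Fin l → ι) : ℝ)⁻¹| := by
  have h0 : 0 < 1 - r := by linarith
  have hcard : (Fintype.card (Fin l → ι) : ℝ) = (Fintype.card ι : ℝ) ^ l := by
    rw [Fintype.card_fun, Fintype.card_fin]
    push_cast
    rfl
  have hC : 0 ≤ (l : ℝ) * (1 + 2 * (1 - r)⁻¹) := by positivity
  refine ContinuousLinearMap.opNorm_le_bound _ (by positivity) fun ψ => ?_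
  refine (Sw_flatten s _ ψ).trans ?_
  rw [List.map_map]
  change (τ.map fun w => ‖Sw s (List.ofFn w) ψ‖).sum ≤ _
  rw [count_sum]
  set p : ℝ := (Fintype.card (Fin l → ι) : ℝ)⁻¹ with hp
  have hp0 : 0 ≤ p := by positivity
  have h1 : ∀ w : Fin l → ι, ((τ.count w : ℕ) : ℝ) * ‖Sw s (List.ofFn w) ψ‖ ≤
      N * (p * ‖Sw s (List.ofFn w) ψ‖) + (l * |((τ.count w : ℕ) : ℝ) - N * p|) * ‖ψ‖ := by
    intro w
    have h2 := Sw_le s (List.ofFn w) ψ
    rw [List.length_ofFn] at h2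
    have h3 : (((τ.count w : ℕ) : ℝ) - N * p) * ‖Sw s (List.ofFn w) ψ‖ ≤
        |((τ.count w : ℕ) : ℝ) - N * p| * (l * ‖ψ‖) :=
      (mul_le_mul_of_nonneg_right (le_abs_self _) (norm_nonneg _)).trans
        (mul_le_mul_of_nonneg_left h2 (abs_nonneg _))
    nlinarith
  refine (sum_le_sum fun w _ => h1 w).trans ?_
  rw [sum_add_distrib, ← mul_sum, ← sum_mul, ← mul_sum, ← mul_sum, add_mul]
  have h4 : p * ∑ w : Fin l → ι, ‖Sw s (List.ofFn w) ψ‖ ≤
      Real.sqrt (l * (1 + 2 * (1 - r)⁻¹)) * ‖ψ‖ := by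
    have h5 : p * ∑ w : Fin l → ι, ‖Sw s (List.ofFn w) ψ‖ = Av ι l (fun v => ‖Sw s v ψ‖) := by
      rw [Av_ofFn, smul_eq_mul, hp, hcard]
    rw [h5]
    have h6 := Av_sq ι l (fun v => ‖Sw s v ψ‖)
    have h7 := Sw_sq s hr0 hr hR ψ l
    have h8 : (Av ι l (fun v => ‖Sw s v ψ‖)) ^ 2 ≤
        (Real.sqrt (l * (1 + 2 * (1 - r)⁻¹)) * ‖ψ‖) ^ 2 := by
      rw [mul_pow, Real.sq_sqrt hC]
      exact h6.trans h7
    exact le_of_sq_le_sq h8 (by positivity)
  have h9 : (N : ℝ) * (p * ∑ w : Fin l → ι, ‖Sw s (List.ofFn w) ψ‖) ≤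
      N * Real.sqrt (l * (1 + 2 * (1 - r)⁻¹)) * ‖ψ‖ := by
    rw [mul_assoc]
    exact mul_le_mul_of_nonneg_left h4 (Nat.cast_nonneg _)
  linarith

/-- The averaging lemma: for a random word of length `n` the norm of the sum of the right
translations by the prefix products is `o(n)`. -/
theorem avg [Nonempty ι] (s : ι → G) {r : ℝ} (hr0 : 0 ≤ r) (hr : r < 1)
    (hR : ∀ f : L G, ‖Rm s f‖ ≤ r * ‖f‖) {ε : ℝ} (hε : 0 < ε) :
    ∃ n0 : ℕ, ∀ n, n0 ≤ n → Av ι n (fun v => ‖Sw s v‖) ≤ ε * n := by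
  classical
  have h0 : 0 < 1 - r := by linarith
  set C : ℝ := 1 + 2 * (1 - r)⁻¹ with hC
  have hC0 : 0 < C := by positivity
  -- choice of the length of the windows
  obtain ⟨l, hl⟩ := exists_nat_gt (16 * C / ε ^ 2 + 1)
  have hl1 : (1 : ℝ) < l := by
    have : 0 ≤ 16 * C / ε ^ 2 := by positivity
    linarith
  have hl0 : (0 : ℝ) < l := by linarith
  have hlC : 16 * C ≤ l * ε ^ 2 := by
    have h1 : 16 * C / ε ^ 2 < l := by linarith
    rw [div_lt_iff₀ (by positivity)] at h1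
    exact h1.le
  have hsq : Real.sqrt (l * C) ≤ l * ε / 4 := by
    rw [Real.sqrt_le_left (by positivity)]
    nlinarith
  set k : ℝ := (Fintype.card (Fin l → ι) : ℝ) with hk
  have hk0 : 0 ≤ k := Nat.cast_nonneg _
  have hlk0 : 0 ≤ (l : ℝ) * k := by positivity
  obtain ⟨n1, hn1⟩ := exists_nat_gt (16 * (l * k) ^ 2 / ε ^ 2 + 4 * l / ε + 1)
  refine ⟨n1, fun n hn => ?_⟩
  have hn' : 16 * (l * k) ^ 2 / ε ^ 2 + 4 * l / ε + 1 < (n : ℝ) :=
    hn1.trans_le (by exact_mod_cast hn)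
  have hA : 0 ≤ 16 * (l * k) ^ 2 / ε ^ 2 := by positivity
  have hB : 0 ≤ 4 * (l : ℝ) / ε := by positivity
  have hn0 : (0 : ℝ) < n := by linarith
  have hnat : 0 < l := by
    rcases Nat.eq_zero_or_pos l with h | h
    · rw [h] at hl0
      simp at hl0
    · exact h
  set N := n / l with hN
  have hsplit : n = l * N + n % l := (Nat.div_add_mod n l).symm
  have hrem : n % l < l := Nat.mod_lt _ hnat
  rw [hsplit, Av_append]
  have h1 : Av ι (l * N) (fun v => Av ι (n % l) (fun v' => ‖Sw s (v ++ v')‖)) ≤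
      Av ι (l * N) (fun v => ‖Sw s v‖ + l) := by
    refine Av_mono ι _ fun v _ => ?_
    have h2 : Av ι (n % l) (fun v' => ‖Sw s (v ++ v')‖) ≤
        Av ι (n % l) (fun _ => ‖Sw s v‖ + l) := by
      refine Av_mono ι _ fun v' hv' => ?_
      refine ContinuousLinearMap.opNorm_le_bound _ (by positivity) fun ψ => ?_
      rw [Sw_append]
      refine (norm_add_le _ _).trans ?_
      rw [LinearIsometry.norm_map, add_mul]
      have h3 := (Sw s v).le_opNorm ψ
      have h4 := Sw_le s v' ψ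
      have h5 : ((v'.length : ℕ) : ℝ) * ‖ψ‖ ≤ l * ‖ψ‖ := by
        refine mul_le_mul_of_nonneg_right ?_ (norm_nonneg _)
        rw [hv']
        exact_mod_cast hrem.le
      linarith
    rwa [Av_const] at h2
  refine h1.trans ?_
  rw [Av_add, Av_const, Av_win]
  have h6 : Av (Fin l → ι) N (fun τ => ‖Sw s (τ.map List.ofFn).flatten‖) ≤
      N * Real.sqrt (l * C) + l * (k * Real.sqrt N) := by
    refine (Av_mono (Fin l → ι) N fun τ _ => Sw_win s hr0 hr hR l N τ).trans ?_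
    rw [Av_add, Av_const, Av_mul, Av_sum]
    refine add_le_add le_rfl (mul_le_mul_of_nonneg_left ?_ hl0.le)
    refine (sum_le_sum fun w _ => Av_dev (Fin l → ι) w N).trans ?_
    rw [sum_const, card_univ, nsmul_eq_mul]
  have h7 : (l : ℝ) * N ≤ n := by
    have : l * N ≤ n := Nat.mul_div_le n l
    exact_mod_cast this
  have hN0 : (0 : ℝ) ≤ N := Nat.cast_nonneg _
  have h8 : (N : ℝ) * Real.sqrt (l * C) ≤ ε / 4 * n := by
    have h9 := mul_le_mul_of_nonneg_left hsq hN0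
    nlinarith
  have h9 : Real.sqrt N ≤ Real.sqrt n := by
    apply Real.sqrt_le_sqrt
    exact_mod_cast Nat.div_le_self n l
  have h10 : (l : ℝ) * (k * Real.sqrt N) ≤ ε / 4 * n := by
    have h11 : (l * k) * Real.sqrt n ≤ ε / 4 * n := by
      have h12 : (l : ℝ) * k ≤ ε / 4 * Real.sqrt n := by
        have h13 : ((l : ℝ) * k) ^ 2 ≤ (ε / 4 * Real.sqrt n) ^ 2 := by
          rw [mul_pow (ε / 4), Real.sq_sqrt hn0.le]
          have h14 : 16 * ((l : ℝ) * k) ^ 2 / ε ^ 2 ≤ n := by linarith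
          rw [div_le_iff₀ (by positivity)] at h14
          nlinarith
        exact le_of_sq_le_sq h13 (by positivity)
      have h15 := mul_le_mul_of_nonneg_right h12 (Real.sqrt_nonneg (n : ℝ))
      have h16 : Real.sqrt n * Real.sqrt n = n := Real.mul_self_sqrt hn0.le
      nlinarith
    have h17 := mul_le_mul_of_nonneg_left h9 hlk0
    nlinarith
  have h11 : (l : ℝ) ≤ ε / 4 * n := by
    have h12 : 4 * (l : ℝ) / ε ≤ n := by linarith
    rw [div_le_iff₀ hε] at h12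
    linarith
  rw [← hsplit]
  have h18 : 0 ≤ ε * (n : ℝ) := by positivity
  linarith

end Pool.Agent.Lib.MP_354e85_al.L2B
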