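import Pool.Agent.Lib.MP_354e85_al.L2B.Gap

/-! The mean of the right translations by the generators of a non-amenable group has norm less
than one. -/

set_option autoImplicit false

namespace Pool.Agent.Lib.MP_354e85_al.L2B

open Finset
open scoped InnerProductSpace

variable {G : Type} [Group G] {ι : Type}

/-- absolute value -/
private noncomputable def ab (h : L G) : L G :=
  ⟨fun x => |h x|, L_mem (by simpa only [sq_abs] using (L_hasSum h).summable)⟩

omit [Group G] in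
private theorem ab_apply (h : L G) (x : G) : ab h x = |h x| := rfl

omit [Group G] in
private theorem ab_norm (h : L G) : ‖ab h‖ ^ 2 = ‖h‖ ^ 2 := by
  have h1 := L_hasSum (ab h)
  have h2 := L_hasSum h
  simp only [ab_apply, sq_abs] at h1
  exact h1.unique h2

private theorem ab_inner (g : G) (h : L G) : |⟪RR g h, h⟫_ℝ| ≤ ⟪RR g (ab h), ab h⟫_ℝ := by
  have h1 := L_inner (RR g h) h
  have h2 := L_inner (RR g (ab h)) (ab h)
  have e : ∀ x, |RR g h x * h x| = RR g (ab h) x * ab h x := by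
    intro x
    rw [abs_mul]
    rfl
  rw [abs_le]
  constructor
  · rw [neg_le]
    refine hasSum_le (fun x => ?_) h1.neg h2
    rw [← e]
    exact neg_le_abs _
  · refine hasSum_le (fun x => ?_) h1 h2
    rw [← e]
    exact le_abs_self _

private theorem RR_adj (g : G) (f h : L G) : ⟪RR g f, h⟫_ℝ = ⟪f, RR g⁻¹ h⟫_ℝ := by
  have e : h = RR g (RR g⁻¹ h) := by rw [RR_RR, mul_inv_cancel, RR_one]
  conv_lhs => rw [e]
  exact LinearIsometry.inner_map_map _ _ _

private theorem word_le (s : ι → G) (l : List ι) (h : L G) {M : ℝ}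
    (hM : ∀ i, ‖RR (s i) h - h‖ ≤ M) : ‖RR (pr s l) h - h‖ ≤ l.length * M := by
  induction l with
  | nil => simp [pr, RR_one]
  | cons i l ih =>
    have e : pr s (i :: l) = s i * pr s l := by simp [pr]
    have e2 : RR (s i * pr s l) h - h = RR (s i) (RR (pr s l) h - h) + (RR (s i) h - h) := by
      rw [map_sub, RR_RR]
      abel
    rw [e, e2]
    refine (norm_add_le _ _).trans ?_
    rw [LinearIsometry.norm_map]
    have h1 := hM i
    push_cast [List.length_cons]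
    linarith

variable [Fintype ι]

/-- The mean of the right translations by the generators has norm `r < 1`. -/
theorem cgap [Nonempty ι] (s : ι → G) (gen : ∀ g : G, ∃ l, pr s l = g) (σ : ι → ι)
    (hσ : Function.Involutive σ) (hs : ∀ i, s (σ i) = (s i)⁻¹) {k : ℕ} (hT : TarskiLE G k) :
    ∃ r : ℝ, 0 ≤ r ∧ r < 1 ∧ ∀ f : L G,
      ‖∑ i, RR (s i) f‖ ≤ r * Fintype.card ι * ‖f‖ := by
  classical
  obtain ⟨m, a, ha⟩ := gap hT
  choose w hw using fun j : Fin m => gen (a j)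
  have hq : (1 : ℝ) ≤ Fintype.card ι := by
    have : 0 < Fintype.card ι := Fintype.card_pos
    exact_mod_cast this
  obtain ⟨q, hqd⟩ : ∃ q : ℝ, q = Fintype.card ι := ⟨_, rfl⟩
  rw [← hqd] at hq
  obtain ⟨C, hC⟩ : ∃ C : ℝ, C = 1 + 12 * ∑ j : Fin m, ((w j).length : ℝ) ^ 2 := ⟨_, rfl⟩
  have hC1 : 1 ≤ C := by
    rw [hC]
    have : 0 ≤ ∑ j : Fin m, ((w j).length : ℝ) ^ 2 := Finset.sum_nonneg fun _ _ => sq_nonneg _
    linarith
  -- spectral gap for the generators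
  have hgap : ∀ h : L G, ‖h‖ ^ 2 ≤ C * ∑ i, ‖RR (s i) h - h‖ ^ 2 := by
    intro h
    set S : ℝ := ∑ i, ‖RR (s i) h - h‖ ^ 2 with hS
    have hS0 : 0 ≤ S := Finset.sum_nonneg fun _ _ => sq_nonneg _
    have hM : ∀ i, ‖RR (s i) h - h‖ ≤ Real.sqrt S := by
      intro i
      refine Real.le_sqrt_of_sq_le ?_
      exact Finset.single_le_sum (f := fun i => ‖RR (s i) h - h‖ ^ 2)
        (fun i _ => sq_nonneg _) (Finset.mem_univ i)
    have h1 : ∀ j : Fin m, ‖RR (a j) h - h‖ ^ 2 ≤ ((w j).length : ℝ) ^ 2 * S := by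
      intro j
      have h2 := word_le s (w j) h hM
      rw [hw] at h2
      have h3 : ‖RR (a j) h - h‖ ^ 2 ≤ ((w j).length * Real.sqrt S) ^ 2 := by gcongr
      rwa [mul_pow, Real.sq_sqrt hS0] at h3
    calc ‖h‖ ^ 2 ≤ 12 * ∑ j, ‖RR (a j) h - h‖ ^ 2 := ha h
      _ ≤ 12 * ∑ j, ((w j).length : ℝ) ^ 2 * S := by
          gcongr with j _
          exact h1 j
      _ = (12 * ∑ j : Fin m, ((w j).length : ℝ) ^ 2) * S := by
          rw [← Finset.sum_mul]
          ring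
      _ ≤ C * S := by
          rw [hC]
          nlinarith
  have hexp : ∀ h : L G, ∑ i, ‖RR (s i) h - h‖ ^ 2 = 2 * q * ‖h‖ ^ 2 -
      2 * ⟪∑ i, RR (s i) h, h⟫_ℝ := by
    intro h
    have h1 : ∀ i, ‖RR (s i) h - h‖ ^ 2 = 2 * ‖h‖ ^ 2 - 2 * ⟪RR (s i) h, h⟫_ℝ := by
      intro i
      rw [norm_sub_sq_real, LinearIsometry.norm_map]
      ring
    rw [Finset.sum_congr rfl fun i _ => h1 i, Finset.sum_sub_distrib, sum_inner, Finset.mul_sum]
    simp only [Finset.sum_const, Finset.card_univ, nsmul_eq_mul]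
    rw [hqd]
    ring
  obtain ⟨r, hr⟩ : ∃ r : ℝ, r = 1 - 1 / (2 * q * C) := ⟨_, rfl⟩
  have hqC : 1 ≤ q * C := by nlinarith
  have hr0 : 0 ≤ r := by
    rw [hr, sub_nonneg, div_le_one (by nlinarith)]
    nlinarith
  have hr1 : r < 1 := by
    rw [hr]
    have : 0 < 1 / (2 * q * C) := by
      apply div_pos one_pos
      nlinarith
    linarith
  have hrq : r * q = q - 1 / (2 * C) := by
    rw [hr]
    have : q ≠ 0 := by linarith
    have : C ≠ 0 := by linarith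
    field_simp
  have hup : ∀ h : L G, ⟪∑ i, RR (s i) h, h⟫_ℝ ≤ r * q * ‖h‖ ^ 2 := by
    intro h
    have h1 := hgap h
    rw [hexp] at h1
    have h2 : ‖h‖ ^ 2 / C ≤ 2 * q * ‖h‖ ^ 2 - 2 * ⟪∑ i, RR (s i) h, h⟫_ℝ := by
      rw [div_le_iff₀ (by linarith)]
      linarith
    rw [hrq]
    have h3 : 1 / (2 * C) * ‖h‖ ^ 2 = ‖h‖ ^ 2 / C / 2 := by
      field_simp
    rw [sub_mul, h3]
    linarith
  have habs : ∀ h : L G, |⟪∑ i, RR (s i) h, h⟫_ℝ| ≤ r * q * ‖h‖ ^ 2 := by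
    intro h
    rw [← ab_norm h]
    refine le_trans ?_ (hup (ab h))
    rw [sum_inner, sum_inner]
    refine (Finset.abs_sum_le_sum_abs _ _).trans ?_
    exact Finset.sum_le_sum fun i _ => ab_inner (s i) h
  have hsym : ∀ f h : L G, ⟪∑ i, RR (s i) f, h⟫_ℝ = ⟪f, ∑ i, RR (s i) h⟫_ℝ := by
    intro f h
    rw [sum_inner, inner_sum]
    have h1 : ∀ i, ⟪RR (s i) f, h⟫_ℝ = ⟪f, RR (s (σ i)) h⟫_ℝ := by
      intro i
      rw [hs]
      exact RR_adj _ _ _
    rw [Finset.sum_congr rfl fun i _ => h1 i]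
    exact Equiv.sum_comp (hσ.toPerm σ) (fun i => ⟪f, RR (s i) h⟫_ℝ)
  refine ⟨r, hr0, hr1, fun f => ?_⟩
  rw [← hqd]
  obtain ⟨F, hF⟩ : ∃ F : L G, F = ∑ i, RR (s i) f := ⟨_, rfl⟩
  rw [← hF]
  rcases (norm_nonneg F).eq_or_lt with h0 | h0
  · rw [← h0]
    have := norm_nonneg f
    have : 0 ≤ r * q := by nlinarith
    positivity
  -- polarisation
  have hpol : ∀ h : L G, 2 * ⟪F, h⟫_ℝ ≤ r * q * (‖f‖ ^ 2 + ‖h‖ ^ 2) := by
    intro h
    have h1 := (abs_le.1 (habs (f + h))).2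
    have h2 := (abs_le.1 (habs (f - h))).1
    have e1 : ∑ i, RR (s i) (f + h) = F + ∑ i, RR (s i) h := by
      rw [hF, ← Finset.sum_add_distrib]
      exact Finset.sum_congr rfl fun i _ => map_add _ _ _
    have e2 : ∑ i, RR (s i) (f - h) = F - ∑ i, RR (s i) h := by
      rw [hF, ← Finset.sum_sub_distrib]
      exact Finset.sum_congr rfl fun i _ => map_sub _ _ _
    rw [e1] at h1
    rw [e2] at h2
    have h3 : ⟪∑ i, RR (s i) h, f⟫_ℝ = ⟪F, h⟫_ℝ := by
      rw [hsym, hF, real_inner_comm]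
    have h4 := parallelogram_law_with_norm ℝ f h
    simp only [inner_add_left, inner_add_right, inner_sub_left, inner_sub_right] at h1 h2
    rw [h3] at h1 h2
    have h5 : r * q * ‖f + h‖ ^ 2 + r * q * ‖f - h‖ ^ 2 = r * q * (2 * (‖f‖ ^ 2 + ‖h‖ ^ 2)) := by
      rw [← mul_add, h4]
    linarith
  have hf0 : f ≠ 0 := by
    rintro rfl
    apply h0.ne'
    rw [hF]
    simp
  have hfn : 0 < ‖f‖ := norm_pos_iff.2 hf0
  have h5 := hpol ((‖f‖ / ‖F‖) • F)
  rw [inner_smul_right, real_inner_self_eq_norm_sq, norm_smul, Real.norm_of_nonneg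
    (div_nonneg hfn.le h0.le)] at h5
  have h6 : ‖f‖ / ‖F‖ * ‖F‖ ^ 2 = ‖f‖ * ‖F‖ := by
    field_simp
  have h7 : ‖f‖ / ‖F‖ * ‖F‖ = ‖f‖ := by
    field_simp
  rw [h6, h7] at h5
  have h8 : ‖f‖ * ‖F‖ ≤ ‖f‖ * (r * q * ‖f‖) := by nlinarith
  exact le_of_mul_le_mul_left h8 hfn

end Pool.Agent.Lib.MP_354e85_al.L2B
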