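import Pool.Agent.Lib.MP_354e85_al.L2B.Basic

/-! Bounds for the norm of the convolution by a function, in the form with finite sets. -/

set_option autoImplicit false

namespace Pool.Agent.Lib.MP_354e85_al.L2B

open Finset
open scoped InnerProductSpace

variable {G : Type} [Group G]

/-- The convolution by `φ` has norm at most `k` on the indicator functions of finite sets. -/
def CN (φ : G → ℝ) (k : ℝ) : Prop :=
  0 ≤ k ∧ ∀ A B : Finset G, ∑ x ∈ A, ∑ y ∈ B, φ (x⁻¹ * y) ≤ k * Real.sqrt (A.card * B.card)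

theorem CN_mono {φ φ' : G → ℝ} {k k' : ℝ} (h : CN φ k) (hφ : ∀ z, φ' z ≤ φ z) (hk : k ≤ k') :
    CN φ' k' := by
  refine ⟨h.1.trans hk, fun A B => ?_⟩
  refine (sum_le_sum fun x _ => sum_le_sum fun y _ => hφ _).trans ((h.2 A B).trans ?_)
  exact mul_le_mul_of_nonneg_right hk (Real.sqrt_nonneg _)

theorem CN_zero : CN (fun _ : G => (0 : ℝ)) 0 := by
  refine ⟨le_rfl, fun A B => ?_⟩
  simp

theorem CN_add {φ φ' : G → ℝ} {k k' : ℝ} (h : CN φ k) (h' : CN φ' k') :
    CN (fun z => φ z + φ' z) (k + k') := by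
  refine ⟨add_nonneg h.1 h'.1, fun A B => ?_⟩
  simp only [sum_add_distrib]
  rw [add_mul]
  exact add_le_add (h.2 A B) (h'.2 A B)

theorem CN_smul {φ : G → ℝ} {k : ℝ} (h : CN φ k) {c : ℝ} (hc : 0 ≤ c) :
    CN (fun z => c * φ z) (c * k) := by
  refine ⟨mul_nonneg hc h.1, fun A B => ?_⟩
  simp only [← mul_sum]
  rw [mul_assoc]
  exact mul_le_mul_of_nonneg_left (h.2 A B) hc

theorem CN_sum {κ : Type*} (S : Finset κ) {φ : κ → G → ℝ} {k : κ → ℝ}
    (h : ∀ i ∈ S, CN (φ i) (k i)) : CN (fun z => ∑ i ∈ S, φ i z) (∑ i ∈ S, k i) := by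
  classical
  induction S using Finset.induction_on with
  | empty => simpa using CN_zero (G := G)
  | insert a S ha ih =>
    have h1 := CN_add (h a (mem_insert_self _ _)) (ih fun i hi => h i (mem_insert_of_mem hi))
    rw [sum_insert ha]
    refine CN_mono h1 (fun z => ?_) le_rfl
    rw [sum_insert ha]

/-- Invariance under translations on both sides. -/
theorem CN_translate {φ : G → ℝ} {k : ℝ} (h : CN φ k) (a b : G) :
    CN (fun z => φ (a * z * b)) k := by
  classical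
  refine ⟨h.1, fun A B => ?_⟩
  have h1 := h.2 (A.map (Equiv.mulRight a⁻¹).toEmbedding) (B.map (Equiv.mulRight b).toEmbedding)
  rw [sum_map, card_map, card_map] at h1
  refine le_trans (le_of_eq ?_) h1
  refine sum_congr rfl fun x _ => ?_
  rw [sum_map]
  refine sum_congr rfl fun y _ => ?_
  simp only [Equiv.coe_toEmbedding, Equiv.coe_mulRight]
  group

/-- A summable function `φ ≥ 0`. -/
theorem CN_l1 {φ : G → ℝ} {m : ℝ} (h0 : ∀ z, 0 ≤ φ z) (h : HasSum φ m) : CN φ m := by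
  classical
  have hm : 0 ≤ m := h.nonneg h0
  refine ⟨hm, fun A B => ?_⟩
  have h1 : ∀ x : G, ∑ y ∈ B, φ (x⁻¹ * y) ≤ m := by
    intro x
    have h2 := sum_le_hasSum (B.map (Equiv.mulLeft x⁻¹).toEmbedding) (fun z _ => h0 z) h
    rw [sum_map] at h2
    exact h2
  have h2 : ∀ y : G, ∑ x ∈ A, φ (x⁻¹ * y) ≤ m := by
    intro y
    have h2 := sum_le_hasSum (A.map ((Equiv.inv G).trans (Equiv.mulRight y)).toEmbedding)
      (fun z _ => h0 z) h
    rw [sum_map] at h2
    exact h2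
  have h3 : ∑ x ∈ A, ∑ y ∈ B, φ (x⁻¹ * y) ≤ A.card * m := by
    refine (sum_le_sum fun x _ => h1 x).trans ?_
    rw [sum_const, nsmul_eq_mul]
  have h4 : ∑ x ∈ A, ∑ y ∈ B, φ (x⁻¹ * y) ≤ B.card * m := by
    rw [sum_comm]
    refine (sum_le_sum fun y _ => h2 y).trans ?_
    rw [sum_const, nsmul_eq_mul]
  have hA : (0 : ℝ) ≤ A.card := Nat.cast_nonneg _
  have hB : (0 : ℝ) ≤ B.card := Nat.cast_nonneg _
  rcases le_total (A.card : ℝ) (B.card : ℝ) with hAB | hAB
  · have h5 : (A.card : ℝ) ≤ Real.sqrt (A.card * B.card) := by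
      apply Real.le_sqrt_of_sq_le
      nlinarith
    calc _ ≤ (A.card : ℝ) * m := h3
      _ = m * A.card := by ring
      _ ≤ _ := mul_le_mul_of_nonneg_left h5 hm
  · have h5 : (B.card : ℝ) ≤ Real.sqrt (A.card * B.card) := by
      apply Real.le_sqrt_of_sq_le
      nlinarith
    calc _ ≤ (B.card : ℝ) * m := h4
      _ = m * B.card := by ring
      _ ≤ _ := mul_le_mul_of_nonneg_left h5 hm

/-- The square of a sum. -/
theorem CN_sq_sum {κ : Type*} (S : Finset κ) {φ : κ → G → ℝ} {k : κ → ℝ}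
    (h : ∀ i ∈ S, CN (fun z => φ i z ^ 2) (k i)) :
    CN (fun z => (∑ i ∈ S, φ i z) ^ 2) (S.card * ∑ i ∈ S, k i) := by
  refine CN_mono (CN_smul (CN_sum S h) (Nat.cast_nonneg S.card)) (fun z => ?_) le_rfl
  exact sq_sum_le_card_mul_sum_sq

theorem CN_sq_add {φ φ' : G → ℝ} {k k' : ℝ} (h : CN (fun z => φ z ^ 2) k)
    (h' : CN (fun z => φ' z ^ 2) k') : CN (fun z => (φ z + φ' z) ^ 2) (2 * (k + k')) := by
  refine CN_mono (CN_smul (CN_add h h') zero_le_two) (fun z => ?_) le_rfl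
  nlinarith [sq_nonneg (φ z - φ' z)]

/-- The square of a square summable function. -/
theorem CN_L (f : L G) : CN (fun z => (f z : ℝ) ^ 2) (‖f‖ ^ 2) :=
  CN_l1 (fun _ => sq_nonneg _) (L_hasSum f)

end Pool.Agent.Lib.MP_354e85_al.L2B
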