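import Mathlib

/-! Square summable functions, translations, increments along words. -/

set_option autoImplicit false

namespace Pool.Agent.Lib.MP_354e85_al.L2B

open Finset
open scoped InnerProductSpace

/-- Real square summable functions. -/
abbrev L (α : Type) : Type := lp (fun _ : α => ℝ) 2

theorem L_hasSum {α : Type} (f : L α) : HasSum (fun a => (f a) ^ 2) (‖f‖ ^ 2) := by
  have h := lp.hasSum_norm (p := 2) (by norm_num) f
  simp only [ENNReal.toReal_ofNat] at h
  have h2 : ∀ x : ℝ, x ^ (2 : ℝ) = x ^ 2 := fun x => by exact_mod_cast Real.rpow_natCast x 2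
  simp only [h2, Real.norm_eq_abs, sq_abs] at h
  exact h

theorem L_mem {α : Type} {f : α → ℝ} (h : Summable fun a => (f a) ^ 2) :
    Memℓp (E := fun _ : α => ℝ) f 2 := by
  rw [memℓp_gen_iff (by norm_num)]
  simp only [ENNReal.toReal_ofNat]
  have h2 : ∀ x : ℝ, x ^ (2 : ℝ) = x ^ 2 := fun x => by exact_mod_cast Real.rpow_natCast x 2
  simp only [h2, Real.norm_eq_abs, sq_abs]
  exact h

theorem L_inner {α : Type} (f g : L α) : HasSum (fun a => f a * g a) ⟪f, g⟫_ℝ := by
  have h := lp.hasSum_inner (𝕜 := ℝ) f g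
  have e : (fun a => ⟪f a, g a⟫_ℝ) = fun a => f a * g a := by
    funext a
    simp [mul_comm]
  rw [e] at h
  exact h

/-- Composition with a bijection. -/
noncomputable def cmp {α β : Type} (e : α ≃ β) : L β →ₗᵢ[ℝ] L α where
  toFun f := ⟨fun a => f (e a), L_mem ((e.summable_iff (f := fun b => (f b) ^ 2)).2 (L_hasSum f).summable)⟩
  map_add' f g := by
    ext a
    rfl
  map_smul' c f := by
    ext a
    rfl
  norm_map' f := by
    have h1 := L_hasSum (⟨fun a => f (e a),
      L_mem ((e.summable_iff (f := fun b => (f b) ^ 2)).2 (L_hasSum f).summable)⟩ : L α)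
    have h2 := (e.hasSum_iff (f := fun b => (f b) ^ 2)).2 (L_hasSum f)
    have h3 := h1.unique h2
    exact (pow_left_inj₀ (norm_nonneg _) (norm_nonneg _) (by norm_num)).1 h3

@[simp] theorem cmp_apply {α β : Type} (e : α ≃ β) (f : L β) (a : α) : cmp e f a = f (e a) := rfl

theorem L_ext {α : Type} {f g : L α} (h : ∀ a, f a = g a) : f = g := by
  ext a
  exact h a

variable {G : Type} {ι : Type}

private noncomputable def slf (i : ι) (ω : L (ι × G)) : L G :=
  ⟨fun x => ω (i, x), L_mem ((L_hasSum ω).summable.comp_injective (i := fun x : G => (i, x))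
    (fun x y h => (Prod.mk.inj h).2))⟩

private theorem slf_norm (i : ι) (ω : L (ι × G)) : ‖slf i ω‖ ≤ 1 * ‖ω‖ := by
  rw [one_mul]
  have h3 : ‖slf i ω‖ ^ 2 ≤ ‖ω‖ ^ 2 :=
    hasSum_le_inj (fun x : G => (i, x)) (fun x y h => (Prod.mk.inj h).2)
      (fun _ _ => sq_nonneg _) (fun _ => le_rfl) (L_hasSum (slf i ω)) (L_hasSum ω)
  exact (pow_le_pow_iff_left₀ (norm_nonneg _) (norm_nonneg _) (by norm_num)).1 h3

/-- The slice `i` of a function on `ι × G`. -/
noncomputable def sl (i : ι) : L (ι × G) →L[ℝ] L G :=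
  LinearMap.mkContinuous
    { toFun := slf i
      map_add' := fun f g => by
        ext a
        rfl
      map_smul' := fun c f => by
        ext a
        rfl } 1 (slf_norm i)

@[simp] theorem sl_apply (i : ι) (ω : L (ι × G)) (x : G) : sl i ω x = ω (i, x) := rfl

theorem sum_sl [Fintype ι] (ω : L (ι × G)) : ∑ i, ‖sl i ω‖ ^ 2 = ‖ω‖ ^ 2 := by
  have h1 : ∀ i, HasSum (fun x => (ω (i, x)) ^ 2) (‖sl i ω‖ ^ 2) := fun i => L_hasSum (sl i ω)
  have h2 := (L_hasSum ω).prod_fiberwise h1
  exact (hasSum_fintype _).unique h2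

variable [Group G]

/-- Left translation of a function on `ι × G`. -/
noncomputable def lam (y : G) : L (ι × G) →ₗᵢ[ℝ] L (ι × G) :=
  cmp ((Equiv.refl ι).prodCongr (Equiv.mulLeft y))

@[simp] theorem lam_apply (y : G) (ω : L (ι × G)) (i : ι) (x : G) :
    lam y ω (i, x) = ω (i, y * x) := rfl

/-- Left translation of a function on `G`. -/
noncomputable def LL (y : G) : L G →ₗᵢ[ℝ] L G := cmp (Equiv.mulLeft y)

@[simp] theorem LL_apply (y : G) (f : L G) (x : G) : LL y f x = f (y * x) := rfl

/-- Right translation of a function on `G`. -/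
noncomputable def RR (g : G) : L G →ₗᵢ[ℝ] L G := cmp (Equiv.mulRight g)

@[simp] theorem RR_apply (g : G) (f : L G) (x : G) : RR g f x = f (x * g) := rfl

/-- The product of a word. -/
def pr (s : ι → G) (l : List ι) : G := (l.map s).prod

/-- The increments of a gradient along a word: `(Tl s l ω) x = f (x * pr s l) - f x` for
`ω (i, x) = f (x * s i) - f x`. -/
noncomputable def Tl (s : ι → G) : List ι → (L (ι × G) →L[ℝ] L G)
  | [] => 0
  | i :: l => sl i + (RR (s i)).toContinuousLinearMap ∘L Tl s l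

theorem Tl_nil (s : ι → G) : Tl s [] = 0 := rfl

theorem Tl_cons (s : ι → G) (i : ι) (l : List ι) (ω : L (ι × G)) (x : G) :
    Tl s (i :: l) ω x = ω (i, x) + Tl s l ω (x * s i) := rfl

/-- The increments in the direction `g` (along a chosen word for `g`). -/
noncomputable def T (s : ι → G) (g : G) : L (ι × G) →L[ℝ] L G := by
  classical
  exact Tl s (if h : ∃ l, pr s l = g then h.choose else [])

theorem T_eq {s : ι → G} (gen : ∀ g : G, ∃ l, pr s l = g) (g : G) :
    ∃ l, pr s l = g ∧ T s g = Tl s l := by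
  classical
  refine ⟨(gen g).choose, (gen g).choose_spec, ?_⟩
  unfold T
  rw [dif_pos (gen g)]

/-- A closed invariant space of harmonic gradients. -/
structure Good [Fintype ι] (s : ι → G) (Z : Submodule ℝ (L (ι × G))) : Prop where
  closed : IsClosed (Z : Set (L (ι × G)))
  inv : ∀ y : G, ∀ ω ∈ Z, lam y ω ∈ Z
  path : ∀ ω ∈ Z, ∀ l l' : List ι, pr s l = pr s l' → Tl s l ω = Tl s l' ω
  harm : ∀ ω ∈ Z, ∑ i, sl i ω = 0

/-- The von Neumann dimension of (the closure of) an invariant subspace. -/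
noncomputable def dm [Fintype ι] (Z : Submodule ℝ (L (ι × G))) : ℝ := by
  classical
  exact ∑ i : ι, ‖Z.topologicalClosure.starProjection (lp.single 2 ((i, 1) : ι × G) (1 : ℝ))‖ ^ 2

end Pool.Agent.Lib.MP_354e85_al.L2B
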