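import Pool.Agent.Lib.MP_354e85_al.L2B.Walk

/-! The mean ergodic theorem for the averaged conjugation of an ICC group. -/

set_option autoImplicit false

namespace Pool.Agent.Lib.MP_354e85_al.L2B

open Finset Filter Topology
open scoped InnerProductSpace

variable {G : Type} [Group G] {ι : Type} [Fintype ι]

private theorem P_apply (s : ι → G) (f : L G) :
    P s f = (Fintype.card ι : ℝ)⁻¹ • ∑ i, CJ (s i) f := by
  unfold P
  rw [smul_apply, _root_.sum_apply]
  rfl

private theorem card_pos' [Nonempty ι] : (0 : ℝ) < Fintype.card ι := by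
  exact_mod_cast Fintype.card_pos

private theorem P_norm [Nonempty ι] (s : ι → G) : ‖P s‖ ≤ 1 := by
  refine ContinuousLinearMap.opNorm_le_bound _ zero_le_one fun f => ?_
  have hc := card_pos' (ι := ι)
  rw [P_apply, norm_smul, Real.norm_of_nonneg (inv_nonneg.2 hc.le), one_mul]
  have h1 : ‖∑ i, CJ (s i) f‖ ≤ Fintype.card ι * ‖f‖ := by
    refine (norm_sum_le _ _).trans ?_
    have h2 : ∀ i ∈ (univ : Finset ι), ‖CJ (s i) f‖ = ‖f‖ := fun i _ => (CJ (s i)).norm_map f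
    rw [sum_congr rfl h2, sum_const, card_univ, nsmul_eq_mul]
  calc (Fintype.card ι : ℝ)⁻¹ * ‖∑ i, CJ (s i) f‖
      ≤ (Fintype.card ι : ℝ)⁻¹ * (Fintype.card ι * ‖f‖) :=
        mul_le_mul_of_nonneg_left h1 (inv_nonneg.2 hc.le)
    _ = ‖f‖ := by rw [← mul_assoc, inv_mul_cancel₀ hc.ne', one_mul]

/-- A fixed vector of the average is fixed by every letter. -/
private theorem fix_letter [Nonempty ι] (s : ι → G) {y : L G} (hy : P s y = y) (i : ι) :
    CJ (s i) y = y := by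
  have hc := card_pos' (ι := ι)
  have h1 : ∑ i, ⟪y, CJ (s i) y⟫_ℝ = Fintype.card ι * ‖y‖ ^ 2 := by
    have h2 : ⟪y, P s y⟫_ℝ = ‖y‖ ^ 2 := by rw [hy, real_inner_self_eq_norm_sq]
    rw [P_apply, real_inner_smul_right, inner_sum] at h2
    rw [← h2, ← mul_assoc, mul_inv_cancel₀ hc.ne', one_mul]
  have h3 : ∀ i ∈ (univ : Finset ι), 0 ≤ ‖y‖ ^ 2 - ⟪y, CJ (s i) y⟫_ℝ := by
    intro i _
    have h4 := real_inner_le_norm y (CJ (s i) y)
    rw [(CJ (s i)).norm_map] at h4
    nlinarith [h4]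
  have h5 : ∑ i, (‖y‖ ^ 2 - ⟪y, CJ (s i) y⟫_ℝ) = 0 := by
    rw [sum_sub_distrib, h1, sum_const, card_univ, nsmul_eq_mul, sub_self]
  have h6 := (sum_eq_zero_iff_of_nonneg h3).1 h5 i (mem_univ i)
  have h7 : ‖y - CJ (s i) y‖ ^ 2 = 0 := by
    rw [norm_sub_sq_real, (CJ (s i)).norm_map]
    linarith
  have h8 : ‖y - CJ (s i) y‖ = 0 := by
    exact pow_eq_zero_iff (two_ne_zero) |>.1 h7
  exact (sub_eq_zero.1 (norm_eq_zero.1 h8)).symm

omit [Fintype ι] in
private theorem fix_word (s : ι → G) {y : L G} (h : ∀ i, CJ (s i) y = y) (l : List ι) (x : G) :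
    y ((pr s l)⁻¹ * (x * pr s l)) = y x := by
  induction l generalizing x with
  | nil => simp [pr]
  | cons i l ih =>
    have h1 : pr s (i :: l) = s i * pr s l := by simp [pr]
    have h2 : (pr s (i :: l))⁻¹ * (x * pr s (i :: l)) =
        (pr s l)⁻¹ * (((s i)⁻¹ * (x * s i)) * pr s l) := by
      rw [h1]
      group
    rw [h2, ih]
    have h3 : CJ (s i) y x = y x := by rw [h i]
    exact h3

private theorem fix_zero {y : L G} (h : ∀ g x : G, y (g⁻¹ * (x * g)) = y x) {g : G}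
    (hg : (Set.range fun x : G => x * g * x⁻¹).Infinite) : y g = 0 := by
  by_contra hne
  have h1 : Tendsto (fun a => (y a) ^ 2) cofinite (𝓝 0) := (L_hasSum y).summable.tendsto_cofinite_zero
  have h2 : (0 : ℝ) < (y g) ^ 2 := by positivity
  have h3 : ∀ᶠ a in cofinite, (y a) ^ 2 < (y g) ^ 2 := h1.eventually (gt_mem_nhds h2)
  rw [eventually_cofinite] at h3
  refine hg (h3.subset ?_)
  rintro _ ⟨x, rfl⟩
  have h4 : y (x * g * x⁻¹) = y g := by
    have h5 := h x⁻¹ g
    rwa [inv_inv, ← mul_assoc] at h5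
  show ¬ (y (x * g * x⁻¹)) ^ 2 < (y g) ^ 2
  rw [h4]
  exact lt_irrefl _

/-- Proof. `‖P s‖ ≤ 1`; the mean ergodic theorem of von Neumann
(`ContinuousLinearMap.tendsto_birkhoffAverage_orthogonalProjection`) gives the convergence of
`n⁻¹ ∑ j < n, P ^ j Θ` to the projection `y` of `Θ` to the fixed vectors. A fixed vector `y` of the
average of the isometries `CJ (s i)` is fixed by all of them (strict convexity: from
`‖y‖² = ⟪y, P y⟫ = q⁻¹ ∑ ⟪y, CJ (s i) y⟫` and `⟪y, CJ (s i) y⟫ ≤ ‖y‖²` equality holds for every `i`,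
so `‖y - CJ (s i) y‖ = 0`), hence by `CJ g` for all `g` (`gen`), so it is constant on the conjugacy
classes; the classes of `g ≠ 1` are infinite and `y` is square summable, so `y g = 0` for `g ≠ 1`.
As `δ_1` is fixed, `y 1 = Θ 1`, and `⟪y, Θ⟫ = y 1 * Θ 1 = (Θ 1) ^ 2`. -/
theorem erg [Nonempty ι] (s : ι → G) (gen : ∀ g : G, ∃ l, pr s l = g)
    (icc : ∀ g : G, g ≠ 1 → (Set.range fun x : G => x * g * x⁻¹).Infinite) (Θ : L G) :
    Tendsto (fun n : ℕ => (n : ℝ)⁻¹ * ⟪∑ j ∈ range n, (P s ^ j) Θ, Θ⟫_ℝ) atTop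
      (𝓝 ((Θ 1 : ℝ) ^ 2)) := by
  classical
  have hT := ContinuousLinearMap.tendsto_birkhoffAverage_orthogonalProjection (P s) (P_norm s) Θ
  set K := (P s).eqLocus (1 : L G →L[ℝ] L G) with hK
  have hmem : ∀ f : L G, f ∈ K ↔ P s f = f := fun f => Iff.rfl
  set y : L G := (K.orthogonalProjectionOnto Θ : L G) with hy
  have hyK : y ∈ K := (K.orthogonalProjectionOnto Θ).2
  have hfix := fix_letter s ((hmem y).1 hyK)
  have hconj : ∀ g x : G, y (g⁻¹ * (x * g)) = y x := by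
    intro g x
    obtain ⟨l, rfl⟩ := gen g
    exact fix_word s hfix l x
  have hzero : ∀ g : G, g ≠ 1 → y g = 0 := fun g hg => fix_zero hconj (icc g hg)
  -- the point mass at 1
  set δ : L G := lp.single 2 (1 : G) (1 : ℝ) with hδ
  have hδ1 : ∀ x : G, δ x = if x = 1 then 1 else 0 := by
    intro x
    rw [hδ, lp.single_apply, Pi.single_apply]
  have hCJδ : ∀ g : G, CJ g δ = δ := by
    intro g
    refine L_ext fun x => ?_
    rw [CJ_apply, hδ1, hδ1]
    have h1 : g⁻¹ * (x * g) = 1 ↔ x = 1 := by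
      constructor
      · intro h2
        have h3 : x = g * (g⁻¹ * (x * g)) * g⁻¹ := by group
        rw [h3, h2]
        group
      · rintro rfl
        group
    simp only [h1]
  have hPδ : P s δ = δ := by
    rw [P_apply]
    simp only [hCJδ]
    rw [sum_const, card_univ, ← Nat.cast_smul_eq_nsmul ℝ, smul_smul,
      inv_mul_cancel₀ (card_pos' (ι := ι)).ne', one_smul]
  have hδK : δ ∈ K := (hmem δ).2 hPδ
  have hin : ∀ f : L G, ⟪f, δ⟫_ℝ = f 1 := by
    intro f
    have h1 := L_inner f δ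
    have h2 : HasSum (fun a => f a * δ a) (f 1) := by
      have h3 : f 1 = f 1 * δ 1 := by rw [hδ1, if_pos rfl, mul_one]
      rw [h3]
      refine hasSum_single 1 fun a ha => ?_
      rw [hδ1, if_neg ha, mul_zero]
    exact h1.unique h2
  have hy1 : y 1 = Θ 1 := by
    rw [← hin, ← hin]
    exact K.inner_orthogonalProjectionOnto_eq_of_mem_right ⟨δ, hδK⟩ Θ
  have hyΘ : ⟪y, Θ⟫_ℝ = (Θ 1 : ℝ) ^ 2 := by
    have h1 := L_inner y Θ
    have h2 : HasSum (fun a => y a * Θ a) ((Θ 1 : ℝ) ^ 2) := by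
      have h3 : (Θ 1 : ℝ) ^ 2 = y 1 * Θ 1 := by rw [hy1, sq]
      rw [h3]
      refine hasSum_single 1 fun a ha => ?_
      rw [hzero a ha, zero_mul]
    exact h1.unique h2
  have hlim : Tendsto (fun n : ℕ => ⟪birkhoffAverage ℝ (P s) _root_.id n Θ, Θ⟫_ℝ) atTop
      (𝓝 ⟪y, Θ⟫_ℝ) := hT.inner tendsto_const_nhds
  rw [hyΘ] at hlim
  refine hlim.congr fun n => ?_
  rw [birkhoffAverage, birkhoffSum, real_inner_smul_left]
  congr 2
  refine sum_congr rfl fun j _ => ?_
  rw [FunLike.coe_pow_eq_iterate]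
  rfl

end Pool.Agent.Lib.MP_354e85_al.L2B
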