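import Pool.Agent.Lib.MP_354e85_al.L2B.Defs

/-! Expansion from gradient vectors with large value at `1` (joint version). -/

set_option autoImplicit false

namespace Pool.Agent.Lib.MP_354e85_al.L2B

open Finset
open scoped InnerProductSpace

variable {G : Type} [Group G]

/-- Restricted gradients as a linear image of the functions on a finite set. -/
private noncomputable def gr {k : ℕ} (g : Fin k → G) (A U : Finset G)
    (h1 : ∀ x ∈ A, x ∈ U) (h2 : ∀ (j : Fin k), ∀ x ∈ A, x * g j ∈ U) :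
    (U → ℝ) →ₗ[ℝ] EuclideanSpace ℝ (Fin k × A) where
  toFun h := WithLp.toLp 2 fun b => h ⟨b.2.1 * g b.1, h2 b.1 b.2.1 b.2.2⟩ - h ⟨b.2.1, h1 b.2.1 b.2.2⟩
  map_add' h h' := by
    ext b
    simp only [Pi.add_apply, PiLp.add_apply]
    ring
  map_smul' c h := by
    ext b
    simp only [Pi.smul_apply, PiLp.smul_apply, smul_eq_mul, RingHom.id_apply]
    ring

private theorem gr_apply {k : ℕ} (g : Fin k → G) (A U : Finset G)
    (h1 : ∀ x ∈ A, x ∈ U) (h2 : ∀ (j : Fin k), ∀ x ∈ A, x * g j ∈ U) (h : U → ℝ) (b : Fin k × A) :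
    gr g A U h1 h2 h b = h ⟨b.2.1 * g b.1, h2 b.1 b.2.1 b.2.2⟩ - h ⟨b.2.1, h1 b.2.1 b.2.2⟩ := rfl

/-- The squared lengths of the projections of the basis vectors add up to the dimension. -/
private theorem sum_proj {β : Type} [Fintype β] [DecidableEq β]
    (E : Submodule ℝ (EuclideanSpace ℝ β)) :
    ∑ b : β, ‖E.starProjection (EuclideanSpace.basisFun β ℝ b)‖ ^ 2 = (Module.finrank ℝ E : ℝ) := by
  have hp : LinearMap.IsProj E (E.starProjection : EuclideanSpace ℝ β →ₗ[ℝ] EuclideanSpace ℝ β) :=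
    ⟨fun x => Submodule.starProjection_apply_mem _ _,
      fun x hx => Submodule.starProjection_eq_self_iff.2 hx⟩
  rw [← hp.trace, LinearMap.trace_eq_sum_inner _ (EuclideanSpace.basisFun β ℝ)]
  refine sum_congr rfl fun b _ => ?_
  have h := Submodule.starProjection_inner_eq_zero (K := E) (EuclideanSpace.basisFun β ℝ b)
    (E.starProjection (EuclideanSpace.basisFun β ℝ b)) (Submodule.starProjection_apply_mem _ _)
  rw [inner_sub_left, sub_eq_zero] at h
  rw [← real_inner_self_eq_norm_sq]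
  exact h.symm

/-- One basis vector. -/
private theorem one_vec {β : Type} [Fintype β] [DecidableEq β]
    (E : Submodule ℝ (EuclideanSpace ℝ β)) (w : EuclideanSpace ℝ β) (hw : w ∈ E) (b : β) :
    (w b) ^ 2 ≤ ‖w‖ ^ 2 * ‖E.starProjection (EuclideanSpace.basisFun β ℝ b)‖ ^ 2 := by
  have h := Submodule.starProjection_inner_eq_zero (K := E) (EuclideanSpace.basisFun β ℝ b) w hw
  rw [inner_sub_left, sub_eq_zero] at h
  have h2 : ⟪EuclideanSpace.basisFun β ℝ b, w⟫_ℝ = w b := by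
    simp [EuclideanSpace.inner_single_left]
  rw [h2] at h
  have h3 := abs_real_inner_le_norm (E.starProjection (EuclideanSpace.basisFun β ℝ b)) w
  rw [← h] at h3
  rw [← sq_abs, ← mul_pow, mul_comm ‖w‖]
  exact pow_le_pow_left₀ (abs_nonneg _) h3 2

/-- Proof. Let `U` be the set on the right and
`E = {w : Fin k × A → ℝ | w (j, x) = f (x * g j) - f x for some f : G → ℝ}`; as `w` depends linearly
on `f` restricted to `U`, `dim E ≤ |U|`. Let `Q` be the orthogonal projection of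
`EuclideanSpace ℝ (Fin k × A)` to `E`. For `i` and `x ∈ A` the left translate
`w (j, y) = v i (j, x⁻¹ * y)` is in `E` (restricted), `‖w‖ ≤ ‖v i‖`, `w (i, x) = v i (i, 1)`, so
`p i * ‖v i‖ ^ 2 ≤ ⟪w, δ⟫ ^ 2 = ⟪w, Q δ⟫ ^ 2 ≤ ‖v i‖ ^ 2 * ‖Q δ‖ ^ 2`, `δ` the basis vector at `(i, x)`,
so `p i ≤ ‖Q δ‖ ^ 2` (if `v i ≠ 0`; trivial if `p i ≤ 0`). Sum over `i` and `x ∈ A`:
`(∑ p i) * |A| ≤ trace Q = dim E ≤ |U|` (`LinearMap.IsProj.trace`). -/
theorem exp_ineq {k : ℕ} (g : Fin k → G) (p : Fin k → ℝ) (f : Fin k → G → ℝ)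
    (v : Fin k → L (Fin k × G)) (hv : ∀ i j x, v i (j, x) = f i (x * g j) - f i x)
    (hne : ∀ i, v i ≠ 0 ∨ p i ≤ 0)
    (hp : ∀ i, p i * ‖v i‖ ^ 2 ≤ (v i (i, 1) : ℝ) ^ 2) [DecidableEq G] (A : Finset G) :
    (∑ i, p i) * (A.card : ℝ) ≤
      ((A ∪ (univ : Finset (Fin k)).biUnion fun j => A.image (fun x => x * g j)).card : ℝ) := by
  classical
  set U : Finset G := A ∪ (univ : Finset (Fin k)).biUnion fun j => A.image (fun x => x * g j)
    with hU
  have h1 : ∀ x ∈ A, x ∈ U := fun x hx => mem_union_left _ hx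
  have h2 : ∀ (j : Fin k), ∀ x ∈ A, x * g j ∈ U := fun j x hx =>
    mem_union_right _ (mem_biUnion.2 ⟨j, mem_univ _, mem_image_of_mem _ hx⟩)
  set E : Submodule ℝ (EuclideanSpace ℝ (Fin k × A)) := LinearMap.range (gr g A U h1 h2) with hE
  have hdim : (Module.finrank ℝ E : ℝ) ≤ (U.card : ℝ) := by
    have h := LinearMap.finrank_range_le (gr g A U h1 h2)
    rw [Module.finrank_fintype_fun_eq_card, Fintype.card_coe] at h
    exact_mod_cast h
  have key : ∀ (i : Fin k) (x : A),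
      p i ≤ ‖E.starProjection (EuclideanSpace.basisFun (Fin k × A) ℝ (i, x))‖ ^ 2 := by
    intro i x
    rcases hne i with hi | hi
    swap
    · exact hi.trans (sq_nonneg _)
    let w : EuclideanSpace ℝ (Fin k × A) := gr g A U h1 h2 fun u => f i (x.1⁻¹ * u.1)
    have hw : w ∈ E := ⟨_, rfl⟩
    have hwa : ∀ b : Fin k × A, w b = v i (b.1, x.1⁻¹ * b.2.1) := by
      intro b
      rw [hv i b.1 (x.1⁻¹ * b.2.1)]
      change f i (x.1⁻¹ * (b.2.1 * g b.1)) - f i (x.1⁻¹ * b.2.1) = _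
      rw [mul_assoc]
    have hn : ‖w‖ ^ 2 ≤ ‖v i‖ ^ 2 := by
      rw [EuclideanSpace.norm_sq_eq]
      have h5 : HasSum (fun b : Fin k × A => ‖w b‖ ^ 2) (∑ b, ‖w b‖ ^ 2) := hasSum_fintype _
      refine hasSum_le_inj (fun b : Fin k × A => (b.1, x.1⁻¹ * b.2.1)) ?_
        (fun _ _ => sq_nonneg _) ?_ h5 (L_hasSum (v i))
      · rintro ⟨a, b⟩ ⟨a', b'⟩ hab
        simp only [Prod.mk.injEq, mul_right_inj] at hab
        exact Prod.ext hab.1 (Subtype.ext hab.2)
      · intro b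
        rw [Real.norm_eq_abs, sq_abs, hwa b]
    have h6 := one_vec E w hw (i, x)
    rw [hwa (i, x)] at h6
    simp only [inv_mul_cancel] at h6
    have h7 : p i * ‖v i‖ ^ 2 ≤
        ‖E.starProjection (EuclideanSpace.basisFun (Fin k × A) ℝ (i, x))‖ ^ 2 * ‖v i‖ ^ 2 := by
      refine (hp i).trans (h6.trans ?_)
      rw [mul_comm]
      exact mul_le_mul_of_nonneg_left hn (sq_nonneg _)
    have h8 : 0 < ‖v i‖ ^ 2 := by
      have := norm_pos_iff.2 hi
      positivity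
    exact le_of_mul_le_mul_right h7 h8
  have h9 : ∑ b : Fin k × A, p b.1 ≤
      ∑ b : Fin k × A, ‖E.starProjection (EuclideanSpace.basisFun (Fin k × A) ℝ b)‖ ^ 2 :=
    sum_le_sum fun b _ => key b.1 b.2
  rw [sum_proj E] at h9
  have h10 : ∑ b : Fin k × A, p b.1 = (∑ i, p i) * (A.card : ℝ) := by
    rw [Fintype.sum_prod_type]
    simp only [sum_const, card_univ, Fintype.card_coe, nsmul_eq_mul]
    rw [← mul_sum, mul_comm]
  rw [← h10]
  exact h9.trans hdim

end Pool.Agent.Lib.MP_354e85_al.L2B
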