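import Pool.Agent.Lib.MP_354e85_al.L2B.Defs

/-! The space of gradients of harmonic Dirichlet functions. -/

set_option autoImplicit false

namespace Pool.Agent.Lib.MP_354e85_al.L2B

open Finset
open scoped InnerProductSpace

variable {G : Type} [Group G] {ι : Type} [Fintype ι]

/-- Square summable gradients `ω (i, x) = f (x * s i) - f x` with `∑ i, ω (i, x) = 0`. -/
def HD (s : ι → G) : Submodule ℝ (L (ι × G)) where
  carrier := {ω | (∃ f : G → ℝ, ∀ i x, ω (i, x) = f (x * s i) - f x) ∧ ∀ x, ∑ i, ω (i, x) = 0}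
  add_mem' := by
    rintro ω ω' ⟨⟨f, hf⟩, h1⟩ ⟨⟨g, hg⟩, h2⟩
    refine ⟨⟨fun x => f x + g x, fun i x => ?_⟩, fun x => ?_⟩
    · rw [lp.coeFn_add, Pi.add_apply, hf, hg]
      ring
    · have e : ∀ i, (ω + ω') (i, x) = ω (i, x) + ω' (i, x) := fun i => by
        rw [lp.coeFn_add, Pi.add_apply]
      simp only [e, Finset.sum_add_distrib, h1 x, h2 x, add_zero]
  zero_mem' := by
    refine ⟨⟨fun _ => 0, fun i x => ?_⟩, fun x => ?_⟩
    · simp
    · simp
  smul_mem' := by
    rintro c ω ⟨⟨f, hf⟩, h1⟩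
    refine ⟨⟨fun x => c * f x, fun i x => ?_⟩, fun x => ?_⟩
    · rw [lp.coeFn_smul, Pi.smul_apply, hf, smul_eq_mul]
      ring
    · have e : ∀ i, (c • ω) (i, x) = c * ω (i, x) := fun i => by
        rw [lp.coeFn_smul, Pi.smul_apply, smul_eq_mul]
      simp only [e, ← Finset.mul_sum, h1 x, mul_zero]

omit [Fintype ι] in
private theorem hd_grad {s : ι → G} {ω : L (ι × G)} {f : G → ℝ}
    (hf : ∀ i x, ω (i, x) = f (x * s i) - f x) (l : List ι) :
    ∀ x, Tl s l ω x = f (x * pr s l) - f x := by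
  induction l with
  | nil =>
    intro x
    simp [Tl_nil, pr]
  | cons i l ih =>
    intro x
    have e : pr s (i :: l) = s i * pr s l := by simp [pr]
    rw [Tl_cons, hf, ih, e, mul_assoc]
    ring

omit [Fintype ι] in
private theorem hd_snoc (s : ι → G) (ω : L (ι × G)) (i : ι) (l : List ι) :
    ∀ x, Tl s (l ++ [i]) ω x = Tl s l ω x + ω (i, x * pr s l) := by
  induction l with
  | nil =>
    intro x
    rw [List.nil_append, Tl_cons]
    simp [Tl_nil, pr]
  | cons j l ih =>
    intro x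
    have e : pr s (j :: l) = s j * pr s l := by simp [pr]
    rw [List.cons_append, Tl_cons, ih, Tl_cons, e, mul_assoc]
    ring

omit [Group G] in
private theorem hd_sum (ω : L (ι × G)) (x : G) : (∑ i, sl i ω) x = ∑ i, ω (i, x) := by
  rw [lp.coeFn_sum, Finset.sum_apply]
  rfl

private theorem hd_iff (s : ι → G) (gen : ∀ g : G, ∃ l, pr s l = g) (ω : L (ι × G)) :
    ω ∈ HD s ↔ (∀ l l' : List ι, pr s l = pr s l' → Tl s l ω = Tl s l' ω) ∧
      ∑ i, sl i ω = 0 := by
  constructor
  · rintro ⟨⟨f, hf⟩, h⟩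
    refine ⟨fun l l' hl => ?_, ?_⟩
    · apply L_ext
      intro x
      rw [hd_grad hf, hd_grad hf, hl]
    · apply L_ext
      intro x
      rw [hd_sum, h x]
      rfl
  · rintro ⟨h1, h2⟩
    choose w hw using gen
    refine ⟨⟨fun x => Tl s (w x) ω 1, fun i x => ?_⟩, fun x => ?_⟩
    · have e : pr s (w (x * s i)) = pr s (w x ++ [i]) := by
        rw [hw]
        have e1 : pr s (w x ++ [i]) = pr s (w x) * s i := by simp [pr]
        rw [e1, hw]
      change ω (i, x) = Tl s (w (x * s i)) ω 1 - Tl s (w x) ω 1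
      rw [h1 _ _ e, hd_snoc, one_mul, hw]
      ring
    · rw [← hd_sum, h2]
      rfl

/-- Proof. `ω ∈ HD s` iff `Tl s l ω = Tl s l' ω` whenever `pr s l = pr s l'`, and
`∑ i, sl i ω = 0` (if: `f x = Tl s l ω 1` for any `l` with `pr s l = x`; only if:
`Tl s l ω x = f (x * pr s l) - f x` by induction on `l`); so `HD s` is closed, as an intersection
of closed sets. -/
theorem HD_good (s : ι → G) (gen : ∀ g : G, ∃ l, pr s l = g) : Good s (HD s) where
  closed := by
    have e : (HD s : Set (L (ι × G))) =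
        (⋂ (l : List ι) (l' : List ι) (_ : pr s l = pr s l'), {ω | Tl s l ω = Tl s l' ω}) ∩
          {ω | ∑ i, sl i ω = 0} := by
      ext ω
      simp only [SetLike.mem_coe, hd_iff s gen, Set.mem_inter_iff, Set.mem_iInter,
        Set.mem_ofPred_eq]
    rw [e]
    refine IsClosed.inter ?_ ?_
    · exact isClosed_iInter fun l => isClosed_iInter fun l' => isClosed_iInter fun _ =>
        isClosed_eq (Tl s l).continuous (Tl s l').continuous
    · exact isClosed_eq (continuous_finsetSum _ fun i _ => (sl i).continuous) continuous_const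
  inv := by
    rintro y ω ⟨⟨f, hf⟩, h⟩
    refine ⟨⟨fun x => f (y * x), fun i x => ?_⟩, fun x => ?_⟩
    · rw [lam_apply, hf, mul_assoc]
    · simp only [lam_apply]
      exact h (y * x)
  path := fun ω hω => ((hd_iff s gen ω).1 hω).1
  harm := fun ω hω => ((hd_iff s gen ω).1 hω).2

end Pool.Agent.Lib.MP_354e85_al.L2B
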