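import Pool.Agent.Lib.MP_354e85_al.L2B.Basic
import Pool.Agent.Lib.MP_354e85_al.L2B.HD

/-! Elements with finite conjugacy class and harmonic Dirichlet functions, part a. -/

set_option autoImplicit false

namespace Pool.Agent.Lib.MP_354e85_al.L2B

open Finset
open scoped InnerProductSpace

variable {G : Type} [Group G] {ι : Type} [Fintype ι] {s : ι → G}

/-- Strict convexity: `∑ z ∈ K, ‖ψ - RR z ψ‖ ^ 2 = 2 ∑ z ∈ K, (‖ψ‖ ^ 2 - ⟪ψ, RR z ψ⟫) = 0`. -/
theorem fixed_of_mean {κ : Type} (K : Finset κ) (c : κ → G) (ψ : L G)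
    (h : ∑ z ∈ K, RR (c z) ψ = (K.card : ℝ) • ψ) : ∀ z ∈ K, RR (c z) ψ = ψ := by
  have h1 : ∀ z, ‖ψ - RR (c z) ψ‖ ^ 2 = 2 * (‖ψ‖ ^ 2 - ⟪ψ, RR (c z) ψ⟫_ℝ) := by
    intro z
    rw [norm_sub_sq_real, LinearIsometry.norm_map]
    ring
  have h2 : ∑ z ∈ K, ‖ψ - RR (c z) ψ‖ ^ 2 = 0 := by
    simp only [h1]
    rw [← Finset.mul_sum, Finset.sum_sub_distrib, ← inner_sum, h, real_inner_smul_right,
      real_inner_self_eq_norm_sq, Finset.sum_const, nsmul_eq_mul]
    ring
  intro z hz
  have h3 := (Finset.sum_eq_zero_iff_of_nonneg (fun z _ => sq_nonneg _)).1 h2 z hz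
  have h4 : ‖ψ - RR (c z) ψ‖ = 0 := by
    exact pow_eq_zero_iff (two_ne_zero) |>.1 h3
  exact (sub_eq_zero.1 (norm_eq_zero.1 h4)).symm

/-- A square summable function which is invariant under the right translations by an infinite
set of elements is zero (the values along the infinite set `{x * c | c ∈ C}` are equal). -/
theorem zero_of_fixed (C : Set G) (hC : C.Infinite) (ψ : L G) (h : ∀ c ∈ C, RR c ψ = ψ) :
    ψ = 0 := by
  apply L_ext
  intro x
  change ψ x = 0
  by_contra hx
  have h1 : ∀ c ∈ C, ψ (x * c) = ψ x := by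
    intro c hc
    have h2 := congrArg (fun f : L G => f x) (h c hc)
    simpa using h2
  have h3 := (L_hasSum ψ).summable.tendsto_cofinite_zero
  have h4 : 0 < (ψ x) ^ 2 := by positivity
  have h5 := h3.eventually (gt_mem_nhds h4)
  rw [Filter.eventually_cofinite] at h5
  have h6 : (fun c => x * c) '' C ⊆ {a | ¬ (ψ a) ^ 2 < (ψ x) ^ 2} := by
    rintro _ ⟨c, hc, rfl⟩
    simp [h1 c hc]
  have h7 : ((fun c => x * c) '' C).Infinite :=
    hC.image (fun a _ b _ hab => mul_left_cancel hab)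
  exact h7 (h5.subset h6)

omit [Fintype ι] in
private theorem fixed_pr {ψ : L G} (h : ∀ i, RR (s i) ψ = ψ) (l : List ι) :
    RR (pr s l) ψ = ψ := by
  induction l with
  | nil =>
    have e : pr s ([] : List ι) = 1 := by simp [pr]
    rw [e, RR_one]
  | cons i l ih =>
    have e : pr s (i :: l) = s i * pr s l := by simp [pr]
    rw [e, ← RR_RR, ih, h i]

private theorem fixed_of_harm {ψ : L G}
    (h : ∀ x, ∑ i, ψ (x * s i) = (Fintype.card ι : ℝ) * ψ x) : ∀ i, RR (s i) ψ = ψ := by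
  intro i
  refine fixed_of_mean Finset.univ s ψ ?_ i (Finset.mem_univ i)
  apply L_ext
  intro x
  rw [lp.coeFn_sum, Finset.sum_apply, lp.coeFn_smul, Pi.smul_apply, smul_eq_mul,
    Finset.card_univ, ← h x]
  rfl

/-- Square summable harmonic functions vanish on an infinite group: by `fixed_of_mean` (with the
letters) `ψ` is invariant under all letters, so (by `gen`) under all of `G`. -/
theorem harm_zero [Infinite G] (gen : ∀ g : G, ∃ l, pr s l = g) (ψ : L G)
    (h : ∀ x, ∑ i, ψ (x * s i) = (Fintype.card ι : ℝ) * ψ x) : ψ = 0 := by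
  refine zero_of_fixed Set.univ Set.infinite_univ ψ fun c _ => ?_
  obtain ⟨l, rfl⟩ := gen c
  exact fixed_pr (fixed_of_harm h) l

/-- On a finite group harmonic gradients vanish (`ω = ∇ f`, `f` is square summable;
`fixed_of_mean` for `f` as an element of `L G`, all letters fix `f`). -/
theorem HD_zero_of_finite [Finite G] (s : ι → G) : ∀ ω ∈ HD s, ω = 0 := by
  rintro ω ⟨⟨f, hf⟩, h⟩
  have hs : Summable fun a => (f a) ^ 2 := Summable.of_finite
  let ψ : L G := ⟨f, L_mem hs⟩
  have hψ : ∀ x, ψ x = f x := fun _ => rfl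
  have hfh : ∀ x, ∑ i, ψ (x * s i) = (Fintype.card ι : ℝ) * ψ x := by
    intro x
    have h1 := h x
    simp only [hf, Finset.sum_sub_distrib, Finset.sum_const, Finset.card_univ, nsmul_eq_mul]
      at h1
    simp only [hψ]
    linarith
  have h2 := fixed_of_harm hfh
  apply L_ext
  rintro ⟨i, x⟩
  have h3 := congrArg (fun f : L G => f x) (h2 i)
  simp only [RR_apply, hψ] at h3
  rw [hf, h3, sub_self]
  rfl

omit [Fintype ι] in
private theorem Tl_pot {ω : L (ι × G)} {f : G → ℝ}
    (hf : ∀ i x, ω (i, x) = f (x * s i) - f x) (l : List ι) :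
    ∀ x, Tl s l ω x = f (x * pr s l) - f x := by
  induction l with
  | nil =>
    intro x
    simp [Tl_nil, pr]
  | cons i l ih =>
    intro x
    have e : pr s (i :: l) = s i * pr s l := by simp [pr]
    rw [Tl_cons, hf, ih, e, mul_assoc]
    ring

/-- Proof. With `f` the potential, `F x = ∑ z ∈ K, f (x * z)` is harmonic because `K` is invariant
under conjugation, so `ψ = ∑ z ∈ K, T s z ω` (`ψ x = F x - |K| f x`) is harmonic and square
summable, so zero by `harm_zero`. (`T s g ω x = f (x * g) - f x` by `T_word` and induction, or from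
`T_mul`, `T_gen`.) -/
theorem sum_T_class [Infinite G] (gen : ∀ g : G, ∃ l, pr s l = g) (K : Finset G)
    (hK : ∀ g : G, ∀ z ∈ K, g * z * g⁻¹ ∈ K) {ω : L (ι × G)} (hω : ω ∈ HD s) :
    ∑ z ∈ K, T s z ω = 0 := by
  obtain ⟨⟨f, hf⟩, h⟩ := hω
  have hT : ∀ g x, T s g ω x = f (x * g) - f x := by
    intro g x
    obtain ⟨l, rfl, hl⟩ := T_eq gen g
    rw [hl, Tl_pot hf]
  have hfh : ∀ x, ∑ i, f (x * s i) = (Fintype.card ι : ℝ) * f x := by
    intro x
    have h1 := h x
    simp only [hf, Finset.sum_sub_distrib, Finset.sum_const, Finset.card_univ, nsmul_eq_mul]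
      at h1
    linarith
  have hψ : ∀ x, (∑ z ∈ K, T s z ω) x = ∑ z ∈ K, f (x * z) - (K.card : ℝ) * f x := by
    intro x
    rw [lp.coeFn_sum, Finset.sum_apply]
    simp only [hT, Finset.sum_sub_distrib, Finset.sum_const, nsmul_eq_mul]
  have hconj : ∀ x g, ∑ z ∈ K, f (x * g * z) = ∑ z ∈ K, f (x * z * g) := by
    intro x g
    refine Finset.sum_bij (fun z _ => g * z * g⁻¹) (fun z hz => hK g z hz) ?_ ?_ ?_
    · intro a _ b _ hab
      exact mul_left_cancel (mul_right_cancel hab)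
    · intro b hb
      refine ⟨g⁻¹ * b * g, ?_, by group⟩
      have := hK g⁻¹ b hb
      rwa [inv_inv] at this
    · intro a _
      congr 1
      group
  refine harm_zero gen _ fun x => ?_
  simp only [hψ, hconj]
  rw [Finset.sum_sub_distrib, Finset.sum_comm, ← Finset.mul_sum, hfh]
  simp only [hfh]
  rw [← Finset.mul_sum]
  ring

end Pool.Agent.Lib.MP_354e85_al.L2B
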