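import Pool.Agent.Lib.MP_354e85_al.L2B.FCa

/-! Elements with finite conjugacy class and harmonic Dirichlet functions, part b. -/

set_option autoImplicit false

namespace Pool.Agent.Lib.MP_354e85_al.L2B

open Finset
open scoped InnerProductSpace

variable {G : Type} [Group G] {ι : Type} [Fintype ι] {s : ι → G}

/-- Proof. `sum_T_class` for `K = N`: the mean over `z ∈ N` of `f (x * z)` is `f x` for every `x`;
the left side does not change when `x` is replaced by `x * z`, so `f (x * z) = f x`. (In terms of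
`T`: for `z₀ ∈ N`, `0 = ∑ z, T s (z₀ * z) ω = ∑ z, (T s z₀ ω + RR z₀ (T s z ω)) = |N| T s z₀ ω`.) -/
theorem T_zero_of_finite_normal [Infinite G] (gen : ∀ g : G, ∃ l, pr s l = g) (N : Subgroup G)
    [N.Normal] [Finite N] {z : G} (hz : z ∈ N) {ω : L (ι × G)} (hω : ω ∈ HD s) :
    T s z ω = 0 := by
  classical
  have hg := HD_good s gen
  let K : Finset G := (Set.toFinite (N : Set G)).toFinset
  have hK : ∀ x, x ∈ K ↔ x ∈ N := fun x => by simp [K]
  have h1 : ∑ w ∈ K, T s w ω = 0 := by
    refine sum_T_class gen K (fun g w hw => ?_) hω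
    rw [hK] at hw ⊢
    exact Subgroup.Normal.conj_mem inferInstance w hw g
  have h2 : ∑ w ∈ K, T s (z * w) ω = ∑ w ∈ K, T s w ω := by
    refine Finset.sum_bij' (fun w _ => z * w) (fun w _ => z⁻¹ * w) ?_ ?_ ?_ ?_ ?_
    · intro w hw
      rw [hK] at hw ⊢
      exact N.mul_mem hz hw
    · intro w hw
      rw [hK] at hw ⊢
      exact N.mul_mem (N.inv_mem hz) hw
    · intro w _
      simp
    · intro w _
      simp
    · intro w _
      rfl
  have h3 : ∑ w ∈ K, T s (z * w) ω = (K.card : ℝ) • T s z ω + RR z (∑ w ∈ K, T s w ω) := by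
    rw [map_sum, Nat.cast_smul_eq_nsmul ℝ, ← sum_const, ← sum_add_distrib]
    exact sum_congr rfl fun w _ => T_mul gen hg z w hω
  rw [h2, h1, map_zero, add_zero] at h3
  have hc : (K.card : ℝ) ≠ 0 := by
    have h4 : K.card ≠ 0 := Finset.card_ne_zero_of_mem ((hK z).2 hz)
    exact_mod_cast h4
  rcases smul_eq_zero.1 h3.symm with h5 | h5
  · exact absurd h5 hc
  · exact h5

/-- Proof. For `g : G`, `a ∈ A`: `T s (a * g) ω = T s a ω + RR a (T s g ω) = RR a (T s g ω)` and
`a * g = g * (g⁻¹ * a * g)`, so `T s (a * g) ω = T s g ω + RR g 0 = T s g ω`; so `T s g ω` is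
invariant under `RR a` for all `a ∈ A`, zero by `zero_of_fixed`; `sl i ω = T s (s i) ω`
(`T_gen`, `HD_good`). -/
theorem zero_of_infinite_normal (gen : ∀ g : G, ∃ l, pr s l = g) (A : Subgroup G) [A.Normal]
    [Infinite A] {ω : L (ι × G)} (hω : ω ∈ HD s) (h : ∀ a ∈ A, T s a ω = 0) : ω = 0 := by
  have hg := HD_good s gen
  have h1 : ∀ g : G, T s g ω = 0 := by
    intro g
    refine zero_of_fixed (A : Set G) (Set.infinite_coe_iff.1 inferInstance) _ fun a ha => ?_
    have h2 := T_mul gen hg a g hω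
    rw [h a ha, zero_add] at h2
    have h3 : g⁻¹ * a * g ∈ A := by
      have h4 := Subgroup.Normal.conj_mem (H := A) inferInstance a ha g⁻¹
      rwa [inv_inv] at h4
    have h5 := T_mul gen hg g (g⁻¹ * a * g) hω
    rw [h _ h3, map_zero, add_zero] at h5
    have h6 : g * (g⁻¹ * a * g) = a * g := by group
    rw [h6] at h5
    rw [← h2, h5]
  apply L_ext
  rintro ⟨i, x⟩
  have h7 := T_gen gen hg i hω
  rw [h1] at h7
  rw [← sl_apply, ← h7]
  rfl

/-- Proof. For `z, a ∈ A`: `T s (a * z) = T s a + RR a (T s z)`, `T s (z * a) = T s z + RR z (T s a)`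
(on `HD s`), so `RR a (T s z ω) - T s z ω = RR z (T s a ω) - T s a ω`. Let `K` be the (finite)
conjugacy class of `z₀ ∈ A`; it is in `A`. Summing over `z ∈ K`, the left side is `0` by
`sum_T_class`, so `∑ z ∈ K, RR z (T s a ω) = |K| T s a ω`, so `RR z₀ (T s a ω) = T s a ω` by
`fixed_of_mean`; `A` is infinite, so `T s a ω = 0` by `zero_of_fixed`. -/
theorem T_zero_of_abelian [Infinite G] (gen : ∀ g : G, ∃ l, pr s l = g) (A : Subgroup G)
    [A.Normal] [Infinite A] (hab : ∀ a ∈ A, ∀ b ∈ A, a * b = b * a)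
    (hfc : ∀ a ∈ A, (Set.range fun x : G => x * a * x⁻¹).Finite) {a : G} (ha : a ∈ A)
    {ω : L (ι × G)} (hω : ω ∈ HD s) : T s a ω = 0 := by
  classical
  have hg := HD_good s gen
  refine zero_of_fixed (A : Set G) (Set.infinite_coe_iff.1 inferInstance) _ fun z₀ hz₀ => ?_
  let K : Finset G := (hfc z₀ hz₀).toFinset
  have hK : ∀ z, z ∈ K ↔ ∃ x : G, x * z₀ * x⁻¹ = z := fun z => by simp [K]
  have hKA : ∀ z ∈ K, z ∈ A := by
    intro z hz
    obtain ⟨x, rfl⟩ := (hK z).1 hz
    exact Subgroup.Normal.conj_mem inferInstance z₀ hz₀ x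
  have h1 : ∑ z ∈ K, T s z ω = 0 := by
    refine sum_T_class gen K (fun g z hz => ?_) hω
    rw [hK] at hz ⊢
    obtain ⟨x, rfl⟩ := hz
    exact ⟨g * x, by group⟩
  have h2 : ∀ z ∈ K, RR z (T s a ω) = RR a (T s z ω) - T s z ω + T s a ω := by
    intro z hz
    have h3 := T_mul gen hg a z hω
    have h4 := T_mul gen hg z a hω
    rw [hab z (hKA z hz) a ha, h3] at h4
    have h5 : RR z (T s a ω) = T s a ω + RR a (T s z ω) - T s z ω := by
      rw [h4]
      abel
    rw [h5]
    abel
  have h6 : ∑ z ∈ K, RR z (T s a ω) = (K.card : ℝ) • T s a ω := by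
    rw [sum_congr rfl h2, sum_add_distrib, sum_sub_distrib, ← map_sum, h1, map_zero, sub_zero,
      zero_add, sum_const, Nat.cast_smul_eq_nsmul ℝ]
  exact fixed_of_mean K (fun z => z) _ h6 z₀ ((hK z₀).2 ⟨1, by group⟩)

/-- The subgroup of the elements with finite conjugacy class. -/
def FCc (G : Type) [Group G] : Subgroup G where
  carrier := {g | (Set.range fun x : G => x * g * x⁻¹).Finite}
  mul_mem' := by
    intro a b ha hb
    refine (Set.Finite.image2 (fun u v => u * v) ha hb).subset ?_
    rintro _ ⟨x, rfl⟩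
    refine ⟨x * a * x⁻¹, ⟨x, rfl⟩, x * b * x⁻¹, ⟨x, rfl⟩, ?_⟩
    show x * a * x⁻¹ * (x * b * x⁻¹) = x * (a * b) * x⁻¹
    group
  one_mem' := by
    refine (Set.finite_singleton (1 : G)).subset ?_
    rintro _ ⟨x, rfl⟩
    show x * 1 * x⁻¹ = 1
    group
  inv_mem' := by
    intro a ha
    refine (Set.Finite.image (fun u => u⁻¹) ha).subset ?_
    rintro _ ⟨x, rfl⟩
    refine ⟨x * a * x⁻¹, ⟨x, rfl⟩, ?_⟩
    show (x * a * x⁻¹)⁻¹ = x * a⁻¹ * x⁻¹
    group

private theorem fcb_mem (g : G) : g ∈ FCc G ↔ (Set.range fun x : G => x * g * x⁻¹).Finite :=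
  Iff.rfl

private theorem fcb_normal : (FCc G).Normal := by
  refine ⟨fun a ha g => ?_⟩
  rw [fcb_mem] at ha ⊢
  refine ha.subset ?_
  rintro _ ⟨x, rfl⟩
  refine ⟨x * g, ?_⟩
  show x * g * a * (x * g)⁻¹ = x * (g * a * g⁻¹) * x⁻¹
  group

private theorem fcb_cent {g : G} (hg : g ∈ FCc G) :
    (Subgroup.centralizer ({g} : Set G)).FiniteIndex := by
  rw [fcb_mem] at hg
  have hf : Finite (Set.range fun x : G => x * g * x⁻¹) := hg
  let f : (Set.range fun x : G => x * g * x⁻¹) → G ⧸ Subgroup.centralizer ({g} : Set G) :=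
    fun r => QuotientGroup.mk (Set.mem_range.1 r.2).choose
  have hs : Function.Surjective f := by
    intro q
    obtain ⟨x, rfl⟩ := QuotientGroup.mk_surjective q
    refine ⟨⟨x * g * x⁻¹, x, rfl⟩, ?_⟩
    have h1 := (Set.mem_range.1 (show x * g * x⁻¹ ∈ Set.range fun x : G => x * g * x⁻¹ from
      ⟨x, rfl⟩)).choose_spec
    show QuotientGroup.mk _ = _
    rw [QuotientGroup.eq, Subgroup.mem_centralizer_singleton_iff]
    set y := (Set.mem_range.1 (show x * g * x⁻¹ ∈ Set.range fun x : G => x * g * x⁻¹ from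
      ⟨x, rfl⟩)).choose
    have h2 : y * g * y⁻¹ = x * g * x⁻¹ := h1
    have h3 : x * g = y * g * y⁻¹ * x := by rw [h2]; group
    have h4 : y⁻¹ * x * g = y⁻¹ * (x * g) := by group
    rw [h4, h3]
    group
  have hq : Finite (G ⧸ Subgroup.centralizer ({g} : Set G)) := Finite.of_surjective f hs
  exact Subgroup.finiteIndex_of_finite_quotient

/-- Proof. Let `ω₀ ∈ HD s` be nonzero. Every `z ∈ FCc G` lies in the normal subgroup `N` generated
by its finite conjugacy class `K` (`N = closure K`, `K` finite, conjugation invariant).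
If some such `N` is infinite: the centralizer in `N` of every element of `K` has finite index in `N`
(finite orbit), so the center `A` of `N` (the intersection of these finitely many centralizers) has
finite index in `N`, so `A` (mapped to `G`) is infinite, abelian, normal in `G` (characteristic in
a normal subgroup), and consists of elements of `FCc G`; by `T_zero_of_abelian` and
`zero_of_infinite_normal` `ω₀ = 0`, contradiction. So all these `N` are finite, so `T s z ω = 0`
for all `z ∈ FCc G`, `ω ∈ HD s` by `T_zero_of_finite_normal`, and `FCc G` is finite by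
`zero_of_infinite_normal` (`FCc G` is normal). -/
theorem FCc_finite [Infinite G] (gen : ∀ g : G, ∃ l, pr s l = g)
    (h : ∃ ω ∈ HD s, ω ≠ 0) : (FCc G).Normal ∧ Finite (FCc G) ∧
      ∀ z ∈ FCc G, ∀ ω ∈ HD s, T s z ω = 0 := by
  obtain ⟨ω₀, hω₀, hne⟩ := h
  have h0 : ∀ z ∈ FCc G, ∀ ω ∈ HD s, T s z ω = 0 := by
    intro z hz ω hω
    let K : Set G := Set.range fun x : G => x * z * x⁻¹
    have hKf : Finite K := (fcb_mem z).1 hz
    have hKF : K ⊆ FCc G := by
      rintro _ ⟨x, rfl⟩
      exact fcb_normal.conj_mem z hz x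
    let N : Subgroup G := Subgroup.closure K
    have hN : N.Normal := by
      refine ⟨fun n hn g => ?_⟩
      have h1 : N ≤ N.comap (MulAut.conj g).toMonoidHom := by
        refine (Subgroup.closure_le _).2 ?_
        rintro _ ⟨x, rfl⟩
        refine Subgroup.subset_closure ⟨g * x, ?_⟩
        show g * x * z * (g * x)⁻¹ = g * (x * z * x⁻¹) * g⁻¹
        group
      exact h1 hn
    have hzN : z ∈ N := Subgroup.subset_closure ⟨1, by show 1 * z * 1⁻¹ = z; group⟩
    have hNF : N ≤ FCc G := (Subgroup.closure_le _).2 hKF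
    by_cases hfin : Finite N
    · exact T_zero_of_finite_normal gen N hzN hω
    · exfalso
      let C : Subgroup G := Subgroup.centralizer K
      have hC : C.FiniteIndex := by
        have h2 : (⨅ k : K, Subgroup.centralizer ({k.1} : Set G)).FiniteIndex :=
          Subgroup.finiteIndex_iInf fun k => fcb_cent (hKF k.2)
        refine Subgroup.finiteIndex_of_le (H := ⨅ k : K, Subgroup.centralizer ({k.1} : Set G)) ?_
        intro x hx
        rw [Subgroup.mem_centralizer_iff]
        intro k hk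
        have h3 := Subgroup.mem_iInf.1 hx ⟨k, hk⟩
        rw [Subgroup.mem_centralizer_singleton_iff] at h3
        exact h3.symm
      have hCN : C = Subgroup.centralizer (N : Set G) := (Subgroup.centralizer_closure K).symm
      have hCn : C.Normal := by
        rw [hCN]
        exact Subgroup.normal_centralizer
      let A : Subgroup G := N ⊓ C
      have hA : A.Normal := by
        refine ⟨fun n hn g => ⟨hN.conj_mem n hn.1 g, hCn.conj_mem n hn.2 g⟩⟩
      have hinf : Infinite A := by
        by_contra hc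
        rw [not_infinite_iff_finite] at hc
        apply hfin
        have h4 : Finite (C.subgroupOf N) := by
          refine Finite.of_injective (fun x : C.subgroupOf N => (⟨x.1.1, x.1.2,
            Subgroup.mem_subgroupOf.1 x.2⟩ : A)) ?_
          intro x y hxy
          have h5 := congrArg Subtype.val hxy
          exact Subtype.ext (Subtype.ext h5)
        have h6 : (C.subgroupOf N).FiniteIndex := inferInstance
        have h7 := Subgroup.index_mul_card (C.subgroupOf N)
        refine Nat.finite_of_card_ne_zero ?_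
        rw [← h7]
        exact Nat.mul_ne_zero h6.index_ne_zero (Nat.card_pos).ne'
      have hab : ∀ a ∈ A, ∀ b ∈ A, a * b = b * a := by
        intro a ha b hb
        have h8 : b ∈ Subgroup.centralizer (N : Set G) := hCN ▸ hb.2
        exact Subgroup.mem_centralizer_iff.1 h8 a ha.1
      have h9 : ∀ a ∈ A, ∀ η ∈ HD s, T s a η = 0 := fun a ha η hη =>
        T_zero_of_abelian gen A hab (fun b hb => (fcb_mem b).1 (hNF hb.1)) ha hη
      exact hne (zero_of_infinite_normal gen A hω₀ fun a ha => h9 a ha ω₀ hω₀)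
  refine ⟨fcb_normal, ?_, h0⟩
  by_contra hc
  rw [not_finite_iff_infinite] at hc
  have hn : (FCc G).Normal := fcb_normal
  exact hne (zero_of_infinite_normal gen (FCc G) hω₀ fun a ha => h0 a ha ω₀ hω₀)

end Pool.Agent.Lib.MP_354e85_al.L2B
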