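import Pool.Agent.Lib.MP_354e85_al.Tarski

/-! From expansion by a factor to a bound for the number of pieces. -/

set_option autoImplicit false

namespace Pool.Agent.Lib.MP_354e85_al.L2B

open Finset
open scoped Pointwise

private theorem growth_pow {G : Type} [Group G] [DecidableEq G] (K : Finset G)
    {η : ℝ} (hη : 0 < η) (h : ∀ A : Finset G, (1 + η) * (A.card : ℝ) ≤ ((A * K).card : ℝ))
    (m : ℕ) : ∀ A : Finset G, (1 + η) ^ m * (A.card : ℝ) ≤ ((A * K ^ m).card : ℝ) := by
  induction m with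
  | zero =>
    intro A
    simp
  | succ m ih =>
    intro A
    have h1 := ih A
    have h2 := h (A * K ^ m)
    rw [pow_succ K m, ← mul_assoc A (K ^ m) K]
    have h3 : (1 + η) * ((1 + η) ^ m * (A.card : ℝ)) ≤ (1 + η) * ((A * K ^ m).card : ℝ) :=
      mul_le_mul_of_nonneg_left h1 (by linarith)
    calc (1 + η) ^ (m + 1) * (A.card : ℝ) = (1 + η) * ((1 + η) ^ m * (A.card : ℝ)) := by ring
      _ ≤ _ := h3.trans h2

theorem TarskiLE.mono {G : Type} [Group G] {a b : ℕ} (h : TarskiLE G a) (hab : a ≤ b) :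
    TarskiLE G b := by
  obtain ⟨m, n, h1, h2⟩ := h
  exact ⟨m, n, h1.trans hab, h2⟩

/-- Proof. Induction on `m`: `|A * K ^ m| ≥ (1 + η) ^ m |A|`; with `(1 + η) ^ m ≥ 1 + m η ≥ 2` the set
`S = K ^ m` (with `|S| ≤ |K| ^ m`, `1 ∈ S`) satisfies `|A S ∪ B S| ≥ 2 max (|A|, |B|) ≥ |A| + |B|`, so
Hall's condition for `s₁ = s₂` = an enumeration of `S` (`tarski_of_hall` with `H = ⊤`), and
`TarskiLE G (|S| + |S|)`, and `TarskiLE` is monotone. -/
theorem tarski_of_growth {G : Type} [Group G] [DecidableEq G] (K : Finset G) (h1 : (1 : G) ∈ K)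
    {η : ℝ} (hη : 0 < η) (h : ∀ A : Finset G, (1 + η) * (A.card : ℝ) ≤ ((A * K).card : ℝ))
    (m : ℕ) (hm : 1 ≤ m * η) : TarskiLE G (2 * K.card ^ m) := by
  classical
  set S : Finset G := K ^ m with hS
  have hS1 : (1 : G) ∈ S := Finset.one_mem_pow h1
  have hSc : S.card ≤ K.card ^ m := Finset.card_pow_le
  have h2 : (2 : ℝ) ≤ (1 + η) ^ m := by
    have h3 := one_add_mul_le_pow (a := η) (by linarith) m
    linarith
  have hgr : ∀ A : Finset G, 2 * A.card ≤ (A * S).card := by
    intro A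
    have h3 := growth_pow K hη h m A
    have h4 : (2 : ℝ) * A.card ≤ (1 + η) ^ m * A.card :=
      mul_le_mul_of_nonneg_right h2 (Nat.cast_nonneg _)
    have h5 : (2 : ℝ) * A.card ≤ ((A * S).card : ℝ) := h4.trans h3
    exact_mod_cast h5
  let s : Fin S.card → (⊤ : Subgroup G) := fun i => ⟨(S.equivFin.symm i : G), trivial⟩
  have hnb : ∀ F : Finset (⊤ : Subgroup G), 2 * F.card ≤ (nb s F).card := by
    intro F
    have h3 : ((F.map ⟨Subtype.val, Subtype.val_injective⟩) * S).card ≤ (nb s F).card := by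
      have h4 : ((F.map ⟨Subtype.val, Subtype.val_injective⟩) * S)
          ⊆ (nb s F).map ⟨Subtype.val, Subtype.val_injective⟩ := by
        intro x hx
        obtain ⟨y, hy, z, hz, rfl⟩ := Finset.mem_mul.1 hx
        obtain ⟨v, hv, rfl⟩ := Finset.mem_map.1 hy
        refine Finset.mem_map.2 ⟨v * s (S.equivFin ⟨z, hz⟩), ?_, ?_⟩
        · rw [mem_nb]
          exact ⟨v, hv, _, rfl⟩
        · change ((v * s (S.equivFin ⟨z, hz⟩) : (⊤ : Subgroup G)) : G) = (v : G) * z
          have h5 : ((s (S.equivFin ⟨z, hz⟩) : (⊤ : Subgroup G)) : G) = z := by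
            change ((S.equivFin.symm (S.equivFin ⟨z, hz⟩) : S) : G) = z
            rw [Equiv.symm_apply_apply]
          rw [Subgroup.coe_mul, h5]
      have h5 := Finset.card_le_card h4
      rwa [Finset.card_map] at h5
    have h4 := hgr (F.map ⟨Subtype.val, Subtype.val_injective⟩)
    rw [Finset.card_map] at h4
    exact h4.trans h3
  have hT : TarskiLE G (S.card + S.card) := by
    refine tarski_of_hall (⊤ : Subgroup G) s s (S.equivFin ⟨1, hS1⟩) ?_ ?_
    · refine Subtype.ext ?_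
      change ((S.equivFin.symm (S.equivFin ⟨1, hS1⟩) : S) : G) = 1
      rw [Equiv.symm_apply_apply]
    · intro F₁ F₂
      refine ⟨nb s F₁ ∪ nb s F₂, fun x => Finset.mem_union, ?_⟩
      have h3 := hnb F₁
      have h4 := hnb F₂
      have h5 : (nb s F₁).card ≤ (nb s F₁ ∪ nb s F₂).card :=
        Finset.card_le_card Finset.subset_union_left
      have h6 : (nb s F₂).card ≤ (nb s F₁ ∪ nb s F₂).card :=
        Finset.card_le_card Finset.subset_union_right
      omega
  exact TarskiLE.mono hT (by omega)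

end Pool.Agent.Lib.MP_354e85_al.L2B
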