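import Pool.Agent.Lib.MP_354e85_al.L2B.Basic
import Pool.Agent.Lib.MP_354e85_al.L2B.HD

/-! Passing to the quotient by a finite normal subgroup. -/

set_option autoImplicit false

namespace Pool.Agent.Lib.MP_354e85_al.L2B

open Finset
open scoped InnerProductSpace

variable {G : Type} [Group G] {ι : Type} [Fintype ι] {s : ι → G}

omit [Fintype ι] in
private theorem quo_grad {s : ι → G} {ω : L (ι × G)} {f : G → ℝ}
    (hf : ∀ i x, ω (i, x) = f (x * s i) - f x) (l : List ι) :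
    ∀ x, Tl s l ω x = f (x * pr s l) - f x := by
  induction l with
  | nil =>
    intro x
    simp [Tl_nil, pr]
  | cons i l ih =>
    intro x
    have e : pr s (i :: l) = s i * pr s l := by simp [pr]
    rw [Tl_cons, hf, ih, e, mul_assoc]
    ring

omit [Fintype ι] in
private theorem quo_gen (gen : ∀ g : G, ∃ l, pr s l = g) (N : Subgroup G) [N.Normal] :
    ∀ q : G ⧸ N, ∃ l, pr (fun i => (QuotientGroup.mk (s i) : G ⧸ N)) l = q := by
  intro q
  obtain ⟨g, rfl⟩ := QuotientGroup.mk_surjective q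
  obtain ⟨l, rfl⟩ := gen g
  refine ⟨l, ?_⟩
  induction l with
  | nil => rfl
  | cons i l ih =>
    have e : pr s (i :: l) = s i * pr s l := by simp [pr]
    have e' : pr (fun i => (QuotientGroup.mk (s i) : G ⧸ N)) (i :: l) =
        (QuotientGroup.mk (s i) : G ⧸ N) * pr (fun i => (QuotientGroup.mk (s i) : G ⧸ N)) l := by
      simp [pr]
    rw [e, e', ih]
    rfl

/-- A harmonic gradient that is killed by the increments in `N` comes from the quotient. -/
private theorem quo_desc (gen : ∀ g : G, ∃ l, pr s l = g) (N : Subgroup G) [N.Normal]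
    (h : ∀ z ∈ N, ∀ ω ∈ HD s, T s z ω = 0) (v : L (ι × G)) (hv : v ∈ HD s) :
    ∃ v' ∈ HD (fun i => (QuotientGroup.mk (s i) : G ⧸ N)),
      (∀ i x, v' (i, (QuotientGroup.mk x : G ⧸ N)) = v (i, x)) ∧ ‖v'‖ ≤ ‖v‖ := by
  obtain ⟨⟨f, hf⟩, hh⟩ := id hv
  have hconst : ∀ x y : G, (QuotientGroup.mk x : G ⧸ N) = QuotientGroup.mk y → f x = f y := by
    intro x y hxy
    rw [QuotientGroup.eq] at hxy
    obtain ⟨l, h1, h2⟩ := T_eq gen (x⁻¹ * y)
    have h3 := h _ hxy v hv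
    rw [h2] at h3
    have h4 := quo_grad hf l x
    rw [h3, h1, mul_inv_cancel_left] at h4
    have h5 : (0 : L G) x = 0 := rfl
    rw [h5] at h4
    linarith
  let σ : G ⧸ N → G := Quotient.out
  have hσ : ∀ q, (QuotientGroup.mk (σ q) : G ⧸ N) = q := fun q => Quotient.out_eq' q
  let f' : G ⧸ N → ℝ := fun q => f (σ q)
  have hf' : ∀ x : G, f' (QuotientGroup.mk x) = f x := fun x => hconst _ _ (hσ _)
  have key : ∀ i (x : G), f' ((QuotientGroup.mk x : G ⧸ N) * QuotientGroup.mk (s i)) -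
      f' (QuotientGroup.mk x) = v (i, x) := by
    intro i x
    rw [hf, ← QuotientGroup.mk_mul, hf', hf']
  let w : ι × (G ⧸ N) → ℝ := fun p => v (p.1, σ p.2)
  have hinj : Function.Injective (fun p : ι × (G ⧸ N) => (p.1, σ p.2)) := by
    rintro ⟨i, q⟩ ⟨j, r⟩ hpq
    have h1 := (Prod.mk.inj hpq).1
    have h2 := (Prod.mk.inj hpq).2
    have h3 : q = r := by rw [← hσ q, ← hσ r]; exact congrArg _ h2
    exact Prod.ext h1 h3
  have hsum : Summable fun p => (w p) ^ 2 := (L_hasSum v).summable.comp_injective hinj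
  let v' : L (ι × (G ⧸ N)) := ⟨w, L_mem hsum⟩
  have hv' : ∀ i (x : G), v' (i, (QuotientGroup.mk x : G ⧸ N)) = v (i, x) := by
    intro i x
    change v (i, σ (QuotientGroup.mk x)) = v (i, x)
    rw [← key i x, ← key i (σ (QuotientGroup.mk x)), hσ]
  refine ⟨v', ⟨⟨f', ?_⟩, ?_⟩, hv', ?_⟩
  · intro i q
    obtain ⟨x, rfl⟩ := QuotientGroup.mk_surjective q
    rw [hv', key]
  · intro q
    obtain ⟨x, rfl⟩ := QuotientGroup.mk_surjective q
    have e : ∀ i, v' (i, (QuotientGroup.mk x : G ⧸ N)) = v (i, x) := fun i => hv' i x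
    rw [Finset.sum_congr rfl fun i _ => e i]
    exact hh x
  · have h3 : ‖v'‖ ^ 2 ≤ ‖v‖ ^ 2 :=
      hasSum_le_inj (fun p : ι × (G ⧸ N) => (p.1, σ p.2)) hinj
        (fun _ _ => sq_nonneg _) (fun _ => le_rfl) (L_hasSum v') (L_hasSum v)
    exact (pow_le_pow_iff_left₀ (norm_nonneg _) (norm_nonneg _) (by norm_num)).1 h3

/-- The projections of the basis vectors. -/
private theorem quo_dm {H : Type} [Group H] {r : ι → H} (gen : ∀ g : H, ∃ l, pr r l = g) :
    ∃ u : ι → L (ι × H), (∀ i, u i ∈ HD r) ∧ (∀ i, ∀ ω ∈ HD r, ⟪ω, u i⟫_ℝ = ω (i, 1)) ∧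
      dm (HD r) = ∑ i, ‖u i‖ ^ 2 := by
  classical
  have hcl : (HD r).topologicalClosure = HD r :=
    (HD_good r gen).closed.submodule_topologicalClosure_eq
  refine ⟨fun i => (HD r).topologicalClosure.starProjection
    (lp.single 2 ((i, 1) : ι × H) (1 : ℝ)), fun i => hcl.le (Submodule.starProjection_apply_mem _ _),
    fun i ω hω => ?_, ?_⟩
  · have h8 := Submodule.starProjection_inner_eq_zero (K := (HD r).topologicalClosure)
      (lp.single 2 ((i, 1) : ι × H) (1 : ℝ)) ω (by rw [hcl]; exact hω)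
    rw [inner_sub_left, sub_eq_zero] at h8
    rw [real_inner_comm, ← h8, real_inner_comm, lp.inner_single_right]
    simp
  · unfold dm
    rfl

/-- Proof. Let `e i`, `e' i` be the basis vectors at `(i, 1)` and `v = P (e i)` the projection to
`HD s` (closed by `HD_good`). The potential `f` of `v` is constant on the cosets `x * N` (as
`T s z v = 0`), so there is `f'` on `G ⧸ N` with `f = f' ∘ mk`, and `v' (i, x') = f' (x' * mk (s i)) - f' x'`
defines `v' ∈ HD (mk ∘ s)`, `v (i, x) = v' (i, mk x)`, `‖v'‖ ^ 2 = ‖v‖ ^ 2 / |N| ≤ ‖v‖ ^ 2`. So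
`‖v‖ ^ 2 = v (i, 1) = v' (i, 1) = ⟪v', P' (e' i)⟫ ≤ ‖v'‖ ‖P' (e' i)‖ ≤ ‖v‖ ‖P' (e' i)‖`. -/
theorem dm_quotient (gen : ∀ g : G, ∃ l, pr s l = g) (N : Subgroup G) [N.Normal] [Finite N]
    (h : ∀ z ∈ N, ∀ ω ∈ HD s, T s z ω = 0) :
    dm (HD s) ≤ dm (HD (fun i => (QuotientGroup.mk (s i) : G ⧸ N))) := by
  obtain ⟨p, hpm, hval, hpd⟩ := quo_dm gen
  obtain ⟨p', _, hval', hpd'⟩ := quo_dm (quo_gen gen N)
  rw [hpd, hpd']
  refine Finset.sum_le_sum fun i _ => ?_
  have hval := hval i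
  have hval' := hval' i
  have hvm := hpm i
  generalize p i = v at hval hvm ⊢
  generalize p' i = u at hval' ⊢
  obtain ⟨v', hv'm, hv'e, hv'n⟩ := quo_desc gen N h v hvm
  have h1 : ‖v‖ ^ 2 = v (i, 1) := by
    rw [← real_inner_self_eq_norm_sq]
    exact hval v hvm
  have h2 : v (i, 1) = ⟪v', u⟫_ℝ := by
    rw [hval' v' hv'm, ← hv'e]
    rfl
  have h3 : ⟪v', u⟫_ℝ ≤ ‖v'‖ * ‖u‖ := real_inner_le_norm _ _
  have h4 : ‖v'‖ * ‖u‖ ≤ ‖v‖ * ‖u‖ := mul_le_mul_of_nonneg_right hv'n (norm_nonneg _)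
  have h5 : ‖v‖ * ‖v‖ ≤ ‖v‖ * ‖u‖ := by
    rw [← sq]
    linarith
  have h6 : ‖v‖ ≤ ‖u‖ := by
    rcases (norm_nonneg v).eq_or_lt with h0 | h0
    · rw [← h0]
      exact norm_nonneg _
    · exact le_of_mul_le_mul_left h5 h0
  exact pow_le_pow_left₀ (norm_nonneg _) h6 2

/-- If `x N` has a finite conjugacy class in `G ⧸ N`, `N` finite, then `x` has one in `G`. -/
theorem icc_quotient (N : Subgroup G) [N.Normal] [Finite N]
    (h : ∀ g : G, (Set.range fun x : G => x * g * x⁻¹).Finite → g ∈ N) :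
    ∀ g : G ⧸ N, g ≠ 1 → (Set.range fun x : G ⧸ N => x * g * x⁻¹).Infinite := by
  intro g hg hfin
  obtain ⟨a, rfl⟩ := QuotientGroup.mk_surjective g
  have hN : (N : Set G).Finite := Set.toFinite _
  have hpre : ((fun x : G => (QuotientGroup.mk x : G ⧸ N)) ⁻¹'
      (Set.range fun x : G ⧸ N => x * (QuotientGroup.mk a : G ⧸ N) * x⁻¹)).Finite := by
    refine Set.Finite.preimage' hfin ?_
    intro b _
    obtain ⟨c, rfl⟩ := QuotientGroup.mk_surjective b
    refine (hN.image (fun z => c * z)).subset ?_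
    intro x hx
    have hx' : (QuotientGroup.mk x : G ⧸ N) = QuotientGroup.mk c := hx
    exact ⟨c⁻¹ * x, QuotientGroup.eq.1 hx'.symm, by simp⟩
  apply hg
  rw [QuotientGroup.eq_one_iff]
  refine h a (hpre.subset ?_)
  rintro _ ⟨x, rfl⟩
  exact ⟨QuotientGroup.mk x, rfl⟩

end Pool.Agent.Lib.MP_354e85_al.L2B
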