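import Pool.Agent.Lib.MP_354e85_al.L2B.Walk

/-! Return probabilities tend to zero. -/

set_option autoImplicit false

namespace Pool.Agent.Lib.MP_354e85_al.L2B

open Finset Filter Topology
open scoped InnerProductSpace

variable {G : Type} [Group G] {ι : Type} [Fintype ι]

/-- The average of the right translations by the inverse letters. -/
private noncomputable def Ro (s : ι → G) : L G →L[ℝ] L G :=
  (Fintype.card ι : ℝ)⁻¹ • ∑ i, (RR (s i)⁻¹).toContinuousLinearMap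

private theorem Ro_apply (s : ι → G) (f : L G) :
    Ro s f = (Fintype.card ι : ℝ)⁻¹ • ∑ i, RR (s i)⁻¹ f := by
  unfold Ro
  rw [_root_.smul_apply, _root_.sum_apply]
  rfl

private theorem card_pos' [Nonempty ι] : (0 : ℝ) < (Fintype.card ι : ℝ) := by
  exact_mod_cast Fintype.card_pos

/-- `∑ ‖u i - ū‖ ^ 2 = ∑ ‖u i‖ ^ 2 - q ‖ū‖ ^ 2`. -/
private theorem var_id [Nonempty ι] (s : ι → G) (f : L G) :
    ∑ i, ‖RR (s i)⁻¹ f - Ro s f‖ ^ 2
      = (Fintype.card ι : ℝ) * ‖f‖ ^ 2 - (Fintype.card ι : ℝ) * ‖Ro s f‖ ^ 2 := by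
  have hq : (0 : ℝ) < (Fintype.card ι : ℝ) := card_pos'
  have h1 : ∑ i, RR (s i)⁻¹ f = (Fintype.card ι : ℝ) • Ro s f := by
    rw [Ro_apply, smul_smul, mul_inv_cancel₀ hq.ne', one_smul]
  have h2 : ∀ i, ‖RR (s i)⁻¹ f - Ro s f‖ ^ 2
      = ‖f‖ ^ 2 - 2 * ⟪RR (s i)⁻¹ f, Ro s f⟫_ℝ + ‖Ro s f‖ ^ 2 := by
    intro i
    rw [norm_sub_sq_real, LinearIsometry.norm_map]
  rw [sum_congr rfl fun i _ => h2 i, sum_add_distrib, sum_sub_distrib, ← mul_sum,
    ← sum_inner, h1, inner_smul_left, real_inner_self_eq_norm_sq, sum_const, sum_const,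
    card_univ, nsmul_eq_mul, nsmul_eq_mul]
  simp only [conj_trivial]
  ring

private theorem Ro_norm [Nonempty ι] (s : ι → G) (f : L G) : ‖Ro s f‖ ≤ ‖f‖ := by
  have hq : (0 : ℝ) < (Fintype.card ι : ℝ) := card_pos'
  have h1 := var_id s f
  have h2 : 0 ≤ ∑ i, ‖RR (s i)⁻¹ f - Ro s f‖ ^ 2 := sum_nonneg fun i _ => sq_nonneg _
  have h3 : ‖Ro s f‖ ^ 2 ≤ ‖f‖ ^ 2 := by
    rw [h1] at h2
    have h4 : (Fintype.card ι : ℝ) * ‖Ro s f‖ ^ 2 ≤ (Fintype.card ι : ℝ) * ‖f‖ ^ 2 := by linarith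
    exact le_of_mul_le_mul_left h4 hq
  exact (pow_le_pow_iff_left₀ (norm_nonneg _) (norm_nonneg _) (by norm_num)).1 h3

private theorem Ro_eq [Nonempty ι] (s : ι → G) {f : L G} (h : ‖Ro s f‖ = ‖f‖) (i : ι) :
    RR (s i)⁻¹ f = Ro s f := by
  have h1 := var_id s f
  rw [h, sub_self] at h1
  have h2 := (sum_eq_zero_iff_of_nonneg (fun i _ => sq_nonneg _)).1 h1 i (mem_univ i)
  have h3 : ‖RR (s i)⁻¹ f - Ro s f‖ = 0 := by
    exact pow_eq_zero_iff (two_ne_zero) |>.1 h2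
  exact sub_eq_zero.1 (norm_eq_zero.1 h3)

private theorem RR_inner (g : G) (f h : L G) : ⟪RR g f, h⟫_ℝ = ⟪f, RR g⁻¹ h⟫_ℝ := by
  have h1 : RR g (RR g⁻¹ h) = h := by
    apply L_ext
    intro x
    simp
  have h2 : ⟪RR g f, RR g (RR g⁻¹ h)⟫_ℝ = ⟪f, RR g⁻¹ h⟫_ℝ := LinearIsometry.inner_map_map _ _ _
  rw [h1] at h2
  exact h2

private theorem Ro_self (s : ι → G) (σ : ι → ι) (hσ : Function.Involutive σ)
    (hs : ∀ i, s (σ i) = (s i)⁻¹) (f h : L G) : ⟪Ro s f, h⟫_ℝ = ⟪f, Ro s h⟫_ℝ := by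
  have h1 : ∑ i, ⟪RR (s i)⁻¹ f, h⟫_ℝ = ∑ i, ⟪f, RR (s i)⁻¹ h⟫_ℝ := by
    refine Fintype.sum_equiv (Function.Involutive.toPerm σ hσ) _ _ fun i => ?_
    rw [RR_inner, Function.Involutive.coe_toPerm, hs]
  rw [Ro_apply, Ro_apply, inner_smul_left, inner_smul_right, sum_inner, inner_sum, h1]
  simp only [conj_trivial]

/-- A fixed vector of the square of the average vanishes. -/
private theorem fix_zero [Nonempty ι] [Infinite G] (s : ι → G) (gen : ∀ g : G, ∃ l, pr s l = g)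
    {f : L G} (h : Ro s (Ro s f) = f) : f = 0 := by
  have n1 : ‖Ro s f‖ = ‖f‖ := by
    refine le_antisymm (Ro_norm s f) ?_
    have h1 := Ro_norm s (Ro s f)
    rw [h] at h1
    exact h1
  have n2 : ‖Ro s (Ro s f)‖ = ‖Ro s f‖ := by rw [h, n1]
  have e1 := Ro_eq s n1
  have e2 := Ro_eq s n2
  rw [h] at e2
  let φ : G → ℝ := fun x => (f x) ^ 2 + (Ro s f x) ^ 2
  have hφ : ∀ i x, φ (x * (s i)⁻¹) = φ x := by
    intro i x
    have a1 : f (x * (s i)⁻¹) = Ro s f x := by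
      have := congrArg (fun u : L G => u x) (e1 i)
      exact this
    have a2 : Ro s f (x * (s i)⁻¹) = f x := by
      have := congrArg (fun u : L G => u x) (e2 i)
      exact this
    show (f (x * (s i)⁻¹)) ^ 2 + (Ro s f (x * (s i)⁻¹)) ^ 2 = (f x) ^ 2 + (Ro s f x) ^ 2
    rw [a1, a2]
    ring
  have hφ' : ∀ i x, φ (x * s i) = φ x := by
    intro i x
    have h1 := hφ i (x * s i)
    rw [mul_inv_cancel_right] at h1
    exact h1.symm
  have hw : ∀ (l : List ι) (x : G), φ (x * pr s l) = φ x := by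
    intro l
    induction l with
    | nil =>
      intro x
      simp [pr]
    | cons i l ih =>
      intro x
      have e : pr s (i :: l) = s i * pr s l := by simp [pr]
      rw [e, ← mul_assoc, ih, hφ']
  have hc : ∀ x, φ x = φ 1 := by
    intro x
    obtain ⟨l, hl⟩ := gen x
    have h1 := hw l 1
    rw [one_mul, hl] at h1
    exact h1
  have hsum : Summable φ := (L_hasSum f).summable.add (L_hasSum (Ro s f)).summable
  have hc0 : φ 1 = 0 := by
    have h1 : φ = fun _ : G => φ 1 := funext hc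
    rw [h1] at hsum
    exact (summable_const_iff _).1 hsum
  apply L_ext
  intro x
  have h1 : (f x) ^ 2 + (Ro s f x) ^ 2 = 0 := (hc x).trans hc0
  have h2 : (f x) ^ 2 = 0 := by nlinarith [sq_nonneg (f x), sq_nonneg (Ro s f x)]
  have h3 : f x = 0 := pow_eq_zero_iff (two_ne_zero) |>.1 h2
  rw [h3]
  rfl

/-- The distribution of the walk. -/
private noncomputable def ms [DecidableEq G] (s : ι → G) (n : ℕ) : L G :=
  W s n (fun g => (lp.single 2 g (1 : ℝ) : L G))

private theorem ms_succ [DecidableEq G] (s : ι → G) (n : ℕ) : ms s (n + 1) = Ro s (ms s n) := by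
  have h1 : (fun g : G => (Fintype.card ι : ℝ)⁻¹ • ∑ i, (lp.single 2 (g * s i) (1 : ℝ) : L G))
      = fun g => ((Ro s : L G →L[ℝ] L G) : L G →ₗ[ℝ] L G) (lp.single 2 g (1 : ℝ)) := by
    funext g
    rw [ContinuousLinearMap.coe_coe, Ro_apply]
    congr 1
    refine sum_congr rfl fun i _ => ?_
    apply L_ext
    intro x
    rw [RR_apply, lp.single_apply, lp.single_apply]
    by_cases hx : x = g * s i
    · rw [hx]
      simp
    · have hx' : x * (s i)⁻¹ ≠ g := by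
        intro h
        exact hx (by rw [← h]; simp)
      simp [Pi.single_eq_of_ne, hx, hx']
  have h2 : ms s (n + 1)
      = W s n (fun g => (Fintype.card ι : ℝ)⁻¹ • ∑ i, (lp.single 2 (g * s i) (1 : ℝ) : L G)) := rfl
  rw [h2, h1, ← W_map]
  rfl

private theorem ms_inner [DecidableEq G] (s : ι → G) (σ : ι → ι) (hσ : Function.Involutive σ)
    (hs : ∀ i, s (σ i) = (s i)⁻¹) (n k : ℕ) : ⟪ms s n, ms s k⟫_ℝ = ⟪ms s (n + k), ms s 0⟫_ℝ := by
  induction k generalizing n with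
  | zero => rfl
  | succ k ih =>
    rw [ms_succ, ← Ro_self s σ hσ hs, ← ms_succ, ih]
    congr 2
    omega

private theorem ms_tendsto [Nonempty ι] [Infinite G] (s : ι → G)
    (gen : ∀ g : G, ∃ l, pr s l = g) (σ : ι → ι) (hσ : Function.Involutive σ)
    (hs : ∀ i, s (σ i) = (s i)⁻¹) [DecidableEq G] : Tendsto (ms s) atTop (𝓝 0) := by
  have hin := ms_inner s σ hσ hs
  have hanti : Antitone fun n => ‖ms s n‖ ^ 2 := by
    refine antitone_nat_of_succ_le fun n => ?_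
    have h1 : ‖ms s (n + 1)‖ ≤ ‖ms s n‖ := by
      rw [ms_succ]
      exact Ro_norm s _
    exact pow_le_pow_left₀ (norm_nonneg _) h1 2
  have hbdd : BddBelow (Set.range fun n => ‖ms s n‖ ^ 2) :=
    ⟨0, by rintro _ ⟨n, rfl⟩; exact sq_nonneg _⟩
  have hlim := tendsto_atTop_ciInf hanti hbdd
  set c : ℝ := ⨅ n, ‖ms s n‖ ^ 2 with hc
  have hge : ∀ n, c ≤ ‖ms s n‖ ^ 2 := fun n => ciInf_le hbdd n
  have hd : ∀ n k, ‖ms s (2 * n) - ms s (2 * k)‖ ^ 2
      = ‖ms s (2 * n)‖ ^ 2 + ‖ms s (2 * k)‖ ^ 2 - 2 * ‖ms s (n + k)‖ ^ 2 := by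
    intro n k
    have h1 : ⟪ms s (2 * n), ms s (2 * k)⟫_ℝ = ‖ms s (n + k)‖ ^ 2 := by
      rw [← real_inner_self_eq_norm_sq, hin, hin (n + k)]
      congr 2
      omega
    rw [norm_sub_sq_real, h1]
    ring
  have hcau : CauchySeq fun n => ms s (2 * n) := by
    refine cauchySeq_of_le_tendsto_0 (fun N => Real.sqrt (2 * (‖ms s N‖ ^ 2 - c))) ?_ ?_
    · intro n k N hn hk
      rw [dist_eq_norm]
      refine Real.le_sqrt_of_sq_le ?_
      rw [hd]
      have h1 := hanti (show N ≤ 2 * n by omega)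
      have h2 := hanti (show N ≤ 2 * k by omega)
      have h3 := hge (n + k)
      simp only at h1 h2
      linarith
    · have h1 : Tendsto (fun N => 2 * (‖ms s N‖ ^ 2 - c)) atTop (𝓝 (2 * (c - c))) :=
        (hlim.sub_const c).const_mul 2
      have h2 := (Real.continuous_sqrt.tendsto _).comp h1
      rw [sub_self, mul_zero, Real.sqrt_zero] at h2
      exact h2
  obtain ⟨f, hf⟩ := cauchySeq_tendsto_of_complete hcau
  have hf2 : Ro s (Ro s f) = f := by
    have h1 : Tendsto (fun n => Ro s (Ro s (ms s (2 * n)))) atTop (𝓝 (Ro s (Ro s f))) :=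
      ((Ro s).continuous.tendsto _).comp (((Ro s).continuous.tendsto _).comp hf)
    have h2 : Tendsto (fun n => ms s (2 * (n + 1))) atTop (𝓝 f) :=
      hf.comp (tendsto_add_atTop_nat 1)
    have h3 : (fun n => Ro s (Ro s (ms s (2 * n)))) = fun n => ms s (2 * (n + 1)) := by
      funext n
      rw [← ms_succ, ← ms_succ]
      rfl
    rw [h3] at h1
    exact tendsto_nhds_unique h1 h2
  have hf0 := fix_zero s gen hf2
  rw [hf0] at hf
  have hc0 : c = 0 := by
    have h1 : Tendsto (fun n => ‖ms s (2 * n)‖ ^ 2) atTop (𝓝 (‖(0 : L G)‖ ^ 2)) :=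
      (hf.norm).pow 2
    have h2 : Tendsto (fun n => ‖ms s (2 * n)‖ ^ 2) atTop (𝓝 c) :=
      hlim.comp (tendsto_atTop_mono (fun n => by show n ≤ 2 * n; omega) tendsto_id)
    have h3 := tendsto_nhds_unique h1 h2
    rw [norm_zero] at h3
    rw [← h3]
    norm_num
  rw [tendsto_zero_iff_norm_tendsto_zero]
  have h4 : Tendsto (fun n => Real.sqrt (‖ms s n‖ ^ 2)) atTop (𝓝 (Real.sqrt c)) :=
    (Real.continuous_sqrt.tendsto _).comp hlim
  rw [hc0, Real.sqrt_zero] at h4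
  have h5 : (fun n => Real.sqrt (‖ms s n‖ ^ 2)) = fun n => ‖ms s n‖ := by
    funext n
    exact Real.sqrt_sq (norm_nonneg _)
  rw [h5] at h4
  exact h4

omit [Group G] in
private theorem single_inner [DecidableEq G] (g g' : G) :
    ⟪(lp.single 2 g (1 : ℝ) : L G), (lp.single 2 g' (1 : ℝ) : L G)⟫_ℝ
      = if g = g' then (1 : ℝ) else 0 := by
  rw [lp.inner_single_right, lp.single_apply]
  by_cases h : g = g'
  · rw [h]
    simp
  · simp [Pi.single_eq_of_ne, h, Ne.symm h]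

private theorem W_inner [DecidableEq G] (s : ι → G) (n : ℕ) (v : L G) :
    W s n (fun g => ⟪v, (lp.single 2 g (1 : ℝ) : L G)⟫_ℝ) = ⟪v, ms s n⟫_ℝ :=
  (W_map s n (innerₗ (L G) v) (fun g => (lp.single 2 g (1 : ℝ) : L G))).symm

/-- Proof. Let `m n = W s n (fun g => δ_g) ∈ L G`; the left side is `‖m n‖ ^ 2` (`W_map` twice).
`m (n + 1) = R (m n)` with `R = q⁻¹ ∑ i, RR (s i)⁻¹`, a contraction, self-adjoint by the symmetry
of the letters. Its fixed vectors are invariant under all `RR (s i)⁻¹` (strict convexity), so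
constant, so `0` (`G` infinite). Mean ergodic theorem
(`ContinuousLinearMap.tendsto_birkhoffAverage_orthogonalProjection`):
`n⁻¹ ∑ j < n, ⟪R ^ j δ_1, δ_1⟫ → 0`; all terms are `≥ 0`, the even ones are `‖R ^ j δ_1‖ ^ 2`,
decreasing in `j`; so `‖m n‖ ^ 2 → 0`. -/
theorem ret_zero [Nonempty ι] [Infinite G] (s : ι → G) (gen : ∀ g : G, ∃ l, pr s l = g)
    (σ : ι → ι) (hσ : Function.Involutive σ) (hs : ∀ i, s (σ i) = (s i)⁻¹) [DecidableEq G] :
    Tendsto (fun n => W s n (fun g => W s n (fun g' => if g = g' then (1 : ℝ) else 0))) atTop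
      (𝓝 0) := by
  have hm := ms_tendsto s gen σ hσ hs
  have h1 : (fun n => W s n (fun g => W s n (fun g' => if g = g' then (1 : ℝ) else 0)))
      = fun n => ⟪ms s n, ms s n⟫_ℝ := by
    funext n
    have h2 : (fun g => W s n (fun g' => if g = g' then (1 : ℝ) else 0))
        = fun g => ⟪ms s n, (lp.single 2 g (1 : ℝ) : L G)⟫_ℝ := by
      funext g
      have h3 : (fun g' => if g = g' then (1 : ℝ) else 0)
          = fun g' => ⟪(lp.single 2 g (1 : ℝ) : L G), (lp.single 2 g' (1 : ℝ) : L G)⟫_ℝ := by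
        funext g'
        rw [single_inner]
      rw [h3, W_inner, real_inner_comm]
    rw [h2, W_inner]
  rw [h1]
  have h4 := hm.inner (𝕜 := ℝ) hm
  simpa using h4

/-- The probability that the walk is at `1` tends to zero: `R ^ n δ_1` at `1`, by
Cauchy - Schwarz `≤ ‖m n‖` with the letters of the proof of `ret_zero`
(`W s n (fun g => if g = 1 then 1 else 0) = ⟪m n, δ_1⟫`). -/
theorem at_one_zero [Nonempty ι] [Infinite G] (s : ι → G) (gen : ∀ g : G, ∃ l, pr s l = g)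
    (σ : ι → ι) (hσ : Function.Involutive σ) (hs : ∀ i, s (σ i) = (s i)⁻¹) [DecidableEq G] :
    Tendsto (fun n => W s n (fun g => if g = 1 then (1 : ℝ) else 0)) atTop (𝓝 0) := by
  have hm := ms_tendsto s gen σ hσ hs
  have h1 : (fun n => W s n (fun g => if g = 1 then (1 : ℝ) else 0))
      = fun n => ⟪(lp.single 2 (1 : G) (1 : ℝ) : L G), ms s n⟫_ℝ := by
    funext n
    have h3 : (fun g : G => if g = 1 then (1 : ℝ) else 0)
        = fun g => ⟪(lp.single 2 (1 : G) (1 : ℝ) : L G), (lp.single 2 g (1 : ℝ) : L G)⟫_ℝ := by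
      funext g
      rw [single_inner]
      by_cases h : g = 1
      · rw [h]
      · rw [if_neg h, if_neg (Ne.symm h)]
    rw [h3, W_inner]
  rw [h1]
  have h4 := (tendsto_const_nhds (x := (lp.single 2 (1 : G) (1 : ℝ) : L G))).inner (𝕜 := ℝ) hm
  simpa using h4

end Pool.Agent.Lib.MP_354e85_al.L2B
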