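import Pool.Agent.Lib.MP_354e85_al.L2B.Walk

/-! Averages over tuples of independent walks. -/

set_option autoImplicit false

namespace Pool.Agent.Lib.MP_354e85_al.L2B

open Finset

variable {G : Type} [Group G] {ι : Type} [Fintype ι]

/-- The average of `F` over `k` independent walks of length `n`. -/
noncomputable def Wk (s : ι → G) (n : ℕ) : (k : ℕ) → ((Fin k → G) → ℝ) → ℝ
  | 0, F => F Fin.elim0
  | k + 1, F => W s n (fun g => Wk s n k (fun h => F (Fin.cons g h)))

private theorem W_sumR (s : ι → G) (n : ℕ) {κ : Type*} (S : Finset κ) (F : κ → G → ℝ) :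
    W s n (fun g => ∑ i ∈ S, F i g) = ∑ i ∈ S, W s n (F i) := by
  classical
  induction S using Finset.induction_on with
  | empty =>
    have h := W_smul s n 0 (fun _ : G => (0 : ℝ))
    simp only [zero_smul] at h
    simpa using h
  | insert a S ha ih =>
    rw [sum_insert ha, ← ih, ← W_add]
    congr 1
    funext g
    rw [sum_insert ha]

private theorem Wk_succ (s : ι → G) (n k : ℕ) (F : (Fin (k + 1) → G) → ℝ) :
    Wk s n (k + 1) F = W s n (fun g => Wk s n k (fun h => F (Fin.cons g h))) := rfl

/-- Fubini: induction on `m` with `W_map` / `W_add`, `W_smul`. -/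
theorem W_comm (s : ι → G) (n m : ℕ) (F : G → G → ℝ) :
    W s n (fun a => W s m (fun b => F a b)) = W s m (fun b => W s n (fun a => F a b)) := by
  induction m generalizing F with
  | zero => rfl
  | succ m ih =>
    have h1 : W s n (fun a => W s (m + 1) (fun b => F a b))
        = W s n (fun a => W s m (fun b => (Fintype.card ι : ℝ)⁻¹ • ∑ i, F a (b * s i))) := rfl
    have h2 : W s (m + 1) (fun b => W s n (fun a => F a b))
        = W s m (fun b => (Fintype.card ι : ℝ)⁻¹ • ∑ i, W s n (fun a => F a (b * s i))) := rfl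
    rw [h1, h2, ih fun a b => (Fintype.card ι : ℝ)⁻¹ • ∑ i, F a (b * s i)]
    congr 1
    funext b
    rw [W_smul, W_sumR]

theorem Wk_add (s : ι → G) (n k : ℕ) (F F' : (Fin k → G) → ℝ) :
    Wk s n k (fun g => F g + F' g) = Wk s n k F + Wk s n k F' := by
  induction k with
  | zero => rfl
  | succ k ih =>
    rw [Wk_succ, Wk_succ, Wk_succ, ← W_add]
    congr 1
    funext g
    exact ih _ _

theorem Wk_mul (s : ι → G) (n k : ℕ) (c : ℝ) (F : (Fin k → G) → ℝ) :
    Wk s n k (fun g => c * F g) = c * Wk s n k F := by
  induction k with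
  | zero => rfl
  | succ k ih =>
    rw [Wk_succ, Wk_succ, ← smul_eq_mul, ← W_smul]
    congr 1
    funext g
    rw [smul_eq_mul]
    exact ih _

theorem Wk_sum (s : ι → G) (n k : ℕ) {κ : Type} (t : Finset κ) (F : κ → (Fin k → G) → ℝ) :
    Wk s n k (fun g => ∑ a ∈ t, F a g) = ∑ a ∈ t, Wk s n k (F a) := by
  induction k with
  | zero => rfl
  | succ k ih =>
    rw [Wk_succ]
    have h : ∀ a ∈ t, Wk s n (k + 1) (F a)
        = W s n (fun g => Wk s n k (fun h => F a (Fin.cons g h))) := fun a _ => rfl
    rw [sum_congr rfl h, ← W_sumR]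
    congr 1
    funext g
    exact ih _

theorem Wk_mono (s : ι → G) (n k : ℕ) {F F' : (Fin k → G) → ℝ} (h : ∀ g, F g ≤ F' g) :
    Wk s n k F ≤ Wk s n k F' := by
  induction k with
  | zero => exact h _
  | succ k ih =>
    rw [Wk_succ, Wk_succ]
    exact W_mono s n fun g => ih fun h' => h _

theorem Wk_const [Nonempty ι] (s : ι → G) (n k : ℕ) (c : ℝ) : Wk s n k (fun _ => c) = c := by
  induction k with
  | zero => rfl
  | succ k ih =>
    rw [Wk_succ]
    have h : (fun _ : G => Wk s n k (fun _ => c)) = fun _ => c := by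
      funext g
      exact ih
    rw [h]
    exact W_const s n c

theorem Wk_sq [Nonempty ι] (s : ι → G) (n k : ℕ) (F : (Fin k → G) → ℝ) :
    (Wk s n k F) ^ 2 ≤ Wk s n k (fun g => F g ^ 2) := by
  induction k with
  | zero => exact le_refl _
  | succ k ih =>
    rw [Wk_succ, Wk_succ]
    exact (W_sq s n _).trans (W_mono s n fun g => ih _)

theorem Wk_one [Nonempty ι] (s : ι → G) (n k : ℕ) (i : Fin k) (F : G → ℝ) :
    Wk s n k (fun g => F (g i)) = W s n F := by
  induction k with
  | zero => exact i.elim0
  | succ k ih =>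
    rw [Wk_succ]
    refine Fin.cases ?_ (fun j => ?_) i
    · congr 1
      funext g
      exact Wk_const s n k (F g)
    · have h : (fun g : G => Wk s n k (fun h => F ((Fin.cons g h : Fin (k + 1) → G) j.succ)))
          = fun _ => W s n F := by
        funext g
        exact ih j
      rw [h]
      exact W_const s n _

theorem Wk_two [Nonempty ι] (s : ι → G) (n k : ℕ) (i j : Fin k) (hij : i ≠ j) (F : G → G → ℝ) :
    Wk s n k (fun g => F (g i) (g j)) = W s n (fun a => W s n (fun b => F a b)) := by
  induction k with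
  | zero => exact i.elim0
  | succ k ih =>
    rw [Wk_succ]
    revert hij
    refine Fin.cases ?_ (fun i' => ?_) i
    · refine Fin.cases (fun h => absurd rfl h) (fun j' _ => ?_) j
      congr 1
      funext g
      exact Wk_one s n k j' (F g)
    · refine Fin.cases (fun _ => ?_) (fun j' hij => ?_) j
      · rw [W_comm]
        congr 1
        funext g
        exact Wk_one s n k i' (fun a => F a g)
      · have h : (fun g : G => Wk s n k (fun h => F ((Fin.cons g h : Fin (k + 1) → G) i'.succ)
            ((Fin.cons g h : Fin (k + 1) → G) j'.succ)))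
            = fun _ => W s n (fun a => W s n (fun b => F a b)) := by
          funext g
          exact ih i' j' (fun h => hij (h ▸ rfl))
        rw [h]
        exact W_const s n _

end Pool.Agent.Lib.MP_354e85_al.L2B
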