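import Pool.Agent.Lib.MP_354e85_al.L2B.Pair
import Pool.Agent.Lib.MP_354e85_al.L2B.Tup
import Pool.Agent.Lib.MP_354e85_al.L2B.Ret
import Pool.Agent.Lib.MP_354e85_al.L2B.Exp

/-! A set of bounded size which expands every finite set. -/

set_option autoImplicit false

namespace Pool.Agent.Lib.MP_354e85_al.L2B

open Finset Filter Topology
open scoped InnerProductSpace Pointwise

variable {G : Type} [Group G] {ι : Type} [Fintype ι] {s : ι → G}
  {Z : Submodule ℝ (L (ι × G))} {u : G → L (ι × G)}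

theorem mom2_lim [Nonempty ι] (gen : ∀ g : G, ∃ l, pr s l = g)
    (icc : ∀ g : G, g ≠ 1 → (Set.range fun x : G => x * g * x⁻¹).Infinite) (σ : ι → ι)
    (hσ : Function.Involutive σ) (hs : ∀ i, s (σ i) = (s i)⁻¹) (hZ : Good s Z)
    (hu : Rep s Z u) {δ : ℝ} (hδ : 0 < δ) :
    ∀ᶠ n : ℕ in atTop, ((Fintype.card ι : ℝ) / n) ^ 2 * W s n (fun g => ‖cc s u g‖ ^ 2) ≤
      dm Z ^ 2 + 2 * dm Z + δ := by
  have hD := dm_nonneg Z
  have hq : (0 : ℝ) < Fintype.card ι := by exact_mod_cast Fintype.card_pos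
  set D := dm Z with hDdef
  set q : ℝ := (Fintype.card ι : ℝ) with hqdef
  set N : ℕ → ℝ := fun n => W s n (fun g => ‖cc s u g‖ ^ 2) with hN
  set a : ℕ → ℝ := fun n => ⟪∑ j ∈ range n, (P s ^ j) (Th s u), Th s u⟫_ℝ with ha
  have hN0 : ∀ n, 0 ≤ N n := by
    intro n
    have h1 := W_mono s n (F := fun _ => (0 : ℝ)) (F' := fun g => ‖cc s u g‖ ^ 2)
      (fun g => by positivity)
    rwa [W_const] at h1
  have hk0 : 0 ≤ kap s u := by
    unfold kap
    positivity
  have herg : Tendsto (fun n : ℕ => (n : ℝ)⁻¹ * a n) atTop (𝓝 ((D / q) ^ 2)) := by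
    have h1 := erg s gen icc (Th s u)
    rwa [Th_one hu] at h1
  -- choice of ε
  set ε : ℝ := δ / (2 * (q ^ 2 + 2 * D + 1)) with hε
  have hε0 : 0 < ε := by positivity
  have hεb : ε * (q ^ 2 + 2 * D) ≤ δ / 2 := by
    rw [hε, div_mul_eq_mul_div, div_le_div_iff₀ (by positivity) (by positivity)]
    nlinarith
  have h1 : ∀ᶠ n : ℕ in atTop, (n : ℝ)⁻¹ * a n < (D / q) ^ 2 + ε :=
    herg.eventually_lt_const (by linarith)
  obtain ⟨n1, hn1⟩ := Filter.eventually_atTop.1 h1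
  set n0 := n1 + 1 with hn0
  set x : ℝ := (D / q) ^ 2 + ε with hx
  have hx0 : 0 ≤ x := by positivity
  have ha' : ∀ n, n0 ≤ n → a n ≤ n * x := by
    intro n hn
    have h2 := hn1 n (by omega)
    have h3 : (0 : ℝ) < n := by exact_mod_cast (by omega : 0 < n)
    rw [inv_mul_lt_iff₀ h3] at h2
    exact h2.le
  set β : ℝ := (1 + ε) * (4 / q) * (D / q) with hβ
  have hβ0 : 0 ≤ β := by positivity
  set γ : ℝ := (1 + ε⁻¹) * kap s u with hγ
  have hγ0 : 0 ≤ γ := by positivity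
  have hstep : ∀ n, n0 ≤ n → N (n + 1) ≤ N n + (2 * x + β) * n + γ := by
    intro n hn
    have h2 := mom2_step gen σ hσ hs hZ hu hε0 n
    have h3 := ha' n hn
    change N (n + 1) ≤ N n + 2 * a n + (1 + ε) * (4 / q) * (n * (D / q)) + γ at h2
    have h4 : (1 + ε) * (4 / q) * (n * (D / q)) = β * n := by
      rw [hβ]; ring
    rw [h4] at h2
    linarith
  have hall : ∀ m : ℕ, N (n0 + m) ≤ N n0 + ((2 * x + β) / 2) * ((n0 + m : ℕ) : ℝ) ^ 2 +
      γ * ((n0 + m : ℕ) : ℝ) := by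
    intro m
    induction m with
    | zero =>
      have h5 : 0 ≤ ((2 * x + β) / 2) * ((n0 + 0 : ℕ) : ℝ) ^ 2 := by positivity
      have h6 : 0 ≤ γ * ((n0 + 0 : ℕ) : ℝ) := by positivity
      change N n0 ≤ _
      linarith
    | succ m ih =>
      have h5 := hstep (n0 + m) (by omega)
      have h6 : ((n0 + (m + 1) : ℕ) : ℝ) = ((n0 + m : ℕ) : ℝ) + 1 := by push_cast; ring
      rw [h6]
      change N (n0 + m + 1) ≤ _
      have h7 : (0 : ℝ) ≤ 2 * x + β := by positivity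
      nlinarith
  have h12 : q ^ 2 * ((2 * x + β) / 2) = D ^ 2 + 2 * D + ε * (q ^ 2 + 2 * D) := by
    rw [hx, hβ]
    field_simp
    ring
  -- the lower order terms
  have hlim : Tendsto (fun n : ℕ => q ^ 2 * N n0 * ((n : ℝ)⁻¹ * (n : ℝ)⁻¹) +
      q ^ 2 * γ * (n : ℝ)⁻¹) atTop (𝓝 (q ^ 2 * N n0 * (0 * 0) + q ^ 2 * γ * 0)) := by
    have hinv : Tendsto (fun n : ℕ => (n : ℝ)⁻¹) atTop (𝓝 0) := tendsto_inv_atTop_nhds_zero_nat
    exact ((hinv.mul hinv).const_mul _).add (hinv.const_mul _)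
  have h13 : ∀ᶠ n : ℕ in atTop, q ^ 2 * N n0 * ((n : ℝ)⁻¹ * (n : ℝ)⁻¹) +
      q ^ 2 * γ * (n : ℝ)⁻¹ < δ / 2 := hlim.eventually_lt_const (by simp; positivity)
  filter_upwards [h13, Filter.eventually_ge_atTop n0] with n hn hn'
  obtain ⟨m, rfl⟩ := Nat.exists_eq_add_of_le hn'
  have h14 := hall m
  have hpos : (0 : ℝ) < ((n0 + m : ℕ) : ℝ) := by exact_mod_cast (by omega : 0 < n0 + m)
  set y : ℝ := ((n0 + m : ℕ) : ℝ) with hy
  have h15 : (q / y) ^ 2 * N (n0 + m) ≤ (q / y) ^ 2 * (N n0 + ((2 * x + β) / 2) * y ^ 2 + γ * y) := by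
    gcongr
  have h16 : (q / y) ^ 2 * (N n0 + ((2 * x + β) / 2) * y ^ 2 + γ * y) =
      (q ^ 2 * N n0 * (y⁻¹ * y⁻¹) + q ^ 2 * γ * y⁻¹) + q ^ 2 * ((2 * x + β) / 2) := by
    field_simp
    ring
  change (q / y) ^ 2 * N (n0 + m) ≤ _
  linarith

/-- the inequality for one tuple, if some finite set is not expanded -/
theorem tuple_ineq [DecidableEq G] (hu : Rep s Z u) (gen : ∀ g : G, ∃ l, pr s l = g)
    (hZ : Good s Z) {k : ℕ} (α η : ℝ) (g : Fin k → G) (A : Finset G)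
    (hA : ((A ∪ (univ : Finset (Fin k)).biUnion
      fun j => A.image (fun x => x * g j)).card : ℝ) < (1 + η) * A.card) :
    (∑ i, (vv s u α (g i) (g i)) 1) ^ 2 ≤
      (1 + η) * ∑ i, ∑ j, ‖vv s u α (g i) (g j)‖ ^ 2 := by
  classical
  -- the vectors
  have hv : ∀ i, ∃ v : L (Fin k × G), ∀ j x, v (j, x) = vv s u α (g i) (g j) x := by
    intro i
    refine ⟨⟨fun p => vv s u α (g i) (g p.1) p.2, L_mem ?_⟩, fun j x => rfl⟩
    have h1 : ∀ j : Fin k, Summable fun x => (vv s u α (g i) (g j) x : ℝ) ^ 2 :=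
      fun j => (L_hasSum _).summable
    exact (summable_prod_of_nonneg (fun _ => sq_nonneg _)).2 ⟨h1, (hasSum_fintype _).summable⟩
  choose v hv using hv
  have hsl : ∀ i j, sl j (v i) = vv s u α (g i) (g j) := by
    intro i j
    apply L_ext
    intro x
    rw [sl_apply, hv]
  have hN : ∀ i, ‖v i‖ ^ 2 = ∑ j, ‖vv s u α (g i) (g j)‖ ^ 2 := by
    intro i
    rw [← sum_sl (v i)]
    exact Finset.sum_congr rfl fun j _ => by rw [hsl]
  let p : Fin k → ℝ := fun i => if v i = 0 then 0 else (v i (i, 1)) ^ 2 / ‖v i‖ ^ 2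
  have hp1 : ∀ i, p i * ‖v i‖ ^ 2 = (v i (i, 1) : ℝ) ^ 2 := by
    intro i
    by_cases h : v i = 0
    · have h0 : (v i (i, 1) : ℝ) = 0 := by rw [h]; rfl
      rw [h0, h]
      simp
    · have h2 : ‖v i‖ ^ 2 ≠ 0 := pow_ne_zero 2 (norm_ne_zero_iff.2 h)
      simp only [p, if_neg h]
      exact div_mul_cancel₀ _ h2
  have hp0 : ∀ i, 0 ≤ p i := by
    intro i
    simp only [p]
    split_ifs
    · exact le_rfl
    · positivity
  have hexp := exp_ineq g p
    (fun i x => α * (T s x (u (g i)) 1) + (1 / 2) * ((dl (g i) - dl 1 : L G) x)) v (by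
      intro i j x
      rw [hv]
      have h3 : vv s u α (g i) (g j) x = α * (T s (g j) (u (g i)) x) +
          (1 / 2) * ((dl (g i) - dl 1 : L G) (x * g j) - (dl (g i) - dl 1 : L G) x) := rfl
      have h4 := congrArg (fun φ : L G => φ 1) (T_mul gen hZ x (g j) (hu.mem (g i)))
      have h5 : (T s x (u (g i)) + RR x (T s (g j) (u (g i))) : L G) 1 =
          T s x (u (g i)) 1 + T s (g j) (u (g i)) (1 * x) := rfl
      simp only at h4
      rw [h5, one_mul] at h4
      rw [h3, h4]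
      ring) (by
      intro i
      by_cases h : v i = 0
      · right
        simp only [p, if_pos h]
        exact le_rfl
      · left
        exact h) (fun i => (hp1 i).le) A
  have hA0 : (0 : ℝ) < A.card := by
    have h6 : (0 : ℝ) ≤ ((A ∪ (univ : Finset (Fin k)).biUnion
      fun j => A.image (fun x => x * g j)).card : ℝ) := Nat.cast_nonneg _
    rcases (Nat.cast_nonneg (α := ℝ) A.card).eq_or_lt with h7 | h7
    · rw [← h7, mul_zero] at hA
      linarith
    · exact h7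
  have hsum : ∑ i, p i ≤ 1 + η := by
    have h8 := hexp.trans_lt hA
    exact (lt_of_mul_lt_mul_right h8 hA0.le).le
  have hcs := Finset.sum_sq_le_sum_mul_sum_of_sq_le_mul (univ : Finset (Fin k))
    (r := fun i => (v i (i, 1) : ℝ)) (f := p) (g := fun i => ‖v i‖ ^ 2)
    (fun i _ => hp0 i) (fun i _ => sq_nonneg _) (fun i _ => (hp1 i).ge)
  have h9 : ∑ i, (vv s u α (g i) (g i)) 1 = ∑ i, (v i (i, 1) : ℝ) :=
    Finset.sum_congr rfl fun i _ => by rw [hv]
  rw [h9]
  refine hcs.trans ?_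
  rw [Finset.sum_congr rfl fun i _ => hN i]
  exact mul_le_mul_of_nonneg_right hsum
    (Finset.sum_nonneg fun i _ => Finset.sum_nonneg fun j _ => sq_nonneg _)

theorem exists_expanding [Nonempty ι] [Infinite G] [DecidableEq G]
    (gen : ∀ g : G, ∃ l, pr s l = g)
    (icc : ∀ g : G, g ≠ 1 → (Set.range fun x : G => x * g * x⁻¹).Infinite) (σ : ι → ι)
    (hσ : Function.Involutive σ) (hs : ∀ i, s (σ i) = (s i)⁻¹) (hZ : Good s Z) {b : ℝ}
    (hb0 : 0 < b) (hbD : b ≤ dm Z) (hD4 : dm Z ≤ 4) (k : ℕ) (hk : 222 < k * b) :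
    ∃ K : Finset G, 1 ∈ K ∧ K.card ≤ k + 1 ∧
      ∀ A : Finset G, (1 + b / 2) * (A.card : ℝ) ≤ ((A * K).card : ℝ) := by
  by_contra hcon
  push Not at hcon
  obtain ⟨u, hu⟩ := exists_rep gen hZ
  have hq : (0 : ℝ) < Fintype.card ι := by exact_mod_cast Fintype.card_pos
  set D := dm Z with hDdef
  set q : ℝ := (Fintype.card ι : ℝ) with hqdef
  -- the inequality for every tuple
  have htup : ∀ (α : ℝ) (g : Fin k → G), (∑ i, (vv s u α (g i) (g i)) 1) ^ 2 ≤
      (1 + b / 2) * ∑ i, ∑ j, ‖vv s u α (g i) (g j)‖ ^ 2 := by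
    intro α g
    obtain ⟨A, hA⟩ := hcon (insert 1 (univ.image g)) (mem_insert_self _ _)
      ((card_insert_le _ _).trans (Nat.succ_le_succ (card_image_le.trans (by simp))))
    refine tuple_ineq hu gen hZ α (b / 2) g A (lt_of_le_of_lt ?_ hA)
    have h1 : (A ∪ (univ : Finset (Fin k)).biUnion fun j => A.image (fun x => x * g j)) ⊆
        A * insert 1 (univ.image g) := by
      intro y hy
      rw [mem_union, mem_biUnion] at hy
      rcases hy with hy | ⟨j, -, hy⟩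
      · have h2 := mul_mem_mul hy (mem_insert_self (1 : G) (univ.image g))
        rwa [mul_one] at h2
      · rw [mem_image] at hy
        obtain ⟨x, hx, rfl⟩ := hy
        exact mul_mem_mul hx (mem_insert_of_mem (mem_image_of_mem g (mem_univ j)))
    exact_mod_cast card_le_card h1
  -- averages
  set π : ℕ → ℝ := fun n => W s n (fun g => if g = 1 then (1 : ℝ) else 0) with hπ
  set r : ℕ → ℝ := fun n => W s n (fun g => W s n (fun g' => if g = g' then (1 : ℝ) else 0)) with hr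
  set M : ℕ → ℝ := fun n => (q / n) ^ 2 * W s n (fun g => ‖cc s u g‖ ^ 2) with hM
  have hk0 : 0 < k := by
    rcases Nat.eq_zero_or_pos k with h | h
    · exfalso
      rw [h] at hk
      norm_num at hk
    · exact h
  have hk1 : (1 : ℝ) ≤ k := by exact_mod_cast hk0
  have main : ∀ n : ℕ, 0 < n → ((k : ℝ) * (D + 1 - π n)) ^ 2 ≤
      (1 + b / 2) * ((k : ℝ) * (M n + 4 * D + 2) + (k : ℝ) * (k - 1) * (D + 1 + r n)) := by
    intro n hn
    have hn' : (0 : ℝ) < n := by exact_mod_cast hn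
    have hα : 0 ≤ q / n := by positivity
    have h1 : Wk s n k (fun g => ∑ i, (vv s u (q / n) (g i) (g i)) 1) =
        k * (D + 1 - π n) := by
      rw [Wk_sum, Finset.sum_congr rfl fun i _ =>
        Wk_one s n k i (fun g => (vv s u (q / n) g g) 1), W_val hu]
      simp only [Finset.sum_const, Finset.card_univ, Fintype.card_fin, nsmul_eq_mul]
      have h2 : q / n * (n * (D / q)) = D := by field_simp
      rw [← hDdef, ← hqdef, h2]
    have h3 : Wk s n k (fun g => (1 + b / 2) * ∑ i, ∑ j, ‖vv s u (q / n) (g i) (g j)‖ ^ 2) ≤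
        (1 + b / 2) * ((k : ℝ) * (M n + 4 * D + 2) + (k : ℝ) * (k - 1) * (D + 1 + r n)) := by
      rw [Wk_mul, Wk_sum]
      refine mul_le_mul_of_nonneg_left ?_ (by positivity)
      have h4 : ∀ i : Fin k, Wk s n k (fun g => ∑ j, ‖vv s u (q / n) (g i) (g j)‖ ^ 2) ≤
          (M n + 4 * D + 2) + (k - 1) * (D + 1 + r n) := by
        intro i
        rw [Wk_sum, ← Finset.add_sum_erase univ _ (mem_univ i)]
        have h5 : Wk s n k (fun g => ‖vv s u (q / n) (g i) (g i)‖ ^ 2) ≤ M n + 4 * D + 2 := by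
          rw [Wk_one s n k i (fun g => ‖vv s u (q / n) g g‖ ^ 2)]
          have h6 := W_diag hu hα n
          have h2 : q / n * (n * (D / q)) = D := by field_simp
          rw [← hDdef, ← hqdef, h2] at h6
          exact h6
        have h7 : ∑ j ∈ univ.erase i, Wk s n k (fun g => ‖vv s u (q / n) (g i) (g j)‖ ^ 2) ≤
            (k - 1) * (D + 1 + r n) := by
          have h8 : ∀ j ∈ univ.erase i, Wk s n k
              (fun g => ‖vv s u (q / n) (g i) (g j)‖ ^ 2) ≤ D + 1 + r n := by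
            intro j hj
            rw [Wk_two s n k i j (Finset.ne_of_mem_erase hj).symm
              (fun a c => ‖vv s u (q / n) a c‖ ^ 2)]
            have h9 := W_off gen σ hσ hs hZ hu (q / n) n
            have h10 : (q / n * (n / q)) * (q / n * (n * (D / q))) = D := by field_simp
            rw [← hDdef, ← hqdef, h10] at h9
            exact h9
          refine (Finset.sum_le_sum h8).trans (le_of_eq ?_)
          rw [Finset.sum_const, Finset.card_erase_of_mem (mem_univ i), Finset.card_univ,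
            Fintype.card_fin, nsmul_eq_mul, Nat.cast_sub hk0, Nat.cast_one]
        exact add_le_add h5 h7
      refine (Finset.sum_le_sum fun i _ => h4 i).trans (le_of_eq ?_)
      simp only [Finset.sum_const, Finset.card_univ, Fintype.card_fin, nsmul_eq_mul]
      ring
    rw [← h1]
    exact (Wk_sq s n k _).trans ((Wk_mono s n k (htup (q / n))).trans h3)
  have hπ0 : Tendsto π atTop (𝓝 0) := at_one_zero s gen σ hσ hs
  have hr0 : Tendsto r atTop (𝓝 0) := ret_zero s gen σ hσ hs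
  have hfin : ∀ δ : ℝ, 0 < δ → δ < 1 →
      (k : ℝ) ^ 2 * (D + 1) ^ 2 - (1 + b / 2) * ((k : ℝ) * (D ^ 2 + 6 * D + 2) +
        (k : ℝ) * (k - 1) * (D + 1)) ≤ 13 * (k : ℝ) ^ 2 * δ := by
    intro δ hδ hδ1
    have h1 := mom2_lim gen icc σ hσ hs hZ hu hδ
    have h2 : ∀ᶠ n : ℕ in atTop, π n < δ := hπ0.eventually_lt_const hδ
    have h3 : ∀ᶠ n : ℕ in atTop, r n < δ := hr0.eventually_lt_const hδ
    obtain ⟨n, h1, h2, h3, h4⟩ :=
      (h1.and (h2.and (h3.and (Filter.eventually_gt_atTop 0)))).exists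
    change M n ≤ D ^ 2 + 2 * D + δ at h1
    have h5 := main n h4
    have h6 : (k : ℝ) * (D + 1 - δ) ≤ k * (D + 1 - π n) := by
      apply mul_le_mul_of_nonneg_left _ (by linarith)
      linarith
    have h7 : 0 ≤ (k : ℝ) * (D + 1 - δ) := by
      apply mul_nonneg (by linarith)
      linarith
    have h8 : ((k : ℝ) * (D + 1 - δ)) ^ 2 ≤ ((k : ℝ) * (D + 1 - π n)) ^ 2 :=
      pow_le_pow_left₀ h7 h6 2
    have h9 : (1 + b / 2) * ((k : ℝ) * (M n + 4 * D + 2) + (k : ℝ) * (k - 1) * (D + 1 + r n)) ≤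
        (1 + b / 2) * ((k : ℝ) * (D ^ 2 + 6 * D + 2 + δ) + (k : ℝ) * (k - 1) * (D + 1 + δ)) := by
      apply mul_le_mul_of_nonneg_left _ (by positivity)
      apply add_le_add
      · apply mul_le_mul_of_nonneg_left _ (by linarith)
        linarith
      · apply mul_le_mul_of_nonneg_left _ (mul_nonneg (by linarith) (by linarith))
        linarith
    have h10 := (h8.trans h5).trans h9
    have h11 : (k : ℝ) ^ 2 * (D + 1 - δ) ^ 2 ≥ (k : ℝ) ^ 2 * ((D + 1) ^ 2 - 10 * δ) := by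
      apply mul_le_mul_of_nonneg_left _ (by positivity)
      nlinarith
    have h12 : (1 + b / 2) * ((k : ℝ) * δ + (k : ℝ) * (k - 1) * δ) ≤ 3 * (k : ℝ) ^ 2 * δ := by
      have h13 : (k : ℝ) * δ + (k : ℝ) * (k - 1) * δ = (k : ℝ) ^ 2 * δ := by ring
      rw [h13]
      have h14 : 0 ≤ (k : ℝ) ^ 2 * δ := by positivity
      nlinarith
    nlinarith
  have hneg : (k : ℝ) ^ 2 * (D + 1) ^ 2 - (1 + b / 2) * ((k : ℝ) * (D ^ 2 + 6 * D + 2) +
        (k : ℝ) * (k - 1) * (D + 1)) ≤ 0 := by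
    by_contra hc
    push Not at hc
    set c := (k : ℝ) ^ 2 * (D + 1) ^ 2 - (1 + b / 2) * ((k : ℝ) * (D ^ 2 + 6 * D + 2) +
        (k : ℝ) * (k - 1) * (D + 1)) with hcdef
    have hkk : 0 < 13 * (k : ℝ) ^ 2 := by positivity
    have h1 := hfin (min (1 / 2) (c / (2 * (13 * (k : ℝ) ^ 2)))) (by positivity)
      (lt_of_le_of_lt (min_le_left _ _) (by norm_num))
    have h2 : 13 * (k : ℝ) ^ 2 * min (1 / 2) (c / (2 * (13 * (k : ℝ) ^ 2))) ≤ c / 2 := by
      calc 13 * (k : ℝ) ^ 2 * min (1 / 2) (c / (2 * (13 * (k : ℝ) ^ 2)))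
          ≤ 13 * (k : ℝ) ^ 2 * (c / (2 * (13 * (k : ℝ) ^ 2))) :=
            mul_le_mul_of_nonneg_left (min_le_right _ _) hkk.le
        _ = c / 2 := by field_simp
    linarith
  have hD0 : 0 < D := lt_of_lt_of_le hb0 hbD
  have hpos : 0 < (k : ℝ) * ((k : ℝ) * ((D + 1) * (D - b / 2)) -
      (1 + b / 2) * (D ^ 2 + 5 * D + 1)) := by
    apply mul_pos (by linarith)
    have h1 : b / 2 ≤ (D + 1) * (D - b / 2) := by nlinarith
    have h2 : (k : ℝ) * (b / 2) ≤ (k : ℝ) * ((D + 1) * (D - b / 2)) :=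
      mul_le_mul_of_nonneg_left h1 (by linarith)
    have h3 : (1 + b / 2) * (D ^ 2 + 5 * D + 1) ≤ 3 * 37 := by
      have h4 : D ^ 2 + 5 * D + 1 ≤ 37 := by nlinarith
      have h5 : 1 + b / 2 ≤ 3 := by linarith
      have h6 : 0 ≤ D ^ 2 + 5 * D + 1 := by positivity
      nlinarith
    linarith
  have hid : (k : ℝ) ^ 2 * (D + 1) ^ 2 - (1 + b / 2) * ((k : ℝ) * (D ^ 2 + 6 * D + 2) +
        (k : ℝ) * (k - 1) * (D + 1)) = (k : ℝ) * ((k : ℝ) * ((D + 1) * (D - b / 2)) -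
      (1 + b / 2) * (D ^ 2 + 5 * D + 1)) := by ring
  rw [hid] at hneg
  linarith

end Pool.Agent.Lib.MP_354e85_al.L2B
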