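import Pool.Agent.Lib.MP_354e85_al.L2B.Sel
import Pool.Agent.Lib.MP_354e85_al.L2B.Uni
import Pool.Agent.Lib.MP_354e85_al.L2B.Quo
import Pool.Agent.Lib.MP_354e85_al.L2B.FCb
import Pool.Agent.Lib.MP_354e85_al.L2B.Grow
import Pool.Agent.Lib.MP_354e85_al.RL.Quot

/-! The bound for all finitely generated groups. -/

set_option autoImplicit false

namespace Pool.Agent.Lib.MP_354e85_al.L2B

open Finset
open scoped InnerProductSpace Pointwise

/-- Reduction to groups all of whose nontrivial conjugacy classes are infinite: divide by the finite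
normal subgroup `FCc G`. -/
theorem reduce {G : Type} [Group G] {ι : Type} [Fintype ι] (s : ι → G)
    (gen : ∀ g : G, ∃ l, pr s l = g) (σ : ι → ι) (hs : ∀ i, s (σ i) = (s i)⁻¹) {b : ℝ}
    (hb : 0 < b) (hbD : b ≤ dm (HD s)) (N : ℕ)
    (H : ∀ (Q : Type) [Group Q] [Infinite Q] (r : ι → Q), (∀ g : Q, ∃ l, pr r l = g) →
      (∀ g : Q, g ≠ 1 → (Set.range fun x : Q => x * g * x⁻¹).Infinite) →
      (∀ i, r (σ i) = (r i)⁻¹) → b ≤ dm (HD r) → TarskiLE Q N) : TarskiLE G N := by
  classical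
  -- a nonzero gradient
  have hne : ∃ ω ∈ HD s, ω ≠ 0 := by
    by_contra hcon
    push Not at hcon
    have h0 : (HD s).topologicalClosure = ⊥ := by
      rw [(HD_good s gen).closed.submodule_topologicalClosure_eq]
      exact (Submodule.eq_bot_iff _).2 hcon
    have h1 : dm (HD s) = 0 := by
      unfold dm
      refine Finset.sum_eq_zero fun i _ => ?_
      have h2 : ∀ x : L (ι × G), (HD s).topologicalClosure.starProjection x = 0 := by
        intro x
        have h3 : (HD s).topologicalClosure.starProjection x ∈ (HD s).topologicalClosure :=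
          Submodule.starProjection_apply_mem _ _
        exact (Submodule.eq_bot_iff _).1 h0 _ h3
      rw [h2]
      simp
    linarith
  have hinf : Infinite G := by
    by_contra hfin
    rw [not_infinite_iff_finite] at hfin
    obtain ⟨ω, hω, h⟩ := hne
    exact h (HD_zero_of_finite s ω hω)
  obtain ⟨hN, hNf, hT⟩ := FCc_finite gen hne
  have hdq := dm_quotient gen (FCc G) hT
  have hicc := icc_quotient (FCc G) (fun g hg => hg)
  have hgen : ∀ g : G ⧸ FCc G, ∃ l, pr (fun i => (QuotientGroup.mk (s i) : G ⧸ FCc G)) l = g := by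
    intro g
    obtain ⟨a, rfl⟩ := QuotientGroup.mk_surjective g
    obtain ⟨l, rfl⟩ := gen a
    refine ⟨l, ?_⟩
    unfold pr
    rw [← QuotientGroup.mk'_apply, map_list_prod, List.map_map]
    rfl
  have hinfq : Infinite (G ⧸ FCc G) := by
    by_contra hfin
    rw [not_infinite_iff_finite] at hfin
    have h1 : Finite G := by
      have h2 : Finite ((G ⧸ FCc G) × FCc G) := inferInstance
      exact Finite.of_equiv _ (Subgroup.groupEquivQuotientProdSubgroup (s := FCc G)).symm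
    exact not_finite G
  exact RLim.tarski_quotient (FCc G) (H (G ⧸ FCc G) _ hgen hicc
    (fun i => by rw [hs i]; rfl) (hbD.trans hdq))

/-- The bound for the number of pieces. -/
noncomputable def bound (b : ℝ) : ℕ :=
  if 4 ≤ b then 6 else 2 * (⌈222 / b⌉₊ + 2) ^ ⌈2 / b⌉₊

theorem main_all {G : Type} [Group G] {ι : Type} [Fintype ι] (s : ι → G)
    (gen : ∀ g : G, ∃ l, pr s l = g) (σ : ι → ι) (hσ : Function.Involutive σ)
    (hs : ∀ i, s (σ i) = (s i)⁻¹) {b : ℝ} (hb : 0 < b) (hbD : b ≤ dm (HD s)) :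
    TarskiLE G (bound b) := by
  classical
  refine reduce s gen σ hs hb hbD _ ?_
  intro Q _ _ r hgen hicc hr hD
  have hι : Nonempty ι := by
    by_contra hcon
    rw [not_nonempty_iff] at hcon
    have h1 : ∀ g : Q, g = 1 := by
      intro g
      obtain ⟨l, rfl⟩ := hgen g
      have h2 : l = [] := List.eq_nil_iff_forall_not_mem.2 fun a _ => hcon.elim a
      rw [h2]
      simp [pr]
    have h3 : Subsingleton Q := ⟨fun a c => (h1 a).trans (h1 c).symm⟩
    exact not_finite Q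
  unfold bound
  by_cases h4 : 4 ≤ b
  · rw [if_pos h4]
    exact main_icc hgen hicc σ hσ hr (h4.trans hD)
  · rw [if_neg h4]
    have hb4 : b < 4 := not_le.1 h4
    have h6 : 6 ≤ 2 * (⌈222 / b⌉₊ + 2) ^ ⌈2 / b⌉₊ := by
      have h7 : 3 ≤ ⌈222 / b⌉₊ + 2 := by
        have : 0 < ⌈222 / b⌉₊ := Nat.ceil_pos.2 (by positivity)
        omega
      have h8 : 0 < ⌈2 / b⌉₊ := Nat.ceil_pos.2 (by positivity)
      have h9 : ⌈222 / b⌉₊ + 2 ≤ (⌈222 / b⌉₊ + 2) ^ ⌈2 / b⌉₊ := Nat.le_self_pow h8.ne' _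
      omega
    by_cases hD4 : 4 ≤ dm (HD r)
    · exact TarskiLE.mono (main_icc hgen hicc σ hσ hr hD4) h6
    · obtain ⟨K, hK1, hKc, hK⟩ := exists_expanding hgen hicc σ hσ hr (HD_good r hgen) hb hD
        (not_le.1 hD4).le (⌈222 / b⌉₊ + 1) (by
          have h7 : 222 / b ≤ ⌈222 / b⌉₊ := Nat.le_ceil _
          have h8 : 222 ≤ (⌈222 / b⌉₊ : ℝ) * b := (div_le_iff₀ hb).1 h7
          push_cast
          linarith)
      have h9 : (1 : ℝ) ≤ (⌈2 / b⌉₊ : ℕ) * (b / 2) := by
        have h10 : 2 / b ≤ ⌈2 / b⌉₊ := Nat.le_ceil _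
        have h11 : 2 ≤ (⌈2 / b⌉₊ : ℝ) * b := (div_le_iff₀ hb).1 h10
        linarith
      refine TarskiLE.mono (tarski_of_growth K hK1 (by positivity) hK ⌈2 / b⌉₊ h9) ?_
      have h12 : K.card ^ ⌈2 / b⌉₊ ≤ (⌈222 / b⌉₊ + 2) ^ ⌈2 / b⌉₊ :=
        Nat.pow_le_pow_left hKc _
      omega

end Pool.Agent.Lib.MP_354e85_al.L2B
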