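import Pool.Agent.Lib.MP_354e85_al.L2B.Erg
import Pool.Agent.Lib.MP_354e85_al.L2B.Ret

/-! In an ICC group a random element `h` satisfies `h a h = b` with probability tending to zero. -/

set_option autoImplicit false

namespace Pool.Agent.Lib.MP_354e85_al.L2B

open Finset Filter Topology
open scoped InnerProductSpace

variable {G : Type} [Group G] {ι : Type} [Fintype ι]

theorem W_split (s : ι → G) (k l : ℕ) (F : G → ℝ) :
    W s (k + l) F = W s k (fun g => W s l (fun h => F (g * h))) := by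
  induction l generalizing F with
  | zero =>
    change W s k F = W s k (fun g => F (g * 1))
    simp only [mul_one]
  | succ l ih =>
    change W s (k + l) (fun g => (Fintype.card ι : ℝ)⁻¹ • ∑ i, F (g * s i)) =
      W s k (fun g => W s l (fun h => (Fintype.card ι : ℝ)⁻¹ • ∑ i, F (g * (h * s i))))
    rw [ih]
    simp only [mul_assoc]

theorem W_fsum (s : ι → G) (n : ℕ) {κ : Type*} (S : Finset κ) (F : κ → G → ℝ) :
    W s n (fun g => ∑ i ∈ S, F i g) = ∑ i ∈ S, W s n (F i) := by
  classical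
  induction S using Finset.induction_on with
  | empty =>
    have h := W_smul s n 0 (fun _ : G => (0 : ℝ))
    simp only [zero_smul] at h
    simpa using h
  | insert a S ha ih =>
    rw [sum_insert ha, ← ih, ← W_add]
    congr 1
    funext g
    rw [sum_insert ha]

theorem W_mulc (s : ι → G) (n : ℕ) (c : ℝ) (F : G → ℝ) :
    W s n (fun g => c * F g) = c * W s n F := by
  simpa only [smul_eq_mul] using W_smul s n c F

theorem W_swap (s : ι → G) (n m : ℕ) (F : G → G → ℝ) :
    W s n (fun a => W s m (fun b => F a b)) = W s m (fun b => W s n (fun a => F a b)) := by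
  induction n generalizing F with
  | zero => rfl
  | succ n ih =>
    change W s n (fun g => (Fintype.card ι : ℝ)⁻¹ • ∑ i, W s m (fun b => F (g * s i) b)) =
      W s m (fun b => W s n (fun g => (Fintype.card ι : ℝ)⁻¹ • ∑ i, F (g * s i) b))
    rw [← ih]
    congr 1
    funext g
    simp only [smul_eq_mul]
    rw [W_mulc, W_fsum]

theorem W_nn (s : ι → G) (n : ℕ) {F : G → ℝ} (h : ∀ g, 0 ≤ F g) [Nonempty ι] : 0 ≤ W s n F := by
  have h1 := W_mono s n (F := fun _ => (0 : ℝ)) (F' := F) h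
  rwa [W_const] at h1

theorem W_tendsto (s : ι → G) (k : ℕ) (F : ℕ → G → ℝ) (F0 : G → ℝ)
    (h : ∀ g, Tendsto (fun n => F n g) atTop (𝓝 (F0 g))) :
    Tendsto (fun n => W s k (F n)) atTop (𝓝 (W s k F0)) := by
  induction k generalizing F F0 with
  | zero => exact h 1
  | succ k ih =>
    refine ih (fun n g => (Fintype.card ι : ℝ)⁻¹ • ∑ i, F n (g * s i))
      (fun g => (Fintype.card ι : ℝ)⁻¹ • ∑ i, F0 (g * s i)) fun g => ?_
    exact (tendsto_finsetSum _ fun i _ => h (g * s i)).const_smul _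

private theorem P_apply' (s : ι → G) (f : L G) :
    P s f = (Fintype.card ι : ℝ)⁻¹ • ∑ i, CJ (s i) f := by
  unfold P
  rw [smul_apply, _root_.sum_apply]
  rfl

private theorem P_le [Nonempty ι] (s : ι → G) (f : L G) : ‖P s f‖ ≤ ‖f‖ := by
  have hc : (0 : ℝ) < Fintype.card ι := by exact_mod_cast Fintype.card_pos
  rw [P_apply', norm_smul, Real.norm_of_nonneg (inv_nonneg.2 hc.le)]
  have h1 : ‖∑ i, CJ (s i) f‖ ≤ Fintype.card ι * ‖f‖ := by
    refine (norm_sum_le _ _).trans ?_
    have h2 : ∀ i ∈ (univ : Finset ι), ‖CJ (s i) f‖ = ‖f‖ := fun i _ => (CJ (s i)).norm_map f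
    rw [sum_congr rfl h2, sum_const, card_univ, nsmul_eq_mul]
  calc (Fintype.card ι : ℝ)⁻¹ * ‖∑ i, CJ (s i) f‖
      ≤ (Fintype.card ι : ℝ)⁻¹ * (Fintype.card ι * ‖f‖) :=
        mul_le_mul_of_nonneg_left h1 (inv_nonneg.2 hc.le)
    _ = ‖f‖ := by rw [← mul_assoc, inv_mul_cancel₀ hc.ne', one_mul]

private theorem CJ_adj (g : G) (f h : L G) : ⟪CJ g f, h⟫_ℝ = ⟪f, CJ g⁻¹ h⟫_ℝ := by
  rw [← (CJ g⁻¹).inner_map_map (CJ g f) h]
  congr 1
  apply L_ext
  intro x
  rw [CJ_apply, CJ_apply]
  group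

private theorem P_self (s : ι → G) (σ : ι → ι) (hσ : Function.Involutive σ)
    (hs : ∀ i, s (σ i) = (s i)⁻¹) (f h : L G) : ⟪P s f, h⟫_ℝ = ⟪f, P s h⟫_ℝ := by
  rw [P_apply', P_apply', real_inner_smul_left, real_inner_smul_right, sum_inner, inner_sum]
  congr 1
  refine Fintype.sum_equiv (Function.Involutive.toPerm σ hσ) _ _ fun i => ?_
  rw [Function.Involutive.coe_toPerm, hs, CJ_adj]

private theorem P_pow_self (s : ι → G) (σ : ι → ι) (hσ : Function.Involutive σ)
    (hs : ∀ i, s (σ i) = (s i)⁻¹) (n : ℕ) (f h : L G) :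
    ⟪(P s ^ n) f, h⟫_ℝ = ⟪f, (P s ^ n) h⟫_ℝ := by
  induction n generalizing f h with
  | zero => rfl
  | succ n ih =>
    have h1 : ∀ g : L G, (P s ^ (n + 1)) g = (P s ^ n) (P s g) := fun g => by
      rw [pow_succ]; rfl
    have h2 : ∀ g : L G, (P s ^ (n + 1)) g = P s ((P s ^ n) g) := fun g => by
      rw [pow_succ']; rfl
    rw [h1, ih, P_self s σ hσ hs, h2]

private theorem P_val [DecidableEq G] (s : ι → G) (n : ℕ) (c d : G) :
    ((P s ^ n) (lp.single 2 c (1 : ℝ)) : L G) d =
      W s n (fun g => if g * c * g⁻¹ = d then (1 : ℝ) else 0) := by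
  rw [← W_conj]
  have h := W_map s n ((innerSL ℝ (lp.single 2 d (1 : ℝ) : L G)).toLinearMap)
    (fun g => CJ g (lp.single 2 c (1 : ℝ) : L G))
  simp only [ContinuousLinearMap.coe_coe, innerSL_apply_apply] at h
  have h2 : ∀ f : L G, ⟪(lp.single 2 d (1 : ℝ) : L G), f⟫_ℝ = f d := by
    intro f
    rw [lp.inner_single_left]
    simp
  rw [h2] at h
  rw [h]
  congr 1
  funext g
  rw [h2, CJ_apply, lp.single_apply]
  by_cases hg : g * c * g⁻¹ = d
  · rw [if_pos hg]
    have e : g⁻¹ * (d * g) = c := by rw [← hg]; group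
    rw [e]
    simp
  · rw [if_neg hg]
    have e : g⁻¹ * (d * g) ≠ c := by
      intro e
      apply hg
      rw [← e]
      group
    simp [Pi.single_eq_of_ne e]

/-- The conjugation walk from `c ≠ 1` leaves every point. -/
theorem conj_zero [Nonempty ι] [DecidableEq G] (s : ι → G) (gen : ∀ g : G, ∃ l, pr s l = g)
    (icc : ∀ g : G, g ≠ 1 → (Set.range fun x : G => x * g * x⁻¹).Infinite) (σ : ι → ι)
    (hσ : Function.Involutive σ) (hs : ∀ i, s (σ i) = (s i)⁻¹) (c d : G) (hc : c ≠ 1) :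
    Tendsto (fun n => W s n (fun g => if g * c * g⁻¹ = d then (1 : ℝ) else 0)) atTop (𝓝 0) := by
  set Θ : L G := lp.single 2 c (1 : ℝ) with hΘ
  have hΘ1 : Θ 1 = 0 := by
    rw [hΘ, lp.single_apply]
    exact Pi.single_eq_of_ne (Ne.symm hc) _
  have herg := erg s gen icc Θ
  rw [hΘ1] at herg
  set a : ℕ → ℝ := fun n => ⟪(P s ^ n) Θ, Θ⟫_ℝ with ha
  have ha0 : ∀ n, 0 ≤ a n := by
    intro n
    have h1 : a n = ((P s ^ n) Θ) c := by
      rw [ha]
      simp only
      rw [hΘ, lp.inner_single_right]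
      simp
    rw [h1, hΘ, P_val]
    exact W_nn s n fun g => by split_ifs <;> norm_num
  have hd2 : ∀ n, a (2 * n) = ‖(P s ^ n) Θ‖ ^ 2 := by
    intro n
    rw [ha]
    simp only
    rw [two_mul, pow_add]
    change ⟪(P s ^ n) ((P s ^ n) Θ), Θ⟫_ℝ = _
    rw [P_pow_self s σ hσ hs, real_inner_self_eq_norm_sq]
  have hanti : Antitone fun n => ‖(P s ^ n) Θ‖ ^ 2 := by
    refine antitone_nat_of_succ_le fun n => ?_
    have h1 : (P s ^ (n + 1)) Θ = P s ((P s ^ n) Θ) := by rw [pow_succ']; rfl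
    rw [h1]
    exact pow_le_pow_left₀ (norm_nonneg _) (P_le s _) 2
  have hsum : ∀ n, ∑ i ∈ range n, a (2 * i) ≤ ∑ j ∈ range (2 * n), a j := by
    intro n
    induction n with
    | zero => simp
    | succ n ih =>
      rw [sum_range_succ, show 2 * (n + 1) = 2 * n + 1 + 1 by ring, sum_range_succ, sum_range_succ]
      have := ha0 (2 * n + 1)
      linarith
  have hn : ∀ n : ℕ, (n : ℝ) * ‖(P s ^ n) Θ‖ ^ 2 ≤ ∑ j ∈ range (2 * n), a j := by
    intro n
    refine le_trans ?_ (hsum n)
    have h1 : ∑ i ∈ range n, ‖(P s ^ n) Θ‖ ^ 2 ≤ ∑ i ∈ range n, a (2 * i) := by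
      refine sum_le_sum fun i hi => ?_
      rw [hd2]
      exact hanti (mem_range.1 hi).le
    simpa using h1
  have hlim : Tendsto (fun n => ‖(P s ^ n) Θ‖ ^ 2) atTop (𝓝 0) := by
    have h2 : Tendsto (fun n : ℕ => (2 * n : ℕ)) atTop atTop :=
      tendsto_atTop_mono (fun n => by show n ≤ 2 * n; omega) tendsto_id
    have h1 := (herg.comp h2).const_mul 2
    simp only [Function.comp_def] at h1
    have h3 : (2 : ℝ) * 0 ^ 2 = 0 := by norm_num
    rw [h3] at h1
    refine squeeze_zero' (Eventually.of_forall fun n => sq_nonneg _) ?_ h1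
    filter_upwards [eventually_gt_atTop 0] with n hn0
    have h4 : (0 : ℝ) < n := by exact_mod_cast hn0
    have h5 := hn n
    have h6 : ∑ j ∈ range (2 * n), a j = ⟪∑ j ∈ range (2 * n), (P s ^ j) Θ, Θ⟫_ℝ := by
      rw [sum_inner]
    rw [h6] at h5
    have e2 : ((2 * n : ℕ) : ℝ) = 2 * n := Nat.cast_mul 2 n
    rw [e2, mul_inv]
    have h7 : ‖(P s ^ n) Θ‖ ^ 2 ≤ (n : ℝ)⁻¹ * ⟪∑ j ∈ range (2 * n), (P s ^ j) Θ, Θ⟫_ℝ := by
      rw [le_inv_mul_iff₀ h4]
      exact h5
    refine h7.trans (le_of_eq ?_)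
    ring
  have hlim2 : Tendsto (fun n => ‖(P s ^ n) Θ‖) atTop (𝓝 0) := by
    have h1 := (Real.continuous_sqrt.tendsto _).comp hlim
    rw [Real.sqrt_zero] at h1
    refine h1.congr fun n => ?_
    exact Real.sqrt_sq (norm_nonneg _)
  refine squeeze_zero (fun n => W_nn s n fun g => by split_ifs <;> norm_num) (fun n => ?_) hlim2
  rw [← P_val, ← hΘ]
  have h1 := L_hasSum ((P s ^ n) Θ)
  have h2 := le_hasSum h1 d fun _ _ => sq_nonneg _
  exact (le_abs_self _).trans ((sq_le_sq₀ (abs_nonneg _) (norm_nonneg _)).1 (by rwa [sq_abs]))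

private theorem W_prod (s : ι → G) (n : ℕ) (F : G → ℝ) :
    (W s n F) ^ 2 = W s n (fun a => W s n (fun b => F a * F b)) := by
  have h1 : (fun a => W s n (fun b => F a * F b)) = fun a => W s n F * F a := by
    funext a
    rw [W_mulc]
    ring
  rw [h1, W_mulc]
  ring

/-- `P (h a h = b) → 0` for the random walk `h` of an ICC group. -/
theorem hah_zero [Nonempty ι] [Infinite G] [DecidableEq G] (s : ι → G)
    (gen : ∀ g : G, ∃ l, pr s l = g)
    (icc : ∀ g : G, g ≠ 1 → (Set.range fun x : G => x * g * x⁻¹).Infinite) (σ : ι → ι)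
    (hσ : Function.Involutive σ) (hs : ∀ i, s (σ i) = (s i)⁻¹) (a b : G) :
    Tendsto (fun n => W s n (fun h => if h * a * h = b then (1 : ℝ) else 0)) atTop (𝓝 0) := by
  set δ : ℕ → ℝ := fun n => W s n (fun h => if h * a * h = b then (1 : ℝ) else 0) with hδ
  have hδ0 : ∀ n, 0 ≤ δ n := fun n => W_nn s n fun g => by split_ifs <;> norm_num
  set M : ℕ → ℕ → ℝ := fun k l => W s k (fun p => W s k (fun p' => if p = p' then (0 : ℝ) else
    W s l (fun q => if q * (p * p'⁻¹) * q⁻¹ = a⁻¹ * (p⁻¹ * p') * a then (1 : ℝ) else 0))) with hM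
  set ρ : ℕ → ℝ := fun k => W s k (fun p => W s k (fun p' => if p = p' then (1 : ℝ) else 0)) with hρ
  have hMl : ∀ k, Tendsto (M k) atTop (𝓝 0) := by
    intro k
    have h0 : (0 : ℝ) = W s k (fun _ : G => W s k (fun _ : G => (0 : ℝ))) := by
      rw [W_const, W_const]
    rw [h0]
    refine W_tendsto s k _ _ fun p => W_tendsto s k _ _ fun p' => ?_
    by_cases hp : p = p'
    · simp only [hp, if_true]
      exact tendsto_const_nhds
    · simp only [if_neg hp]
      refine conj_zero s gen icc σ hσ hs _ _ ?_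
      intro h
      exact hp (mul_inv_eq_one.1 h)
  have hkey : ∀ k l, (δ (l + k)) ^ 2 ≤ ρ k + M k l := by
    intro k l
    have e1 : δ (l + k) = W s l (fun q => W s k (fun p =>
        if q * p * a * (q * p) = b then (1 : ℝ) else 0)) := by
      rw [hδ]
      simp only
      rw [W_split]
    rw [e1]
    refine (W_sq s l _).trans ?_
    have e2 : (fun q => (W s k (fun p => if q * p * a * (q * p) = b then (1 : ℝ) else 0)) ^ 2) =
        fun q => W s k (fun p => W s k (fun p' =>
          (if q * p * a * (q * p) = b then (1 : ℝ) else 0) *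
            (if q * p' * a * (q * p') = b then (1 : ℝ) else 0))) := by
      funext q
      rw [W_prod]
    rw [e2]
    have h3 : ∀ q p p' : G, (if q * p * a * (q * p) = b then (1 : ℝ) else 0) *
        (if q * p' * a * (q * p') = b then (1 : ℝ) else 0) ≤ (if p = p' then (1 : ℝ) else 0) +
        (if p = p' then (0 : ℝ) else
          (if q * (p * p'⁻¹) * q⁻¹ = a⁻¹ * (p⁻¹ * p') * a then (1 : ℝ) else 0)) := by
      intro q p p'
      by_cases hp : p = p'
      · rw [if_pos hp, if_pos hp]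
        split_ifs <;> norm_num
      · rw [if_neg hp, if_neg hp]
        by_cases h1 : q * p * a * (q * p) = b
        · by_cases h2 : q * p' * a * (q * p') = b
          · rw [if_pos h1, if_pos h2, if_pos]
            · norm_num
            · have h4 : p * a * (q * p) = p' * a * (q * p') := by
                have h5 := h1.trans h2.symm
                rw [mul_assoc q p a, mul_assoc q p' a, mul_assoc q, mul_assoc q] at h5
                exact mul_left_cancel h5
              -- `q (p p'⁻¹) q⁻¹ = a⁻¹ (p⁻¹ p') a`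
              have h6 : a * (q * p) * (p'⁻¹ * q⁻¹) = p⁻¹ * p' * a := by
                have h7 : a * (q * p) = p⁻¹ * (p' * a * (q * p')) := by
                  rw [← h4]
                  group
                rw [h7]
                group
              calc q * (p * p'⁻¹) * q⁻¹ = a⁻¹ * (a * (q * p) * (p'⁻¹ * q⁻¹)) := by group
                _ = a⁻¹ * (p⁻¹ * p') * a := by rw [h6]; group
          · rw [if_neg h2, mul_zero]
            split_ifs <;> norm_num
        · rw [if_neg h1, zero_mul]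
          split_ifs <;> norm_num
    have h4 : W s l (fun q => W s k (fun p => W s k (fun p' =>
          (if q * p * a * (q * p) = b then (1 : ℝ) else 0) *
            (if q * p' * a * (q * p') = b then (1 : ℝ) else 0)))) ≤
        W s l (fun q => W s k (fun p => W s k (fun p' => (if p = p' then (1 : ℝ) else 0) +
        (if p = p' then (0 : ℝ) else
          (if q * (p * p'⁻¹) * q⁻¹ = a⁻¹ * (p⁻¹ * p') * a then (1 : ℝ) else 0))))) :=
      W_mono s l fun q => W_mono s k fun p => W_mono s k fun p' => h3 q p p'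
    refine h4.trans (le_of_eq ?_)
    have e5 : (fun q => W s k (fun p => W s k (fun p' => (if p = p' then (1 : ℝ) else 0) +
        (if p = p' then (0 : ℝ) else
          (if q * (p * p'⁻¹) * q⁻¹ = a⁻¹ * (p⁻¹ * p') * a then (1 : ℝ) else 0))))) =
        fun q => ρ k + W s k (fun p => W s k (fun p' => (if p = p' then (0 : ℝ) else
          (if q * (p * p'⁻¹) * q⁻¹ = a⁻¹ * (p⁻¹ * p') * a then (1 : ℝ) else 0)))) := by
      funext q
      rw [hρ]
      simp only
      rw [← W_add]
      congr 1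
      funext p
      rw [← W_add]
    rw [e5, W_add, W_const, W_swap]
    congr 1
    rw [hM]
    simp only
    congr 1
    funext p
    rw [W_swap]
    congr 1
    funext p'
    by_cases hp : p = p'
    · simp only [hp, if_true]
      rw [W_const]
    · simp only [if_neg hp]
  have hρ0 : Tendsto ρ atTop (𝓝 0) := ret_zero s gen σ hσ hs
  rw [Metric.tendsto_atTop]
  intro ε hε
  have h1 : (0 : ℝ) < ε ^ 2 / 2 := by positivity
  obtain ⟨k, hk⟩ := (hρ0.eventually (gt_mem_nhds h1)).exists
  obtain ⟨l0, hl0⟩ := Filter.eventually_atTop.1 ((hMl k).eventually (gt_mem_nhds h1))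
  refine ⟨l0 + k, fun n hn => ?_⟩
  obtain ⟨m, rfl⟩ := Nat.exists_eq_add_of_le hn
  have h2 := hkey k (l0 + m)
  have h3 := hl0 (l0 + m) (by omega)
  have e : l0 + k + m = l0 + m + k := by ring
  rw [Real.dist_eq, sub_zero, abs_of_nonneg (hδ0 _), e]
  have h4 : (δ (l0 + m + k)) ^ 2 < ε ^ 2 := by linarith
  exact lt_of_pow_lt_pow_left₀ 2 hε.le h4

end Pool.Agent.Lib.MP_354e85_al.L2B
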