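import Pool.Agent.Lib.MP_354e85_al.L2B.FlipA
import Pool.Agent.Lib.MP_354e85_al.L2B.FlipB

/-! The sharp second moment: the rank of `T s g` on `Z` is at least about `dm Z / (dm Z + 1)` for
some `g`. -/

set_option autoImplicit false

namespace Pool.Agent.Lib.MP_354e85_al.L2B

open Finset Filter Topology
open scoped InnerProductSpace

/-- Functionals of bounded norm which tend to zero at the basis vectors tend to zero. -/
theorem lin_lim {α : Type} [DecidableEq α] (T : ℕ → L α →ₗ[ℝ] ℝ) (C : ℝ)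
    (hT : ∀ n v, |T n v| ≤ C * ‖v‖)
    (h : ∀ a, Tendsto (fun n => T n (lp.single 2 a (1 : ℝ))) atTop (𝓝 0)) (v : L α) :
    Tendsto (fun n => T n v) atTop (𝓝 0) := by
  rw [Metric.tendsto_atTop]
  intro ε hε
  set C' : ℝ := |C| + 1 with hC'
  have hC0 : 0 < C' := by positivity
  have hT' : ∀ n v, |T n v| ≤ C' * ‖v‖ := fun n v => by
    refine (hT n v).trans (mul_le_mul_of_nonneg_right ?_ (norm_nonneg _))
    linarith [le_abs_self C]
  have h1 := lp.hasSum_single (E := fun _ : α => ℝ) (p := 2) (by norm_num) v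
  have h2 : 0 < ε / (2 * C') := by positivity
  obtain ⟨A, hA⟩ := (Metric.tendsto_nhds.1 h1 _ h2).exists
  set w : L α := ∑ a ∈ A, lp.single 2 a (v a) with hw
  have h3 : Tendsto (fun n => T n w) atTop (𝓝 0) := by
    have h4 : ∀ n, T n w = ∑ a ∈ A, v a * T n (lp.single 2 a (1 : ℝ)) := by
      intro n
      rw [hw, map_sum]
      refine sum_congr rfl fun a _ => ?_
      have h5 : (lp.single 2 a (v a) : L α) = (v a : ℝ) • lp.single 2 a (1 : ℝ) := by
        rw [← lp.single_smul]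
        simp
      rw [h5, map_smul, smul_eq_mul]
    simp only [h4]
    have h6 : (0 : ℝ) = ∑ a ∈ A, v a * 0 := by simp
    rw [h6]
    exact tendsto_finsetSum _ fun a _ => (h a).const_mul _
  obtain ⟨n0, hn0⟩ := Metric.tendsto_atTop.1 h3 (ε / 2) (by positivity)
  refine ⟨n0, fun n hn => ?_⟩
  have h7 := hn0 n hn
  rw [Real.dist_eq, sub_zero] at h7 ⊢
  have h8 : T n v = T n w + T n (v - w) := by rw [map_sub]; ring
  have h9 := hT' n (v - w)
  have h10 : ‖v - w‖ < ε / (2 * C') := by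
    rw [← dist_eq_norm, dist_comm]
    exact hA
  have h11 : C' * ‖v - w‖ < ε / 2 := by
    calc C' * ‖v - w‖ < C' * (ε / (2 * C')) := by gcongr
      _ = ε / 2 := by field_simp
  rw [h8]
  calc |T n w + T n (v - w)| ≤ |T n w| + |T n (v - w)| := abs_add_le _ _
    _ < ε := by linarith

variable {G : Type} [Group G] {ι : Type} [Fintype ι]

theorem W_abs [Nonempty ι] (s : ι → G) (n : ℕ) {F : G → ℝ} {C : ℝ} (h : ∀ g, |F g| ≤ C) :
    |W s n F| ≤ C := by
  rw [abs_le]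
  constructor
  · have h1 := W_mono s n (F := fun _ => -C) (F' := F) fun g => (abs_le.1 (h g)).1
    rwa [W_const] at h1
  · have h1 := W_mono s n (F := F) (F' := fun _ => C) fun g => (abs_le.1 (h g)).2
    rwa [W_const] at h1

/-- the averages of `⟪v, fl (t h) w⟫` as functionals of `v` -/
private noncomputable def BL (s : ι → G) (t : G) (n : ℕ) (w : L (ι × G)) : L (ι × G) →ₗ[ℝ] ℝ where
  toFun v := W s n (fun h => ⟪v, fl (t * h) w⟫_ℝ)
  map_add' v v' := by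
    simp only [inner_add_left]
    rw [W_add]
  map_smul' c v := by
    simp only [real_inner_smul_left]
    rw [W_mulc]
    rfl

private noncomputable def BR (s : ι → G) (t : G) (n : ℕ) (v : L (ι × G)) : L (ι × G) →ₗ[ℝ] ℝ where
  toFun w := W s n (fun h => ⟪v, fl (t * h) w⟫_ℝ)
  map_add' w w' := by
    simp only [map_add, inner_add_right]
    rw [W_add]
  map_smul' c w := by
    simp only [map_smul, real_inner_smul_right]
    rw [W_mulc]
    rfl

theorem flip_zero [Nonempty ι] [Infinite G] (s : ι → G) (gen : ∀ g : G, ∃ l, pr s l = g)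
    (icc : ∀ g : G, g ≠ 1 → (Set.range fun x : G => x * g * x⁻¹).Infinite) (σ : ι → ι)
    (hσ : Function.Involutive σ) (hs : ∀ i, s (σ i) = (s i)⁻¹) (t : G) (v w : L (ι × G)) :
    Tendsto (fun n => W s n (fun h => ⟪v, fl (t * h) w⟫_ℝ)) atTop (𝓝 0) := by
  classical
  have hb : ∀ (n : ℕ) (v w : L (ι × G)), |W s n (fun h => ⟪v, fl (t * h) w⟫_ℝ)| ≤ ‖v‖ * ‖w‖ := by
    intro n v w
    refine W_abs s n fun h => ?_
    refine (abs_real_inner_le_norm _ _).trans ?_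
    rw [LinearIsometry.norm_map]
  have h1 : ∀ a b : ι × G, Tendsto (fun n => W s n (fun h =>
      ⟪(lp.single 2 a (1 : ℝ) : L (ι × G)), fl (t * h) (lp.single 2 b (1 : ℝ))⟫_ℝ)) atTop (𝓝 0) := by
    rintro ⟨i, x⟩ ⟨j, y⟩
    have h2 := hah_zero s gen icc σ hσ hs (x⁻¹ * t) (t⁻¹ * y)
    refine squeeze_zero (fun n => W_nn s n fun h => ?_) (fun n => W_mono s n fun h => ?_) h2
    · rw [lp.inner_single_left]
      change 0 ≤ ⟪(1 : ℝ), (lp.single 2 (j, y) (1 : ℝ) : L (ι × G)) (i, t * h * x⁻¹ * (t * h))⟫_ℝ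
      rw [lp.single_apply]
      by_cases e : (i, t * h * x⁻¹ * (t * h)) = (j, y)
      · rw [e]
        simp
      · rw [Pi.single_eq_of_ne e]
        simp
    · rw [lp.inner_single_left]
      change ⟪(1 : ℝ), (lp.single 2 (j, y) (1 : ℝ) : L (ι × G)) (i, t * h * x⁻¹ * (t * h))⟫_ℝ ≤ _
      rw [lp.single_apply]
      by_cases e : (i, t * h * x⁻¹ * (t * h)) = (j, y)
      · have e2 : h * (x⁻¹ * t) * h = t⁻¹ * y := by
          rw [← (Prod.mk.inj e).2]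
          group
        rw [if_pos e2, e]
        simp
      · rw [Pi.single_eq_of_ne e]
        split_ifs <;> simp
  have h3 : ∀ (b : ι × G) (v : L (ι × G)), Tendsto (fun n => W s n (fun h =>
      ⟪v, fl (t * h) (lp.single 2 b (1 : ℝ))⟫_ℝ)) atTop (𝓝 0) := by
    intro b v
    refine lin_lim (fun n => BL s t n (lp.single 2 b (1 : ℝ)))
      ‖(lp.single 2 b (1 : ℝ) : L (ι × G))‖ (fun n v => ?_) (fun a => h1 a b) v
    rw [mul_comm]
    exact hb n v _
  exact lin_lim (fun n => BR s t n v) ‖v‖ (fun n w => hb n v w) (fun b => h3 b v) w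

variable {s : ι → G} {Z : Submodule ℝ (L (ι × G))} {u : G → L (ι × G)}

theorem gam_zero [Nonempty ι] [Infinite G] (gen : ∀ g : G, ∃ l, pr s l = g)
    (icc : ∀ g : G, g ≠ 1 → (Set.range fun x : G => x * g * x⁻¹).Infinite) (σ : ι → ι)
    (hσ : Function.Involutive σ) (hs : ∀ i, s (σ i) = (s i)⁻¹) (u : G → L (ι × G)) :
    Tendsto (gam s u) atTop (𝓝 0) := by
  have e : gam s u = fun n => (Fintype.card ι : ℝ)⁻¹ *
      ∑ i, W s n (fun h => ⟪u (s i), fl (s i * h) (u (s i))⟫_ℝ) := by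
    funext n
    unfold gam
    rw [W_mulc, W_fsum]
  rw [e]
  have h0 : (0 : ℝ) = (Fintype.card ι : ℝ)⁻¹ * ∑ _i : ι, (0 : ℝ) := by simp
  rw [h0]
  exact (tendsto_finsetSum _ fun i _ => flip_zero s gen icc σ hσ hs (s i) _ _).const_mul _

theorem W_ff_le [Nonempty ι] [Infinite G] (gen : ∀ g : G, ∃ l, pr s l = g)
    (icc : ∀ g : G, g ≠ 1 → (Set.range fun x : G => x * g * x⁻¹).Infinite) (σ : ι → ι)
    (hσ : Function.Involutive σ) (hs : ∀ i, s (σ i) = (s i)⁻¹) (hu : Rep s Z u) {ε : ℝ}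
    (hε : 0 < ε) : ∃ (n0 : ℕ) (C : ℝ), 0 ≤ C ∧ ∀ n, n0 ≤ n → W s n (ff u) ≤ C + ε * n := by
  obtain ⟨n0, hn0⟩ := Filter.eventually_atTop.1
    ((gam_zero gen icc σ hσ hs u).eventually (gt_mem_nhds hε))
  refine ⟨n0, |W s n0 (ff u)|, abs_nonneg _, fun n hn => ?_⟩
  obtain ⟨m, rfl⟩ := Nat.exists_eq_add_of_le hn
  induction m with
  | zero =>
    have h1 := le_abs_self (W s n0 (ff u))
    have h2 : 0 ≤ ε * ((n0 + 0 : ℕ) : ℝ) := by positivity
    rw [add_zero] at h2 ⊢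
    linarith
  | succ m ih =>
    have h1 := ih (by omega)
    have h2 := hn0 (n0 + m) (by omega)
    rw [← add_assoc, W_ff hu σ hσ hs]
    push_cast at h1 ⊢
    linarith

theorem mom2_point' [Nonempty ι] (gen : ∀ g : G, ∃ l, pr s l = g) (hZ : Good s Z)
    (hu : Rep s Z u) {η : ℝ} (hη : 0 < η) (g : G) :
    (Fintype.card ι : ℝ)⁻¹ • ∑ i, ‖cc s u (g * s i)‖ ^ 2 ≤
      ‖cc s u g‖ ^ 2 + 2 * ⟪cc s u g⁻¹, Th s u⟫_ℝ +
        ((1 + η) * (2 / Fintype.card ι) * ‖u g‖ ^ 2 +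
        (1 + η) * (2 / Fintype.card ι) * ff u g) + (1 + η⁻¹) * kap s u := by
  have hq : (0 : ℝ) < Fintype.card ι := by exact_mod_cast Fintype.card_pos
  have h1 : ∀ i, ‖cc s u (g * s i)‖ ^ 2 ≤ ‖cc s u g‖ ^ 2 + 2 * ⟪cc s u g, CJ g (cc s u (s i))⟫_ℝ +
      2 * ⟪cc s u g, mA s u g i + mB s u g i⟫_ℝ + (1 + η⁻¹) * ‖cc s u (s i)‖ ^ 2 +
      (1 + η) * (2 * ‖T s (s i) (u g)‖ ^ 2 + 2 * ⟪mA s u g i, mB s u g i⟫_ℝ) := by
    intro i
    rw [cc_mul gen hZ hu]
    set c := cc s u g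
    set z := CJ g (cc s u (s i)) with hz
    set ab := mA s u g i + mB s u g i with hab
    have e1 : ‖c + z + ab‖ ^ 2 = ‖c‖ ^ 2 + 2 * ⟪c, z⟫_ℝ + 2 * ⟪c, ab⟫_ℝ + ‖z + ab‖ ^ 2 := by
      rw [add_assoc, norm_add_sq_real, inner_add_right]
      ring
    have e2 : ‖z + ab‖ ^ 2 ≤ (1 + η⁻¹) * ‖z‖ ^ 2 + (1 + η) * ‖ab‖ ^ 2 := by
      have h := norm_add_le z ab
      have h3 : ‖z + ab‖ ^ 2 ≤ (‖z‖ + ‖ab‖) ^ 2 := by gcongr
      have h5 : 0 ≤ (η⁻¹) * (‖z‖ - η * ‖ab‖) ^ 2 := by positivity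
      have h6 : (η⁻¹) * (‖z‖ - η * ‖ab‖) ^ 2 =
          η⁻¹ * ‖z‖ ^ 2 - 2 * ‖z‖ * ‖ab‖ + η * ‖ab‖ ^ 2 := by
        field_simp
        ring
      nlinarith
    have hB : ‖mB s u g i‖ = ‖T s (s i) (u g)‖ := by
      unfold mB
      rw [LinearIsometry.norm_map]
    have e3 : ‖ab‖ ^ 2 = 2 * ‖T s (s i) (u g)‖ ^ 2 + 2 * ⟪mA s u g i, mB s u g i⟫_ℝ := by
      rw [hab, norm_add_sq_real, norm_mA hZ hu, hB]
      ring
    have e4 : ‖z‖ = ‖cc s u (s i)‖ := by rw [hz, LinearIsometry.norm_map]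
    rw [e1, ← e3, ← e4]
    linarith
  have h2 := Finset.sum_le_sum fun i (_ : i ∈ univ) => h1 i
  have h3 : ∑ i, (‖cc s u g‖ ^ 2 + 2 * ⟪cc s u g, CJ g (cc s u (s i))⟫_ℝ +
      2 * ⟪cc s u g, mA s u g i + mB s u g i⟫_ℝ + (1 + η⁻¹) * ‖cc s u (s i)‖ ^ 2 +
      (1 + η) * (2 * ‖T s (s i) (u g)‖ ^ 2 + 2 * ⟪mA s u g i, mB s u g i⟫_ℝ)) =
      (Fintype.card ι : ℝ) * ‖cc s u g‖ ^ 2 +
      2 * ((Fintype.card ι : ℝ) * ⟪cc s u g, CJ g (Th s u)⟫_ℝ) +
      (1 + η⁻¹) * ((Fintype.card ι : ℝ) * kap s u) +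
      (1 + η) * (2 * ‖u g‖ ^ 2 + 2 * ff u g) := by
    simp only [Finset.sum_add_distrib, ← Finset.mul_sum, ← inner_sum]
    rw [sum_mA hu, sum_mB gen hZ hu, sum_T gen hZ (hu.mem g), sum_mAB gen hZ hu]
    have h4 : (Fintype.card ι : ℝ) * ⟪cc s u g, CJ g (Th s u)⟫_ℝ =
        ⟪cc s u g, ∑ i, CJ g (cc s u (s i))⟫_ℝ := by
      unfold Th
      rw [map_smul, map_sum, inner_smul_right]
      field_simp
    have h5 : (Fintype.card ι : ℝ) * kap s u = ∑ i, ‖cc s u (s i)‖ ^ 2 := by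
      unfold kap
      field_simp
    rw [h4, h5]
    simp
  rw [h3] at h2
  have h6 : ⟪cc s u g, CJ g (Th s u)⟫_ℝ = ⟪cc s u g⁻¹, Th s u⟫_ℝ := by
    have h := (CJ g⁻¹).inner_map_map (cc s u g) (CJ g (Th s u))
    rw [← h, ← cc_inv gen hZ hu]
    congr 1
    apply L_ext
    intro x
    simp only [CJ_apply]
    group
  rw [h6] at h2
  rw [smul_eq_mul, inv_mul_le_iff₀ hq]
  refine h2.trans (le_of_eq ?_)
  field_simp
  ring

theorem mom2_step' [Nonempty ι] (gen : ∀ g : G, ∃ l, pr s l = g) (σ : ι → ι)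
    (hσ : Function.Involutive σ) (hs : ∀ i, s (σ i) = (s i)⁻¹) (hZ : Good s Z)
    (hu : Rep s Z u) {η : ℝ} (hη : 0 < η) (n : ℕ) :
    W s (n + 1) (fun g => ‖cc s u g‖ ^ 2) ≤ W s n (fun g => ‖cc s u g‖ ^ 2) +
      2 * ⟪∑ j ∈ range n, (P s ^ j) (Th s u), Th s u⟫_ℝ +
      ((1 + η) * (2 / Fintype.card ι) * (n * (dm Z / Fintype.card ι)) +
      (1 + η) * (2 / Fintype.card ι) * W s n (ff u)) + (1 + η⁻¹) * kap s u := by
  change W s n (fun g => (Fintype.card ι : ℝ)⁻¹ • ∑ i, ‖cc s u (g * s i)‖ ^ 2) ≤ _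
  refine (W_mono s n (mom2_point' gen hZ hu hη)).trans (le_of_eq ?_)
  rw [W_add, W_add, W_add, W_const, W_add]
  have h1 : W s n (fun g => 2 * ⟪cc s u g⁻¹, Th s u⟫_ℝ) =
      2 * ⟪∑ j ∈ range n, (P s ^ j) (Th s u), Th s u⟫_ℝ := by
    have h2 := W_smul s n (2 : ℝ) (fun g => ⟪cc s u g⁻¹, Th s u⟫_ℝ)
    simp only [smul_eq_mul] at h2
    rw [h2, W_inv s σ hσ hs n (fun g => ⟪cc s u g, Th s u⟫_ℝ), ← W_cc gen hZ hu]
    congr 1
    have h3 := W_map s n ((innerSL ℝ (Th s u)).toLinearMap) (cc s u)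
    simp only [ContinuousLinearMap.coe_coe, innerSL_apply_apply] at h3
    rw [real_inner_comm, h3]
    congr 1
    funext g
    exact real_inner_comm _ _
  have h4 : W s n (fun g => (1 + η) * (2 / (Fintype.card ι : ℝ)) * ‖u g‖ ^ 2) =
      (1 + η) * (2 / Fintype.card ι) * (n * (dm Z / Fintype.card ι)) := by
    have h2 := W_smul s n ((1 + η) * (2 / (Fintype.card ι : ℝ))) (fun g => ‖u g‖ ^ 2)
    simp only [smul_eq_mul] at h2
    rw [h2, mom1 hu]
  rw [h1, h4, W_mulc]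

theorem moment1 [Nonempty ι] [Infinite G] (gen : ∀ g : G, ∃ l, pr s l = g)
    (icc : ∀ g : G, g ≠ 1 → (Set.range fun x : G => x * g * x⁻¹).Infinite) (σ : ι → ι)
    (hσ : Function.Involutive σ) (hs : ∀ i, s (σ i) = (s i)⁻¹) (hZ : Good s Z) {p : ℝ}
    (hp : 0 ≤ p) (h : ∀ g, ∀ ω ∈ Z, (T s g ω 1 : ℝ) ^ 2 ≤ p * ‖T s g ω‖ ^ 2) :
    dm Z ≤ p * (dm Z + 1) := by
  obtain ⟨u, hu⟩ := exists_rep gen hZ
  have hD := dm_nonneg Z
  have hq : (0 : ℝ) < Fintype.card ι := by exact_mod_cast Fintype.card_pos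
  set D := dm Z with hDdef
  set q : ℝ := (Fintype.card ι : ℝ) with hqdef
  set N : ℕ → ℝ := fun n => W s n (fun g => ‖cc s u g‖ ^ 2) with hN
  set a : ℕ → ℝ := fun n => ⟪∑ j ∈ range n, (P s ^ j) (Th s u), Th s u⟫_ℝ with ha
  have hN0 : ∀ n, 0 ≤ N n := fun n => W_nn s n fun g => by positivity
  have hk0 : 0 ≤ kap s u := by
    unfold kap
    positivity
  have herg : Tendsto (fun n : ℕ => (n : ℝ)⁻¹ * a n) atTop (𝓝 ((D / q) ^ 2)) := by
    have h1 := erg s gen icc (Th s u)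
    rwa [Th_one hu] at h1
  -- the main inequality for every ε
  have key : ∀ ε : ℝ, 0 < ε → (D / q) ^ 2 ≤
      p * ((D / q) ^ 2 + ε + (1 + ε) * ((D / q + ε) / q)) := by
    intro ε hε
    have h1 : ∀ᶠ n : ℕ in atTop, (n : ℝ)⁻¹ * a n < (D / q) ^ 2 + ε :=
      herg.eventually_lt_const (by linarith)
    obtain ⟨n1, hn1⟩ := Filter.eventually_atTop.1 h1
    obtain ⟨n2, C, hC0, hn2⟩ := W_ff_le gen icc σ hσ hs hu hε
    set n0 := n1 + n2 + 1 with hn0
    set x : ℝ := (D / q) ^ 2 + ε with hx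
    have hx0 : 0 ≤ x := by positivity
    have ha' : ∀ n, n0 ≤ n → a n ≤ n * x := by
      intro n hn
      have h2 := hn1 n (by omega)
      have h3 : (0 : ℝ) < n := by exact_mod_cast (by omega : 0 < n)
      rw [inv_mul_lt_iff₀ h3] at h2
      exact h2.le
    set β : ℝ := (1 + ε) * (2 / q) * (D / q + ε) with hβ
    have hβ0 : 0 ≤ β := by positivity
    set γ : ℝ := (1 + ε⁻¹) * kap s u + (1 + ε) * (2 / q) * C with hγ
    have hγ0 : 0 ≤ γ := by positivity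
    have hstep : ∀ n, n0 ≤ n → N (n + 1) ≤ N n + (2 * x + β) * n + γ := by
      intro n hn
      have h2 := mom2_step' gen σ hσ hs hZ hu hε n
      have h3 := ha' n hn
      change N (n + 1) ≤ N n + 2 * a n + ((1 + ε) * (2 / q) * (n * (D / q)) +
        (1 + ε) * (2 / q) * W s n (ff u)) + (1 + ε⁻¹) * kap s u at h2
      have h5 := hn2 n (by omega)
      have h6 : (1 + ε) * (2 / q) * W s n (ff u) ≤ (1 + ε) * (2 / q) * (C + ε * n) :=
        mul_le_mul_of_nonneg_left h5 (by positivity)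
      have h4 : (1 + ε) * (2 / q) * (n * (D / q)) + (1 + ε) * (2 / q) * (C + ε * n) =
          β * n + (1 + ε) * (2 / q) * C := by
        rw [hβ]; ring
      rw [hγ]
      linarith
    have hall : ∀ m : ℕ, N (n0 + m) ≤ N n0 + ((2 * x + β) / 2) * ((n0 + m : ℕ) : ℝ) ^ 2 +
        γ * ((n0 + m : ℕ) : ℝ) := by
      intro m
      induction m with
      | zero =>
        have h5 : 0 ≤ ((2 * x + β) / 2) * ((n0 + 0 : ℕ) : ℝ) ^ 2 := by positivity
        have h6 : 0 ≤ γ * ((n0 + 0 : ℕ) : ℝ) := by positivity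
        change N n0 ≤ _
        linarith
      | succ m ih =>
        have h5 := hstep (n0 + m) (by omega)
        have h6 : ((n0 + (m + 1) : ℕ) : ℝ) = ((n0 + m : ℕ) : ℝ) + 1 := by push_cast; ring
        rw [h6]
        change N (n0 + m + 1) ≤ _
        have h7 : (0 : ℝ) ≤ 2 * x + β := by positivity
        nlinarith
    have h8 : ∀ n : ℕ, n0 ≤ n → ((D / q) ^ 2 - p * ((2 * x + β) / 2)) * (n : ℝ) ^ 2 ≤
        p * N n0 + p * γ * n := by
      intro n hn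
      obtain ⟨m, rfl⟩ := Nat.exists_eq_add_of_le hn
      have h9 := mom_lower hu hp h (n0 + m)
      change (((n0 + m : ℕ) : ℝ) * (D / q)) ^ 2 ≤ p * N (n0 + m) at h9
      have h10 := mul_le_mul_of_nonneg_left (hall m) hp
      nlinarith
    have h11 := quad_lim (mul_nonneg hp (hN0 n0)) (mul_nonneg hp hγ0) h8
    have h12 : (2 * x + β) / 2 = (D / q) ^ 2 + ε + (1 + ε) * ((D / q + ε) / q) := by
      rw [hβ, hx]; field_simp
    rw [h12] at h11
    linarith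
  -- let ε tend to zero
  have h13 : (D / q) ^ 2 ≤ p * ((D / q) ^ 2 + 0 + (1 + 0) * ((D / q + 0) / q)) := by
    have hc : Tendsto (fun ε : ℝ => p * ((D / q) ^ 2 + ε + (1 + ε) * ((D / q + ε) / q)))
        (𝓝[>] 0) (𝓝 (p * ((D / q) ^ 2 + 0 + (1 + 0) * ((D / q + 0) / q)))) := by
      have hcont : Continuous fun ε : ℝ => p * ((D / q) ^ 2 + ε + (1 + ε) * ((D / q + ε) / q)) := by
        fun_prop
      exact (hcont.tendsto 0).mono_left nhdsWithin_le_nhds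
    refine ge_of_tendsto hc ?_
    filter_upwards [self_mem_nhdsWithin] with ε hε
    exact key ε hε
  rcases hD.eq_or_lt with h0 | h0
  · rw [← h0]
    simpa using hp
  · have h14 : (D / q) ^ 2 ≤ p * ((D / q) ^ 2 + (D / q) / q) := by simpa using h13
    have h15 : D * D ≤ p * (D + 1) * D := by
      have h16 := mul_le_mul_of_nonneg_right h14 (by positivity : (0 : ℝ) ≤ q ^ 2)
      have h17 : (D / q) ^ 2 * q ^ 2 = D * D := by field_simp
      have h18 : p * ((D / q) ^ 2 + (D / q) / q) * q ^ 2 = p * (D + 1) * D := by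
        field_simp
      rwa [h17, h18] at h16
    exact le_of_mul_le_mul_right h15 h0

end Pool.Agent.Lib.MP_354e85_al.L2B
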