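import Pool.Agent.Lib.MP_354e85_al.L2B.MomF

/-! The crossing term of the second moment. -/

set_option autoImplicit false

namespace Pool.Agent.Lib.MP_354e85_al.L2B

open Finset Filter Topology
open scoped InnerProductSpace

variable {G : Type} [Group G] {ι : Type}

/-- The bijection `z ↦ g z⁻¹ g`. -/
def flE (g : G) : G ≃ G where
  toFun z := g * z⁻¹ * g
  invFun z := g * z⁻¹ * g
  left_inv z := by group
  right_inv z := by group

/-- The flip of a function on `ι × G`. -/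
noncomputable def fl (g : G) : L (ι × G) →ₗᵢ[ℝ] L (ι × G) :=
  cmp ((Equiv.refl ι).prodCongr (flE g))

theorem fl_apply (g : G) (ω : L (ι × G)) (i : ι) (x : G) :
    fl g ω (i, x) = ω (i, g * x⁻¹ * g) := rfl

theorem fl_fl (g : G) (ω : L (ι × G)) : fl g (fl g ω) = ω := by
  apply L_ext
  rintro ⟨i, x⟩
  rw [fl_apply, fl_apply]
  group

theorem fl_inner (g : G) (v w : L (ι × G)) : ⟪fl g v, w⟫_ℝ = ⟪v, fl g w⟫_ℝ := by
  rw [← (fl g).inner_map_map (fl g v) w, fl_fl]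

theorem fl_lam (t h : G) (w : L (ι × G)) : fl (t * h) (lam t⁻¹ w) = lam t⁻¹ (fl h w) := by
  apply L_ext
  rintro ⟨i, x⟩
  rw [fl_apply, lam_apply, lam_apply, fl_apply]
  group

variable [Fintype ι] {s : ι → G} {Z : Submodule ℝ (L (ι × G))} {u : G → L (ι × G)}

omit [Group G] in
theorem sum_sl_inner (v w : L (ι × G)) : ∑ i, ⟪sl i v, sl i w⟫_ℝ = ⟪v, w⟫_ℝ := by
  have h1 : ∀ i, ⟪sl i v, sl i w⟫_ℝ =
      (‖sl i (v + w)‖ ^ 2 - ‖sl i v‖ ^ 2 - ‖sl i w‖ ^ 2) / 2 := by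
    intro i
    rw [map_add, norm_add_sq_real]
    ring
  rw [Finset.sum_congr rfl fun i _ => h1 i, ← Finset.sum_div, Finset.sum_sub_distrib,
    Finset.sum_sub_distrib, sum_sl, sum_sl, sum_sl, norm_add_sq_real]
  ring

/-- the crossing term -/
noncomputable def ff (u : G → L (ι × G)) (g : G) : ℝ := ⟪u g, fl g (u g)⟫_ℝ

theorem sum_mAB (gen : ∀ g : G, ∃ l, pr s l = g) (hZ : Good s Z) (hu : Rep s Z u) (g : G) :
    ∑ i, ⟪mA s u g i, mB s u g i⟫_ℝ = ff u g := by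
  unfold ff
  rw [← sum_sl_inner]
  refine Finset.sum_congr rfl fun i _ => ?_
  have h : mA s u g i = cmp (Equiv.inv G) (mB s u g i) := by
    apply L_ext
    intro x
    rw [cmp_apply]
    change T s g (lam g⁻¹ (u (s i))) x = T s (s i) (u g) (x⁻¹ * g)
    rw [hu.rep _ (hZ.inv _ _ (hu.mem _)), hu.rep _ (hu.mem _), lam_lam, lam_inner,
      real_inner_comm]
    group
  have hB : mB s u g i = RR g (sl i (u g)) := by
    unfold mB
    rw [T_gen gen hZ i (hu.mem g)]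
  have h2 : RR g⁻¹ (mA s u g i) = sl i (fl g (u g)) := by
    apply L_ext
    intro x
    rw [h, hB]
    change (u g) (i, (x * g⁻¹)⁻¹ * g) = (u g) (i, g * x⁻¹ * g)
    group
  have h3 : RR g⁻¹ (mB s u g i) = sl i (u g) := by
    rw [hB, RR_RR, inv_mul_cancel, RR_one]
  rw [← (RR g⁻¹).inner_map_map (mA s u g i) (mB s u g i), h2, h3, real_inner_comm]

theorem u_inv (hu : Rep s Z u) (g : G) : lam g (u g) = - u g⁻¹ := by
  have h := hu.mul g g⁻¹
  rw [mul_inv_cancel, u_one hu] at h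
  have h' := congrArg (lam g) h
  rw [map_zero, map_add, lam_lam, inv_mul_cancel, lam_one] at h'
  exact eq_neg_of_add_eq_zero_left h'.symm

theorem ff_left (hu : Rep s Z u) (σ : ι → ι) (hσ : Function.Involutive σ)
    (hs : ∀ i, s (σ i) = (s i)⁻¹) (h : G) :
    ∑ i, ff u (s i * h) = (Fintype.card ι : ℝ) * ff u h +
      ∑ i, ⟪u (s i), fl (s i * h) (u (s i))⟫_ℝ := by
  have h1 : ∀ i, ff u (s i * h) = ff u h + ⟪u (s i), fl (s i * h) (u (s i))⟫_ℝ +
      2 * ⟪fl h (u h), lam (s i) (u (s i))⟫_ℝ := by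
    intro i
    unfold ff
    have e1 : ⟪lam (s i)⁻¹ (u h), fl (s i * h) (u (s i))⟫_ℝ =
        ⟪fl h (u h), lam (s i) (u (s i))⟫_ℝ := by
      rw [← fl_inner, fl_lam, lam_inner, inv_inv]
    have e2 : ⟪u (s i), fl (s i * h) (lam (s i)⁻¹ (u h))⟫_ℝ =
        ⟪fl h (u h), lam (s i) (u (s i))⟫_ℝ := by
      rw [fl_lam, real_inner_comm, lam_inner, inv_inv]
    have e3 : ⟪lam (s i)⁻¹ (u h), fl (s i * h) (lam (s i)⁻¹ (u h))⟫_ℝ = ⟪u h, fl h (u h)⟫_ℝ := by
      rw [fl_lam, LinearIsometry.inner_map_map]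
    rw [hu.mul, map_add, inner_add_left, inner_add_right, inner_add_right, e1, e2, e3]
    ring
  have h2 : ∑ i, lam (s i) (u (s i)) = 0 := by
    rw [Finset.sum_congr rfl fun i _ => u_inv hu (s i), Finset.sum_neg_distrib]
    have h3 : ∑ i, u (s i)⁻¹ = ∑ i, u (s i) := by
      refine Fintype.sum_equiv (Function.Involutive.toPerm σ hσ) _ _ fun i => ?_
      rw [Function.Involutive.coe_toPerm, hs]
    rw [h3, hu.sum, neg_zero]
  rw [Finset.sum_congr rfl fun i _ => h1 i, Finset.sum_add_distrib, Finset.sum_add_distrib,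
    ← Finset.mul_sum, ← inner_sum, h2, inner_zero_right]
  simp

theorem W_left' (s : ι → G) (n : ℕ) (F : G → ℝ) :
    W s (n + 1) F = W s n (fun g => (Fintype.card ι : ℝ)⁻¹ * ∑ i, F (s i * g)) := by
  induction n generalizing F with
  | zero =>
    change (Fintype.card ι : ℝ)⁻¹ • ∑ i, F (1 * s i) = (Fintype.card ι : ℝ)⁻¹ * ∑ i, F (s i * 1)
    simp only [one_mul, mul_one, smul_eq_mul]
  | succ n ih =>
    change W s (n + 1) (fun g => (Fintype.card ι : ℝ)⁻¹ • ∑ i, F (g * s i)) =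
      W s n (fun g => (Fintype.card ι : ℝ)⁻¹ • ∑ j,
        ((Fintype.card ι : ℝ)⁻¹ * ∑ i, F (s i * (g * s j))))
    rw [ih]
    congr 1
    funext g
    simp only [smul_eq_mul, Finset.mul_sum]
    rw [Finset.sum_comm]
    simp only [mul_assoc]

/-- The increments of the crossing term. -/
noncomputable def gam (s : ι → G) (u : G → L (ι × G)) (n : ℕ) : ℝ :=
  W s n (fun h => (Fintype.card ι : ℝ)⁻¹ * ∑ i, ⟪u (s i), fl (s i * h) (u (s i))⟫_ℝ)

theorem W_ff [Nonempty ι] (hu : Rep s Z u) (σ : ι → ι) (hσ : Function.Involutive σ)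
    (hs : ∀ i, s (σ i) = (s i)⁻¹) (n : ℕ) :
    W s (n + 1) (ff u) = W s n (ff u) + gam s u n := by
  have hq : (Fintype.card ι : ℝ) ≠ 0 := by exact_mod_cast Fintype.card_ne_zero
  rw [W_left']
  unfold gam
  rw [← W_add]
  congr 1
  funext g
  rw [ff_left hu σ hσ hs]
  field_simp

end Pool.Agent.Lib.MP_354e85_al.L2B
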