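import Pool.Agent.Lib.MP_354e85_al.L2B.Basic
import Pool.Agent.Lib.MP_354e85_al.Tarski

/-! A paradoxical decomposition gives a spectral gap for the right translations; the number of
pieces of a group is at most the number of pieces of a subgroup. -/

set_option autoImplicit false

namespace Pool.Agent.Lib.MP_354e85_al.L2B

open Finset
open scoped InnerProductSpace

/-- A paradoxical decomposition gives a spectral gap for right translations. -/
theorem gap {H : Type} [Group H] {k : ℕ} (hT : TarskiLE H k) :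
    ∃ (m : ℕ) (a : Fin m → H), ∀ h : L H, ‖h‖ ^ 2 ≤ 12 * ∑ i, ‖RR (a i) h - h‖ ^ 2 := by
  classical
  obtain ⟨m, n, -, A, B, g, t, h1, h2, h3⟩ := hT
  choose p hp hp' using h1
  choose i hi hi' using h2
  choose j hj hj' using h3
  let b : Fin m ⊕ Fin n → H := Sum.elim g t
  refine ⟨m + n, fun r => b (finSumFinEquiv.symm r), fun h => ?_⟩
  have hE : ∑ r, ‖RR (b (finSumFinEquiv.symm r)) h - h‖ ^ 2 = ∑ r, ‖RR (b r) h - h‖ ^ 2 :=
    Equiv.sum_comp finSumFinEquiv.symm fun r => ‖RR (b r) h - h‖ ^ 2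
  rw [hE]
  let φ : H → H := fun x => x * g (i x⁻¹)
  let ψ : H → H := fun x => x * t (j x⁻¹)
  have hφ1 : ∀ x, (φ x)⁻¹ ∈ A (i x⁻¹) := by
    intro x
    have := hi x⁻¹
    change (x * g (i x⁻¹))⁻¹ ∈ _
    rw [mul_inv_rev]
    exact this
  have hψ1 : ∀ x, (ψ x)⁻¹ ∈ B (j x⁻¹) := by
    intro x
    have := hj x⁻¹
    change (x * t (j x⁻¹))⁻¹ ∈ _
    rw [mul_inv_rev]
    exact this
  have hpφ : ∀ x, p (φ x)⁻¹ = Sum.inl (i x⁻¹) := fun x => (hp' _ (Sum.inl (i x⁻¹)) (hφ1 x)).symm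
  have hpψ : ∀ x, p (ψ x)⁻¹ = Sum.inr (j x⁻¹) := fun x => (hp' _ (Sum.inr (j x⁻¹)) (hψ1 x)).symm
  have hφi : Function.Injective φ := by
    intro x y hxy
    have e1 := hpφ x
    rw [hxy, hpφ y] at e1
    have e2 : i y⁻¹ = i x⁻¹ := Sum.inl_injective e1
    change x * g (i x⁻¹) = y * g (i y⁻¹) at hxy
    rw [e2] at hxy
    exact mul_right_cancel hxy
  have hψi : Function.Injective ψ := by
    intro x y hxy
    have e1 := hpψ x
    rw [hxy, hpψ y] at e1
    have e2 : j y⁻¹ = j x⁻¹ := Sum.inr_injective e1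
    change x * t (j x⁻¹) = y * t (j y⁻¹) at hxy
    rw [e2] at hxy
    exact mul_right_cancel hxy
  have hd : Disjoint (Set.range φ) (Set.range ψ) := by
    rw [Set.disjoint_left]
    rintro _ ⟨x, rfl⟩ ⟨y, hy⟩
    have e1 := hpφ x
    rw [← hy, hpψ y] at e1
    exact Sum.inr_ne_inl e1
  have hs : Summable fun x => (h x) ^ 2 := (L_hasSum h).summable
  have hsum : ∑' x, (h (φ x)) ^ 2 + ∑' x, (h (ψ x)) ^ 2 ≤ ‖h‖ ^ 2 := by
    have e1 : ∑' x, (h (φ x)) ^ 2 = ∑' x : Set.range φ, (h x) ^ 2 :=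
      (Equiv.ofInjective φ hφi).tsum_eq fun x : Set.range φ => (h x) ^ 2
    have e2 : ∑' x, (h (ψ x)) ^ 2 = ∑' x : Set.range ψ, (h x) ^ 2 :=
      (Equiv.ofInjective ψ hψi).tsum_eq fun x : Set.range ψ => (h x) ^ 2
    rw [e1, e2, ← (L_hasSum h).tsum_eq]
    have e3 := Summable.tsum_union_disjoint (f := fun x => (h x) ^ 2) hd
      (hs.subtype _) (hs.subtype _)
    rw [← e3]
    exact hs.tsum_subtype_le (fun x => (h x) ^ 2) _ (fun _ => sq_nonneg _)
  have hsφ : Summable fun x => (h (φ x)) ^ 2 := hs.comp_injective hφi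
  have hsψ : Summable fun x => (h (ψ x)) ^ 2 := hs.comp_injective hψi
  have hRs : ∀ r, Summable fun x => (h (x * b r) - h x) ^ 2 := by
    intro r
    have := (L_hasSum (RR (b r) h - h)).summable
    exact this
  have hRt : ∀ r, ∑' x, (h (x * b r) - h x) ^ 2 = ‖RR (b r) h - h‖ ^ 2 := by
    intro r
    have := (L_hasSum (RR (b r) h - h)).tsum_eq
    rw [← this]
    rfl
  have hRsum : Summable fun x => ∑ r, (h (x * b r) - h x) ^ 2 :=
    summable_sum fun r _ => hRs r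
  have hRtsum : ∑' x, ∑ r, (h (x * b r) - h x) ^ 2 = ∑ r, ‖RR (b r) h - h‖ ^ 2 := by
    rw [Summable.tsum_finsetSum fun r _ => hRs r]
    exact Finset.sum_congr rfl fun r _ => hRt r
  have hpt : ∀ (u v e : ℝ), (v - u) ^ 2 ≤ e → u ^ 2 ≤ 3 / 2 * v ^ 2 + 3 * e := by
    intro u v e he
    nlinarith [sq_nonneg (u - 3 / 2 * v)]
  have hptφ : ∀ x, (h x) ^ 2 ≤ 3 / 2 * (h (φ x)) ^ 2 + 3 * ∑ r, (h (x * b r) - h x) ^ 2 := by
    intro x
    refine hpt _ _ _ ?_
    exact Finset.single_le_sum (f := fun r => (h (x * b r) - h x) ^ 2)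
      (fun r _ => sq_nonneg _) (Finset.mem_univ (Sum.inl (i x⁻¹)))
  have hptψ : ∀ x, (h x) ^ 2 ≤ 3 / 2 * (h (ψ x)) ^ 2 + 3 * ∑ r, (h (x * b r) - h x) ^ 2 := by
    intro x
    refine hpt _ _ _ ?_
    exact Finset.single_le_sum (f := fun r => (h (x * b r) - h x) ^ 2)
      (fun r _ => sq_nonneg _) (Finset.mem_univ (Sum.inr (j x⁻¹)))
  have hφt : ‖h‖ ^ 2 ≤ 3 / 2 * ∑' x, (h (φ x)) ^ 2 + 3 * ∑ r, ‖RR (b r) h - h‖ ^ 2 := by
    rw [← (L_hasSum h).tsum_eq, ← hRtsum, ← tsum_mul_left, ← tsum_mul_left,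
      ← (hsφ.mul_left _).tsum_add (hRsum.mul_left _)]
    exact hs.tsum_le_tsum hptφ ((hsφ.mul_left _).add (hRsum.mul_left _))
  have hψt : ‖h‖ ^ 2 ≤ 3 / 2 * ∑' x, (h (ψ x)) ^ 2 + 3 * ∑ r, ‖RR (b r) h - h‖ ^ 2 := by
    rw [← (L_hasSum h).tsum_eq, ← hRtsum, ← tsum_mul_left, ← tsum_mul_left,
      ← (hsψ.mul_left _).tsum_add (hRsum.mul_left _)]
    exact hs.tsum_le_tsum hptψ ((hsψ.mul_left _).add (hRsum.mul_left _))
  linarith

/-- Pieces of a subgroup give pieces of the group. -/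
theorem tarski_of_subgroup {G : Type} [Group G] (H : Subgroup G) {k : ℕ} (hT : TarskiLE H k) :
    TarskiLE G k := by
  classical
  obtain ⟨m, n, hmn, A, B, g, t, h1, h2, h3⟩ := hT
  -- representatives of the cosets `H x`
  let o : G → G := fun x => (((x⁻¹ : G) : G ⧸ H).out)⁻¹
  have ho : ∀ x : G, x * (o x)⁻¹ ∈ H := by
    intro x
    have e : ((x⁻¹ : G) : G ⧸ H) = ((((x⁻¹ : G) : G ⧸ H).out : G) : G ⧸ H) :=
      (Quotient.out_eq _).symm
    have e2 := QuotientGroup.eq.1 e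
    rw [inv_inv] at e2
    change x * (((x⁻¹ : G) : G ⧸ H).out)⁻¹⁻¹ ∈ H
    rw [inv_inv]
    exact e2
  have hoo : ∀ (x : G) (y : H), o ((y : G) * x) = o x := by
    intro x y
    have e : ((((y : G) * x)⁻¹ : G) : G ⧸ H) = ((x⁻¹ : G) : G ⧸ H) := by
      rw [QuotientGroup.eq]
      have : ((y : G) * x)⁻¹⁻¹ * x⁻¹ = y := by group
      rw [this]
      exact y.2
    change ((((((y : G) * x)⁻¹ : G)) : G ⧸ H).out)⁻¹ = _
    rw [e]
  let r : G → H := fun x => ⟨x * (o x)⁻¹, ho x⟩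
  have hr : ∀ (x : G) (y : H), r ((y : G) * x) = y * r x := by
    intro x y
    apply Subtype.ext
    change (y : G) * x * (o ((y : G) * x))⁻¹ = y * (x * (o x)⁻¹)
    rw [hoo, mul_assoc]
  refine ⟨m, n, hmn, fun i => {x | r x ∈ A i}, fun j => {x | r x ∈ B j},
    fun i => (g i : G), fun j => (t j : G), ?_, ?_, ?_⟩
  · intro x
    obtain ⟨q, hq, hq'⟩ := h1 (r x)
    refine ⟨q, ?_, ?_⟩
    · rcases q with q | q
      · exact hq
      · exact hq
    · rintro (y | y) hy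
      · exact hq' (Sum.inl y) hy
      · exact hq' (Sum.inr y) hy
  · intro x
    obtain ⟨q, hq, hq'⟩ := h2 (r x)
    have e : ∀ y : Fin m, r ((g y : G)⁻¹ * x) = (g y)⁻¹ * r x := by
      intro y
      have := hr x (g y)⁻¹
      rw [Subgroup.coe_inv] at this
      exact this
    refine ⟨q, ?_, ?_⟩
    · change r ((g q : G)⁻¹ * x) ∈ A q
      rw [e]
      exact hq
    · intro y hy
      refine hq' y ?_
      change r ((g y : G)⁻¹ * x) ∈ A y at hy
      rw [e] at hy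
      exact hy
  · intro x
    obtain ⟨q, hq, hq'⟩ := h3 (r x)
    have e : ∀ y : Fin n, r ((t y : G)⁻¹ * x) = (t y)⁻¹ * r x := by
      intro y
      have := hr x (t y)⁻¹
      rw [Subgroup.coe_inv] at this
      exact this
    refine ⟨q, ?_, ?_⟩
    · change r ((t q : G)⁻¹ * x) ∈ B q
      rw [e]
      exact hq
    · intro y hy
      refine hq' y ?_
      change r ((t y : G)⁻¹ * x) ∈ B y at hy
      rw [e] at hy
      exact hy

end Pool.Agent.Lib.MP_354e85_al.L2B
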