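import Pool.Agent.Lib.MP_354e85_al.L2B.Defs

/-! From vectors with large value at `1` to expansion. -/

set_option autoImplicit false

namespace Pool.Agent.Lib.MP_354e85_al.L2B

open Finset
open scoped InnerProductSpace

variable {G : Type} [Group G] {ι : Type}

/-- The squared lengths of the projections of the basis vectors add up to the dimension. -/
private theorem sum_proj {β : Type} [Fintype β] [DecidableEq β]
    (E : Submodule ℝ (EuclideanSpace ℝ β)) :
    ∑ b : β, ‖E.starProjection (EuclideanSpace.basisFun β ℝ b)‖ ^ 2 = (Module.finrank ℝ E : ℝ) := by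
  have hp : LinearMap.IsProj E (E.starProjection : EuclideanSpace ℝ β →ₗ[ℝ] EuclideanSpace ℝ β) :=
    ⟨fun x => Submodule.starProjection_apply_mem _ _,
      fun x hx => Submodule.starProjection_eq_self_iff.2 hx⟩
  rw [← hp.trace, LinearMap.trace_eq_sum_inner _ (EuclideanSpace.basisFun β ℝ)]
  refine sum_congr rfl fun b _ => ?_
  have h := Submodule.starProjection_inner_eq_zero (K := E) (EuclideanSpace.basisFun β ℝ b)
    (E.starProjection (EuclideanSpace.basisFun β ℝ b)) (Submodule.starProjection_apply_mem _ _)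
  rw [inner_sub_left, sub_eq_zero] at h
  rw [← real_inner_self_eq_norm_sq]
  exact h.symm

/-- One basis vector. -/
private theorem one_vec {β : Type} [Fintype β] [DecidableEq β]
    (E : Submodule ℝ (EuclideanSpace ℝ β)) (w : EuclideanSpace ℝ β) (hw : w ∈ E) (b : β) :
    (w b) ^ 2 ≤ ‖w‖ ^ 2 * ‖E.starProjection (EuclideanSpace.basisFun β ℝ b)‖ ^ 2 := by
  have h := Submodule.starProjection_inner_eq_zero (K := E) (EuclideanSpace.basisFun β ℝ b) w hw
  rw [inner_sub_left, sub_eq_zero] at h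
  have h2 : ⟪EuclideanSpace.basisFun β ℝ b, w⟫_ℝ = w b := by
    simp [EuclideanSpace.inner_single_left]
  rw [h2] at h
  have h3 := abs_real_inner_le_norm (E.starProjection (EuclideanSpace.basisFun β ℝ b)) w
  rw [← h] at h3
  rw [← sq_abs, ← mul_pow, mul_comm ‖w‖]
  exact pow_le_pow_left₀ (abs_nonneg _) h3 2

private theorem pr_append (s : ι → G) (l l' : List ι) : pr s (l ++ l') = pr s l * pr s l' := by
  unfold pr
  rw [List.map_append, List.prod_append]

private theorem Tl_append (s : ι → G) (l l' : List ι) (ω : L (ι × G)) (x : G) :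
    Tl s (l ++ l') ω x = Tl s l ω x + Tl s l' ω (x * pr s l) := by
  induction l generalizing x with
  | nil =>
    have h1 : pr s ([] : List ι) = 1 := rfl
    rw [List.nil_append, Tl_nil, h1, mul_one]
    change _ = (0 : ℝ) + _
    rw [zero_add]
  | cons i l ih =>
    have h1 : pr s (i :: l) = s i * pr s l := by
      unfold pr
      rw [List.map_cons, List.prod_cons]
    rw [List.cons_append, Tl_cons, Tl_cons, ih, h1, mul_assoc, add_assoc]

private theorem Tl_lam (s : ι → G) (l : List ι) (ω : L (ι × G)) (y x : G) :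
    Tl s l (lam y ω) x = Tl s l ω (y * x) := by
  induction l generalizing x with
  | nil => rfl
  | cons i l ih => rw [Tl_cons, Tl_cons, ih, lam_apply, mul_assoc]

variable [Fintype ι]

private theorem T_lam {s : ι → G} (gen : ∀ g : G, ∃ l, pr s l = g) (g : G) (ω : L (ι × G))
    (y x : G) : T s g (lam y ω) x = T s g ω (y * x) := by
  obtain ⟨l, _, hT⟩ := T_eq gen g
  rw [hT, Tl_lam]

private theorem T_pot {s : ι → G} (gen : ∀ g : G, ∃ l, pr s l = g)
    {Z : Submodule ℝ (L (ι × G))} (hZ : Good s Z) {ω : L (ι × G)} (hω : ω ∈ Z) (g x : G) :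
    T s g ω x = T s (x * g) ω 1 - T s x ω 1 := by
  obtain ⟨l, hl, hT⟩ := T_eq gen g
  obtain ⟨l1, hl1, hT1⟩ := T_eq gen x
  obtain ⟨l2, hl2, hT2⟩ := T_eq gen (x * g)
  have h1 : pr s l2 = pr s (l1 ++ l) := by rw [pr_append, hl, hl1, hl2]
  have h2 := hZ.path ω hω l2 (l1 ++ l) h1
  rw [hT, hT1, hT2, h2, Tl_append, hl1, one_mul]
  ring

/-- Restriction of the increments. -/
private noncomputable def rs (s : ι → G) (g : G) (A : Finset G) :
    L (ι × G) →ₗ[ℝ] EuclideanSpace ℝ A where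
  toFun ω := WithLp.toLp 2 fun x => T s g ω x.1
  map_add' ω ω' := by
    ext x
    simp only [map_add, PiLp.add_apply]
    rfl
  map_smul' c ω := by
    ext x
    simp only [map_smul, PiLp.smul_apply, RingHom.id_apply]
    rfl

omit [Fintype ι] in
private theorem rs_apply (s : ι → G) (g : G) (A : Finset G) (ω : L (ι × G)) (x : A) :
    rs s g A ω x = T s g ω x.1 := rfl

/-- Increments of a function on a finite set. -/
private noncomputable def ps {k : ℕ} (g : Fin k → G) (A : Fin k → Finset G) (U : Finset G)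
    (h1 : ∀ i, ∀ x ∈ A i, x ∈ U) (h2 : ∀ i, ∀ x ∈ A i, x * g i ∈ U) :
    (U → ℝ) →ₗ[ℝ] (∀ i, EuclideanSpace ℝ (A i)) where
  toFun h := fun i => WithLp.toLp 2 fun x => h ⟨x.1 * g i, h2 i x.1 x.2⟩ - h ⟨x.1, h1 i x.1 x.2⟩
  map_add' h h' := by
    ext i x
    simp only [Pi.add_apply, PiLp.add_apply]
    ring
  map_smul' c h := by
    ext i x
    simp only [Pi.smul_apply, PiLp.smul_apply, smul_eq_mul, RingHom.id_apply]
    ring

/-- The part of `W` whose first `n` coordinates vanish. -/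
private def cut {k : ℕ} {V : Fin k → Type} [∀ i, AddCommGroup (V i)] [∀ i, Module ℝ (V i)]
    (W : Submodule ℝ (∀ i, V i)) (n : ℕ) : Submodule ℝ (∀ i, V i) where
  carrier := {w | w ∈ W ∧ ∀ j : Fin k, (j : ℕ) < n → w j = 0}
  add_mem' := by
    rintro a b ⟨ha, ha'⟩ ⟨hb, hb'⟩
    refine ⟨W.add_mem ha hb, fun j hj => ?_⟩
    rw [Pi.add_apply, ha' j hj, hb' j hj, add_zero]
  zero_mem' := ⟨W.zero_mem, fun _ _ => rfl⟩
  smul_mem' := by
    rintro c a ⟨ha, ha'⟩
    refine ⟨W.smul_mem c ha, fun j hj => ?_⟩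
    rw [Pi.smul_apply, ha' j hj, smul_zero]

private theorem cut_step {k : ℕ} {V : Fin k → Type} [∀ i, AddCommGroup (V i)]
    [∀ i, Module ℝ (V i)] [∀ i, FiniteDimensional ℝ (V i)]
    (W : Submodule ℝ (∀ i, V i)) (i : Fin k) :
    Module.finrank ℝ ((cut W i).map (LinearMap.proj i : (∀ i, V i) →ₗ[ℝ] V i))
      + Module.finrank ℝ (cut W (i + 1)) = Module.finrank ℝ (cut W i) := by
  have h := LinearMap.finrank_range_add_finrank_ker
    ((LinearMap.proj i : (∀ i, V i) →ₗ[ℝ] V i).domRestrict (cut W i))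
  rw [← h]
  congr 1
  · rw [LinearMap.range_domRestrict]
  · have h2 : cut W (i + 1) =
        (LinearMap.ker ((LinearMap.proj i : (∀ i, V i) →ₗ[ℝ] V i).domRestrict (cut W i))).map
          (cut W i).subtype := by
      ext w
      constructor
      · rintro ⟨hw, hw'⟩
        refine ⟨⟨w, hw, fun j hj => hw' j (by omega)⟩, ?_, rfl⟩
        exact hw' i (by omega)
      · rintro ⟨⟨v, hv, hv'⟩, hker, rfl⟩
        refine ⟨hv, fun j hj => ?_⟩
        by_cases hji : (j : ℕ) < i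
        · exact hv' j hji
        · have : j = i := Fin.ext (by omega)
          subst this
          exact hker
    rw [h2]
    exact (Submodule.equivMapOfInjective _ (Submodule.injective_subtype _) _).symm.finrank_eq

private theorem cut_sum {k : ℕ} {V : Fin k → Type} [∀ i, AddCommGroup (V i)]
    [∀ i, Module ℝ (V i)] [∀ i, FiniteDimensional ℝ (V i)]
    (W : Submodule ℝ (∀ i, V i)) :
    ∑ i : Fin k, Module.finrank ℝ ((cut W i).map (LinearMap.proj i : (∀ i, V i) →ₗ[ℝ] V i))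
      ≤ Module.finrank ℝ W := by
  have h0 : cut W 0 = W := by
    ext w
    exact ⟨fun h => h.1, fun h => ⟨h, fun j hj => absurd hj (Nat.not_lt_zero _)⟩⟩
  have h1 : ∀ i : Fin k, (Module.finrank ℝ ((cut W i).map
      (LinearMap.proj i : (∀ i, V i) →ₗ[ℝ] V i)) : ℤ)
      = (Module.finrank ℝ (cut W (i : ℕ)) : ℤ) - Module.finrank ℝ (cut W ((i : ℕ) + 1)) := by
    intro i
    have := cut_step W i
    omega
  have h2 : ((∑ i : Fin k, Module.finrank ℝ ((cut W i).map
      (LinearMap.proj i : (∀ i, V i) →ₗ[ℝ] V i)) : ℕ) : ℤ)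
      = (Module.finrank ℝ (cut W 0) : ℤ) - Module.finrank ℝ (cut W k) := by
    rw [Nat.cast_sum, sum_congr rfl fun i _ => h1 i,
      Fin.sum_univ_eq_sum_range (fun n => (Module.finrank ℝ (cut W n) : ℤ)
        - Module.finrank ℝ (cut W (n + 1))) k, sum_range_sub']
  rw [h0] at h2
  omega

/-- Proof. Let `U` be the union on the right. For `ω ∈ Z` with potential `f x = T s x ω 1`
(so `T s g ω x = f (x * g) - f x`, from `path`), the vector
`Φ ω = (T s (g i) ω x) i, x ∈ A i` depends linearly on `f` restricted to `U`, so the range of `Φ` on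
`Z` has dimension `≤ |U|`. Lower bound: `Z i = {ω ∈ Z | T s (g j) ω = 0 for j < i}`; the range of
`Φ` on `Z` has dimension `≥ ∑ i, dim E i`, `E i = {T s (g i) ω restricted to A i | ω ∈ Z i}` (induction:
for a linear map `Φ = (Φ 1, Φ')` and a subspace `Z'` with `Φ 1 = 0` on `Z'`, rank of `Φ` on `Z` `≥`
rank of `Φ 1` on `Z` plus rank of `Φ'` on `Z'`). And `dim E i ≥ p i * |A i|`: let `Q` be the
orthogonal projection of `EuclideanSpace ℝ (A i)` to `E i`; for `x ∈ A i` the vector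
`v = T s (g i) (lam x⁻¹ (ω i)) = LL x⁻¹ (T s (g i) (ω i))` has `v x = (T s (g i) (ω i)) 1`,
`‖v‖ = ‖T s (g i) (ω i)‖`, its restriction `w` to `A i` is in `E i` with `‖w‖ ≤ ‖v‖`, so
`p i * ‖v‖ ^ 2 ≤ (v x) ^ 2 = ⟪w, δ_x⟫ ^ 2 = ⟪w, Q δ_x⟫ ^ 2 ≤ ‖v‖ ^ 2 * ‖Q δ_x‖ ^ 2`, so
`p i ≤ ‖Q δ_x‖ ^ 2` (`v ≠ 0`), and `∑ x ∈ A i, ‖Q δ_x‖ ^ 2 = trace Q = dim E i`
(`LinearMap.IsProj.trace`). -/
theorem hall_ineq {k : ℕ} {s : ι → G} (gen : ∀ g : G, ∃ l, pr s l = g)
    {Z : Submodule ℝ (L (ι × G))} (hZ : Good s Z) (g : Fin k → G) (p : Fin k → ℝ)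
    (ω : Fin k → L (ι × G)) (hω : ∀ i, ω i ∈ Z)
    (h0 : ∀ i j, j < i → T s (g j) (ω i) = 0) (hne : ∀ i, T s (g i) (ω i) ≠ 0)
    (hp : ∀ i, p i * ‖T s (g i) (ω i)‖ ^ 2 ≤ (T s (g i) (ω i) 1 : ℝ) ^ 2)
    [DecidableEq G] (A : Fin k → Finset G) :
    ∑ i, p i * ((A i).card : ℝ) ≤
      (((univ : Finset (Fin k)).biUnion
        fun i => A i ∪ (A i).image (fun x => x * g i)).card : ℝ) := by
  classical
  set U : Finset G := (univ : Finset (Fin k)).biUnion fun i => A i ∪ (A i).image (fun x => x * g i)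
    with hU
  have h1 : ∀ i, ∀ x ∈ A i, x ∈ U := fun i x hx =>
    mem_biUnion.2 ⟨i, mem_univ _, mem_union_left _ hx⟩
  have h2 : ∀ i, ∀ x ∈ A i, x * g i ∈ U := fun i x hx =>
    mem_biUnion.2 ⟨i, mem_univ _, mem_union_right _ (mem_image_of_mem _ hx)⟩
  let Φ : L (ι × G) →ₗ[ℝ] (∀ i, EuclideanSpace ℝ (A i)) := LinearMap.pi fun i => rs s (g i) (A i)
  set W : Submodule ℝ (∀ i, EuclideanSpace ℝ (A i)) := Z.map Φ with hW
  have hdim : Module.finrank ℝ W ≤ U.card := by
    have hle : W ≤ LinearMap.range (ps g A U h1 h2) := by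
      rintro w ⟨v, hv, rfl⟩
      refine ⟨fun u => T s u.1 v 1, ?_⟩
      ext i x
      exact (T_pot gen hZ hv (g i) x.1).symm
    have h3 := LinearMap.finrank_range_le (ps g A U h1 h2)
    rw [Module.finrank_fintype_fun_eq_card, Fintype.card_coe] at h3
    exact (Submodule.finrank_mono hle).trans h3
  have key : ∀ i : Fin k, p i * ((A i).card : ℝ) ≤
      (Module.finrank ℝ ((cut W i).map
        (LinearMap.proj i : (∀ i, EuclideanSpace ℝ (A i)) →ₗ[ℝ] EuclideanSpace ℝ (A i))) : ℝ) := by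
    intro i
    set E : Submodule ℝ (EuclideanSpace ℝ (A i)) := (cut W i).map
      (LinearMap.proj i : (∀ i, EuclideanSpace ℝ (A i)) →ₗ[ℝ] EuclideanSpace ℝ (A i)) with hE
    have hx : ∀ x : A i, p i ≤ ‖E.starProjection (EuclideanSpace.basisFun (A i) ℝ x)‖ ^ 2 := by
      intro x
      set v : L G := T s (g i) (ω i) with hv
      have hlam : lam x.1⁻¹ (ω i) ∈ Z := hZ.inv _ _ (hω i)
      let w : EuclideanSpace ℝ (A i) := rs s (g i) (A i) (lam x.1⁻¹ (ω i))
      have hw : w ∈ E := by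
        refine ⟨Φ (lam x.1⁻¹ (ω i)), ⟨⟨_, hlam, rfl⟩, fun j hj => ?_⟩, rfl⟩
        ext y
        change T s (g j) (lam x.1⁻¹ (ω i)) y.1 = 0
        rw [T_lam gen, h0 i j hj]
        rfl
      have hwa : ∀ y : A i, w y = v (x.1⁻¹ * y.1) := fun y => T_lam gen (g i) (ω i) x.1⁻¹ y.1
      have hn : ‖w‖ ^ 2 ≤ ‖v‖ ^ 2 := by
        rw [EuclideanSpace.norm_sq_eq]
        have h5 : HasSum (fun b : A i => ‖w b‖ ^ 2) (∑ b, ‖w b‖ ^ 2) := hasSum_fintype _
        refine hasSum_le_inj (fun b : A i => x.1⁻¹ * b.1) ?_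
          (fun _ _ => sq_nonneg _) ?_ h5 (L_hasSum v)
        · intro b b' hab
          simp only [mul_right_inj] at hab
          exact Subtype.ext hab
        · intro b
          rw [Real.norm_eq_abs, sq_abs, hwa b]
      have h6 := one_vec E w hw x
      rw [hwa x, inv_mul_cancel] at h6
      have h7 : p i * ‖v‖ ^ 2 ≤
          ‖E.starProjection (EuclideanSpace.basisFun (A i) ℝ x)‖ ^ 2 * ‖v‖ ^ 2 := by
        refine (hp i).trans (h6.trans ?_)
        rw [mul_comm]
        exact mul_le_mul_of_nonneg_left hn (sq_nonneg _)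
      have h8 : 0 < ‖v‖ ^ 2 := by
        have := norm_pos_iff.2 (hne i)
        positivity
      exact le_of_mul_le_mul_right h7 h8
    have h9 : ∑ _x : A i, p i ≤
        ∑ x : A i, ‖E.starProjection (EuclideanSpace.basisFun (A i) ℝ x)‖ ^ 2 :=
      sum_le_sum fun x _ => hx x
    rw [sum_proj E, sum_const, card_univ, Fintype.card_coe, nsmul_eq_mul, mul_comm] at h9
    exact h9
  have h10 := cut_sum W
  calc ∑ i, p i * ((A i).card : ℝ)
      ≤ ∑ i : Fin k, (Module.finrank ℝ ((cut W i).map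
        (LinearMap.proj i : (∀ i, EuclideanSpace ℝ (A i)) →ₗ[ℝ] EuclideanSpace ℝ (A i))) : ℝ) :=
        sum_le_sum fun i _ => key i
    _ = ((∑ i : Fin k, Module.finrank ℝ ((cut W i).map
        (LinearMap.proj i : (∀ i, EuclideanSpace ℝ (A i)) →ₗ[ℝ] EuclideanSpace ℝ (A i))) : ℕ) : ℝ) := by
        rw [Nat.cast_sum]
    _ ≤ (Module.finrank ℝ W : ℝ) := by exact_mod_cast h10
    _ ≤ (U.card : ℝ) := by exact_mod_cast hdim

end Pool.Agent.Lib.MP_354e85_al.L2B
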