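import Pool.Agent.Lib.MP_354e85_al.L2B.Defs

/-! Hall's inequality from potentials. -/

set_option autoImplicit false

namespace Pool.Agent.Lib.MP_354e85_al.L2B

open Finset
open scoped InnerProductSpace

variable {G : Type} [Group G]

/-- The squared lengths of the projections of the basis vectors add up to the dimension. -/
private theorem sum_proj {β : Type} [Fintype β] [DecidableEq β]
    (E : Submodule ℝ (EuclideanSpace ℝ β)) :
    ∑ b : β, ‖E.starProjection (EuclideanSpace.basisFun β ℝ b)‖ ^ 2 = (Module.finrank ℝ E : ℝ) := by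
  have hp : LinearMap.IsProj E (E.starProjection : EuclideanSpace ℝ β →ₗ[ℝ] EuclideanSpace ℝ β) :=
    ⟨fun x => Submodule.starProjection_apply_mem _ _,
      fun x hx => Submodule.starProjection_eq_self_iff.2 hx⟩
  rw [← hp.trace, LinearMap.trace_eq_sum_inner _ (EuclideanSpace.basisFun β ℝ)]
  refine sum_congr rfl fun b _ => ?_
  have h := Submodule.starProjection_inner_eq_zero (K := E) (EuclideanSpace.basisFun β ℝ b)
    (E.starProjection (EuclideanSpace.basisFun β ℝ b)) (Submodule.starProjection_apply_mem _ _)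
  rw [inner_sub_left, sub_eq_zero] at h
  rw [← real_inner_self_eq_norm_sq]
  exact h.symm

/-- One basis vector. -/
private theorem one_vec {β : Type} [Fintype β] [DecidableEq β]
    (E : Submodule ℝ (EuclideanSpace ℝ β)) (w : EuclideanSpace ℝ β) (hw : w ∈ E) (b : β) :
    (w b) ^ 2 ≤ ‖w‖ ^ 2 * ‖E.starProjection (EuclideanSpace.basisFun β ℝ b)‖ ^ 2 := by
  have h := Submodule.starProjection_inner_eq_zero (K := E) (EuclideanSpace.basisFun β ℝ b) w hw
  rw [inner_sub_left, sub_eq_zero] at h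
  have h2 : ⟪EuclideanSpace.basisFun β ℝ b, w⟫_ℝ = w b := by
    simp [EuclideanSpace.inner_single_left]
  rw [h2] at h
  have h3 := abs_real_inner_le_norm (E.starProjection (EuclideanSpace.basisFun β ℝ b)) w
  rw [← h] at h3
  rw [← sq_abs, ← mul_pow, mul_comm ‖w‖]
  exact pow_le_pow_left₀ (abs_nonneg _) h3 2

/-- Increments of a function on a finite set. -/
private noncomputable def ps {k : ℕ} (g : Fin k → G) (A : Fin k → Finset G) (U : Finset G)
    (h1 : ∀ i, ∀ x ∈ A i, x ∈ U) (h2 : ∀ i, ∀ x ∈ A i, x * g i ∈ U) :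
    (U → ℝ) →ₗ[ℝ] (∀ i, EuclideanSpace ℝ (A i)) where
  toFun h := fun i => WithLp.toLp 2 fun x => h ⟨x.1 * g i, h2 i x.1 x.2⟩ - h ⟨x.1, h1 i x.1 x.2⟩
  map_add' h h' := by
    ext i x
    simp only [Pi.add_apply, PiLp.add_apply]
    ring
  map_smul' c h := by
    ext i x
    simp only [Pi.smul_apply, PiLp.smul_apply, smul_eq_mul, RingHom.id_apply]
    ring

/-- The part of `W` whose first `n` coordinates vanish. -/
private def cut {k : ℕ} {V : Fin k → Type} [∀ i, AddCommGroup (V i)] [∀ i, Module ℝ (V i)]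
    (W : Submodule ℝ (∀ i, V i)) (n : ℕ) : Submodule ℝ (∀ i, V i) where
  carrier := {w | w ∈ W ∧ ∀ j : Fin k, (j : ℕ) < n → w j = 0}
  add_mem' := by
    rintro a b ⟨ha, ha'⟩ ⟨hb, hb'⟩
    refine ⟨W.add_mem ha hb, fun j hj => ?_⟩
    rw [Pi.add_apply, ha' j hj, hb' j hj, add_zero]
  zero_mem' := ⟨W.zero_mem, fun _ _ => rfl⟩
  smul_mem' := by
    rintro c a ⟨ha, ha'⟩
    refine ⟨W.smul_mem c ha, fun j hj => ?_⟩
    rw [Pi.smul_apply, ha' j hj, smul_zero]

private theorem cut_step {k : ℕ} {V : Fin k → Type} [∀ i, AddCommGroup (V i)]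
    [∀ i, Module ℝ (V i)] [∀ i, FiniteDimensional ℝ (V i)]
    (W : Submodule ℝ (∀ i, V i)) (i : Fin k) :
    Module.finrank ℝ ((cut W i).map (LinearMap.proj i : (∀ i, V i) →ₗ[ℝ] V i))
      + Module.finrank ℝ (cut W (i + 1)) = Module.finrank ℝ (cut W i) := by
  have h := LinearMap.finrank_range_add_finrank_ker
    ((LinearMap.proj i : (∀ i, V i) →ₗ[ℝ] V i).domRestrict (cut W i))
  rw [← h]
  congr 1
  · rw [LinearMap.range_domRestrict]
  · have h2 : cut W (i + 1) =
        (LinearMap.ker ((LinearMap.proj i : (∀ i, V i) →ₗ[ℝ] V i).domRestrict (cut W i))).map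
          (cut W i).subtype := by
      ext w
      constructor
      · rintro ⟨hw, hw'⟩
        refine ⟨⟨w, hw, fun j hj => hw' j (by omega)⟩, ?_, rfl⟩
        exact hw' i (by omega)
      · rintro ⟨⟨v, hv, hv'⟩, hker, rfl⟩
        refine ⟨hv, fun j hj => ?_⟩
        by_cases hji : (j : ℕ) < i
        · exact hv' j hji
        · have : j = i := Fin.ext (by omega)
          subst this
          exact hker
    rw [h2]
    exact (Submodule.equivMapOfInjective _ (Submodule.injective_subtype _) _).symm.finrank_eq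

private theorem cut_sum {k : ℕ} {V : Fin k → Type} [∀ i, AddCommGroup (V i)]
    [∀ i, Module ℝ (V i)] [∀ i, FiniteDimensional ℝ (V i)]
    (W : Submodule ℝ (∀ i, V i)) :
    ∑ i : Fin k, Module.finrank ℝ ((cut W i).map (LinearMap.proj i : (∀ i, V i) →ₗ[ℝ] V i))
      ≤ Module.finrank ℝ W := by
  have h0 : cut W 0 = W := by
    ext w
    exact ⟨fun h => h.1, fun h => ⟨h, fun j hj => absurd hj (Nat.not_lt_zero _)⟩⟩
  have h1 : ∀ i : Fin k, (Module.finrank ℝ ((cut W i).map
      (LinearMap.proj i : (∀ i, V i) →ₗ[ℝ] V i)) : ℤ)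
      = (Module.finrank ℝ (cut W (i : ℕ)) : ℤ) - Module.finrank ℝ (cut W ((i : ℕ) + 1)) := by
    intro i
    have := cut_step W i
    omega
  have h2 : ((∑ i : Fin k, Module.finrank ℝ ((cut W i).map
      (LinearMap.proj i : (∀ i, V i) →ₗ[ℝ] V i)) : ℕ) : ℤ)
      = (Module.finrank ℝ (cut W 0) : ℤ) - Module.finrank ℝ (cut W k) := by
    rw [Nat.cast_sum, sum_congr rfl fun i _ => h1 i,
      Fin.sum_univ_eq_sum_range (fun n => (Module.finrank ℝ (cut W n) : ℤ)
        - Module.finrank ℝ (cut W (n + 1))) k, sum_range_sub']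
  rw [h0] at h2
  omega

/-- Hall's inequality from potentials: `f i` is a function on `G` whose increments in the
directions `g j`, `j < i`, vanish, and whose increments `v i` in the direction `g i` are square
summable with a large value at `1`. -/
theorem hall_pot {k : ℕ} (g : Fin k → G) (p : Fin k → ℝ) (f : Fin k → G → ℝ) (v : Fin k → L G)
    (hv : ∀ i x, v i x = f i (x * g i) - f i x)
    (h0 : ∀ i j, j < i → ∀ x, f i (x * g j) = f i x) (hne : ∀ i, v i ≠ 0 ∨ p i ≤ 0)
    (hp : ∀ i, p i * ‖v i‖ ^ 2 ≤ (v i 1 : ℝ) ^ 2)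
    [DecidableEq G] (A : Fin k → Finset G) :
    ∑ i, p i * ((A i).card : ℝ) ≤
      (((univ : Finset (Fin k)).biUnion
        fun i => A i ∪ (A i).image (fun x => x * g i)).card : ℝ) := by
  classical
  set U : Finset G := (univ : Finset (Fin k)).biUnion fun i => A i ∪ (A i).image (fun x => x * g i)
    with hU
  have h1 : ∀ i, ∀ x ∈ A i, x ∈ U := fun i x hx =>
    mem_biUnion.2 ⟨i, mem_univ _, mem_union_left _ hx⟩
  have h2 : ∀ i, ∀ x ∈ A i, x * g i ∈ U := fun i x hx =>
    mem_biUnion.2 ⟨i, mem_univ _, mem_union_right _ (mem_image_of_mem _ hx)⟩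
  set W : Submodule ℝ (∀ i, EuclideanSpace ℝ (A i)) := LinearMap.range (ps g A U h1 h2) with hW
  have hdim : Module.finrank ℝ W ≤ U.card := by
    have h3 := LinearMap.finrank_range_le (ps g A U h1 h2)
    rw [Module.finrank_fintype_fun_eq_card, Fintype.card_coe] at h3
    exact h3
  have key : ∀ i : Fin k, p i * ((A i).card : ℝ) ≤
      (Module.finrank ℝ ((cut W i).map
        (LinearMap.proj i : (∀ i, EuclideanSpace ℝ (A i)) →ₗ[ℝ] EuclideanSpace ℝ (A i))) : ℝ) := by
    intro i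
    set E : Submodule ℝ (EuclideanSpace ℝ (A i)) := (cut W i).map
      (LinearMap.proj i : (∀ i, EuclideanSpace ℝ (A i)) →ₗ[ℝ] EuclideanSpace ℝ (A i)) with hE
    have hx : ∀ x : A i, p i ≤ ‖E.starProjection (EuclideanSpace.basisFun (A i) ℝ x)‖ ^ 2 := by
      intro x
      rcases hne i with hnei | hnei
      swap
      · exact hnei.trans (sq_nonneg _)
      let ww : ∀ i, EuclideanSpace ℝ (A i) := ps g A U h1 h2 fun u => f i (x.1⁻¹ * u.1)
      let w : EuclideanSpace ℝ (A i) := ww i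
      have hww : ∀ (j : Fin k) (y : A j),
          ww j y = f i (x.1⁻¹ * (y.1 * g j)) - f i (x.1⁻¹ * y.1) := fun j y => rfl
      have hw : w ∈ E := by
        refine ⟨ww, ⟨⟨_, rfl⟩, fun j hj => ?_⟩, rfl⟩
        ext y
        rw [hww, ← mul_assoc, h0 i j hj]
        simp
      have hwa : ∀ y : A i, w y = v i (x.1⁻¹ * y.1) := fun y => by
        rw [hv]
        change ww i y = _
        rw [hww, mul_assoc]
      have hn : ‖w‖ ^ 2 ≤ ‖v i‖ ^ 2 := by
        rw [EuclideanSpace.norm_sq_eq]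
        have h5 : HasSum (fun b : A i => ‖w b‖ ^ 2) (∑ b, ‖w b‖ ^ 2) := hasSum_fintype _
        refine hasSum_le_inj (fun b : A i => x.1⁻¹ * b.1) ?_
          (fun _ _ => sq_nonneg _) ?_ h5 (L_hasSum (v i))
        · intro b b' hab
          simp only [mul_right_inj] at hab
          exact Subtype.ext hab
        · intro b
          rw [Real.norm_eq_abs, sq_abs, hwa b]
      have h6 := one_vec E w hw x
      rw [hwa x, inv_mul_cancel] at h6
      have h7 : p i * ‖v i‖ ^ 2 ≤
          ‖E.starProjection (EuclideanSpace.basisFun (A i) ℝ x)‖ ^ 2 * ‖v i‖ ^ 2 := by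
        refine (hp i).trans (h6.trans ?_)
        rw [mul_comm]
        exact mul_le_mul_of_nonneg_left hn (sq_nonneg _)
      have h8 : 0 < ‖v i‖ ^ 2 := by
        have := norm_pos_iff.2 hnei
        positivity
      exact le_of_mul_le_mul_right h7 h8
    have h9 : ∑ _x : A i, p i ≤
        ∑ x : A i, ‖E.starProjection (EuclideanSpace.basisFun (A i) ℝ x)‖ ^ 2 :=
      sum_le_sum fun x _ => hx x
    rw [sum_proj E, sum_const, card_univ, Fintype.card_coe, nsmul_eq_mul, mul_comm] at h9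
    exact h9
  have h10 := cut_sum W
  calc ∑ i, p i * ((A i).card : ℝ)
      ≤ ∑ i : Fin k, (Module.finrank ℝ ((cut W i).map
        (LinearMap.proj i : (∀ i, EuclideanSpace ℝ (A i)) →ₗ[ℝ] EuclideanSpace ℝ (A i))) : ℝ) :=
        sum_le_sum fun i _ => key i
    _ = ((∑ i : Fin k, Module.finrank ℝ ((cut W i).map
        (LinearMap.proj i : (∀ i, EuclideanSpace ℝ (A i)) →ₗ[ℝ] EuclideanSpace ℝ (A i))) : ℕ) : ℝ) := by
        rw [Nat.cast_sum]
    _ ≤ (Module.finrank ℝ W : ℝ) := by exact_mod_cast h10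
    _ ≤ (U.card : ℝ) := by exact_mod_cast hdim

/-- The explicit potential for an element of finite order `m`: increments in the direction `a` with
`v 1 = 1 - 1/m` and `‖v‖ ^ 2 = 1 - 1/m`. -/
theorem pot_fin (a : G) (m : ℕ) (hm : 0 < m) (ha : orderOf a = m) :
    ∃ (f : G → ℝ) (v : L G), (∀ x, v x = f (x * a) - f x) ∧
      (1 - (m : ℝ)⁻¹) * ‖v‖ ^ 2 ≤ (v 1 : ℝ) ^ 2 ∧ (v ≠ 0 ∨ (1 - (m : ℝ)⁻¹) ≤ 0) := by
  classical
  -- `v = δ_1 - (1/m) 1_A`, on `A = {a ^ j : j < m}`
  let F : Finset G := (range m).image fun j => a ^ j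
  have hinj : Set.InjOn (fun j => a ^ j) (range m : Set ℕ) := by
    intro i hi j hj h
    rw [← ha] at hi hj
    exact pow_injOn_Iio_orderOf (by simpa using hi) (by simpa using hj) h
  have hFc : F.card = m := by
    rw [card_image_of_injOn hinj, card_range]
  have h1F : (1 : G) ∈ F := mem_image.2 ⟨0, mem_range.2 hm, pow_zero a⟩
  have hm0 : (m : ℝ) ≠ 0 := by exact_mod_cast hm.ne'
  -- exponent
  have hex : ∀ x ∈ F, ∃ j, j < m ∧ a ^ j = x := fun x hx => by
    obtain ⟨j, hj, h⟩ := mem_image.1 hx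
    exact ⟨j, mem_range.1 hj, h⟩
  let f : G → ℝ := fun x => if h : ∃ j, 0 < j ∧ j ≤ m ∧ a ^ j = x then
    1 - ((Nat.find h : ℕ) : ℝ) / m else 0
  have hfj : ∀ j, 0 < j → j ≤ m → f (a ^ j) = 1 - (j : ℝ) / m := by
    intro j hj0 hj
    have hx : ∃ j', 0 < j' ∧ j' ≤ m ∧ a ^ j' = a ^ j := ⟨j, hj0, hj, rfl⟩
    change (if h : ∃ j', 0 < j' ∧ j' ≤ m ∧ a ^ j' = a ^ j then
      1 - ((Nat.find h : ℕ) : ℝ) / m else 0) = _
    rw [dif_pos hx]
    obtain ⟨h1, h2, h3⟩ := Nat.find_spec hx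
    set i := Nat.find hx with hi
    have h4 : i = j := by
      rcases Nat.lt_or_ge i m with h5 | h5
      · rcases Nat.lt_or_ge j m with h6 | h6
        · exact hinj (by simpa using h5) (by simpa using h6) h3
        · have h7 : j = m := by omega
          rw [h7, ← ha, pow_orderOf_eq_one] at h3
          have h8 : orderOf a ∣ i := orderOf_dvd_of_pow_eq_one h3
          rw [ha] at h8
          exact absurd (Nat.le_of_dvd h1 h8) (by omega)
      · have h7 : i = m := by omega
        rw [h7, ← ha, pow_orderOf_eq_one] at h3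
        have h8 : orderOf a ∣ j := orderOf_dvd_of_pow_eq_one h3.symm
        rw [ha] at h8
        have := Nat.le_of_dvd hj0 h8
        omega
    rw [h4]
  have hf1 : f 1 = 0 := by
    have h := hfj m hm le_rfl
    rw [← ha, pow_orderOf_eq_one, ha] at h
    rw [h, div_self hm0, sub_self]
  have hfout : ∀ x, x ∉ F → f x = 0 := by
    intro x hx
    change (if h : ∃ j', 0 < j' ∧ j' ≤ m ∧ a ^ j' = x then
      1 - ((Nat.find h : ℕ) : ℝ) / m else 0) = _
    rw [dif_neg]
    rintro ⟨j, hj0, hj, rfl⟩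
    apply hx
    rcases Nat.lt_or_ge j m with h6 | h6
    · exact mem_image.2 ⟨j, mem_range.2 h6, rfl⟩
    · have h7 : j = m := by omega
      rw [h7, ← ha, pow_orderOf_eq_one]
      exact h1F
  have hFa : ∀ x, x * a ∈ F → x ∈ F := by
    intro x hx
    obtain ⟨j, hj, h⟩ := hex _ hx
    rcases Nat.eq_zero_or_pos j with h0 | h0
    · subst h0
      rw [pow_zero] at h
      have h1 : x = a ^ (m - 1) := by
        have h2 : a ^ (m - 1) * a = 1 := by
          rw [← pow_succ, Nat.sub_add_cancel hm, ← ha, pow_orderOf_eq_one]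
        have h3 : x * a = a ^ (m - 1) * a := by rw [← h, h2]
        exact mul_right_cancel h3
      rw [h1]
      exact mem_image.2 ⟨m - 1, mem_range.2 (by omega), rfl⟩
    · have h1 : x = a ^ (j - 1) := by
        have h3 : x * a = a ^ (j - 1) * a := by
          rw [← pow_succ, Nat.sub_add_cancel h0, h]
        exact mul_right_cancel h3
      rw [h1]
      exact mem_image.2 ⟨j - 1, mem_range.2 (by omega), rfl⟩
  let w : G → ℝ := fun x => f (x * a) - f x
  have hw1 : w 1 = 1 - (m : ℝ)⁻¹ := by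
    change f (1 * a) - f 1 = _
    rw [one_mul, hf1, sub_zero]
    have h := hfj 1 one_pos hm
    rw [pow_one] at h
    rw [h, Nat.cast_one, one_div]
  have hwj : ∀ x ∈ F, x ≠ 1 → w x = - (m : ℝ)⁻¹ := by
    intro x hx hx1
    obtain ⟨j, hj, rfl⟩ := hex _ hx
    have hj0 : 0 < j := by
      rcases Nat.eq_zero_or_pos j with h0 | h0
      · exact absurd (by rw [h0, pow_zero]) hx1
      · exact h0
    change f (a ^ j * a) - f (a ^ j) = _
    rw [← pow_succ, hfj j hj0 hj.le, hfj (j + 1) (by omega) (by omega)]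
    push_cast
    field_simp
    ring
  have hw0 : ∀ x, x ∉ F → w x = 0 := by
    intro x hx
    change f (x * a) - f x = 0
    rw [hfout x hx, hfout _ (fun h => hx (hFa x h)), sub_zero]
  have hsum : HasSum (fun x => (w x) ^ 2) (∑ x ∈ F, (w x) ^ 2) :=
    hasSum_sum_of_ne_finset_zero fun x hx => by rw [hw0 x hx]; ring
  have hval : ∑ x ∈ F, (w x) ^ 2 = 1 - (m : ℝ)⁻¹ := by
    rw [← Finset.add_sum_erase F _ h1F, hw1]
    have h1 : ∑ x ∈ F.erase 1, (w x) ^ 2 = ∑ x ∈ F.erase 1, ((m : ℝ)⁻¹) ^ 2 := by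
      refine sum_congr rfl fun x hx => ?_
      rw [mem_erase] at hx
      rw [hwj x hx.2 hx.1]
      ring
    rw [h1, sum_const, card_erase_of_mem h1F, hFc, nsmul_eq_mul, Nat.cast_sub hm]
    field_simp
    ring
  let v : L G := ⟨w, L_mem hsum.summable⟩
  have hvn : ‖v‖ ^ 2 = 1 - (m : ℝ)⁻¹ := by
    rw [← hval]
    exact (L_hasSum v).unique hsum
  refine ⟨f, v, fun x => rfl, ?_, ?_⟩
  · rw [hvn]
    change _ ≤ (w 1) ^ 2
    rw [hw1]
    exact le_of_eq (by ring)
  · by_cases h : (1 - (m : ℝ)⁻¹) ≤ 0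
    · exact Or.inr h
    · left
      intro hv
      rw [hv, norm_zero] at hvn
      apply h
      rw [← hvn]
      norm_num

/-- The explicit potential for an element of infinite order. -/
theorem pot_inf (a : G) (ha : ∀ i j : ℤ, a ^ i = a ^ j → i = j) (m : ℕ) (hm : 0 < m) :
    ∃ (f : G → ℝ) (v : L G), (∀ x, v x = f (x * a) - f x) ∧
      (1 - (m : ℝ)⁻¹) * ‖v‖ ^ 2 ≤ (v 1 : ℝ) ^ 2 ∧ (v ≠ 0 ∨ (1 - (m : ℝ)⁻¹) ≤ 0) := by
  classical
  let F : Finset G := (range m).image fun j => a ^ j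
  have hinj : ∀ i j : ℕ, a ^ i = a ^ j → i = j := by
    intro i j h
    have h2 := ha i j (by rw [zpow_natCast, zpow_natCast, h])
    exact_mod_cast h2
  have hFc : F.card = m := by
    rw [card_image_of_injective _ (fun i j h => hinj i j h), card_range]
  have h1F : (1 : G) ∈ F := mem_image.2 ⟨0, mem_range.2 hm, pow_zero a⟩
  have hm0 : (m : ℝ) ≠ 0 := by exact_mod_cast hm.ne'
  let f : G → ℝ := fun x => if h : ∃ j : ℕ, 0 < j ∧ j ≤ m ∧ a ^ j = x then
    1 - ((Nat.find h : ℕ) : ℝ) / m else 0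
  have hfj : ∀ j, 0 < j → j ≤ m → f (a ^ j) = 1 - (j : ℝ) / m := by
    intro j hj0 hj
    have hx : ∃ j', 0 < j' ∧ j' ≤ m ∧ a ^ j' = a ^ j := ⟨j, hj0, hj, rfl⟩
    change (if h : ∃ j', 0 < j' ∧ j' ≤ m ∧ a ^ j' = a ^ j then
      1 - ((Nat.find h : ℕ) : ℝ) / m else 0) = _
    rw [dif_pos hx]
    obtain ⟨h1, h2, h3⟩ := Nat.find_spec hx
    rw [hinj _ _ h3]
  have hfout : ∀ x, (∀ j : ℕ, 0 < j → j ≤ m → a ^ j ≠ x) → f x = 0 := by
    intro x hx
    change (if h : ∃ j', 0 < j' ∧ j' ≤ m ∧ a ^ j' = x then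
      1 - ((Nat.find h : ℕ) : ℝ) / m else 0) = _
    rw [dif_neg]
    rintro ⟨j, hj0, hj, h⟩
    exact hx j hj0 hj h
  have hf1 : f 1 = 0 := by
    apply hfout
    intro j hj0 _ h
    have := hinj j 0 (by rw [h, pow_zero])
    omega
  have hfm : f (a ^ m) = 0 := by
    rw [hfj m hm le_rfl, div_self hm0, sub_self]
  let w : G → ℝ := fun x => f (x * a) - f x
  have hw1 : w 1 = 1 - (m : ℝ)⁻¹ := by
    change f (1 * a) - f 1 = _
    rw [one_mul, hf1, sub_zero]
    have h := hfj 1 one_pos hm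
    rw [pow_one] at h
    rw [h, Nat.cast_one, one_div]
  have hwj : ∀ x ∈ F, x ≠ 1 → w x = - (m : ℝ)⁻¹ := by
    intro x hx hx1
    obtain ⟨j, hj, rfl⟩ := mem_image.1 hx
    rw [mem_range] at hj
    have hj0 : 0 < j := by
      rcases Nat.eq_zero_or_pos j with h0 | h0
      · exact absurd (by rw [h0, pow_zero]) hx1
      · exact h0
    change f (a ^ j * a) - f (a ^ j) = _
    rw [← pow_succ, hfj j hj0 hj.le, hfj (j + 1) (by omega) (by omega)]
    push_cast
    field_simp
    ring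
  have hw0 : ∀ x, x ∉ F → w x = 0 := by
    intro x hx
    change f (x * a) - f x = 0
    have h1 : f x = 0 := by
      by_cases hxm : x = a ^ m
      · rw [hxm, hfm]
      · apply hfout
        intro j hj0 hj h
        apply hx
        refine mem_image.2 ⟨j, mem_range.2 ?_, h⟩
        rcases Nat.lt_or_ge j m with h6 | h6
        · exact h6
        · exact absurd (by rw [← h]; congr 1; omega) hxm
    have h2 : f (x * a) = 0 := by
      apply hfout
      intro j hj0 hj h
      apply hx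
      refine mem_image.2 ⟨j - 1, mem_range.2 (by omega), ?_⟩
      have h3 : a ^ (j - 1) * a = x * a := by
        rw [← pow_succ, Nat.sub_add_cancel hj0, h]
      exact mul_right_cancel h3
    rw [h1, h2, sub_zero]
  have hsum : HasSum (fun x => (w x) ^ 2) (∑ x ∈ F, (w x) ^ 2) :=
    hasSum_sum_of_ne_finset_zero fun x hx => by rw [hw0 x hx]; ring
  have hval : ∑ x ∈ F, (w x) ^ 2 = 1 - (m : ℝ)⁻¹ := by
    rw [← Finset.add_sum_erase F _ h1F, hw1]
    have h1 : ∑ x ∈ F.erase 1, (w x) ^ 2 = ∑ x ∈ F.erase 1, ((m : ℝ)⁻¹) ^ 2 := by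
      refine sum_congr rfl fun x hx => ?_
      rw [mem_erase] at hx
      rw [hwj x hx.2 hx.1]
      ring
    rw [h1, sum_const, card_erase_of_mem h1F, hFc, nsmul_eq_mul, Nat.cast_sub hm]
    field_simp
    ring
  let v : L G := ⟨w, L_mem hsum.summable⟩
  have hvn : ‖v‖ ^ 2 = 1 - (m : ℝ)⁻¹ := by
    rw [← hval]
    exact (L_hasSum v).unique hsum
  refine ⟨f, v, fun x => rfl, ?_, ?_⟩
  · rw [hvn]
    change _ ≤ (w 1) ^ 2
    rw [hw1]
    exact le_of_eq (by ring)
  · by_cases h : (1 - (m : ℝ)⁻¹) ≤ 0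
    · exact Or.inr h
    · left
      intro hv
      rw [hv, norm_zero] at hvn
      apply h
      rw [← hvn]
      norm_num

end Pool.Agent.Lib.MP_354e85_al.L2B
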