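import Pool.Agent.Lib.MP_354e85_al.L2B.Defs

/-! Rank and nullity for bounded invariant maps into a second space of vector functions. -/

set_option autoImplicit false

namespace Pool.Agent.Lib.MP_354e85_al.L2B

open Finset Filter Topology
open scoped InnerProductSpace

section hilb

open ContinuousLinearMap

variable {H E : Type*} [NormedAddCommGroup H] [InnerProductSpace ℝ H] [CompleteSpace H]
  [NormedAddCommGroup E] [InnerProductSpace ℝ E] [CompleteSpace E]

/-- `1 - T† T`. -/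
private noncomputable def Wop (T : H →L[ℝ] E) : H →L[ℝ] H := 1 - (adjoint T) ∘L T

private theorem W_apply (T : H →L[ℝ] E) (x : H) : Wop T x = x - adjoint T (T x) := rfl

private theorem W_inner (T : H →L[ℝ] E) (x y : H) :
    ⟪Wop T x, y⟫_ℝ = ⟪x, y⟫_ℝ - ⟪T x, T y⟫_ℝ := by
  rw [W_apply, inner_sub_left, adjoint_inner_left]

private theorem W_symm (T : H →L[ℝ] E) (x y : H) : ⟪Wop T x, y⟫_ℝ = ⟪x, Wop T y⟫_ℝ := by
  rw [W_inner, real_inner_comm (Wop T y) x, W_inner, real_inner_comm x y,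
    real_inner_comm (T x) (T y)]

/-- the moments -/
private noncomputable def mo (T : H →L[ℝ] E) (k : ℕ) (x : H) : ℝ := ⟪(Wop T ^ k) x, x⟫_ℝ

private theorem W_succ (T : H →L[ℝ] E) (k : ℕ) (x : H) :
    (Wop T ^ (k + 1)) x = Wop T ((Wop T ^ k) x) := by
  rw [pow_succ']
  rfl

private theorem mo_add (T : H →L[ℝ] E) (j k : ℕ) (x : H) :
    ⟪(Wop T ^ j) x, (Wop T ^ k) x⟫_ℝ = mo T (j + k) x := by
  induction k generalizing j with
  | zero =>
    rw [pow_zero, add_zero]
    rfl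
  | succ k ih =>
    rw [W_succ, ← W_symm, ← W_succ, ih (j + 1)]
    congr 1
    omega

private theorem adj_le {T : H →L[ℝ] E} (hT : ∀ x, ‖T x‖ ≤ ‖x‖) (z : E) :
    ‖adjoint T z‖ ≤ ‖z‖ := by
  have h1 : ‖adjoint T z‖ ^ 2 ≤ ‖z‖ * ‖adjoint T z‖ := by
    rw [← real_inner_self_eq_norm_sq, adjoint_inner_left]
    exact (real_inner_le_norm _ _).trans (mul_le_mul_of_nonneg_left (hT _) (norm_nonneg _))
  rcases (norm_nonneg (adjoint T z)).eq_or_lt with h2 | h2
  · rw [← h2]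
    exact norm_nonneg _
  · nlinarith

private theorem mo_nonneg {T : H →L[ℝ] E} (hT : ∀ x, ‖T x‖ ≤ ‖x‖) (k : ℕ) (x : H) :
    0 ≤ mo T k x := by
  obtain ⟨j, hj | hj⟩ := Nat.even_or_odd' k
  · have h : k = j + j := by omega
    rw [h, ← mo_add]
    exact real_inner_self_nonneg
  · have h : k = (j + 1) + j := by omega
    rw [h, ← mo_add, W_succ, W_inner, real_inner_self_eq_norm_sq, real_inner_self_eq_norm_sq]
    have h1 := hT ((Wop T ^ j) x)
    have h2 := norm_nonneg (T ((Wop T ^ j) x))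
    nlinarith

private theorem mo_anti {T : H →L[ℝ] E} (hT : ∀ x, ‖T x‖ ≤ ‖x‖) (x : H) :
    Antitone fun k => mo T k x := by
  refine antitone_nat_of_succ_le fun k => ?_
  obtain ⟨j, hj | hj⟩ := Nat.even_or_odd' k
  · have h : k = j + j := by omega
    have h' : k + 1 = (j + 1) + j := by omega
    rw [h', h, ← mo_add, ← mo_add, W_succ, W_inner]
    have h1 := real_inner_self_nonneg (F := E) (x := T ((Wop T ^ j) x))
    linarith
  · have h : k = j + (j + 1) := by omega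
    have h' : k + 1 = (j + 1) + (j + 1) := by omega
    rw [h', h, ← mo_add, ← mo_add, W_succ]
    obtain ⟨y, hy⟩ : ∃ y, y = (Wop T ^ j) x := ⟨_, rfl⟩
    rw [← hy]
    have h1 : ⟪Wop T y, Wop T y⟫_ℝ = ⟪y, Wop T y⟫_ℝ - ⟪adjoint T (T y), Wop T y⟫_ℝ := by
      rw [← inner_sub_left]
      rfl
    have h2 : ⟪adjoint T (T y), Wop T y⟫_ℝ = ‖T y‖ ^ 2 - ‖adjoint T (T y)‖ ^ 2 := by
      rw [W_apply, inner_sub_right, adjoint_inner_left, real_inner_self_eq_norm_sq,
        real_inner_self_eq_norm_sq]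
    have h3 := adj_le hT (T y)
    have h4 := norm_nonneg (adjoint T (T y))
    rw [h1, h2]
    nlinarith

/-- the strong limit of the powers -/
private theorem lim_pow {T : H →L[ℝ] E} (hT : ∀ x, ‖T x‖ ≤ ‖x‖) (e : H) :
    ∃ (a : ℝ) (x : H), Tendsto (fun n => mo T n e) atTop (𝓝 a) ∧ T x = 0 ∧ a = ‖x‖ ^ 2 ∧
      a = ⟪x, e⟫_ℝ := by
  have hb : BddBelow (Set.range fun n => mo T n e) :=
    ⟨0, by rintro _ ⟨n, rfl⟩; exact mo_nonneg hT n e⟩
  have ha := tendsto_atTop_ciInf (mo_anti hT e) hb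
  obtain ⟨a, haa⟩ : ∃ a, a = ⨅ n, mo T n e := ⟨_, rfl⟩
  rw [← haa] at ha
  have hle : ∀ n, a ≤ mo T n e := fun n => haa ▸ ciInf_le hb n
  have hsub : ∀ n m : ℕ, n ≤ m →
      ‖(Wop T ^ n) e - (Wop T ^ m) e‖ ^ 2 ≤ mo T (n + n) e - a := by
    intro n m hnm
    rw [@norm_sub_sq_real, ← real_inner_self_eq_norm_sq, ← real_inner_self_eq_norm_sq, mo_add,
      mo_add, mo_add]
    have h1 : mo T (m + m) e ≤ mo T (n + m) e := mo_anti hT e (by omega)
    have h2 := hle (n + m)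
    linarith
  have h2n : Tendsto (fun n : ℕ => mo T (n + n) e) atTop (𝓝 a) :=
    ha.comp (tendsto_atTop_mono (fun n => Nat.le_add_left n n) tendsto_id)
  have hb0 : Tendsto (fun n : ℕ => Real.sqrt (mo T (n + n) e - a)) atTop (𝓝 0) := by
    have h1 : Tendsto (fun n : ℕ => mo T (n + n) e - a) atTop (𝓝 (a - a)) := h2n.sub_const a
    rw [sub_self] at h1
    have h3 := (Real.continuous_sqrt.tendsto 0).comp h1
    rw [Real.sqrt_zero] at h3
    exact h3
  have hle2 : ∀ n m N : ℕ, N ≤ n → n ≤ m →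
      ‖(Wop T ^ n) e - (Wop T ^ m) e‖ ≤ Real.sqrt (mo T (N + N) e - a) := by
    intro n m N hN hnm
    refine Real.le_sqrt_of_sq_le ((hsub n m hnm).trans ?_)
    have h1 : mo T (n + n) e ≤ mo T (N + N) e := mo_anti hT e (by omega)
    linarith
  have hc : CauchySeq fun n : ℕ => (Wop T ^ n) e := by
    refine cauchySeq_of_le_tendsto_0 _ (fun n m N hn hm => ?_) hb0
    rw [dist_eq_norm]
    rcases le_total n m with h | h
    · exact hle2 n m N hn h
    · rw [norm_sub_rev]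
      exact hle2 m n N hm h
  obtain ⟨x, hx⟩ := cauchySeq_tendsto_of_complete hc
  have hx1 : Tendsto (fun n : ℕ => (Wop T ^ (n + 1)) e) atTop (𝓝 x) :=
    hx.comp (tendsto_add_atTop_nat 1)
  have hx2 : Tendsto (fun n : ℕ => (Wop T ^ (n + 1)) e) atTop (𝓝 (Wop T x)) := by
    have h1 := ((Wop T).continuous.tendsto x).comp hx
    refine h1.congr fun n => ?_
    exact (W_succ T n e).symm
  have hW : Wop T x = x := tendsto_nhds_unique hx2 hx1
  have hT0 : T x = 0 := by
    have h1 : adjoint T (T x) = 0 := by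
      rw [W_apply] at hW
      have h2 : x - adjoint T (T x) - x = 0 := by rw [hW, sub_self]
      have h3 : x - adjoint T (T x) - x = -(adjoint T (T x)) := by abel
      rw [h3, neg_eq_zero] at h2
      exact h2
    have h2 : ⟪T x, T x⟫_ℝ = 0 := by
      rw [← adjoint_inner_left, h1, inner_zero_left]
    exact inner_self_eq_zero.1 h2
  refine ⟨a, x, ha, hT0, ?_, ?_⟩
  · have h1 : Tendsto (fun n : ℕ => mo T (n + n) e) atTop (𝓝 (‖x‖ ^ 2)) := by
      have h3 := (hx.norm.pow 2)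
      refine h3.congr fun n => ?_
      rw [← real_inner_self_eq_norm_sq, mo_add]
    exact tendsto_nhds_unique h2n h1
  · have h1 : Tendsto (fun n : ℕ => mo T n e) atTop (𝓝 ⟪x, e⟫_ℝ) := hx.inner tendsto_const_nhds
    exact tendsto_nhds_unique ha h1

/-- the comparison with the projections -/
private theorem proj_le (Z N : Submodule ℝ H) [Z.HasOrthogonalProjection]
    [N.HasOrthogonalProjection] (hN : N ≤ Z) {x e : H} (hx : Z.starProjection x ∈ N)
    (h : ‖x‖ ^ 2 = ⟪x, e⟫_ℝ) :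
    ‖x‖ ^ 2 ≤ ‖e‖ ^ 2 - ‖Z.starProjection e‖ ^ 2 + ‖N.starProjection e‖ ^ 2 := by
  have pyth : ∀ y : H, ‖y‖ ^ 2 = ‖Z.starProjection y‖ ^ 2 + ‖y - Z.starProjection y‖ ^ 2 := by
    intro y
    have h1 : ⟪y - Z.starProjection y, Z.starProjection y⟫_ℝ = 0 :=
      Submodule.starProjection_inner_eq_zero _ _ (Submodule.starProjection_apply_mem _ _)
    have h2 : ‖(y - Z.starProjection y) + Z.starProjection y‖ ^ 2 =
        ‖y - Z.starProjection y‖ ^ 2 + 2 * ⟪y - Z.starProjection y, Z.starProjection y⟫_ℝ +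
          ‖Z.starProjection y‖ ^ 2 := norm_add_sq_real _ _
    rw [sub_add_cancel, h1] at h2
    linarith
  have e1 : ⟪x, e⟫_ℝ = ⟪x - Z.starProjection x, e - Z.starProjection e⟫_ℝ +
      ⟪Z.starProjection x, N.starProjection e⟫_ℝ := by
    have h1 : ⟪x - Z.starProjection x, Z.starProjection e⟫_ℝ = 0 :=
      Submodule.starProjection_inner_eq_zero _ _ (Submodule.starProjection_apply_mem _ _)
    have h2 : ⟪e - N.starProjection e, Z.starProjection x⟫_ℝ = 0 :=
      Submodule.starProjection_inner_eq_zero _ _ hx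
    rw [inner_sub_right, h1, inner_sub_left]
    rw [real_inner_comm, inner_sub_right] at h2
    linarith
  have h1 := real_inner_le_norm (x - Z.starProjection x) (e - Z.starProjection e)
  have h2 := real_inner_le_norm (Z.starProjection x) (N.starProjection e)
  have h3 := pyth x
  have h4 := pyth e
  nlinarith [sq_nonneg (‖x - Z.starProjection x‖ - ‖e - Z.starProjection e‖),
    sq_nonneg (‖Z.starProjection x‖ - ‖N.starProjection e‖)]

/-- the sums of the powers -/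
private theorem sum_pow (T : H →L[ℝ] E) (n : ℕ) (z : H) :
    adjoint T (T (∑ k ∈ range n, (Wop T ^ k) z)) = z - (Wop T ^ n) z := by
  rw [map_sum, map_sum]
  have h : ∀ k, adjoint T (T ((Wop T ^ k) z)) = (Wop T ^ k) z - (Wop T ^ (k + 1)) z := by
    intro k
    rw [W_succ, W_apply]
    abel
  rw [Finset.sum_congr rfl fun k _ => h k, Finset.sum_range_sub', pow_zero]
  rfl

/-- the value of the sum of the moments -/
private theorem val_le {T : H →L[ℝ] E} (hT : ∀ x, ‖T x‖ ≤ ‖x‖) {p : ℝ} (hp : 0 ≤ p) {δ : E}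
    (h : ∀ ω, ⟪T ω, δ⟫_ℝ ^ 2 ≤ p * ‖T ω‖ ^ 2) (n : ℕ) :
    ∑ k ∈ range n, mo T k (adjoint T δ) ≤ p := by
  obtain ⟨z, hz⟩ : ∃ z, z = adjoint T δ := ⟨_, rfl⟩
  obtain ⟨S, hS⟩ : ∃ S, S = ∑ k ∈ range n, (Wop T ^ k) z := ⟨_, rfl⟩
  have h1 : ⟪T S, δ⟫_ℝ = ∑ k ∈ range n, mo T k z := by
    rw [← adjoint_inner_right, ← hz, hS, sum_inner]
    rfl
  have h2 : ‖T S‖ ^ 2 ≤ ⟪T S, δ⟫_ℝ := by
    have e1 : ‖T S‖ ^ 2 = ⟪z, S⟫_ℝ - ⟪(Wop T ^ n) z, S⟫_ℝ := by
      rw [← real_inner_self_eq_norm_sq, ← adjoint_inner_left, ← inner_sub_left, hS, sum_pow]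
    have e2 : ⟪z, S⟫_ℝ = ⟪T S, δ⟫_ℝ := by
      rw [← adjoint_inner_right, ← hz, real_inner_comm]
    have e3 : 0 ≤ ⟪(Wop T ^ n) z, S⟫_ℝ := by
      rw [hS, inner_sum]
      refine Finset.sum_nonneg fun k _ => ?_
      rw [mo_add]
      exact mo_nonneg hT _ _
    linarith
  have h3 := h S
  rw [← hz, ← h1]
  have h4 : 0 ≤ ‖T S‖ ^ 2 := sq_nonneg _
  rcases (h4.trans h2).eq_or_lt with h5 | h5
  · rw [← h5]
    exact hp
  · nlinarith

end hilb

variable {G : Type} [Group G] {ι κ : Type} [Fintype ι] [Fintype κ]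

omit [Fintype ι] [Fintype κ] in
private theorem adj_lam {K : L (ι × G) →L[ℝ] L (κ × G)}
    (hK : ∀ (y : G) (ω : L (ι × G)), K (lam y ω) = lam y (K ω)) (y : G) (f : L (κ × G)) :
    ContinuousLinearMap.adjoint K (lam y f) = lam y (ContinuousLinearMap.adjoint K f) := by
  refine ext_inner_right ℝ fun ω => ?_
  have h1 : ω = lam y (lam y⁻¹ ω) := by
    refine L_ext fun a => ?_
    obtain ⟨i, x⟩ := a
    rw [lam_apply, lam_apply, inv_mul_cancel_left]
  rw [ContinuousLinearMap.adjoint_inner_left]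
  conv_lhs => rw [h1, hK]
  conv_rhs => rw [h1]
  rw [LinearIsometry.inner_map_map, LinearIsometry.inner_map_map,
    ContinuousLinearMap.adjoint_inner_left]

omit [Fintype ι] [Fintype κ] in
private theorem W_lam {K : L (ι × G) →L[ℝ] L (κ × G)}
    (hK : ∀ (y : G) (ω : L (ι × G)), K (lam y ω) = lam y (K ω)) (k : ℕ) (y : G) (ω : L (ι × G)) :
    (Wop K ^ k) (lam y ω) = lam y ((Wop K ^ k) ω) := by
  induction k with
  | zero => rfl
  | succ k ih => rw [W_succ, W_succ, ih, W_apply, W_apply, hK, adj_lam hK, map_sub]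

/-- the unit vector at `(i, 1)` -/
private noncomputable def ee (i : ι) : L (ι × G) := by
  classical
  exact lp.single 2 ((i, 1) : ι × G) (1 : ℝ)

omit [Fintype ι] in
private theorem ee_inner (i : ι) (f : L (ι × G)) : ⟪(ee i : L (ι × G)), f⟫_ℝ = f (i, 1) := by
  classical
  unfold ee
  rw [lp.inner_single_left]
  simp

omit [Fintype ι] in
private theorem lam_ee_inner (i : ι) (y : G) (f : L (ι × G)) :
    ⟪lam y (ee i : L (ι × G)), f⟫_ℝ = f (i, y⁻¹) := by
  have h1 : f = lam y (lam y⁻¹ f) := by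
    refine L_ext fun a => ?_
    obtain ⟨j, x⟩ := a
    rw [lam_apply, lam_apply, inv_mul_cancel_left]
  conv_lhs => rw [h1]
  rw [LinearIsometry.inner_map_map, ee_inner, lam_apply, mul_one]

omit [Fintype ι] [Fintype κ] in
private theorem val_ee {A : L (ι × G) →L[ℝ] L (κ × G)}
    (hA : ∀ (y : G) (ω : L (ι × G)), A (lam y ω) = lam y (A ω)) (i : ι) (k : κ) (x : G) :
    A (ee i) (k, x) = ContinuousLinearMap.adjoint A (ee k) (i, x⁻¹) := by
  have h1 := lam_ee_inner k x⁻¹ (A (ee i))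
  rw [inv_inv] at h1
  rw [← h1, real_inner_comm, ← ContinuousLinearMap.adjoint_inner_right, adj_lam hA, ee_inner,
    lam_apply, mul_one]

/-- the trace property -/
private theorem trace {A B : L (ι × G) →L[ℝ] L (κ × G)}
    (hA : ∀ (y : G) (ω : L (ι × G)), A (lam y ω) = lam y (A ω))
    (hB : ∀ (y : G) (ω : L (ι × G)), B (lam y ω) = lam y (B ω)) :
    ∑ i : ι, ⟪A (ee i), B (ee i)⟫_ℝ =
      ∑ k : κ, ⟪ContinuousLinearMap.adjoint A (ee k), ContinuousLinearMap.adjoint B (ee k)⟫_ℝ := by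
  have h0 : ∀ i : ι, ∀ k : κ, ∃ r : ℝ,
      HasSum (fun x : G => A (ee i) (k, x) * B (ee i) (k, x)) r ∧
      HasSum (fun x : G => ContinuousLinearMap.adjoint A (ee k) (i, x) *
        ContinuousLinearMap.adjoint B (ee k) (i, x)) r := by
    intro i k
    refine ⟨⟪sl k (A (ee i)), sl k (B (ee i))⟫_ℝ, ?_, ?_⟩
    · exact L_inner (sl k (A (ee i))) (sl k (B (ee i)))
    · have h3 := L_inner (sl k (A (ee i))) (sl k (B (ee i)))
      have e : (fun x : G => sl k (A (ee i)) x * sl k (B (ee i)) x) = (fun x : G =>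
          ContinuousLinearMap.adjoint A (ee k) (i, x) *
            ContinuousLinearMap.adjoint B (ee k) (i, x)) ∘ Equiv.inv G := by
        funext x
        rw [sl_apply, sl_apply, val_ee hA, val_ee hB]
        rfl
      rw [e] at h3
      exact (Equiv.inv G).hasSum_iff.1 h3
  choose r hr1 hr2 using h0
  have h1 : ∀ i : ι, ⟪A (ee i), B (ee i)⟫_ℝ = ∑ k : κ, r i k := by
    intro i
    have h2 := (L_inner (A (ee i)) (B (ee i))).prod_fiberwise (fun k => hr1 i k)
    exact h2.unique (hasSum_fintype _)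
  have h2 : ∀ k : κ, ⟪ContinuousLinearMap.adjoint A (ee k),
      ContinuousLinearMap.adjoint B (ee k)⟫_ℝ = ∑ i : ι, r i k := by
    intro k
    have h3 := (L_inner (ContinuousLinearMap.adjoint A (ee k : L (κ × G)))
      (ContinuousLinearMap.adjoint B (ee k : L (κ × G)))).prod_fiberwise (fun i => hr2 i k)
    exact h3.unique (hasSum_fintype _)
  rw [Finset.sum_congr rfl fun i _ => h1 i, Finset.sum_congr rfl fun k _ => h2 k,
    Finset.sum_comm]

omit [Fintype ι] in
private theorem pz_lam {Z : Submodule ℝ (L (ι × G))} [Z.HasOrthogonalProjection]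
    (hinv : ∀ y : G, ∀ ω ∈ Z, lam y ω ∈ Z) (y : G) (ω : L (ι × G)) :
    Z.starProjection (lam y ω) = lam y (Z.starProjection ω) := by
  refine Submodule.eq_starProjection_of_mem_of_inner_eq_zero
    (hinv y _ (Submodule.starProjection_apply_mem _ _)) fun w hw => ?_
  have h1 : w = lam y (lam y⁻¹ w) := by
    refine L_ext fun a => ?_
    obtain ⟨i, x⟩ := a
    rw [lam_apply, lam_apply, inv_mul_cancel_left]
  rw [← map_sub, h1, LinearIsometry.inner_map_map]
  exact Submodule.starProjection_inner_eq_zero _ _ (hinv y⁻¹ w hw)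

private theorem sp_congr {H : Type*} [NormedAddCommGroup H] [InnerProductSpace ℝ H]
    {Z Z' : Submodule ℝ H} [Z.HasOrthogonalProjection] [Z'.HasOrthogonalProjection] (h : Z' = Z)
    (x : H) : Z'.starProjection x = Z.starProjection x := by
  subst h
  rfl

/-- Rank - nullity for a bounded invariant map `K` of a closed invariant space `Z` into a closed
space `Z'`. -/
theorem ranknull_map (Z : Submodule ℝ (L (ι × G))) (hc : IsClosed (Z : Set (L (ι × G))))
    (hinv : ∀ y : G, ∀ ω ∈ Z, lam y ω ∈ Z) (Z' : Submodule ℝ (L (κ × G)))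
    (hc' : IsClosed (Z' : Set (L (κ × G)))) (K : L (ι × G) →L[ℝ] L (κ × G))
    (hK : ∀ (y : G) (ω : L (ι × G)), K (lam y ω) = lam y (K ω)) (h : ∀ ω ∈ Z, K ω ∈ Z') :
    dm Z ≤ dm (Z ⊓ LinearMap.ker K.toLinearMap) + dm Z' := by
  classical
  obtain ⟨c, hcd⟩ : ∃ c : ℝ, c = (1 + ‖K‖)⁻¹ := ⟨_, rfl⟩
  have hc1 : 0 < 1 + ‖K‖ := by positivity
  have hc0 : 0 < c := by rw [hcd]; positivity
  haveI : CompleteSpace Z := hc.completeSpace_coe
  haveI : CompleteSpace Z' := hc'.completeSpace_coe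
  have hNc : IsClosed ((Z ⊓ LinearMap.ker K.toLinearMap : Submodule ℝ (L (ι × G))) :
      Set (L (ι × G))) := by
    have h1 : IsClosed {x : L (ι × G) | K x = 0} := isClosed_singleton.preimage K.continuous
    exact hc.inter h1
  haveI : CompleteSpace (Z ⊓ LinearMap.ker K.toLinearMap : Submodule ℝ (L (ι × G))) :=
    hNc.completeSpace_coe
  obtain ⟨T, hTd⟩ : ∃ T : L (ι × G) →L[ℝ] L (κ × G), T = c • (K ∘L Z.starProjection) := ⟨_, rfl⟩
  have hTa : ∀ ω, T ω = c • K (Z.starProjection ω) := fun ω => by rw [hTd]; rfl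
  have hT : ∀ ω, ‖T ω‖ ≤ ‖ω‖ := by
    intro ω
    rw [hTa, norm_smul, Real.norm_of_nonneg hc0.le]
    have h1 := K.le_opNorm (Z.starProjection ω)
    have h2 : ‖Z.starProjection ω‖ ≤ ‖ω‖ := Z.norm_starProjection_apply_le ω
    have h3 : c * (1 + ‖K‖) = 1 := by rw [hcd]; exact inv_mul_cancel₀ hc1.ne'
    have h4 := norm_nonneg K
    have h5 := norm_nonneg ω
    have h6 : ‖K (Z.starProjection ω)‖ ≤ (1 + ‖K‖) * ‖ω‖ := by
      refine h1.trans ?_
      refine (mul_le_mul_of_nonneg_left h2 h4).trans ?_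
      nlinarith
    calc c * ‖K (Z.starProjection ω)‖ ≤ c * ((1 + ‖K‖) * ‖ω‖) :=
          mul_le_mul_of_nonneg_left h6 hc0.le
      _ = ‖ω‖ := by rw [← mul_assoc, h3, one_mul]
  have hTl : ∀ (y : G) (ω : L (ι × G)), T (lam y ω) = lam y (T ω) := by
    intro y ω
    rw [hTa, hTa, pz_lam hinv, hK, map_smul]
  have hTZ : ∀ ω, T ω ∈ Z' := by
    intro ω
    rw [hTa]
    exact Z'.smul_mem _ (h _ (Submodule.starProjection_apply_mem _ _))
  have hδ : ∀ k : κ, ∀ ω, ⟪T ω, (ee k : L (κ × G))⟫_ℝ ^ 2 ≤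
      ‖Z'.starProjection (ee k : L (κ × G))‖ ^ 2 * ‖T ω‖ ^ 2 := by
    intro k ω
    have h1 : ⟪T ω, (ee k : L (κ × G))⟫_ℝ = ⟪T ω, Z'.starProjection (ee k : L (κ × G))⟫_ℝ := by
      have h2 : ⟪(ee k : L (κ × G)) - Z'.starProjection (ee k : L (κ × G)), T ω⟫_ℝ = 0 :=
        Submodule.starProjection_inner_eq_zero _ _ (hTZ ω)
      rw [inner_sub_left, sub_eq_zero] at h2
      rw [real_inner_comm, h2, real_inner_comm]
    have h3 := abs_real_inner_le_norm (T ω) (Z'.starProjection (ee k : L (κ × G)))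
    rw [h1, ← sq_abs]
    calc |⟪T ω, Z'.starProjection (ee k : L (κ × G))⟫_ℝ| ^ 2 ≤
        (‖T ω‖ * ‖Z'.starProjection (ee k : L (κ × G))‖) ^ 2 := by gcongr
      _ = _ := by ring
  have hval := fun (k : κ) n => val_le hT (sq_nonneg _) (hδ k) n
  have hsum : ∀ n, ∑ i : ι, (‖(ee i : L (ι × G))‖ ^ 2 - mo T n (ee i)) ≤
      ∑ k : κ, ‖Z'.starProjection (ee k : L (κ × G))‖ ^ 2 := by
    intro n
    refine le_trans (le_of_eq ?_) (Finset.sum_le_sum fun k _ => hval k n)
    have e1 : ∀ i : ι, ‖(ee i : L (ι × G))‖ ^ 2 - mo T n (ee i) =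
        ∑ k ∈ range n, ⟪(T ∘L (Wop T ^ k)) (ee i), T (ee i)⟫_ℝ := by
      intro i
      have h1 := sum_pow T n (ee i : L (ι × G))
      have h2 : ⟪(ee i : L (ι × G)) - (Wop T ^ n) (ee i), (ee i : L (ι × G))⟫_ℝ =
          ‖(ee i : L (ι × G))‖ ^ 2 - mo T n (ee i) := by
        rw [inner_sub_left, real_inner_self_eq_norm_sq]
        rfl
      rw [← h2, ← h1, ContinuousLinearMap.adjoint_inner_left, map_sum, sum_inner]
      rfl
    rw [Finset.sum_congr rfl fun i _ => e1 i, Finset.sum_comm]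
    conv_rhs => rw [Finset.sum_comm]
    refine Finset.sum_congr rfl fun k _ => ?_
    have hA : ∀ (y : G) (ω : L (ι × G)), (T ∘L (Wop T ^ k)) (lam y ω) =
        lam y ((T ∘L (Wop T ^ k)) ω) := by
      intro y ω
      have h1 : (T ∘L (Wop T ^ k)) (lam y ω) = T ((Wop T ^ k) (lam y ω)) := rfl
      rw [h1, W_lam hTl, hTl]
      rfl
    rw [trace hA hTl]
    refine Finset.sum_congr rfl fun j _ => ?_
    rw [ContinuousLinearMap.adjoint_inner_left]
    have h1 : (T ∘L (Wop T ^ k)) (ContinuousLinearMap.adjoint T (ee j : L (κ × G))) =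
      T ((Wop T ^ k) (ContinuousLinearMap.adjoint T (ee j : L (κ × G)))) := rfl
    rw [h1, ← ContinuousLinearMap.adjoint_inner_left, real_inner_comm]
    rfl
  choose a x ha hTx hax hax2 using fun i : ι => lim_pow hT (ee i : L (ι × G))
  have hlim : ∑ i : ι, (‖(ee i : L (ι × G))‖ ^ 2 - a i) ≤
      ∑ k : κ, ‖Z'.starProjection (ee k : L (κ × G))‖ ^ 2 := by
    have h1 : Tendsto (fun n => ∑ i : ι, (‖(ee i : L (ι × G))‖ ^ 2 - mo T n (ee i))) atTop
        (𝓝 (∑ i : ι, (‖(ee i : L (ι × G))‖ ^ 2 - a i))) :=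
      tendsto_finset_sum _ fun i _ => (ha i).const_sub _
    exact le_of_tendsto' h1 hsum
  have hkey : ∀ i : ι, ‖Z.starProjection (ee i : L (ι × G))‖ ^ 2 ≤
      ‖(Z ⊓ LinearMap.ker K.toLinearMap).starProjection (ee i : L (ι × G))‖ ^ 2 +
        (‖(ee i : L (ι × G))‖ ^ 2 - a i) := by
    intro i
    have h1 : Z.starProjection (x i) ∈ Z ⊓ LinearMap.ker K.toLinearMap := by
      refine ⟨Submodule.starProjection_apply_mem _ _, ?_⟩
      have h2 := hTx i
      rw [hTa] at h2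
      exact (smul_eq_zero.1 h2).resolve_left hc0.ne'
    have h2 := proj_le Z (Z ⊓ LinearMap.ker K.toLinearMap) inf_le_left h1
      ((hax i).symm.trans (hax2 i))
    rw [← hax i] at h2
    linarith
  have hfin := Finset.sum_le_sum fun (i : ι) (_ : i ∈ (Finset.univ : Finset ι)) => hkey i
  rw [Finset.sum_add_distrib] at hfin
  have e1 : dm Z = ∑ i : ι, ‖Z.starProjection (ee i : L (ι × G))‖ ^ 2 := by
    unfold dm
    refine Finset.sum_congr rfl fun i _ => ?_
    rw [sp_congr hc.submodule_topologicalClosure_eq]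
    rfl
  have e2 : dm (Z ⊓ LinearMap.ker K.toLinearMap) =
      ∑ i : ι, ‖(Z ⊓ LinearMap.ker K.toLinearMap).starProjection (ee i : L (ι × G))‖ ^ 2 := by
    unfold dm
    refine Finset.sum_congr rfl fun i _ => ?_
    rw [sp_congr hNc.submodule_topologicalClosure_eq]
    rfl
  have e3 : dm Z' = ∑ k : κ, ‖Z'.starProjection (ee k : L (κ × G))‖ ^ 2 := by
    unfold dm
    refine Finset.sum_congr rfl fun i _ => ?_
    rw [sp_congr hc'.submodule_topologicalClosure_eq]
    rfl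
  rw [e1, e2, e3]
  linarith

end Pool.Agent.Lib.MP_354e85_al.L2B
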