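import Pool.Agent.Lib.MP_354e85_al.L2B.Basic
import Pool.Agent.Lib.MP_354e85_al.L2B.HD
import Pool.Agent.Lib.MP_354e85_al.L2B.RankB

/-! The first `L²`-Betti number does not depend on the generating family. -/

set_option autoImplicit false

namespace Pool.Agent.Lib.MP_354e85_al.L2B

open Finset
open scoped InnerProductSpace

variable {G : Type} [Group G] {ι κ : Type}

/-- the isometric embedding of the slice `k` -/
private noncomputable def em (k : κ) : L G →L[ℝ] L (κ × G) := ContinuousLinearMap.adjoint (sl k)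

omit [Group G] in
private theorem em_apply [DecidableEq κ] (k j : κ) (f : L G) (x : G) :
    em k f (j, x) = if j = k then f x else 0 := by
  classical
  have h1 : ⟪(lp.single 2 ((j, x) : κ × G) (1 : ℝ) : L (κ × G)), em k f⟫_ℝ = em k f (j, x) := by
    rw [lp.inner_single_left]
    simp
  rw [← h1]
  unfold em
  rw [ContinuousLinearMap.adjoint_inner_right]
  have h2 := L_inner (sl k (lp.single 2 ((j, x) : κ × G) (1 : ℝ) : L (κ × G))) f
  have h3 : (fun a => sl k (lp.single 2 ((j, x) : κ × G) (1 : ℝ) : L (κ × G)) a * f a) =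
      fun a => if a = x then (if j = k then f x else 0) else 0 := by
    funext a
    rw [sl_apply, lp.single_apply]
    by_cases h : a = x
    · subst h
      by_cases h' : j = k
      · subst h'
        simp
      · have : (k, a) ≠ (j, a) := fun h => h' (Prod.mk.inj h).1.symm
        rw [if_pos rfl, if_neg h', Pi.single_eq_of_ne this, zero_mul]
    · have : (k, a) ≠ (j, x) := fun h' => h (Prod.mk.inj h').2
      rw [if_neg h, Pi.single_eq_of_ne this, zero_mul]
  rw [h3] at h2
  exact h2.unique (hasSum_ite_eq x _)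

/-- Assembling a family of bounded maps into `L G`. -/
private noncomputable def asm [Fintype κ] {H : Type} [NormedAddCommGroup H] [NormedSpace ℝ H]
    (A : κ → (H →L[ℝ] L G)) : H →L[ℝ] L (κ × G) := ∑ k, em k ∘L A k

omit [Group G] in
private theorem asm_apply [Fintype κ] {H : Type} [NormedAddCommGroup H] [NormedSpace ℝ H]
    (A : κ → (H →L[ℝ] L G)) (ω : H) (k : κ) (x : G) : asm A ω (k, x) = A k ω x := by
  classical
  unfold asm
  rw [ContinuousLinearMap.sum_apply, lp.coeFn_sum, Finset.sum_apply]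
  have h : ∀ j : κ, (em j ∘L A j) ω (k, x) = if k = j then A k ω x else 0 := by
    intro j
    change em j (A j ω) (k, x) = _
    rw [em_apply]
    by_cases h' : k = j
    · subst h'
      simp
    · rw [if_neg h', if_neg h']
  rw [Finset.sum_congr rfl fun j _ => h j]
  simp

/-- the closed space of gradients -/
private def GR (s : ι → G) : Submodule ℝ (L (ι × G)) where
  carrier := {ω | ∀ l l' : List ι, pr s l = pr s l' → Tl s l ω = Tl s l' ω}
  add_mem' := by
    intro a b ha hb l l' h
    rw [map_add, map_add, ha l l' h, hb l l' h]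
  zero_mem' := by
    intro l l' h
    rw [map_zero, map_zero]
  smul_mem' := by
    intro c a ha l l' h
    rw [map_smul, map_smul, ha l l' h]

private theorem GR_closed (s : ι → G) : IsClosed (GR s : Set (L (ι × G))) := by
  have e : (GR s : Set (L (ι × G))) =
      (⋂ (l : List ι) (l' : List ι) (_ : pr s l = pr s l'), {ω | Tl s l ω = Tl s l' ω}) := by
    ext ω
    simp only [SetLike.mem_coe, Set.mem_iInter, Set.mem_setOf_eq]
    rfl
  rw [e]
  exact isClosed_iInter fun l => isClosed_iInter fun l' => isClosed_iInter fun _ =>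
    isClosed_eq (Tl s l).continuous (Tl s l').continuous

private theorem Tl_grad {s : ι → G} {ω : L (ι × G)} {f : G → ℝ}
    (hf : ∀ i x, ω (i, x) = f (x * s i) - f x) (l : List ι) :
    ∀ x, Tl s l ω x = f (x * pr s l) - f x := by
  induction l with
  | nil =>
    intro x
    simp [Tl_nil, pr]
  | cons i l ih =>
    intro x
    have e : pr s (i :: l) = s i * pr s l := by simp [pr]
    rw [Tl_cons, hf, ih, e, mul_assoc]
    ring

private theorem T_grad {s : ι → G} (gen : ∀ g : G, ∃ l, pr s l = g) {ω : L (ι × G)} {f : G → ℝ}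
    (hf : ∀ i x, ω (i, x) = f (x * s i) - f x) (g x : G) :
    T s g ω x = f (x * g) - f x := by
  obtain ⟨l, h1, h2⟩ := T_eq gen g
  rw [h2, Tl_grad hf, h1]

private theorem GR_of_grad {s : ι → G} {ω : L (ι × G)} {f : G → ℝ}
    (hf : ∀ i x, ω (i, x) = f (x * s i) - f x) : ω ∈ GR s := by
  intro l l' h
  apply L_ext
  intro x
  rw [Tl_grad hf, Tl_grad hf, h]

private theorem grad_of_GR {s : ι → G} (gen : ∀ g : G, ∃ l, pr s l = g) {ω : L (ι × G)}
    (h1 : ω ∈ GR s) : ∃ f : G → ℝ, ∀ i x, ω (i, x) = f (x * s i) - f x := by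
  choose w hw using gen
  refine ⟨fun x => Tl s (w x) ω 1, fun i x => ?_⟩
  have e1 : pr s (w x ++ [i]) = pr s (w x) * s i := by simp [pr]
  have e : pr s (w (x * s i)) = pr s (w x ++ [i]) := by rw [hw, e1, hw]
  have h2 := h1 _ _ e
  change ω (i, x) = Tl s (w (x * s i)) ω 1 - Tl s (w x) ω 1
  rw [h2, Tl_append]
  have h3 : (Tl s (w x) ω + RR (pr s (w x)) (Tl s [i] ω) : L G) 1 =
      Tl s (w x) ω 1 + Tl s [i] ω (1 * pr s (w x)) := rfl
  rw [h3, one_mul, hw, Tl_cons]
  have h4 : Tl s ([] : List ι) ω (x * s i) = 0 := by rw [Tl_nil]; rfl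
  rw [h4]
  ring

variable [Fintype ι] [Fintype κ]

/-- increments in the directions of another family -/
private noncomputable def JJ (s : ι → G) (t : κ → G) : L (ι × G) →L[ℝ] L (κ × G) :=
  asm fun k => T s (t k)

omit [Fintype ι] in
private theorem JJ_apply (s : ι → G) (t : κ → G) (ω : L (ι × G)) (k : κ) (x : G) :
    JJ s t ω (k, x) = T s (t k) ω x := asm_apply _ _ _ _

omit [Fintype ι] in
private theorem JJ_lam (s : ι → G) (t : κ → G) (y : G) (ω : L (ι × G)) :
    JJ s t (lam y ω) = lam y (JJ s t ω) := by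
  apply L_ext
  rintro ⟨k, x⟩
  rw [JJ_apply, T_lam, lam_apply, JJ_apply, LL_apply]

omit [Fintype ι] in
private theorem JJ_grad {s : ι → G} (gen : ∀ g : G, ∃ l, pr s l = g) (t : κ → G)
    {ω : L (ι × G)} {f : G → ℝ} (hf : ∀ i x, ω (i, x) = f (x * s i) - f x) (k : κ) (x : G) :
    JJ s t ω (k, x) = f (x * t k) - f x := by
  rw [JJ_apply, T_grad gen hf]

/-- the gradient of a square summable function -/
private noncomputable def dd (s : ι → G) : L G →L[ℝ] L (ι × G) :=
  asm fun i => (RR (s i)).toContinuousLinearMap - ContinuousLinearMap.id ℝ (L G)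

private theorem dd_apply (s : ι → G) (h : L G) (i : ι) (x : G) :
    dd s h (i, x) = h (x * s i) - h x := asm_apply _ _ _ _

/-- for a gradient, the pairing with the gradients of square summable functions -/
private theorem dd_inner {s : ι → G} (σ : ι → ι) (hσ : Function.Involutive σ)
    (hs : ∀ i, s (σ i) = (s i)⁻¹) {ω : L (ι × G)} {f : G → ℝ}
    (hf : ∀ i x, ω (i, x) = f (x * s i) - f x) (h : L G) :
    ⟪ω, dd s h⟫_ℝ = -2 * ⟪∑ i, sl i ω, h⟫_ℝ := by
  have h0 := L_inner ω (dd s h)
  have h1 : ∀ i : ι, HasSum (fun x : G => ω (i, x) * dd s h (i, x))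
      (-⟪sl (σ i) ω, h⟫_ℝ - ⟪sl i ω, h⟫_ℝ) := by
    intro i
    have a1 := L_inner (sl (σ i) ω) h
    have a2 := L_inner (sl i ω) h
    have a3 : HasSum (fun x : G => ω (i, x) * h (x * s i)) (-⟪sl (σ i) ω, h⟫_ℝ) := by
      have e : (fun x : G => ω (i, x) * h (x * s i)) =
          (fun x : G => -(sl (σ i) ω x * h x)) ∘ (Equiv.mulRight (s i)) := by
        funext x
        change _ = -(ω (σ i, x * s i) * h (x * s i))
        rw [hf, hf, hs]
        have : x * s i * (s i)⁻¹ = x := by group
        rw [this]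
        ring
      rw [e]
      exact (Equiv.mulRight (s i)).hasSum_iff.2 a1.neg
    have a4 := a3.sub a2
    refine a4.congr_fun ?_
    intro x
    change ω (i, x) * dd s h (i, x) = ω (i, x) * h (x * s i) - ω (i, x) * h x
    rw [dd_apply]
    ring
  have h2 := (h0.prod_fiberwise h1).unique (hasSum_fintype _)
  rw [h2, Finset.sum_sub_distrib, Finset.sum_neg_distrib]
  have h3 : ∑ i, ⟪sl (σ i) ω, h⟫_ℝ = ∑ i, ⟪sl i ω, h⟫_ℝ :=
    Equiv.sum_comp (hσ.toPerm σ) (fun i => ⟪sl i ω, h⟫_ℝ)
  rw [h3, sum_inner]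
  ring

omit [Group G] in
private theorem sum_sl_apply (ω : L (ι × G)) (x : G) : (∑ i, sl i ω : L G) x = ∑ i, ω (i, x) := by
  rw [lp.coeFn_sum, Finset.sum_apply]
  rfl

theorem dm_HD_le (s : ι → G) (gens : ∀ g : G, ∃ l, pr s l = g) (σ : ι → ι)
    (hσ : Function.Involutive σ) (hs : ∀ i, s (σ i) = (s i)⁻¹)
    (t : κ → G) (gent : ∀ g : G, ∃ l, pr t l = g) (τ : κ → κ)
    (hτ : Function.Involutive τ) (ht : ∀ k, t (τ k) = (t k)⁻¹) :
    dm (HD s) ≤ dm (HD t) := by
  classical
  have hZ := HD_good s gens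
  have hZ' := HD_good t gent
  have : CompleteSpace (HD t) := hZ'.closed.completeSpace_coe
  let K : L (ι × G) →L[ℝ] L (κ × G) := (HD t).starProjection ∘L JJ s t
  have hKl : ∀ (y : G) (ω : L (ι × G)), K (lam y ω) = lam y (K ω) := by
    intro y ω
    change (HD t).starProjection (JJ s t (lam y ω)) = lam y ((HD t).starProjection (JJ s t ω))
    rw [JJ_lam]
    refine Submodule.eq_starProjection_of_mem_of_inner_eq_zero
      (hZ'.inv y _ (Submodule.starProjection_apply_mem _ _)) fun w hw => ?_
    have h1 : w = lam y (lam y⁻¹ w) := by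
      rw [lam_lam, inv_mul_cancel, lam_one]
    rw [← map_sub, h1, LinearIsometry.inner_map_map]
    exact Submodule.starProjection_inner_eq_zero _ _ (hZ'.inv y⁻¹ w hw)
  have hmain := ranknull_map (HD s) hZ.closed hZ.inv (HD t) hZ'.closed K hKl
    (fun ω _ => Submodule.starProjection_apply_mem _ _)
  have hker : HD s ⊓ LinearMap.ker K.toLinearMap = ⊥ := by
    rw [Submodule.eq_bot_iff]
    rintro ω ⟨hω, hω2⟩
    have hK0 : (HD t).starProjection (JJ s t ω) = 0 := hω2
    obtain ⟨f, hf⟩ := hω.1
    set η : L (κ × G) := JJ s t ω with hη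
    have hηg : ∀ k x, η (k, x) = f (x * t k) - f x := fun k x => JJ_grad gens t hf k x
    -- the closure of the gradients of square summable functions
    let D : Submodule ℝ (L (κ × G)) := (LinearMap.range (dd t).toLinearMap).topologicalClosure
    have hDc : IsClosed (D : Set (L (κ × G))) := Submodule.isClosed_topologicalClosure _
    have : CompleteSpace D := hDc.completeSpace_coe
    have hDG : D ≤ GR t := by
      refine Submodule.topologicalClosure_minimal _ ?_ (GR_closed t)
      rintro _ ⟨h, rfl⟩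
      exact GR_of_grad (f := fun x => h x) fun k x => dd_apply t h k x
    set η1 : L (κ × G) := D.starProjection η with hη1
    have hη1D : η1 ∈ D := Submodule.starProjection_apply_mem _ _
    have hη2G : η - η1 ∈ GR t := (GR t).sub_mem (GR_of_grad hηg) (hDG hη1D)
    obtain ⟨f2, hf2⟩ := grad_of_GR gent hη2G
    have horth : ∀ w ∈ D, ⟪η - η1, w⟫_ℝ = 0 := fun w hw =>
      Submodule.starProjection_inner_eq_zero _ _ hw
    have hsum0 : ∑ k, sl k (η - η1) = 0 := by
      have h1 : ∀ h : L G, ⟪∑ k, sl k (η - η1), h⟫_ℝ = 0 := by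
        intro h
        have h2 := dd_inner τ hτ ht hf2 h
        have h2' : ⟪η - η1, dd t h⟫_ℝ = 0 :=
          horth (dd t h) (Submodule.le_topologicalClosure _ ⟨h, rfl⟩)
        rw [h2'] at h2
        linarith
      exact inner_self_eq_zero.1 (h1 _)
    have hη2H : η - η1 ∈ HD t := by
      refine ⟨⟨f2, hf2⟩, fun x => ?_⟩
      rw [← sum_sl_apply, hsum0]
      rfl
    have h3 : ⟪η, η - η1⟫_ℝ = 0 := by
      have h4 := Submodule.starProjection_inner_eq_zero (K := HD t) η _ hη2H
      rw [hK0, sub_zero] at h4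
      exact h4
    have h5 : ⟪η - η1, η - η1⟫_ℝ = 0 := by
      rw [inner_sub_left, h3, real_inner_comm, horth _ hη1D, sub_zero]
    have h6 : η - η1 = 0 := inner_self_eq_zero.1 h5
    have hηD : η ∈ D := by
      have : η = η1 := sub_eq_zero.1 h6
      rw [this]
      exact hη1D
    -- back to the first family
    have hback : JJ t s η = ω := by
      apply L_ext
      rintro ⟨i, x⟩
      rw [JJ_grad gent s hηg, hf]
    have hω3 : ∀ w ∈ D, ⟪ω, JJ t s w⟫_ℝ = 0 := by
      have hcl : IsClosed {w : L (κ × G) | ⟪ω, JJ t s w⟫_ℝ = 0} :=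
        isClosed_eq (continuous_const.inner (JJ t s).continuous) continuous_const
      intro w hw
      have hsub : (LinearMap.range (dd t).toLinearMap : Set (L (κ × G))) ⊆
          {w : L (κ × G) | ⟪ω, JJ t s w⟫_ℝ = 0} := by
        rintro _ ⟨h, rfl⟩
        have e : JJ t s (dd t h) = dd s h := by
          apply L_ext
          rintro ⟨i, x⟩
          rw [JJ_grad gent s (f := fun x => h x) (fun k x => dd_apply t h k x), dd_apply]
        change ⟪ω, JJ t s (dd t h)⟫_ℝ = 0
        rw [e, dd_inner σ hσ hs hf, hZ.harm ω hω, inner_zero_left, mul_zero]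
      exact (hcl.closure_subset_iff.2 hsub) hw
    have h7 := hω3 η hηD
    rw [hback] at h7
    exact inner_self_eq_zero.1 h7
  rw [hker] at hmain
  have h8 : dm (⊥ : Submodule ℝ (L (ι × G))) = 0 := by
    unfold dm
    refine Finset.sum_eq_zero fun i _ => ?_
    have h9 : (⊥ : Submodule ℝ (L (ι × G))).topologicalClosure = ⊥ :=
      (isClosed_singleton (x := (0 : L (ι × G)))).submodule_topologicalClosure_eq
    have h10 := Submodule.starProjection_apply_mem
      (⊥ : Submodule ℝ (L (ι × G))).topologicalClosure (lp.single 2 ((i, 1) : ι × G) (1 : ℝ))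
    have h11 : (⊥ : Submodule ℝ (L (ι × G))).topologicalClosure.starProjection
        (lp.single 2 ((i, 1) : ι × G) (1 : ℝ)) = 0 := by
      have h12 := h9.le h10
      exact (Submodule.mem_bot ℝ).1 h12
    rw [h11]
    simp
  linarith

end Pool.Agent.Lib.MP_354e85_al.L2B
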