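import Pool.Agent.Lib.MP_354e85_al.L2B.SelA

/-! ICC groups: a family of letters invariant under a finite cyclic group, and the main theorem. -/

set_option autoImplicit false

namespace Pool.Agent.Lib.MP_354e85_al.L2B

open Finset
open scoped InnerProductSpace

variable {G : Type} [Group G] {ι : Type} [Fintype ι]

/-- The letters `x * s k * y`, `x, y` in a finite subgroup. -/
private noncomputable def fam (s : ι → G) (A : Subgroup G) : A × ι × A → G :=
  fun b => (b.1 : G) * s b.2.1 * (b.2.2 : G)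

omit [Fintype ι] in
private theorem fam_gen (s : ι → G) (A : Subgroup G) (gen : ∀ g : G, ∃ l, pr s l = g) (g : G) :
    ∃ l, pr (fam s A) l = g := by
  obtain ⟨l, rfl⟩ := gen g
  refine ⟨l.map fun i => ((1 : A), i, (1 : A)), ?_⟩
  unfold pr
  rw [List.map_map]
  congr 1
  apply List.map_congr_left
  intro i _
  simp [fam]

private theorem fam_inv (s : ι → G) (A : Subgroup G) [Fintype A] [Nonempty ι]
    (gen : ∀ g : G, ∃ l, pr s l = g) (a : G) (ha : a ∈ A) :
    ∀ ω ∈ HD (fam s A), T (fam s A) a ω = 0 := by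
  classical
  intro ω hω
  have hZ := HD_good (fam s A) (fam_gen s A gen)
  obtain ⟨⟨f, hf⟩, h⟩ := hω
  have hN : (0 : ℝ) < Fintype.card (A × ι × A) := by
    exact_mod_cast Fintype.card_pos
  have hsum : ∀ x, ∑ b : A × ι × A, f (x * fam s A b) = Fintype.card (A × ι × A) * f x := by
    intro x
    have h1 := h x
    simp only [hf, Finset.sum_sub_distrib, Finset.sum_const, Finset.card_univ, nsmul_eq_mul] at h1
    linarith
  have hinv : ∀ x, f (x * a) = f x := by
    intro x
    have h1 := hsum (x * a)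
    have h2 := hsum x
    have h3 : ∑ b : A × ι × A, f (x * a * fam s A b) = ∑ b : A × ι × A, f (x * fam s A b) := by
      let e : A × ι × A ≃ A × ι × A :=
        (Equiv.mulLeft (⟨a, ha⟩ : A)).prodCongr (Equiv.refl (ι × A))
      rw [← Equiv.sum_comp e fun b => f (x * fam s A b)]
      refine Finset.sum_congr rfl fun b _ => ?_
      congr 1
      change x * a * (b.1 * s b.2.1 * b.2.2) = x * ((a * b.1) * s b.2.1 * b.2.2)
      group
    rw [h3, h2] at h1
    exact (mul_left_cancel₀ hN.ne' h1).symm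
  obtain ⟨l, h1, h2⟩ := T_eq (fam_gen s A gen) a
  apply L_ext
  intro x
  have hω' : ω ∈ HD (fam s A) := ⟨⟨f, hf⟩, h⟩
  have hTl : ∀ (l : List (A × ι × A)) (x : G), Tl (fam s A) l ω x = f (x * pr (fam s A) l) - f x := by
    intro l
    induction l with
    | nil =>
      intro x
      simp [Tl_nil, pr]
    | cons i l ih =>
      intro x
      have e : pr (fam s A) (i :: l) = fam s A i * pr (fam s A) l := by simp [pr]
      rw [Tl_cons, hf, ih, e, mul_assoc]
      ring
  rw [h2, hTl, h1, hinv, sub_self]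
  rfl

/-- An element of order at least three, or of infinite order. -/
private theorem exists_el (icc : ∀ g : G, g ≠ 1 → (Set.range fun x : G => x * g * x⁻¹).Infinite)
    (hne : ∃ g : G, g ≠ 1) : ∃ a : G, orderOf a = 0 ∨ 3 ≤ orderOf a := by
  by_contra hcon
  push Not at hcon
  have h1 : ∀ a : G, a * a = 1 := by
    intro a
    have h2 := hcon a
    have h3 : orderOf a = 1 ∨ orderOf a = 2 := by omega
    rcases h3 with h3 | h3
    · rw [orderOf_eq_one_iff.1 h3, one_mul]
    · have h4 := pow_orderOf_eq_one a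
      rw [h3, pow_two] at h4
      exact h4
  have h2 : ∀ a : G, a⁻¹ = a := fun a => inv_eq_of_mul_eq_one_right (h1 a)
  have hc : ∀ a b : G, a * b = b * a := by
    intro a b
    have h3 := h2 (a * b)
    rw [mul_inv_rev, h2, h2] at h3
    exact h3.symm
  obtain ⟨g, hg⟩ := hne
  apply icc g hg
  have h3 : (Set.range fun x : G => x * g * x⁻¹) ⊆ {g} := by
    rintro _ ⟨x, rfl⟩
    change x * g * x⁻¹ = g
    rw [hc x g, mul_assoc, mul_inv_cancel, mul_one]
  exact (Set.finite_singleton g).subset h3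

private theorem sp_congr {H : Type*} [NormedAddCommGroup H] [InnerProductSpace ℝ H]
    {Z Z' : Submodule ℝ H} [Z.HasOrthogonalProjection] [Z'.HasOrthogonalProjection] (h : Z' = Z)
    (x : H) : Z'.starProjection x = Z.starProjection x := by
  subst h
  rfl

private theorem nontriv {s : ι → G} (h : 0 < dm (HD s)) : ∃ g : G, g ≠ 1 := by
  by_contra hcon
  push Not at hcon
  have h1 : HD s = ⊥ := by
    rw [Submodule.eq_bot_iff]
    rintro ω ⟨⟨f, hf⟩, -⟩
    apply L_ext
    rintro ⟨i, x⟩
    rw [hf, hcon (x * s i), hcon x, sub_self]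
    rfl
  rw [h1] at h
  have h2 : dm (⊥ : Submodule ℝ (L (ι × G))) = 0 := by
    unfold dm
    refine Finset.sum_eq_zero fun i _ => ?_
    have h9 : (⊥ : Submodule ℝ (L (ι × G))).topologicalClosure = ⊥ :=
      (isClosed_singleton (x := (0 : L (ι × G)))).submodule_topologicalClosure_eq
    rw [sp_congr h9, Submodule.starProjection_bot]
    simp
  linarith

/-- an element of finite order at least three -/
theorem icc_fin {c : ℝ} (hc1 : 1 ≤ c) (mo : Mo G c) [Nonempty ι] {s : ι → G}
    (gen : ∀ g : G, ∃ l, pr s l = g) (σ : ι → ι)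
    (hσ : Function.Involutive σ) (hs : ∀ i, s (σ i) = (s i)⁻¹) (a : G) (ha : 3 ≤ orderOf a)
    {t1 : ℝ} (ht3 : 1 / 3 ≤ t1) (ht1 : t1 * (dm (HD s) + c) < dm (HD s))
    (ht2 : c < t1 * (dm (HD s) - t1 + c)) (hD : 4 / 3 + c / 2 ≤ dm (HD s)) (ht4 : t1 < 1) :
    TarskiLE G 6 := by
  classical
  let A : Subgroup G := Subgroup.zpowers a
  have hfin : (A : Set G).Finite := by
    refine finite_zpowers.2 ?_
    rw [← orderOf_pos_iff]
    omega
  have : Fintype A := hfin.fintype
  have hgen := fam_gen s A gen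
  let τ : A × ι × A → A × ι × A := fun b => (b.2.2⁻¹, σ b.2.1, b.1⁻¹)
  have hτ : Function.Involutive τ := by
    rintro ⟨x, i, y⟩
    simp [τ, hσ i]
  have ht : ∀ b, fam s A (τ b) = (fam s A b)⁻¹ := by
    rintro ⟨x, i, y⟩
    simp [τ, fam, hs, mul_assoc]
  have hle := dm_HD_le s gen σ hσ hs (fam s A) hgen τ hτ ht
  have hZ := HD_good (fam s A) hgen
  have h1 : t1 * (dm (HD (fam s A)) + c) < dm (HD (fam s A)) := by nlinarith
  have h2 : c < t1 * (dm (HD (fam s A)) - t1 + c) := by
    have : 0 < t1 := by linarith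
    nlinarith
  exact tarski_fin hc1 mo hgen τ hτ ht hZ a (fam_inv s A gen a (Subgroup.mem_zpowers a))
    (orderOf a) ha rfl ht3 h1 h2 (by linarith)

/-- an element of infinite order -/
theorem icc_inf {c : ℝ} (hc1 : 1 ≤ c) (mo : Mo G c) [Nonempty ι] {s : ι → G}
    (gen : ∀ g : G, ∃ l, pr s l = g) (σ : ι → ι)
    (hσ : Function.Involutive σ) (hs : ∀ i, s (σ i) = (s i)⁻¹) (a : G) (ha : orderOf a = 0)
    {D1 t1 t2 : ℝ} (hD1 : D1 + 1 ≤ dm (HD s)) (hD2 : 1 ≤ D1)
    (ht0 : 0 ≤ t1) (ht1 : t1 * (D1 + c) < D1) (ht12 : t1 ≤ t2) (ht21 : t2 ≤ 1)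
    (hA : (t2 - t1) * (D1 - t1 + c) < D1 - t1) (hB : c < t2 * (D1 - t2 + c)) :
    TarskiLE G 6 := by
  classical
  have hZ := HD_good s gen
  have ha' : ∀ i j : ℤ, a ^ i = a ^ j → i = j := by
    intro i j h
    exact injective_zpow_iff_not_isOfFinOrder.2 (orderOf_eq_zero_iff.1 ha) h
  have h1 : dm (HD s) ≤ dm (kr s (HD s) a) + 1 := by
    have h2 := ranknull (HD s) hZ.closed hZ.inv (T s a) (fun y ω => T_lam s a y ω)
      (p := 1) zero_le_one (fun ω _ => by
        rw [one_mul]
        exact le_hasSum (L_hasSum _) 1 fun _ _ => sq_nonneg _)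
    exact h2
  have hZ1 := hZ.kr a
  have hDD : D1 ≤ dm (kr s (HD s) a) := by linarith
  have ht1' : t1 < 1 := by
    by_contra hcon
    push Not at hcon
    nlinarith
  exact tarski_inf hc1 mo gen σ hσ hs hZ1 a (fun ω hω => kr_zero hω) ha' ht0 (by nlinarith) ht12
    ht21 (by nlinarith) (by
      have h0 : 0 < t2 := by
        by_contra hcon
        push Not at hcon
        have h5 : t2 = 0 := by linarith
        rw [h5] at hB
        linarith
      nlinarith) (by linarith)

/-- ICC groups, with the rank bound `D / (D + 2)`. -/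
theorem main_icc_two (mo : Mo G 2) [Nonempty ι] {s : ι → G}
    (gen : ∀ g : G, ∃ l, pr s l = g)
    (icc : ∀ g : G, g ≠ 1 → (Set.range fun x : G => x * g * x⁻¹).Infinite) (σ : ι → ι)
    (hσ : Function.Involutive σ) (hs : ∀ i, s (σ i) = (s i)⁻¹) (hd : 5 / 2 ≤ dm (HD s)) :
    TarskiLE G 6 := by
  obtain ⟨a, ha | ha⟩ := exists_el icc (nontriv (s := s) (by linarith))
  · exact icc_inf (by norm_num) mo gen σ hσ hs a ha (D1 := 3 / 2) (t1 := 42 / 100)
      (t2 := 73 / 100) (by linarith) (by norm_num) (by norm_num) (by norm_num) (by norm_num)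
      (by norm_num) (by norm_num) (by norm_num)
  · exact icc_fin (by norm_num) mo gen σ hσ hs a ha (t1 := 54 / 100) (by norm_num) (by linarith)
      (by linarith) (by linarith) (by norm_num)

/-- ICC groups with an element of finite order at least three, rank bound `D / (D + 2)`. -/
theorem main_icc_two_fin (mo : Mo G 2) [Nonempty ι] {s : ι → G}
    (gen : ∀ g : G, ∃ l, pr s l = g) (σ : ι → ι)
    (hσ : Function.Involutive σ) (hs : ∀ i, s (σ i) = (s i)⁻¹) (a : G) (ha : 3 ≤ orderOf a)
    (hd : 7 / 3 ≤ dm (HD s)) : TarskiLE G 6 :=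
  icc_fin (by norm_num) mo gen σ hσ hs a ha (t1 := 538 / 1000) (by norm_num) (by linarith)
    (by linarith) (by linarith) (by norm_num)

/-- ICC groups, with the rank bound `D / (D + 1)`. -/
theorem main_icc_one (mo : Mo G 1) [Nonempty ι] {s : ι → G}
    (gen : ∀ g : G, ∃ l, pr s l = g)
    (icc : ∀ g : G, g ≠ 1 → (Set.range fun x : G => x * g * x⁻¹).Infinite) (σ : ι → ι)
    (hσ : Function.Involutive σ) (hs : ∀ i, s (σ i) = (s i)⁻¹) (hd : 21 / 10 ≤ dm (HD s)) :
    TarskiLE G 6 := by
  obtain ⟨a, ha | ha⟩ := exists_el icc (nontriv (s := s) (by linarith))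
  · exact icc_inf (by norm_num) mo gen σ hσ hs a ha (D1 := 11 / 10) (t1 := 52 / 100)
      (t2 := 74 / 100) (by linarith) (by norm_num) (by norm_num) (by norm_num) (by norm_num)
      (by norm_num) (by norm_num) (by norm_num)
  · exact icc_fin (by norm_num) mo gen σ hσ hs a ha (t1 := 64 / 100) (by norm_num) (by linarith)
      (by linarith) (by linarith) (by norm_num)

/-- ICC groups with an element of finite order at least three, rank bound `D / (D + 1)`. -/
theorem main_icc_one_fin (mo : Mo G 1) [Nonempty ι] {s : ι → G}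
    (gen : ∀ g : G, ∃ l, pr s l = g) (σ : ι → ι)
    (hσ : Function.Involutive σ) (hs : ∀ i, s (σ i) = (s i)⁻¹) (a : G) (ha : 3 ≤ orderOf a)
    (hd : 11 / 6 ≤ dm (HD s)) : TarskiLE G 6 :=
  icc_fin (by norm_num) mo gen σ hσ hs a ha (t1 := 64 / 100) (by norm_num) (by linarith)
    (by linarith) (by linarith) (by norm_num)

end Pool.Agent.Lib.MP_354e85_al.L2B
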