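import Pool.Agent.Lib.MP_354e85_al.L2B.Basic
import Pool.Agent.Lib.MP_354e85_al.L2B.Erg

/-! First and second moments of the representers along the random walk. -/

set_option autoImplicit false

namespace Pool.Agent.Lib.MP_354e85_al.L2B

open Finset Filter Topology
open scoped InnerProductSpace

variable {G : Type} [Group G] {ι : Type} [Fintype ι] {s : ι → G}
  {Z : Submodule ℝ (L (ι × G))} {u : G → L (ι × G)}

theorem u_one (hu : Rep s Z u) : u 1 = 0 := by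
  have h := hu.mul 1 1
  rw [mul_one, inv_one, lam_one] at h
  simpa using h

/-- the coefficient function -/
noncomputable def cc (s : ι → G) (u : G → L (ι × G)) (g : G) : L G := T s g (u g)

theorem sum_T (gen : ∀ g : G, ∃ l, pr s l = g) (hZ : Good s Z) {ω : L (ι × G)} (hω : ω ∈ Z) :
    ∑ i, ‖T s (s i) ω‖ ^ 2 = ‖ω‖ ^ 2 := by
  rw [← sum_sl ω]
  exact Finset.sum_congr rfl fun i _ => by rw [T_gen gen hZ i hω]

/-- first moment, one step -/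
theorem mom1_step (hu : Rep s Z u) (g : G) :
    ∑ i, ‖u (g * s i)‖ ^ 2 = (Fintype.card ι : ℝ) * ‖u g‖ ^ 2 + dm Z := by
  have h1 : ∀ i, ‖u (g * s i)‖ ^ 2 = ‖u g‖ ^ 2 + 2 * ⟪u g, lam g⁻¹ (u (s i))⟫_ℝ +
      ‖u (s i)‖ ^ 2 := by
    intro i
    rw [hu.mul, norm_add_sq_real, LinearIsometry.norm_map]
  rw [Finset.sum_congr rfl fun i _ => h1 i, Finset.sum_add_distrib, Finset.sum_add_distrib,
    ← hu.dm_eq, ← Finset.mul_sum, ← inner_sum, ← map_sum, hu.sum]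
  simp

theorem mom1 [Nonempty ι] (hu : Rep s Z u) (n : ℕ) :
    W s n (fun g => ‖u g‖ ^ 2) = n * (dm Z / Fintype.card ι) := by
  induction n with
  | zero =>
    change ‖u 1‖ ^ 2 = _
    rw [u_one hu]
    simp
  | succ n ih =>
    change W s n (fun g => (Fintype.card ι : ℝ)⁻¹ • ∑ i, ‖u (g * s i)‖ ^ 2) = _
    have hq : (Fintype.card ι : ℝ) ≠ 0 := by exact_mod_cast Fintype.card_ne_zero
    have e : (fun g => (Fintype.card ι : ℝ)⁻¹ • ∑ i, ‖u (g * s i)‖ ^ 2) =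
        fun g => ‖u g‖ ^ 2 + dm Z / Fintype.card ι := by
      funext g
      rw [mom1_step hu, smul_eq_mul]
      field_simp
    rw [e, W_add, ih, W_const]
    push_cast
    ring

theorem lam_inner (y : G) (v w : L (ι × G)) : ⟪lam y v, w⟫_ℝ = ⟪v, lam y⁻¹ w⟫_ℝ := by
  have h : ⟪lam y⁻¹ (lam y v), lam y⁻¹ w⟫_ℝ = ⟪lam y v, w⟫_ℝ := LinearIsometry.inner_map_map _ _ _
  rw [← h, lam_lam, mul_inv_cancel, lam_one]

/-- the two mixed terms -/
noncomputable def mA (s : ι → G) (u : G → L (ι × G)) (g : G) (i : ι) : L G :=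
  T s g (lam g⁻¹ (u (s i)))

noncomputable def mB (s : ι → G) (u : G → L (ι × G)) (g : G) (i : ι) : L G :=
  RR g (T s (s i) (u g))

theorem cc_mul (gen : ∀ g : G, ∃ l, pr s l = g) (hZ : Good s Z) (hu : Rep s Z u) (g : G) (i : ι) :
    cc s u (g * s i) = cc s u g + CJ g (cc s u (s i)) + (mA s u g i + mB s u g i) := by
  unfold cc
  rw [T_mul gen hZ g (s i) (hu.mem _), hu.mul, map_add, map_add, map_add, T_lam s (s i)]
  change _ = T s g (u g) + RR g (LL g⁻¹ (T s (s i) (u (s i)))) +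
    (T s g (lam g⁻¹ (u (s i))) + RR g (T s (s i) (u g)))
  abel

theorem sum_mA (hu : Rep s Z u) (g : G) : ∑ i, mA s u g i = 0 := by
  unfold mA
  rw [← map_sum, ← map_sum, hu.sum, map_zero, map_zero]

theorem sum_mB (gen : ∀ g : G, ∃ l, pr s l = g) (hZ : Good s Z) (hu : Rep s Z u) (g : G) :
    ∑ i, mB s u g i = 0 := by
  unfold mB
  rw [← map_sum, Finset.sum_congr rfl fun i _ => T_gen gen hZ i (hu.mem g), hZ.harm _ (hu.mem g),
    map_zero]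

theorem norm_mA (hZ : Good s Z) (hu : Rep s Z u) (g : G) (i : ι) :
    ‖mA s u g i‖ = ‖T s (s i) (u g)‖ := by
  have h : mA s u g i = cmp (Equiv.inv G) (mB s u g i) := by
    apply L_ext
    intro x
    rw [cmp_apply]
    change T s g (lam g⁻¹ (u (s i))) x = T s (s i) (u g) (x⁻¹ * g)
    rw [hu.rep _ (hZ.inv _ _ (hu.mem _)), hu.rep _ (hu.mem _), lam_lam, lam_inner,
      real_inner_comm]
    congr 2
    group
  rw [h, LinearIsometry.norm_map]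
  unfold mB
  rw [LinearIsometry.norm_map]

theorem cc_inv (gen : ∀ g : G, ∃ l, pr s l = g) (hZ : Good s Z) (hu : Rep s Z u) (g : G) :
    cc s u g⁻¹ = CJ g⁻¹ (cc s u g) := by
  have h1 : ∀ ω ∈ Z, T s g⁻¹ ω = - RR g⁻¹ (T s g ω) := by
    intro ω hω
    have h := T_mul gen hZ g⁻¹ g hω
    rw [inv_mul_cancel, T_one gen hZ hω] at h
    exact eq_neg_of_add_eq_zero_left h.symm
  have h2 : u g⁻¹ = - lam g (u g) := by
    have h := hu.mul g g⁻¹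
    rw [mul_inv_cancel, u_one hu] at h
    have h' := congrArg (lam g) h
    rw [map_zero, map_add, lam_lam, inv_mul_cancel, lam_one] at h'
    exact eq_neg_of_add_eq_zero_right h'.symm
  unfold cc
  rw [h1 _ (hu.mem _), h2, map_neg, map_neg, neg_neg, T_lam]
  change _ = RR g⁻¹ (LL (g⁻¹)⁻¹ (T s g (u g)))
  rw [inv_inv]

/-- the mean of the coefficient functions of the letters -/
noncomputable def Th (s : ι → G) (u : G → L (ι × G)) : L G :=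
  (Fintype.card ι : ℝ)⁻¹ • ∑ i, cc s u (s i)

theorem mean_cc [Nonempty ι] (gen : ∀ g : G, ∃ l, pr s l = g) (hZ : Good s Z) (hu : Rep s Z u)
    (g : G) : (Fintype.card ι : ℝ)⁻¹ • ∑ i, cc s u (g * s i) = cc s u g + CJ g (Th s u) := by
  have hq : (Fintype.card ι : ℝ) ≠ 0 := by exact_mod_cast Fintype.card_ne_zero
  rw [Finset.sum_congr rfl fun i _ => cc_mul gen hZ hu g i, Finset.sum_add_distrib,
    Finset.sum_add_distrib, Finset.sum_add_distrib, sum_mA hu, sum_mB gen hZ hu]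
  simp only [Finset.sum_const, Finset.card_univ, add_zero, smul_add]
  congr 1
  · rw [← Nat.cast_smul_eq_nsmul ℝ, smul_smul, inv_mul_cancel₀ hq, one_smul]
  · unfold Th
    rw [map_smul, map_sum]

theorem W_cc [Nonempty ι] (gen : ∀ g : G, ∃ l, pr s l = g) (hZ : Good s Z) (hu : Rep s Z u)
    (n : ℕ) : W s n (cc s u) = ∑ j ∈ range n, (P s ^ j) (Th s u) := by
  induction n with
  | zero =>
    change cc s u 1 = _
    unfold cc
    rw [u_one hu, map_zero]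
    simp
  | succ n ih =>
    change W s n (fun g => (Fintype.card ι : ℝ)⁻¹ • ∑ i, cc s u (g * s i)) = _
    rw [show (fun g => (Fintype.card ι : ℝ)⁻¹ • ∑ i, cc s u (g * s i)) =
      fun g => cc s u g + CJ g (Th s u) from funext fun g => mean_cc gen hZ hu g,
      W_add, W_conj, ih, Finset.sum_range_succ]

theorem Th_one [Nonempty ι] (hu : Rep s Z u) : (Th s u) 1 = dm Z / Fintype.card ι := by
  unfold Th
  have h : ∀ i, cc s u (s i) 1 = ‖u (s i)‖ ^ 2 := by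
    intro i
    unfold cc
    rw [hu.rep _ (hu.mem _), lam_one, real_inner_self_eq_norm_sq]
  have h2 : ((Fintype.card ι : ℝ)⁻¹ • ∑ i, cc s u (s i) : L G) 1 =
      (Fintype.card ι : ℝ)⁻¹ * ∑ i, cc s u (s i) 1 := by
    rw [lp.coeFn_smul, Pi.smul_apply, lp.coeFn_sum, Finset.sum_apply, smul_eq_mul]
  rw [h2, Finset.sum_congr rfl fun i _ => h i, ← hu.dm_eq]
  ring

theorem split_sq {V : Type*} [NormedAddCommGroup V] [InnerProductSpace ℝ V] (c z a b : V)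
    {η : ℝ} (hη : 0 < η) : ‖c + z + (a + b)‖ ^ 2 ≤ ‖c‖ ^ 2 + 2 * ⟪c, z⟫_ℝ + 2 * ⟪c, a + b⟫_ℝ +
      (1 + η⁻¹) * ‖z‖ ^ 2 + (1 + η) * (2 * ‖a‖ ^ 2 + 2 * ‖b‖ ^ 2) := by
  have h1 : ‖c + z + (a + b)‖ ^ 2 = ‖c‖ ^ 2 + 2 * ⟪c, z⟫_ℝ + 2 * ⟪c, a + b⟫_ℝ +
      ‖z + (a + b)‖ ^ 2 := by
    rw [add_assoc, norm_add_sq_real, inner_add_right]
    ring
  have h2 : ‖a + b‖ ^ 2 ≤ 2 * ‖a‖ ^ 2 + 2 * ‖b‖ ^ 2 := by
    have h := norm_add_le a b
    have h3 : ‖a + b‖ ^ 2 ≤ (‖a‖ + ‖b‖) ^ 2 := by gcongr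
    nlinarith [sq_nonneg (‖a‖ - ‖b‖)]
  have h4 : ‖z + (a + b)‖ ^ 2 ≤ (1 + η⁻¹) * ‖z‖ ^ 2 + (1 + η) * ‖a + b‖ ^ 2 := by
    have h := norm_add_le z (a + b)
    have h3 : ‖z + (a + b)‖ ^ 2 ≤ (‖z‖ + ‖a + b‖) ^ 2 := by gcongr
    have h5 : 0 ≤ (η⁻¹) * (‖z‖ - η * ‖a + b‖) ^ 2 := by positivity
    have h6 : (η⁻¹) * (‖z‖ - η * ‖a + b‖) ^ 2 =
        η⁻¹ * ‖z‖ ^ 2 - 2 * ‖z‖ * ‖a + b‖ + η * ‖a + b‖ ^ 2 := by
      field_simp
      ring
    nlinarith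
  have h7 : (1 + η) * ‖a + b‖ ^ 2 ≤ (1 + η) * (2 * ‖a‖ ^ 2 + 2 * ‖b‖ ^ 2) := by gcongr
  linarith

/-- the error constant -/
noncomputable def kap (s : ι → G) (u : G → L (ι × G)) : ℝ :=
  (Fintype.card ι : ℝ)⁻¹ * ∑ i, ‖cc s u (s i)‖ ^ 2

theorem mom2_point [Nonempty ι] (gen : ∀ g : G, ∃ l, pr s l = g) (hZ : Good s Z)
    (hu : Rep s Z u) {η : ℝ} (hη : 0 < η) (g : G) :
    (Fintype.card ι : ℝ)⁻¹ • ∑ i, ‖cc s u (g * s i)‖ ^ 2 ≤
      ‖cc s u g‖ ^ 2 + 2 * ⟪cc s u g⁻¹, Th s u⟫_ℝ +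
        (1 + η) * (4 / Fintype.card ι) * ‖u g‖ ^ 2 + (1 + η⁻¹) * kap s u := by
  have hq : (0 : ℝ) < Fintype.card ι := by exact_mod_cast Fintype.card_pos
  have h1 : ∀ i, ‖cc s u (g * s i)‖ ^ 2 ≤ ‖cc s u g‖ ^ 2 + 2 * ⟪cc s u g, CJ g (cc s u (s i))⟫_ℝ +
      2 * ⟪cc s u g, mA s u g i + mB s u g i⟫_ℝ + (1 + η⁻¹) * ‖cc s u (s i)‖ ^ 2 +
      (1 + η) * (4 * ‖T s (s i) (u g)‖ ^ 2) := by
    intro i
    rw [cc_mul gen hZ hu]
    have h := split_sq (cc s u g) (CJ g (cc s u (s i))) (mA s u g i) (mB s u g i) hη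
    rw [norm_mA hZ hu] at h
    have hB : ‖mB s u g i‖ = ‖T s (s i) (u g)‖ := by
      unfold mB
      rw [LinearIsometry.norm_map]
    rw [hB, LinearIsometry.norm_map] at h
    linarith
  have h2 := Finset.sum_le_sum fun i (_ : i ∈ univ) => h1 i
  have h3 : ∑ i, (‖cc s u g‖ ^ 2 + 2 * ⟪cc s u g, CJ g (cc s u (s i))⟫_ℝ +
      2 * ⟪cc s u g, mA s u g i + mB s u g i⟫_ℝ + (1 + η⁻¹) * ‖cc s u (s i)‖ ^ 2 +
      (1 + η) * (4 * ‖T s (s i) (u g)‖ ^ 2)) = (Fintype.card ι : ℝ) * ‖cc s u g‖ ^ 2 +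
      2 * ((Fintype.card ι : ℝ) * ⟪cc s u g, CJ g (Th s u)⟫_ℝ) +
      (1 + η⁻¹) * ((Fintype.card ι : ℝ) * kap s u) + (1 + η) * (4 * ‖u g‖ ^ 2) := by
    simp only [Finset.sum_add_distrib, ← Finset.mul_sum, ← inner_sum]
    rw [sum_mA hu, sum_mB gen hZ hu, sum_T gen hZ (hu.mem g)]
    have h4 : (Fintype.card ι : ℝ) * ⟪cc s u g, CJ g (Th s u)⟫_ℝ =
        ⟪cc s u g, ∑ i, CJ g (cc s u (s i))⟫_ℝ := by
      unfold Th
      rw [map_smul, map_sum, inner_smul_right]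
      field_simp
    have h5 : (Fintype.card ι : ℝ) * kap s u = ∑ i, ‖cc s u (s i)‖ ^ 2 := by
      unfold kap
      field_simp
    rw [h4, h5]
    simp
  rw [h3] at h2
  have h6 : ⟪cc s u g, CJ g (Th s u)⟫_ℝ = ⟪cc s u g⁻¹, Th s u⟫_ℝ := by
    have h := (CJ g⁻¹).inner_map_map (cc s u g) (CJ g (Th s u))
    rw [← h, ← cc_inv gen hZ hu]
    congr 1
    apply L_ext
    intro x
    simp only [CJ_apply]
    congr 1
    group
  rw [h6] at h2
  rw [smul_eq_mul, inv_mul_le_iff₀ hq]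
  refine h2.trans (le_of_eq ?_)
  field_simp
  ring

theorem mom2_step [Nonempty ι] (gen : ∀ g : G, ∃ l, pr s l = g) (σ : ι → ι)
    (hσ : Function.Involutive σ) (hs : ∀ i, s (σ i) = (s i)⁻¹) (hZ : Good s Z)
    (hu : Rep s Z u) {η : ℝ} (hη : 0 < η) (n : ℕ) :
    W s (n + 1) (fun g => ‖cc s u g‖ ^ 2) ≤ W s n (fun g => ‖cc s u g‖ ^ 2) +
      2 * ⟪∑ j ∈ range n, (P s ^ j) (Th s u), Th s u⟫_ℝ +
      (1 + η) * (4 / Fintype.card ι) * (n * (dm Z / Fintype.card ι)) + (1 + η⁻¹) * kap s u := by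
  change W s n (fun g => (Fintype.card ι : ℝ)⁻¹ • ∑ i, ‖cc s u (g * s i)‖ ^ 2) ≤ _
  refine (W_mono s n (mom2_point gen hZ hu hη)).trans (le_of_eq ?_)
  rw [W_add, W_add, W_add, W_const]
  have h1 : W s n (fun g => 2 * ⟪cc s u g⁻¹, Th s u⟫_ℝ) =
      2 * ⟪∑ j ∈ range n, (P s ^ j) (Th s u), Th s u⟫_ℝ := by
    have h2 := W_smul s n (2 : ℝ) (fun g => ⟪cc s u g⁻¹, Th s u⟫_ℝ)
    simp only [smul_eq_mul] at h2
    rw [h2, W_inv s σ hσ hs n (fun g => ⟪cc s u g, Th s u⟫_ℝ), ← W_cc gen hZ hu]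
    congr 1
    have h3 := W_map s n ((innerSL ℝ (Th s u)).toLinearMap) (cc s u)
    simp only [ContinuousLinearMap.coe_coe, innerSL_apply_apply] at h3
    rw [real_inner_comm, h3]
    congr 1
    funext g
    exact real_inner_comm _ _
  have h4 : W s n (fun g => (1 + η) * (4 / (Fintype.card ι : ℝ)) * ‖u g‖ ^ 2) =
      (1 + η) * (4 / Fintype.card ι) * (n * (dm Z / Fintype.card ι)) := by
    have h2 := W_smul s n ((1 + η) * (4 / (Fintype.card ι : ℝ))) (fun g => ‖u g‖ ^ 2)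
    simp only [smul_eq_mul] at h2
    rw [h2, mom1 hu]
  rw [h1, h4]

end Pool.Agent.Lib.MP_354e85_al.L2B
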