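import Pool.Agent.Lib.MP_354e85_al.L2B.Mom

/-! Large rank of a single increment: the rank of `T s g` on `Z` is at least about
`dm Z / (dm Z + 2)` for some `g`. -/

set_option autoImplicit false

namespace Pool.Agent.Lib.MP_354e85_al.L2B

open Finset Filter Topology
open scoped InnerProductSpace

variable {G : Type} [Group G] {ι : Type} [Fintype ι] {s : ι → G}
  {Z : Submodule ℝ (L (ι × G))} {u : G → L (ι × G)}

theorem quad_lim {c A B : ℝ} (hA : 0 ≤ A) (_hB : 0 ≤ B) {n0 : ℕ}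
    (h : ∀ n : ℕ, n0 ≤ n → c * (n : ℝ) ^ 2 ≤ A + B * n) : c ≤ 0 := by
  by_contra hc
  push Not at hc
  obtain ⟨n, hn⟩ := exists_nat_gt ((A + B) / c)
  rw [div_lt_iff₀ hc] at hn
  have h1 := h (n0 + n + 1) (by omega)
  have hn1 : (1 : ℝ) ≤ ((n0 + n + 1 : ℕ) : ℝ) := by
    exact_mod_cast Nat.succ_le_succ (Nat.zero_le _)
  have hn2 : (n : ℝ) ≤ ((n0 + n + 1 : ℕ) : ℝ) := by
    exact_mod_cast (by omega : n ≤ n0 + n + 1)
  set x : ℝ := ((n0 + n + 1 : ℕ) : ℝ)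
  have h2 : c * x ^ 2 ≤ (A + B) * x := by nlinarith
  have h3 : c * x ≤ A + B := by
    have hx : 0 < x := by linarith
    have : (c * x) * x ≤ (A + B) * x := by nlinarith
    exact le_of_mul_le_mul_right this hx
  nlinarith

theorem dm_nonneg (Z : Submodule ℝ (L (ι × G))) : 0 ≤ dm Z := by
  unfold dm
  exact Finset.sum_nonneg fun _ _ => sq_nonneg _

theorem mom_lower [Nonempty ι] (hu : Rep s Z u) {p : ℝ} (hp : 0 ≤ p)
    (h : ∀ g, ∀ ω ∈ Z, (T s g ω 1 : ℝ) ^ 2 ≤ p * ‖T s g ω‖ ^ 2) (n : ℕ) :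
    (n * (dm Z / Fintype.card ι)) ^ 2 ≤ p * W s n (fun g => ‖cc s u g‖ ^ 2) := by
  have h1 : ∀ g, ‖u g‖ ^ 2 ≤ Real.sqrt p * ‖cc s u g‖ := by
    intro g
    have h2 := h g (u g) (hu.mem g)
    rw [hu.rep _ (hu.mem _), lam_one, real_inner_self_eq_norm_sq] at h2
    have h3 : (‖u g‖ ^ 2) ^ 2 ≤ (Real.sqrt p * ‖cc s u g‖) ^ 2 := by
      rw [mul_pow, Real.sq_sqrt hp]
      exact h2
    exact (pow_le_pow_iff_left₀ (by positivity) (by positivity) (by norm_num)).1 h3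
  have h4 := W_mono s n h1
  rw [mom1 hu] at h4
  have h5 := W_smul s n (Real.sqrt p) (fun g => ‖cc s u g‖)
  simp only [smul_eq_mul] at h5
  rw [h5] at h4
  have h6 := W_sq s n (fun g => ‖cc s u g‖)
  have h7 : 0 ≤ (n : ℝ) * (dm Z / Fintype.card ι) := by
    have := dm_nonneg Z
    positivity
  calc (n * (dm Z / Fintype.card ι)) ^ 2 ≤ (Real.sqrt p * W s n (fun g => ‖cc s u g‖)) ^ 2 := by
        gcongr
    _ = p * (W s n (fun g => ‖cc s u g‖)) ^ 2 := by rw [mul_pow, Real.sq_sqrt hp]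
    _ ≤ p * W s n (fun g => ‖cc s u g‖ ^ 2) := by gcongr

theorem moment [Nonempty ι] (gen : ∀ g : G, ∃ l, pr s l = g)
    (icc : ∀ g : G, g ≠ 1 → (Set.range fun x : G => x * g * x⁻¹).Infinite) (σ : ι → ι)
    (hσ : Function.Involutive σ) (hs : ∀ i, s (σ i) = (s i)⁻¹) (hZ : Good s Z) {p : ℝ}
    (hp : 0 ≤ p) (h : ∀ g, ∀ ω ∈ Z, (T s g ω 1 : ℝ) ^ 2 ≤ p * ‖T s g ω‖ ^ 2) :
    dm Z ≤ p * (dm Z + 2) := by
  obtain ⟨u, hu⟩ := exists_rep gen hZ
  have hD := dm_nonneg Z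
  have hq : (0 : ℝ) < Fintype.card ι := by exact_mod_cast Fintype.card_pos
  set D := dm Z with hDdef
  set q : ℝ := (Fintype.card ι : ℝ) with hqdef
  set N : ℕ → ℝ := fun n => W s n (fun g => ‖cc s u g‖ ^ 2) with hN
  set a : ℕ → ℝ := fun n => ⟪∑ j ∈ range n, (P s ^ j) (Th s u), Th s u⟫_ℝ with ha
  have hN0 : ∀ n, 0 ≤ N n := by
    intro n
    have h1 := W_mono s n (F := fun _ => (0 : ℝ)) (F' := fun g => ‖cc s u g‖ ^ 2)
      (fun g => by positivity)
    rwa [W_const] at h1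
  have hk0 : 0 ≤ kap s u := by
    unfold kap
    positivity
  have herg : Tendsto (fun n : ℕ => (n : ℝ)⁻¹ * a n) atTop (𝓝 ((D / q) ^ 2)) := by
    have h1 := erg s gen icc (Th s u)
    rwa [Th_one hu] at h1
  -- the main inequality for every ε
  have key : ∀ ε : ℝ, 0 < ε → (D / q) ^ 2 ≤ p * ((D / q) ^ 2 + ε + (1 + ε) * (2 * D / q ^ 2)) := by
    intro ε hε
    have h1 : ∀ᶠ n : ℕ in atTop, (n : ℝ)⁻¹ * a n < (D / q) ^ 2 + ε :=
      herg.eventually_lt_const (by linarith)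
    obtain ⟨n1, hn1⟩ := Filter.eventually_atTop.1 h1
    set n0 := n1 + 1 with hn0
    set x : ℝ := (D / q) ^ 2 + ε with hx
    have hx0 : 0 ≤ x := by positivity
    have ha' : ∀ n, n0 ≤ n → a n ≤ n * x := by
      intro n hn
      have h2 := hn1 n (by omega)
      have h3 : (0 : ℝ) < n := by exact_mod_cast (by omega : 0 < n)
      rw [inv_mul_lt_iff₀ h3] at h2
      exact h2.le
    set β : ℝ := (1 + ε) * (4 / q) * (D / q) with hβ
    have hβ0 : 0 ≤ β := by positivity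
    set γ : ℝ := (1 + ε⁻¹) * kap s u with hγ
    have hγ0 : 0 ≤ γ := by positivity
    have hstep : ∀ n, n0 ≤ n → N (n + 1) ≤ N n + (2 * x + β) * n + γ := by
      intro n hn
      have h2 := mom2_step gen σ hσ hs hZ hu hε n
      have h3 := ha' n hn
      change N (n + 1) ≤ N n + 2 * a n + (1 + ε) * (4 / q) * (n * (D / q)) + γ at h2
      have h4 : (1 + ε) * (4 / q) * (n * (D / q)) = β * n := by
        rw [hβ]; ring
      rw [h4] at h2
      linarith
    have hall : ∀ m : ℕ, N (n0 + m) ≤ N n0 + ((2 * x + β) / 2) * ((n0 + m : ℕ) : ℝ) ^ 2 +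
        γ * ((n0 + m : ℕ) : ℝ) := by
      intro m
      induction m with
      | zero =>
        have h5 : 0 ≤ ((2 * x + β) / 2) * ((n0 + 0 : ℕ) : ℝ) ^ 2 := by positivity
        have h6 : 0 ≤ γ * ((n0 + 0 : ℕ) : ℝ) := by positivity
        change N n0 ≤ _
        linarith
      | succ m ih =>
        have h5 := hstep (n0 + m) (by omega)
        have h6 : ((n0 + (m + 1) : ℕ) : ℝ) = ((n0 + m : ℕ) : ℝ) + 1 := by push_cast; ring
        rw [h6]
        change N (n0 + m + 1) ≤ _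
        have h7 : (0 : ℝ) ≤ 2 * x + β := by positivity
        nlinarith
    have h8 : ∀ n : ℕ, n0 ≤ n → ((D / q) ^ 2 - p * ((2 * x + β) / 2)) * (n : ℝ) ^ 2 ≤
        p * N n0 + p * γ * n := by
      intro n hn
      obtain ⟨m, rfl⟩ := Nat.exists_eq_add_of_le hn
      have h9 := mom_lower hu hp h (n0 + m)
      change (((n0 + m : ℕ) : ℝ) * (D / q)) ^ 2 ≤ p * N (n0 + m) at h9
      have h10 := mul_le_mul_of_nonneg_left (hall m) hp
      nlinarith
    have h11 := quad_lim (mul_nonneg hp (hN0 n0)) (mul_nonneg hp hγ0) h8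
    have h12 : (2 * x + β) / 2 = (D / q) ^ 2 + ε + (1 + ε) * (2 * D / q ^ 2) := by
      rw [hx, hβ]
      field_simp
      ring
    rw [h12] at h11
    linarith
  have key2 : (D / q) ^ 2 ≤ p * ((D / q) ^ 2 + 2 * D / q ^ 2) := by
    refine le_of_forall_pos_le_add fun δ hδ => ?_
    set c : ℝ := p * (1 + 2 * D / q ^ 2) + 1 with hc
    have hc0 : 0 < c := by positivity
    have h1 := key (δ / c) (by positivity)
    have h2 : p * ((D / q) ^ 2 + δ / c + (1 + δ / c) * (2 * D / q ^ 2)) =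
        p * ((D / q) ^ 2 + 2 * D / q ^ 2) + (δ / c) * (p * (1 + 2 * D / q ^ 2)) := by ring
    rw [h2] at h1
    have h3 : (δ / c) * (p * (1 + 2 * D / q ^ 2)) ≤ δ := by
      rw [div_mul_eq_mul_div, div_le_iff₀ hc0]
      nlinarith
    linarith
  have h1 : D ^ 2 ≤ p * (D ^ 2 + 2 * D) := by
    have h2 : (D / q) ^ 2 * q ^ 2 ≤ p * ((D / q) ^ 2 + 2 * D / q ^ 2) * q ^ 2 := by gcongr
    have h3 : (D / q) ^ 2 * q ^ 2 = D ^ 2 := by field_simp
    have h4 : p * ((D / q) ^ 2 + 2 * D / q ^ 2) * q ^ 2 = p * (D ^ 2 + 2 * D) := by field_simp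
    rwa [h3, h4] at h2
  rcases hD.eq_or_lt with h2 | h2
  · rw [← h2]
    linarith
  · have h3 : D * D ≤ (p * (D + 2)) * D := by nlinarith
    exact le_of_mul_le_mul_right h3 h2

end Pool.Agent.Lib.MP_354e85_al.L2B
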