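import Pool.Agent.Lib.MP_354e85_al.L2B.MomF

/-! Moments for pairs of independent walks, with the inner part. -/

set_option autoImplicit false

namespace Pool.Agent.Lib.MP_354e85_al.L2B

open Finset Filter Topology
open scoped InnerProductSpace

variable {G : Type} [Group G] {ι : Type} [Fintype ι] {s : ι → G}
  {Z : Submodule ℝ (L (ι × G))} {u : G → L (ι × G)}

theorem W_T [Nonempty ι] (gen : ∀ g : G, ∃ l, pr s l = g) (hZ : Good s Z) {ω : L (ι × G)}
    (hω : ω ∈ Z) (n : ℕ) : W s n (fun g => T s g ω) = 0 := by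
  induction n with
  | zero => exact T_one gen hZ hω
  | succ n ih =>
    change W s n (fun g => (Fintype.card ι : ℝ)⁻¹ • ∑ i, T s (g * s i) ω) = 0
    have hq : (Fintype.card ι : ℝ) ≠ 0 := by exact_mod_cast Fintype.card_ne_zero
    have e : (fun g => (Fintype.card ι : ℝ)⁻¹ • ∑ i, T s (g * s i) ω) = fun g => T s g ω := by
      funext g
      have h0 : ∑ i, RR g (T s (s i) ω) = 0 := by
        rw [← map_sum, Finset.sum_congr rfl fun i _ => T_gen gen hZ i hω, hZ.harm ω hω, map_zero]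
      rw [Finset.sum_congr rfl fun i _ => T_mul gen hZ g (s i) hω, Finset.sum_add_distrib, h0,
        add_zero, Finset.sum_const, Finset.card_univ, ← Nat.cast_smul_eq_nsmul ℝ, smul_smul,
        inv_mul_cancel₀ hq, one_smul]
    rw [e]
    exact ih

theorem W_T_sq [Nonempty ι] (gen : ∀ g : G, ∃ l, pr s l = g) (hZ : Good s Z) {ω : L (ι × G)}
    (hω : ω ∈ Z) (n : ℕ) :
    W s n (fun g => ‖T s g ω‖ ^ 2) = n * (‖ω‖ ^ 2 / Fintype.card ι) := by
  induction n with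
  | zero =>
    change ‖T s 1 ω‖ ^ 2 = _
    rw [T_one gen hZ hω]
    simp
  | succ n ih =>
    change W s n (fun g => (Fintype.card ι : ℝ)⁻¹ • ∑ i, ‖T s (g * s i) ω‖ ^ 2) = _
    have hq : (Fintype.card ι : ℝ) ≠ 0 := by exact_mod_cast Fintype.card_ne_zero
    have e : (fun g => (Fintype.card ι : ℝ)⁻¹ • ∑ i, ‖T s (g * s i) ω‖ ^ 2) =
        fun g => ‖T s g ω‖ ^ 2 + ‖ω‖ ^ 2 / Fintype.card ι := by
      funext g
      have h1 : ∀ i, ‖T s (g * s i) ω‖ ^ 2 = ‖T s g ω‖ ^ 2 +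
          2 * ⟪T s g ω, RR g (T s (s i) ω)⟫_ℝ + ‖T s (s i) ω‖ ^ 2 := by
        intro i
        rw [T_mul gen hZ g (s i) hω, norm_add_sq_real, LinearIsometry.norm_map]
      rw [Finset.sum_congr rfl fun i _ => h1 i, Finset.sum_add_distrib, Finset.sum_add_distrib,
        sum_T gen hZ hω, ← Finset.mul_sum, ← inner_sum, ← map_sum,
        Finset.sum_congr rfl fun i _ => T_gen gen hZ i hω, hZ.harm ω hω, map_zero,
        inner_zero_right, Finset.sum_const, Finset.card_univ, smul_eq_mul, nsmul_eq_mul]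
      field_simp
      ring
    rw [e, W_add, ih, W_const]
    push_cast
    ring

theorem T_inv (gen : ∀ g : G, ∃ l, pr s l = g) (hZ : Good s Z) (g : G) {ω : L (ι × G)}
    (hω : ω ∈ Z) : T s g⁻¹ ω = - RR g⁻¹ (T s g ω) := by
  have h := T_mul gen hZ g⁻¹ g hω
  rw [inv_mul_cancel, T_one gen hZ hω] at h
  exact eq_neg_of_add_eq_zero_left h.symm

theorem W_cross [Nonempty ι] (gen : ∀ g : G, ∃ l, pr s l = g) (σ : ι → ι)
    (hσ : Function.Involutive σ) (hs : ∀ i, s (σ i) = (s i)⁻¹) (hZ : Good s Z)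
    {ω : L (ι × G)} (hω : ω ∈ Z) (ψ : L G) (n : ℕ) :
    W s n (fun g => ⟪T s g ω, RR g ψ - ψ⟫_ℝ) = 0 := by
  have h0 : W s n (fun g => ⟪T s g ω, ψ⟫_ℝ) = 0 := by
    have h3 := W_map s n ((innerSL ℝ ψ).toLinearMap) (fun g => T s g ω)
    rw [W_T gen hZ hω, map_zero] at h3
    rw [h3]
    congr 1
    funext g
    simp only [ContinuousLinearMap.coe_coe, innerSL_apply_apply]
    exact real_inner_comm _ _
  have h1 : ∀ g, ⟪T s g ω, RR g ψ - ψ⟫_ℝ = (-1 : ℝ) • ⟪T s g⁻¹ ω, ψ⟫_ℝ +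
      (-1 : ℝ) • ⟪T s g ω, ψ⟫_ℝ := by
    intro g
    have h2 := (RR g⁻¹).inner_map_map (T s g ω) (RR g ψ)
    rw [RR_RR, inv_mul_cancel, RR_one] at h2
    rw [T_inv gen hZ g hω, inner_neg_left, h2, inner_sub_right]
    simp only [smul_eq_mul]
    ring
  rw [show (fun g => ⟪T s g ω, RR g ψ - ψ⟫_ℝ) = fun g => (-1 : ℝ) • ⟪T s g⁻¹ ω, ψ⟫_ℝ +
      (-1 : ℝ) • ⟪T s g ω, ψ⟫_ℝ from funext h1, W_add, W_smul, W_smul,
    W_inv s σ hσ hs n (fun g => ⟪T s g ω, ψ⟫_ℝ), h0]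
  simp

/-- basis vectors -/
noncomputable def dl (g : G) : L G := by
  classical
  exact lp.single 2 g (1 : ℝ)

omit [Group G] in
theorem inner_dl (f : L G) (x : G) : ⟪f, dl x⟫_ℝ = f x := by
  classical
  unfold dl
  exact L_single f x

omit [Group G] in
theorem dl_eq [inst : DecidableEq G] (x : G) : (dl x : L G) = lp.single 2 x (1 : ℝ) := by
  have h : (fun a b : G => Classical.propDecidable (a = b)) = inst := Subsingleton.elim _ _
  subst h
  rfl

omit [Group G] in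
theorem dl_apply [DecidableEq G] (x y : G) : dl x y = if x = y then (1 : ℝ) else 0 := by
  rw [dl_eq, lp.single_apply, Pi.single_apply]
  by_cases h : x = y
  · rw [if_pos h, if_pos h.symm]
  · rw [if_neg h, if_neg (Ne.symm h)]

theorem dl_dl [DecidableEq G] (x y : G) : ⟪dl x, dl y⟫_ℝ = if x = y then (1 : ℝ) else 0 := by
  rw [inner_dl, dl_apply]

theorem dl_norm (x : G) : ‖dl x‖ ^ 2 = 1 := by
  classical
  rw [← real_inner_self_eq_norm_sq, dl_dl, if_pos rfl]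

theorem RR_dl (g x : G) : RR g (dl x) = dl (x * g⁻¹) := by
  classical
  apply L_ext
  intro y
  rw [RR_apply, dl_apply, dl_apply]
  by_cases h : x = y * g
  · rw [if_pos h, if_pos (by rw [h]; group)]
  · rw [if_neg h, if_neg]
    intro h2
    apply h
    rw [← h2]
    group

/-- the inner gradient vector -/
noncomputable def ka (g g' : G) : L G := RR g' (dl g - dl 1) - (dl g - dl 1)

theorem ka_eq (g g' : G) : ka g g' = (dl (g * g'⁻¹) + dl 1) - (dl g'⁻¹ + dl g) := by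
  unfold ka
  rw [map_sub, RR_dl, RR_dl, one_mul]
  abel

theorem ka_norm [DecidableEq G] (g g' : G) : ‖ka g g'‖ ^ 2 ≤
    4 + 2 * (if g = g' then (1 : ℝ) else 0) + 2 * (if g = g'⁻¹ then (1 : ℝ) else 0) := by
  rw [ka_eq, norm_sub_sq_real]
  have h1 : ‖dl (g * g'⁻¹) + dl 1‖ ^ 2 = 2 + 2 * (if g = g' then (1 : ℝ) else 0) := by
    rw [norm_add_sq_real, dl_norm, dl_norm, dl_dl]
    by_cases h : g = g'
    · rw [if_pos h, if_pos (by rw [h]; group)]
      ring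
    · rw [if_neg h, if_neg]
      · ring
      · intro h2
        exact h (mul_inv_eq_one.1 h2)
  have h2 : ‖dl g'⁻¹ + dl g‖ ^ 2 = 2 + 2 * (if g = g'⁻¹ then (1 : ℝ) else 0) := by
    rw [norm_add_sq_real, dl_norm, dl_norm, dl_dl]
    by_cases h : g = g'⁻¹
    · rw [if_pos h, if_pos h.symm]
      ring
    · rw [if_neg h, if_neg (Ne.symm h)]
      ring
  have h3 : 0 ≤ ⟪dl (g * g'⁻¹) + dl 1, dl g'⁻¹ + dl g⟫_ℝ := by
    rw [inner_add_left, inner_add_right, inner_add_right, dl_dl, dl_dl, dl_dl, dl_dl]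
    have h4 : ∀ p : Prop, ∀ [Decidable p], 0 ≤ (if p then (1 : ℝ) else 0) := by
      intro p _
      split_ifs <;> norm_num
    have := h4 (g * g'⁻¹ = g'⁻¹)
    have := h4 (g * g'⁻¹ = g)
    have := h4 (1 = g'⁻¹)
    have := h4 (1 = g)
    linarith
  rw [h1, h2]
  linarith

theorem ka_self_one [DecidableEq G] (g : G) :
    (ka g g) 1 = 2 - 2 * (if g = 1 then (1 : ℝ) else 0) := by
  have h : (ka g g) 1 = ⟪ka g g, dl 1⟫_ℝ := (inner_dl _ _).symm
  rw [h, ka_eq, inner_sub_left, inner_add_left, inner_add_left, dl_dl, dl_dl, dl_dl, dl_dl,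
    if_pos (mul_inv_cancel g), if_pos rfl]
  by_cases h : g = 1
  · subst h
    simp
  · rw [if_neg h, if_neg (fun h2 => h (inv_eq_one.1 h2))]
    ring

theorem cc_le (hu : Rep s Z u) (g x : G) : |(cc s u g) x| ≤ ‖u g‖ ^ 2 := by
  unfold cc
  rw [hu.rep _ (hu.mem _)]
  refine (abs_real_inner_le_norm _ _).trans ?_
  rw [LinearIsometry.norm_map, sq]

theorem cc_ka (hu : Rep s Z u) (g : G) : ⟪cc s u g, ka g g⟫_ℝ ≤ 4 * ‖u g‖ ^ 2 := by
  rw [ka_eq, inner_sub_right, inner_add_right, inner_add_right, inner_dl, inner_dl, inner_dl,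
    inner_dl]
  have h1 := abs_le.1 (cc_le hu g (g * g⁻¹))
  have h2 := abs_le.1 (cc_le hu g 1)
  have h3 := abs_le.1 (cc_le hu g g⁻¹)
  have h4 := abs_le.1 (cc_le hu g g)
  linarith

/-- the components of the test vectors -/
noncomputable def vv (s : ι → G) (u : G → L (ι × G)) (α : ℝ) (g g' : G) : L G :=
  α • T s g' (u g) + (1 / 2 : ℝ) • ka g g'

theorem vv_norm (α : ℝ) (g g' : G) : ‖vv s u α g g'‖ ^ 2 =
    α ^ 2 * ‖T s g' (u g)‖ ^ 2 + α * ⟪T s g' (u g), ka g g'⟫_ℝ + (1 / 4) * ‖ka g g'‖ ^ 2 := by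
  unfold vv
  rw [norm_add_sq_real, norm_smul, norm_smul, inner_smul_left, inner_smul_right, mul_pow, mul_pow,
    Real.norm_eq_abs, Real.norm_eq_abs, sq_abs, sq_abs]
  simp only [conj_trivial]
  ring

/-- the value of the test vector -/
theorem vv_val [DecidableEq G] (hu : Rep s Z u) (α : ℝ) (g : G) :
    (vv s u α g g) 1 = α * ‖u g‖ ^ 2 + 1 - (if g = 1 then (1 : ℝ) else 0) := by
  unfold vv
  have h : (α • T s g (u g) + (1 / 2 : ℝ) • ka g g : L G) 1 =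
      α * (T s g (u g)) 1 + (1 / 2) * (ka g g) 1 := rfl
  rw [h, ka_self_one, hu.rep _ (hu.mem _), lam_one, real_inner_self_eq_norm_sq]
  ring

theorem W_val [Nonempty ι] [DecidableEq G] (hu : Rep s Z u) (α : ℝ) (n : ℕ) :
    W s n (fun g => (vv s u α g g) 1) = α * (n * (dm Z / Fintype.card ι)) + 1 -
      W s n (fun g => if g = 1 then (1 : ℝ) else 0) := by
  have e : (fun g => (vv s u α g g) 1) = fun g => (α • ‖u g‖ ^ 2 + 1) +
      (-1 : ℝ) • (if g = 1 then (1 : ℝ) else 0) := by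
    funext g
    rw [vv_val hu]
    simp only [smul_eq_mul]
    ring
  rw [e, W_add, W_add, W_smul, W_smul, W_const, mom1 hu]
  simp only [smul_eq_mul]
  ring

theorem W_diag [Nonempty ι] (hu : Rep s Z u) {α : ℝ} (hα : 0 ≤ α) (n : ℕ) :
    W s n (fun g => ‖vv s u α g g‖ ^ 2) ≤ α ^ 2 * W s n (fun g => ‖cc s u g‖ ^ 2) +
      4 * (α * (n * (dm Z / Fintype.card ι))) + 2 := by
  classical
  have h1 : ∀ g, ‖vv s u α g g‖ ^ 2 ≤ (α ^ 2 • ‖cc s u g‖ ^ 2 + (4 * α) • ‖u g‖ ^ 2) + 2 := by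
    intro g
    rw [vv_norm]
    have h2 := cc_ka hu g
    have h3 : ‖ka g g‖ ^ 2 ≤ 8 := by
      refine (ka_norm g g).trans ?_
      split_ifs <;> norm_num
    have h7 : α * ⟪T s g (u g), ka g g⟫_ℝ ≤ α * (4 * ‖u g‖ ^ 2) :=
      mul_le_mul_of_nonneg_left h2 hα
    simp only [smul_eq_mul]
    change α ^ 2 * ‖cc s u g‖ ^ 2 + α * ⟪T s g (u g), ka g g⟫_ℝ + 1 / 4 * ‖ka g g‖ ^ 2 ≤ _
    linarith
  refine (W_mono s n h1).trans (le_of_eq ?_)
  rw [W_add, W_add, W_smul, W_smul, W_const, mom1 hu]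
  simp only [smul_eq_mul]
  ring

theorem W_off [Nonempty ι] [DecidableEq G] (gen : ∀ g : G, ∃ l, pr s l = g) (σ : ι → ι)
    (hσ : Function.Involutive σ) (hs : ∀ i, s (σ i) = (s i)⁻¹) (hZ : Good s Z)
    (hu : Rep s Z u) (α : ℝ) (n : ℕ) :
    W s n (fun g => W s n (fun g' => ‖vv s u α g g'‖ ^ 2)) ≤
      (α * (n / Fintype.card ι)) * (α * (n * (dm Z / Fintype.card ι))) + 1 +
        W s n (fun g => W s n (fun g' => if g = g' then (1 : ℝ) else 0)) := by
  have h1 : ∀ g, W s n (fun g' => ‖vv s u α g g'‖ ^ 2) ≤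
      ((α ^ 2 * (n / Fintype.card ι)) • ‖u g‖ ^ 2 + 1) +
        W s n (fun g' => if g = g' then (1 : ℝ) else 0) := by
    intro g
    have h2 : ∀ g', ‖vv s u α g g'‖ ^ 2 ≤ ((((α ^ 2) • ‖T s g' (u g)‖ ^ 2 +
        α • ⟪T s g' (u g), RR g' (dl g - dl 1) - (dl g - dl 1)⟫_ℝ) + 1) +
        (1 / 2 : ℝ) • (if g = g' then (1 : ℝ) else 0)) +
        (1 / 2 : ℝ) • (if g = g'⁻¹ then (1 : ℝ) else 0) := by
      intro g'
      rw [vv_norm]
      have h3 := ka_norm g g'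
      simp only [smul_eq_mul]
      change α ^ 2 * ‖T s g' (u g)‖ ^ 2 + α * ⟪T s g' (u g), ka g g'⟫_ℝ +
        1 / 4 * ‖ka g g'‖ ^ 2 ≤ (((α ^ 2 * ‖T s g' (u g)‖ ^ 2 + α * ⟪T s g' (u g), ka g g'⟫_ℝ) + 1) +
        1 / 2 * (if g = g' then (1 : ℝ) else 0)) + 1 / 2 * (if g = g'⁻¹ then (1 : ℝ) else 0)
      linarith
    refine (W_mono s n h2).trans (le_of_eq ?_)
    have h4 : W s n (fun g' => if g = g'⁻¹ then (1 : ℝ) else 0) =
        W s n (fun g' => if g = g' then (1 : ℝ) else 0) :=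
      W_inv s σ hσ hs n (fun g' => if g = g' then (1 : ℝ) else 0)
    rw [W_add, W_add, W_add, W_add, W_smul, W_smul, W_smul, W_smul, W_const,
      W_T_sq gen hZ (hu.mem g), W_cross gen σ hσ hs hZ (hu.mem g), h4]
    simp only [smul_eq_mul]
    ring
  refine (W_mono s n h1).trans (le_of_eq ?_)
  rw [W_add, W_add, W_smul, W_const, mom1 hu]
  simp only [smul_eq_mul]
  ring

end Pool.Agent.Lib.MP_354e85_al.L2B
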