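import Pool.Agent.Lib.MP_354e85_al.L2B.Basic
import Pool.Agent.Lib.MP_354e85_al.L2B.RankB

/-! The drop of the dimension is at least the rank. -/

set_option autoImplicit false

namespace Pool.Agent.Lib.MP_354e85_al.L2B

open Finset
open scoped InnerProductSpace

variable {G : Type} [Group G] {ι : Type}

omit [Group G] in
private theorem sl_unit_norm (ω : L (Unit × G)) : ‖sl () ω‖ = ‖ω‖ := by
  have h := sum_sl ω
  rw [Fintype.sum_unique] at h
  exact (pow_left_inj₀ (norm_nonneg _) (norm_nonneg _) (by norm_num)).1 h

omit [Group G] in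
/-- the isometry `L G → L (Unit × G)` -/
private noncomputable def un (f : L G) : L (Unit × G) :=
  cmp (Equiv.uniqueProd G Unit) f

omit [Group G] in
private theorem un_apply (f : L G) (x : G) : un f ((), x) = f x := rfl

variable [Fintype ι]

/-- the unit vector at `(i, 1)` -/
private noncomputable def ee (i : ι) : L (ι × G) := by
  classical
  exact lp.single 2 ((i, 1) : ι × G) (1 : ℝ)

omit [Fintype ι] in
private theorem inner_ee (i : ι) (f : L (ι × G)) : ⟪f, (ee i : L (ι × G))⟫_ℝ = f (i, 1) := by
  classical
  unfold ee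
  rw [lp.inner_single_right]
  simp

private theorem sp_congr {H : Type*} [NormedAddCommGroup H] [InnerProductSpace ℝ H]
    {Z Z' : Submodule ℝ H} [Z.HasOrthogonalProjection] [Z'.HasOrthogonalProjection] (h : Z' = Z)
    (x : H) : Z'.starProjection x = Z.starProjection x := by
  subst h
  rfl

private theorem dm_closed (Z : Submodule ℝ (L (ι × G)))
    (hc : IsClosed (Z : Set (L (ι × G)))) [Z.HasOrthogonalProjection] :
    dm Z = ∑ i : ι, ‖Z.starProjection (ee i : L (ι × G))‖ ^ 2 := by
  unfold dm
  refine Finset.sum_congr rfl fun i _ => ?_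
  rw [sp_congr hc.submodule_topologicalClosure_eq]
  rfl

theorem dm_nonneg' (Z : Submodule ℝ (L (ι × G))) : 0 ≤ dm Z := by
  unfold dm
  exact Finset.sum_nonneg fun _ _ => sq_nonneg _

theorem rank_le {s : ι → G} {Z : Submodule ℝ (L (ι × G))} (hZ : Good s Z) (g : G) {t : ℝ}
    {ω₀ : L (ι × G)} (hω₀ : ω₀ ∈ Z) (hne : T s g ω₀ ≠ 0)
    (ht : t * ‖T s g ω₀‖ ^ 2 ≤ (T s g ω₀ 1 : ℝ) ^ 2) :
    dm (Z ⊓ LinearMap.ker (T s g).toLinearMap) + t ≤ dm Z := by
  classical
  set N : Submodule ℝ (L (ι × G)) := Z ⊓ LinearMap.ker (T s g).toLinearMap with hN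
  have hNc : IsClosed (N : Set (L (ι × G))) := by
    have h1 : IsClosed {x : L (ι × G) | T s g x = 0} :=
      isClosed_singleton.preimage (T s g).continuous
    exact hZ.closed.inter h1
  have hNinv : ∀ y : G, ∀ ω ∈ N, lam y ω ∈ N := by
    rintro y ω ⟨h1, h2⟩
    refine ⟨hZ.inv y ω h1, ?_⟩
    have h3 : T s g ω = 0 := h2
    change T s g (lam y ω) = 0
    rw [T_lam, h3, map_zero]
  have : CompleteSpace Z := hZ.closed.completeSpace_coe
  have : CompleteSpace N := hNc.completeSpace_coe
  -- the orthogonal complement of `N` in `Z`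
  let M : Submodule ℝ (L (ι × G)) := Z ⊓ Nᗮ
  have hMc : IsClosed (M : Set (L (ι × G))) := hZ.closed.inter N.isClosed_orthogonal
  have : CompleteSpace M := hMc.completeSpace_coe
  have hMinv : ∀ y : G, ∀ ω ∈ M, lam y ω ∈ M := by
    rintro y ω ⟨h1, h2'⟩
    have h2 : ω ∈ Nᗮ := h2'
    refine ⟨hZ.inv y ω h1, ?_⟩
    change lam y ω ∈ Nᗮ
    rw [Submodule.mem_orthogonal] at h2 ⊢
    intro u hu
    have h3 : u = lam y (lam y⁻¹ u) := by rw [lam_lam, inv_mul_cancel, lam_one]
    rw [h3, LinearIsometry.inner_map_map]
    exact h2 _ (hNinv y⁻¹ u hu)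
  -- `dm Z = dm N + dm M`
  have hsplit : dm Z = dm N + dm M := by
    rw [dm_closed Z hZ.closed, dm_closed N hNc, dm_closed M hMc, ← Finset.sum_add_distrib]
    refine Finset.sum_congr rfl fun i _ => ?_
    obtain ⟨e, he⟩ : ∃ e : L (ι × G), e = ee i := ⟨_, rfl⟩
    rw [← he]
    have h1 : Z.starProjection e = N.starProjection e + M.starProjection e := by
      refine Submodule.eq_starProjection_of_mem_of_inner_eq_zero
        (Z.add_mem (Submodule.starProjection_apply_mem _ _ : N.starProjection e ∈ N).1
          (Submodule.starProjection_apply_mem _ _ : M.starProjection e ∈ M).1) ?_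
      intro w hw
      have hdec : w = N.starProjection w + (w - N.starProjection w) := by abel
      have hmem : w - N.starProjection w ∈ M := by
        refine ⟨Z.sub_mem hw (Submodule.starProjection_apply_mem _ _ : N.starProjection w ∈ N).1, ?_⟩
        change w - N.starProjection w ∈ Nᗮ
        rw [Submodule.mem_orthogonal]
        intro u hu
        rw [real_inner_comm]
        exact Submodule.starProjection_inner_eq_zero _ _ hu
      have hNw : N.starProjection w ∈ N := Submodule.starProjection_apply_mem _ _
      have a1 : ⟪e - N.starProjection e, N.starProjection w⟫_ℝ = 0 :=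
        Submodule.starProjection_inner_eq_zero _ _ hNw
      have a2 : ⟪e - M.starProjection e, w - N.starProjection w⟫_ℝ = 0 :=
        Submodule.starProjection_inner_eq_zero _ _ hmem
      have a3 : ⟪M.starProjection e, N.starProjection w⟫_ℝ = 0 := by
        have h := (Submodule.mem_orthogonal _ _).1
          (Submodule.starProjection_apply_mem _ _ : M.starProjection e ∈ M).2 _ hNw
        rw [real_inner_comm]
        exact h
      have a4 : ⟪N.starProjection e, w - N.starProjection w⟫_ℝ = 0 :=
        (Submodule.mem_orthogonal _ _).1 hmem.2 _ (Submodule.starProjection_apply_mem _ _)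
      rw [hdec]
      have e1 : e - (N.starProjection e + M.starProjection e) =
          (e - N.starProjection e) - M.starProjection e := by abel
      have e2 : e - (N.starProjection e + M.starProjection e) =
          (e - M.starProjection e) - N.starProjection e := by abel
      have h5 : ⟪e - (N.starProjection e + M.starProjection e), N.starProjection w⟫_ℝ = 0 := by
        rw [e1, inner_sub_left, a1, a3, sub_zero]
      have h6 : ⟪e - (N.starProjection e + M.starProjection e), w - N.starProjection w⟫_ℝ = 0 := by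
        rw [e2, inner_sub_left, a2, a4, sub_zero]
      rw [← hdec]
      conv_lhs => rw [hdec]
      rw [inner_add_right, h5, h6, add_zero]
    rw [h1, norm_add_sq_real]
    have h2 : ⟪N.starProjection e, M.starProjection e⟫_ℝ = 0 :=
      (Submodule.mem_orthogonal _ _).1
        (Submodule.starProjection_apply_mem _ _ : M.starProjection e ∈ M).2 _
        (Submodule.starProjection_apply_mem _ _)
    rw [h2]
    ring
  -- the closure of the image, in `L (Unit × G)`
  let uu : L G →L[ℝ] L (Unit × G) := (cmp (Equiv.uniqueProd G Unit)).toContinuousLinearMap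
  let S : L (ι × G) →L[ℝ] L (Unit × G) := uu ∘L (T s g ∘L M.starProjection)
  have hSl : ∀ (y : G) (ω : L (ι × G)), S (lam y ω) = lam y (S ω) := by
    intro y ω
    have h1 : M.starProjection (lam y ω) = lam y (M.starProjection ω) := by
      refine Submodule.eq_starProjection_of_mem_of_inner_eq_zero
        (hMinv y _ (Submodule.starProjection_apply_mem _ _)) fun w hw => ?_
      have h1 : w = lam y (lam y⁻¹ w) := by rw [lam_lam, inv_mul_cancel, lam_one]
      rw [← map_sub, h1, LinearIsometry.inner_map_map]
      exact Submodule.starProjection_inner_eq_zero _ _ (hMinv y⁻¹ w hw)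
    apply L_ext
    rintro ⟨_, x⟩
    change T s g (M.starProjection (lam y ω)) x = T s g (M.starProjection ω) (y * x)
    rw [h1, T_lam]
    rfl
  let Y : Submodule ℝ (L (Unit × G)) := (LinearMap.range S.toLinearMap).topologicalClosure
  have hYc : IsClosed (Y : Set (L (Unit × G))) := Submodule.isClosed_topologicalClosure _
  have : CompleteSpace Y := hYc.completeSpace_coe
  have hYinv : ∀ y : G, ∀ ω ∈ Y, lam y ω ∈ Y := by
    intro y
    have hsub : (LinearMap.range S.toLinearMap : Set (L (Unit × G))) ⊆
        (fun ω => lam y ω) ⁻¹' (Y : Set (L (Unit × G))) := by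
      rintro _ ⟨ω, rfl⟩
      change lam y (S ω) ∈ Y
      rw [← hSl]
      exact Submodule.le_topologicalClosure _ ⟨_, rfl⟩
    have hcl : IsClosed ((fun ω : L (Unit × G) => lam y ω) ⁻¹' (Y : Set (L (Unit × G)))) :=
      hYc.preimage (lam y).continuous
    intro ω hω
    exact (hcl.closure_subset_iff.2 hsub) hω
  have hSadj : ∀ (y : G) (f : L (Unit × G)),
      ContinuousLinearMap.adjoint S (lam y f) = lam y (ContinuousLinearMap.adjoint S f) := by
    intro y f
    refine ext_inner_right ℝ fun ω => ?_
    have h1 : ω = lam y (lam y⁻¹ ω) := by rw [lam_lam, inv_mul_cancel, lam_one]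
    rw [ContinuousLinearMap.adjoint_inner_left]
    conv_lhs => rw [h1, hSl]
    conv_rhs => rw [h1]
    rw [LinearIsometry.inner_map_map, LinearIsometry.inner_map_map,
      ContinuousLinearMap.adjoint_inner_left]
  have hYM := ranknull_map Y hYc hYinv M hMc (M.starProjection ∘L ContinuousLinearMap.adjoint S)
    (by
      intro y f
      change M.starProjection (ContinuousLinearMap.adjoint S (lam y f)) =
        lam y (M.starProjection (ContinuousLinearMap.adjoint S f))
      rw [hSadj]
      refine Submodule.eq_starProjection_of_mem_of_inner_eq_zero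
        (hMinv y _ (Submodule.starProjection_apply_mem _ _)) fun w hw => ?_
      have h1 : w = lam y (lam y⁻¹ w) := by rw [lam_lam, inv_mul_cancel, lam_one]
      rw [← map_sub, h1, LinearIsometry.inner_map_map]
      exact Submodule.starProjection_inner_eq_zero _ _ (hMinv y⁻¹ w hw))
    (fun ω _ => Submodule.starProjection_apply_mem _ _)
  have hker : Y ⊓ LinearMap.ker
      (M.starProjection ∘L ContinuousLinearMap.adjoint S).toLinearMap = ⊥ := by
    rw [Submodule.eq_bot_iff]
    rintro y ⟨hy1, hy2⟩
    have hy3 : M.starProjection (ContinuousLinearMap.adjoint S y) = 0 := hy2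
    -- `⟪S ω, y⟫ = 0` for all `ω`
    have h1 : ∀ ω, ⟪S ω, y⟫_ℝ = 0 := by
      intro ω
      have h2 : S ω = S (M.starProjection ω) := by
        change uu (T s g (M.starProjection ω)) =
          uu (T s g (M.starProjection (M.starProjection ω)))
        rw [Submodule.starProjection_eq_self_iff.2 (Submodule.starProjection_apply_mem _ _)]
      rw [h2, ← ContinuousLinearMap.adjoint_inner_right]
      have h3 : ⟪ContinuousLinearMap.adjoint S y - M.starProjection
          (ContinuousLinearMap.adjoint S y), M.starProjection ω⟫_ℝ = 0 :=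
        Submodule.starProjection_inner_eq_zero _ _ (Submodule.starProjection_apply_mem _ _)
      rw [hy3, sub_zero] at h3
      rw [real_inner_comm]
      exact h3
    have hcl : IsClosed {w : L (Unit × G) | ⟪w, y⟫_ℝ = 0} :=
      isClosed_eq (continuous_id.inner continuous_const) continuous_const
    have hsub : (LinearMap.range S.toLinearMap : Set (L (Unit × G))) ⊆
        {w : L (Unit × G) | ⟪w, y⟫_ℝ = 0} := by
      rintro _ ⟨ω, rfl⟩
      exact h1 ω
    exact inner_self_eq_zero.1 ((hcl.closure_subset_iff.2 hsub) hy1)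
  rw [hker] at hYM
  have hbot : dm (⊥ : Submodule ℝ (L (Unit × G))) = 0 := by
    unfold dm
    refine Finset.sum_eq_zero fun i _ => ?_
    have h9 : (⊥ : Submodule ℝ (L (Unit × G))).topologicalClosure = ⊥ :=
      (isClosed_singleton (x := (0 : L (Unit × G)))).submodule_topologicalClosure_eq
    rw [sp_congr h9, Submodule.starProjection_bot]
    simp
  -- `t ≤ dm Y`
  have htY : t ≤ dm Y := by
    rw [dm_closed Y hYc, Fintype.sum_unique]
    obtain ⟨δ, hδ⟩ : ∃ δ : L (Unit × G), δ = ee (default : Unit) := ⟨_, rfl⟩
    rw [← hδ]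
    -- replace `ω₀` by its projection to `M`
    have hω1 : T s g ω₀ = T s g (M.starProjection ω₀) := by
      have h1 : ω₀ - M.starProjection ω₀ ∈ N := by
        have h2 : ω₀ = N.starProjection ω₀ + (ω₀ - N.starProjection ω₀) := by abel
        have h3 : ω₀ - N.starProjection ω₀ ∈ M := by
          refine ⟨Z.sub_mem hω₀ (Submodule.starProjection_apply_mem _ _ :
            N.starProjection ω₀ ∈ N).1, ?_⟩
          change ω₀ - N.starProjection ω₀ ∈ Nᗮ
          rw [Submodule.mem_orthogonal]
          intro u hu
          rw [real_inner_comm]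
          exact Submodule.starProjection_inner_eq_zero _ _ hu
        have h4 : M.starProjection ω₀ = ω₀ - N.starProjection ω₀ := by
          refine Submodule.eq_starProjection_of_mem_of_inner_eq_zero h3 fun w hw => ?_
          have h5 : ω₀ - (ω₀ - N.starProjection ω₀) = N.starProjection ω₀ := by abel
          rw [h5]
          exact (Submodule.mem_orthogonal _ _).1 hw.2 _ (Submodule.starProjection_apply_mem _ _)
        rw [h4]
        have h5 : ω₀ - (ω₀ - N.starProjection ω₀) = N.starProjection ω₀ := by abel
        rw [h5]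
        exact Submodule.starProjection_apply_mem _ _
      have h2 : T s g (ω₀ - M.starProjection ω₀) = 0 := h1.2
      rw [map_sub, sub_eq_zero] at h2
      exact h2
    have hval : ⟪S ω₀, δ⟫_ℝ = T s g ω₀ 1 := by
      rw [hδ, inner_ee]
      change T s g (M.starProjection ω₀) 1 = _
      rw [← hω1]
    have hnorm : ‖S ω₀‖ = ‖T s g ω₀‖ := by
      change ‖uu (T s g (M.starProjection ω₀))‖ = _
      rw [← hω1]
      exact LinearIsometry.norm_map _ _
    have hY : S ω₀ ∈ Y := Submodule.le_topologicalClosure _ ⟨_, rfl⟩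
    have h1 : ⟪S ω₀, δ⟫_ℝ = ⟪S ω₀, Y.starProjection δ⟫_ℝ := by
      have h2 : ⟪δ - Y.starProjection δ, S ω₀⟫_ℝ = 0 :=
        Submodule.starProjection_inner_eq_zero _ _ hY
      rw [inner_sub_left, sub_eq_zero] at h2
      rw [real_inner_comm, h2, real_inner_comm]
    have h3 := abs_real_inner_le_norm (S ω₀) (Y.starProjection δ)
    rw [← h1, hval, hnorm] at h3
    have h4 : (T s g ω₀ 1 : ℝ) ^ 2 ≤ (‖T s g ω₀‖ * ‖Y.starProjection δ‖) ^ 2 := by
      rw [← sq_abs]
      gcongr
    have h5 : 0 < ‖T s g ω₀‖ ^ 2 := by
      have := norm_pos_iff.2 hne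
      positivity
    have h6 : t * ‖T s g ω₀‖ ^ 2 ≤ ‖Y.starProjection δ‖ ^ 2 * ‖T s g ω₀‖ ^ 2 := by
      refine ht.trans (h4.trans (le_of_eq ?_))
      ring
    exact le_of_mul_le_mul_right h6 h5
  rw [hbot, zero_add] at hYM
  rw [hsplit]
  linarith

end Pool.Agent.Lib.MP_354e85_al.L2B
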