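import Pool.Agent.Lib.MP_354e85_al.L2B.MomF
import Pool.Agent.Lib.MP_354e85_al.L2B.Rank
import Pool.Agent.Lib.MP_354e85_al.L2B.Hall
import Pool.Agent.Lib.MP_354e85_al.L2B.HD
import Pool.Agent.Lib.MP_354e85_al.Tarski

/-! Choice of four elements, and the paradoxical decomposition. -/

set_option autoImplicit false

namespace Pool.Agent.Lib.MP_354e85_al.L2B

open Finset Filter Topology
open scoped InnerProductSpace

variable {G : Type} [Group G] {ι : Type} [Fintype ι] {s : ι → G}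
  {Z : Submodule ℝ (L (ι × G))}

omit [Group G] in
theorem eval_sq_le (f : L G) (x : G) : (f x : ℝ) ^ 2 ≤ ‖f‖ ^ 2 :=
  le_hasSum (L_hasSum f) x fun _ _ => sq_nonneg _

/-- the exact rank -/
theorem exists_pv (s : ι → G) (Z : Submodule ℝ (L (ι × G))) (g : G) :
    ∃ p : ℝ, 0 ≤ p ∧ p ≤ 1 ∧ (∀ ω ∈ Z, (T s g ω 1 : ℝ) ^ 2 ≤ p * ‖T s g ω‖ ^ 2) ∧
      ∀ t, 0 ≤ t → t < p → ∃ ω ∈ Z, t * ‖T s g ω‖ ^ 2 < (T s g ω 1 : ℝ) ^ 2 := by
  set S : Set ℝ := {p | 0 ≤ p ∧ ∀ ω ∈ Z, (T s g ω 1 : ℝ) ^ 2 ≤ p * ‖T s g ω‖ ^ 2} with hS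
  have h1 : (1 : ℝ) ∈ S := ⟨zero_le_one, fun ω _ => by
    rw [one_mul]
    exact eval_sq_le _ _⟩
  have hbdd : BddBelow S := ⟨0, fun p hp => hp.1⟩
  refine ⟨sInf S, le_csInf ⟨1, h1⟩ fun p hp => hp.1, csInf_le hbdd h1, ?_, ?_⟩
  · intro ω hω
    rcases (sq_nonneg ‖T s g ω‖).eq_or_lt with h2 | h2
    · have h3 := eval_sq_le (T s g ω) 1
      rw [← h2] at h3 ⊢
      linarith
    · rw [← div_le_iff₀ h2]
      refine le_csInf ⟨1, h1⟩ fun p hp => ?_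
      rw [div_le_iff₀ h2]
      exact hp.2 ω hω
  · intro t ht0 ht
    by_contra hcon
    push Not at hcon
    exact absurd (csInf_le hbdd (show t ∈ S from ⟨ht0, hcon⟩)) (not_le.2 ht)

theorem Good.ker (hZ : Good s Z) (g : G) :
    Good s (Z ⊓ LinearMap.ker (T s g).toLinearMap) where
  closed := by
    rw [Submodule.coe_inf]
    refine hZ.closed.inter ?_
    have h : ((LinearMap.ker (T s g).toLinearMap : Submodule ℝ (L (ι × G))) : Set (L (ι × G))) =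
        (T s g) ⁻¹' {0} := by
      ext ω
      simp
    rw [h]
    exact isClosed_singleton.preimage (T s g).continuous
  inv := by
    intro y ω hω
    rw [Submodule.mem_inf, LinearMap.mem_ker] at hω ⊢
    refine ⟨hZ.inv y ω hω.1, ?_⟩
    have h := T_lam s g y ω
    have h2 : T s g ω = 0 := hω.2
    rw [h2, map_zero] at h
    exact h
  path := fun ω hω => hZ.path ω hω.1
  harm := fun ω hω => hZ.harm ω hω.1

theorem sel_step [Nonempty ι] (gen : ∀ g : G, ∃ l, pr s l = g)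
    (icc : ∀ g : G, g ≠ 1 → (Set.range fun x : G => x * g * x⁻¹).Infinite) (σ : ι → ι)
    (hσ : Function.Involutive σ) (hs : ∀ i, s (σ i) = (s i)⁻¹) (hZ : Good s Z) {t : ℝ}
    (ht0 : 0 ≤ t) (ht : t * (dm Z + 2) < dm Z) :
    ∃ (g : G) (p : ℝ), t < p ∧ p ≤ 1 ∧
      (∀ t, 0 ≤ t → t < p → ∃ ω ∈ Z, t * ‖T s g ω‖ ^ 2 < (T s g ω 1 : ℝ) ^ 2) ∧
      dm Z ≤ dm (Z ⊓ LinearMap.ker (T s g).toLinearMap) + p := by
  have h1 : ∃ g, ∃ ω ∈ Z, t * ‖T s g ω‖ ^ 2 < (T s g ω 1 : ℝ) ^ 2 := by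
    by_contra hcon
    push Not at hcon
    exact absurd (moment gen icc σ hσ hs hZ ht0 hcon) (not_le.2 ht)
  obtain ⟨g, ω, hω, h2⟩ := h1
  obtain ⟨p, hp0, hp1, hp, hp'⟩ := exists_pv s Z g
  refine ⟨g, p, ?_, hp1, hp', ranknull Z hZ.closed hZ.inv (T s g) (fun y ω => T_lam s g y ω) hp0 hp⟩
  have h3 := hp ω hω
  have h4 : t * ‖T s g ω‖ ^ 2 < p * ‖T s g ω‖ ^ 2 := h2.trans_le h3
  exact lt_of_mul_lt_mul_right h4 (sq_nonneg _)

/-- Four elements with ranks `a, b, c, d` in the kernels, `a + d ≥ 1`, `b + c ≥ 1`. -/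
theorem sel [Nonempty ι] (gen : ∀ g : G, ∃ l, pr s l = g)
    (icc : ∀ g : G, g ≠ 1 → (Set.range fun x : G => x * g * x⁻¹).Infinite) (σ : ι → ι)
    (hσ : Function.Involutive σ) (hs : ∀ i, s (σ i) = (s i)⁻¹) (hZ : Good s Z)
    (hd : 4 ≤ dm Z) :
    ∃ (g : Fin 4 → G) (p : Fin 4 → ℝ) (ω : Fin 4 → L (ι × G)), 1 ≤ p 0 + p 3 ∧ 1 ≤ p 1 + p 2 ∧
      (∀ i, ω i ∈ Z) ∧ (∀ i j, j < i → T s (g j) (ω i) = 0) ∧ (∀ i, T s (g i) (ω i) ≠ 0) ∧
      (∀ i, p i * ‖T s (g i) (ω i)‖ ^ 2 ≤ (T s (g i) (ω i) 1 : ℝ) ^ 2) := by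
  obtain ⟨g0, p0, h0a, h0b, h0c, h0d⟩ := sel_step gen icc σ hσ hs hZ (t := 66 / 100)
    (by norm_num) (by linarith)
  have hZ1 := hZ.ker g0
  set Z1 := Z ⊓ LinearMap.ker (T s g0).toLinearMap with hZ1def
  have hD1 : 3 ≤ dm Z1 := by linarith
  obtain ⟨g1, p1, h1a, h1b, h1c, h1d⟩ := sel_step gen icc σ hσ hs hZ1 (t := 59 / 100)
    (by norm_num) (by linarith)
  have hZ2 := hZ1.ker g1
  set Z2 := Z1 ⊓ LinearMap.ker (T s g1).toLinearMap with hZ2def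
  have hD2 : 2 ≤ dm Z2 := by linarith
  obtain ⟨g2, p2, h2a, h2b, h2c, h2d⟩ := sel_step gen icc σ hσ hs hZ2 (t := 49 / 100)
    (by norm_num) (by linarith)
  have hZ3 := hZ2.ker g2
  set Z3 := Z2 ⊓ LinearMap.ker (T s g2).toLinearMap with hZ3def
  have hD3 : 2 - p0 ≤ dm Z3 := by linarith
  have hfin : ∃ (a d : ℝ) (g3 : G), 0 ≤ a ∧ a < p0 ∧ 1 ≤ a + d ∧ ∃ ω ∈ Z3,
      d * ‖T s g3 ω‖ ^ 2 < (T s g3 ω 1 : ℝ) ^ 2 := by
    by_cases hp0 : p0 ≤ 7 / 10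
    · obtain ⟨g3, p3, h3a, h3b, h3c, h3d⟩ := sel_step gen icc σ hσ hs hZ3 (t := 39 / 100)
        (by norm_num) (by linarith)
      exact ⟨66 / 100, 39 / 100, g3, by norm_num, h0a, by norm_num, h3c _ (by norm_num) h3a⟩
    · push Not at hp0
      obtain ⟨g3, p3, h3a, h3b, h3c, h3d⟩ := sel_step gen icc σ hσ hs hZ3 (t := 33 / 100)
        (by norm_num) (by linarith)
      exact ⟨7 / 10, 33 / 100, g3, by norm_num, hp0, by norm_num, h3c _ (by norm_num) h3a⟩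
  obtain ⟨a, d, g3, ha0, ha, had, ω3, hω3, h3⟩ := hfin
  obtain ⟨ω0, hω0, h0⟩ := h0c a ha0 ha
  obtain ⟨ω1, hω1, h1⟩ := h1c _ (by norm_num) h1a
  obtain ⟨ω2, hω2, h2⟩ := h2c _ (by norm_num) h2a
  have hmem1 : ∀ ω ∈ Z1, ω ∈ Z ∧ T s g0 ω = 0 := fun ω hω => ⟨hω.1, hω.2⟩
  have hmem2 : ∀ ω ∈ Z2, ω ∈ Z1 ∧ T s g1 ω = 0 := fun ω hω => ⟨hω.1, hω.2⟩
  have hmem3 : ∀ ω ∈ Z3, ω ∈ Z2 ∧ T s g2 ω = 0 := fun ω hω => ⟨hω.1, hω.2⟩
  have hne : ∀ (t : ℝ) (g : G) (ω : L (ι × G)),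
      t * ‖T s g ω‖ ^ 2 < (T s g ω 1 : ℝ) ^ 2 → T s g ω ≠ 0 := by
    intro t g ω hlt h
    rw [h] at hlt
    have h' : (0 : L G) 1 = (0 : ℝ) := rfl
    rw [h'] at hlt
    simp at hlt
  refine ⟨![g0, g1, g2, g3], ![a, 59 / 100, 49 / 100, d], ![ω0, ω1, ω2, ω3], ?_, ?_, ?_, ?_, ?_, ?_⟩
  · simpa using had
  · change (1 : ℝ) ≤ 59 / 100 + 49 / 100
    norm_num
  · intro i
    fin_cases i
    · exact hω0
    · exact hω1.1
    · exact hω2.1.1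
    · exact hω3.1.1.1
  · intro i j hij
    fin_cases i <;> fin_cases j <;> first | (exfalso; revert hij; decide) | skip
    · exact (hmem1 _ hω1).2
    · exact (hmem1 _ (hmem2 _ hω2).1).2
    · exact (hmem2 _ hω2).2
    · exact (hmem1 _ (hmem2 _ (hmem3 _ hω3).1).1).2
    · exact (hmem2 _ (hmem3 _ hω3).1).2
    · exact (hmem3 _ hω3).2
  · intro i
    fin_cases i
    · exact hne _ _ _ h0
    · exact hne _ _ _ h1
    · exact hne _ _ _ h2
    · exact hne _ _ _ h3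
  · intro i
    fin_cases i
    · exact h0.le
    · exact h1.le
    · exact h2.le
    · exact h3.le

/-- The theorem for ICC groups. -/
theorem main_icc [Nonempty ι] (gen : ∀ g : G, ∃ l, pr s l = g)
    (icc : ∀ g : G, g ≠ 1 → (Set.range fun x : G => x * g * x⁻¹).Infinite) (σ : ι → ι)
    (hσ : Function.Involutive σ) (hs : ∀ i, s (σ i) = (s i)⁻¹)
    (hd : 4 ≤ dm (HD s)) : TarskiLE G 6 := by
  classical
  have hZ := HD_good s gen
  obtain ⟨g, p, ω, hp1, hp2, h1, h2, h3, h4⟩ := sel gen icc σ hσ hs hZ hd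
  let e : G → (⊤ : Subgroup G) := fun x => ⟨x, Subgroup.mem_top x⟩
  refine tarski_of_hall (⊤ : Subgroup G) ![1, e (g 0), e (g 3)] ![1, e (g 1), e (g 2)] 0 rfl ?_
  intro F₁ F₂
  let V : Finset (⊤ : Subgroup G) :=
    nb ![1, e (g 0), e (g 3)] F₁ ∪ nb ![1, e (g 1), e (g 2)] F₂
  refine ⟨V, fun x => by simp [V], ?_⟩
  let c : (⊤ : Subgroup G) ↪ G := ⟨Subtype.val, Subtype.val_injective⟩
  let A : Finset G := F₁.map c
  let B : Finset G := F₂.map c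
  have h5 := hall_ineq gen hZ g p ω h1 h2 h3 h4 ![A, B, B, A]
  have h6 : ((univ : Finset (Fin 4)).biUnion
      fun i => (![A, B, B, A] : Fin 4 → Finset G) i ∪
        ((![A, B, B, A] : Fin 4 → Finset G) i).image (fun x => x * g i)) ⊆ V.map c := by
    intro x hx
    rw [mem_biUnion] at hx
    obtain ⟨i, -, hx⟩ := hx
    have hA1 : ∀ y ∈ A, ∀ j, y * (((![1, e (g 0), e (g 3)] : Fin 3 → (⊤ : Subgroup G)) j : _) : G)
        ∈ V.map c := by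
      intro y hy j
      rw [Finset.mem_map] at hy
      obtain ⟨z, hz, rfl⟩ := hy
      rw [Finset.mem_map]
      exact ⟨z * (![1, e (g 0), e (g 3)] : Fin 3 → (⊤ : Subgroup G)) j,
        mem_union_left _ ((mem_nb _ _ _).2 ⟨z, hz, j, rfl⟩), rfl⟩
    have hB1 : ∀ y ∈ B, ∀ j, y * (((![1, e (g 1), e (g 2)] : Fin 3 → (⊤ : Subgroup G)) j : _) : G)
        ∈ V.map c := by
      intro y hy j
      rw [Finset.mem_map] at hy
      obtain ⟨z, hz, rfl⟩ := hy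
      rw [Finset.mem_map]
      exact ⟨z * (![1, e (g 1), e (g 2)] : Fin 3 → (⊤ : Subgroup G)) j,
        mem_union_right _ ((mem_nb _ _ _).2 ⟨z, hz, j, rfl⟩), rfl⟩
    have hA0 : ∀ y ∈ A, y ∈ V.map c := fun y hy => by
      have h := hA1 y hy 0
      simpa using h
    have hB0 : ∀ y ∈ B, y ∈ V.map c := fun y hy => by
      have h := hB1 y hy 0
      simpa using h
    rw [mem_union, mem_image] at hx
    fin_cases i
    · rcases hx with hx | ⟨y, hy, rfl⟩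
      · exact hA0 x hx
      · exact hA1 y hy 1
    · rcases hx with hx | ⟨y, hy, rfl⟩
      · exact hB0 x hx
      · exact hB1 y hy 1
    · rcases hx with hx | ⟨y, hy, rfl⟩
      · exact hB0 x hx
      · exact hB1 y hy 2
    · rcases hx with hx | ⟨y, hy, rfl⟩
      · exact hA0 x hx
      · exact hA1 y hy 2
  have h7 := card_le_card h6
  rw [card_map] at h7
  have h8 : ∑ i, p i * (((![A, B, B, A] : Fin 4 → Finset G) i).card : ℝ) =
      (p 0 + p 3) * (F₁.card : ℝ) + (p 1 + p 2) * (F₂.card : ℝ) := by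
    rw [Fin.sum_univ_four]
    change p 0 * (A.card : ℝ) + p 1 * (B.card : ℝ) + p 2 * (B.card : ℝ) + p 3 * (A.card : ℝ) = _
    simp only [A, B, card_map]
    ring
  rw [h8] at h5
  have h9 : (F₁.card : ℝ) + F₂.card ≤ V.card := by
    have h10 : ((((univ : Finset (Fin 4)).biUnion
      fun i => (![A, B, B, A] : Fin 4 → Finset G) i ∪
        ((![A, B, B, A] : Fin 4 → Finset G) i).image (fun x => x * g i)).card : ℕ) : ℝ) ≤ V.card := by
      exact_mod_cast h7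
    have h11 : (0 : ℝ) ≤ F₁.card := Nat.cast_nonneg _
    have h12 : (0 : ℝ) ≤ F₂.card := Nat.cast_nonneg _
    nlinarith
  exact_mod_cast h9

end Pool.Agent.Lib.MP_354e85_al.L2B
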