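import Pool.Agent.Lib.MP_354e85_al.L2B.MomF
import Pool.Agent.Lib.MP_354e85_al.L2B.Rank
import Pool.Agent.Lib.MP_354e85_al.L2B.RankC
import Pool.Agent.Lib.MP_354e85_al.L2B.HallA
import Pool.Agent.Lib.MP_354e85_al.L2B.Inv
import Pool.Agent.Lib.MP_354e85_al.Tarski

/-! Choice of the elements with a free first step, and the paradoxical decomposition. -/

set_option autoImplicit false

namespace Pool.Agent.Lib.MP_354e85_al.L2B

open Finset
open scoped InnerProductSpace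

variable {G : Type} [Group G]

/-- The rank bound: `c = 2` is `moment`. -/
def Mo (G : Type) [Group G] (c : ℝ) : Prop :=
  ∀ (κ : Type) [Fintype κ] [Nonempty κ] (t : κ → G), (∀ g : G, ∃ l, pr t l = g) →
    ∀ τ : κ → κ, Function.Involutive τ → (∀ k, t (τ k) = (t k)⁻¹) →
    ∀ Z : Submodule ℝ (L (κ × G)), Good t Z → ∀ p : ℝ, 0 ≤ p →
      (∀ g, ∀ ω ∈ Z, (T t g ω 1 : ℝ) ^ 2 ≤ p * ‖T t g ω‖ ^ 2) → dm Z ≤ p * (dm Z + c)

theorem Mo_two (icc : ∀ g : G, g ≠ 1 → (Set.range fun x : G => x * g * x⁻¹).Infinite) :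
    Mo G 2 := by
  intro κ _ _ t gen τ hτ ht Z hZ p hp h
  exact moment gen icc τ hτ ht hZ hp h

section tarski

/-- Hall's condition in the group itself. -/
theorem tarski_of_ineq {m n : ℕ} (s₁ : Fin m → G) (s₂ : Fin n → G) (j0 : Fin n)
    (hj0 : s₂ j0 = 1)
    (h : ∀ F₁ F₂ V : Finset G, (∀ x ∈ F₁, ∀ i, x * s₁ i ∈ V) → (∀ x ∈ F₂, ∀ i, x * s₂ i ∈ V) →
      F₁.card + F₂.card ≤ V.card) : TarskiLE G (m + n) := by
  classical
  let e : G → (⊤ : Subgroup G) := fun x => ⟨x, Subgroup.mem_top x⟩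
  refine tarski_of_hall (⊤ : Subgroup G) (fun i => e (s₁ i)) (fun i => e (s₂ i)) j0
    (Subtype.ext hj0) ?_
  intro F₁ F₂
  let V : Finset (⊤ : Subgroup G) :=
    nb (fun i => e (s₁ i)) F₁ ∪ nb (fun i => e (s₂ i)) F₂
  refine ⟨V, fun x => by simp [V], ?_⟩
  let c : (⊤ : Subgroup G) ↪ G := ⟨Subtype.val, Subtype.val_injective⟩
  have h1 := h (F₁.map c) (F₂.map c) (V.map c) ?_ ?_
  · simpa only [card_map] using h1
  · intro x hx i
    obtain ⟨y, hy, rfl⟩ := Finset.mem_map.1 hx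
    rw [Finset.mem_map]
    exact ⟨y * e (s₁ i), mem_union_left _ ((mem_nb _ _ _).2 ⟨y, hy, i, rfl⟩), rfl⟩
  · intro x hx i
    obtain ⟨y, hy, rfl⟩ := Finset.mem_map.1 hx
    rw [Finset.mem_map]
    exact ⟨y * e (s₂ i), mem_union_right _ ((mem_nb _ _ _).2 ⟨y, hy, i, rfl⟩), rfl⟩

end tarski

variable {ι : Type} [Fintype ι]

/-- The kernel of `T s g` on `Z`. -/
noncomputable def kr (s : ι → G) (Z : Submodule ℝ (L (ι × G))) (g : G) : Submodule ℝ (L (ι × G)) :=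
  Z ⊓ LinearMap.ker (T s g).toLinearMap

variable {s : ι → G} {Z : Submodule ℝ (L (ι × G))}

theorem Good.kr (hZ : Good s Z) (g : G) : Good s (kr s Z g) where
  closed := by
    have h : IsClosed {ω : L (ι × G) | T s g ω = 0} :=
      isClosed_singleton.preimage (T s g).continuous
    exact hZ.closed.inter h
  inv := by
    rintro y ω ⟨h1, h2⟩
    refine ⟨hZ.inv y ω h1, ?_⟩
    have h3 : T s g ω = 0 := h2
    change T s g (lam y ω) = 0
    rw [T_lam, h3, map_zero]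
  path := fun ω hω => hZ.path ω hω.1
  harm := fun ω hω => hZ.harm ω hω.1

theorem kr_le (g : G) : kr s Z g ≤ Z := inf_le_left

theorem kr_zero {g : G} {ω : L (ι × G)} (h : ω ∈ kr s Z g) : T s g ω = 0 := h.2

theorem kr_idem (g : G) : kr s (kr s Z g) g = kr s Z g := by
  unfold kr
  rw [inf_assoc, inf_idem]

theorem kr_comm (g h : G) : kr s (kr s Z g) h = kr s (kr s Z h) g := by
  unfold kr
  rw [inf_assoc, inf_comm (LinearMap.ker _), ← inf_assoc]

theorem T_incr (gen : ∀ g : G, ∃ l, pr s l = g) (hZ : Good s Z) {ω : L (ι × G)} (hω : ω ∈ Z)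
    (g x : G) : T s g ω x = T s (x * g) ω 1 - T s x ω 1 := by
  rw [T_mul gen hZ x g hω]
  change _ = (T s x ω 1 + T s g ω (1 * x)) - T s x ω 1
  rw [one_mul]
  ring

/-- a vector realising the drop of the dimension up to `δ` -/
theorem step_vec (hZ : Good s Z) (g : G) {δ : ℝ} (hδ : 0 < δ) :
    ∃ ω ∈ Z, (dm Z - dm (kr s Z g) - δ) * ‖T s g ω‖ ^ 2 ≤ (T s g ω 1 : ℝ) ^ 2 ∧
      (T s g ω ≠ 0 ∨ dm Z - dm (kr s Z g) - δ ≤ 0) := by
  by_cases h : dm Z - dm (kr s Z g) - δ ≤ 0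
  · refine ⟨0, Z.zero_mem, ?_, Or.inr h⟩
    rw [map_zero, norm_zero]
    have : (0 : L G) 1 = (0 : ℝ) := rfl
    rw [this]
    simp
  · push Not at h
    by_contra hcon
    push Not at hcon
    have h1 : ∀ ω ∈ Z, (T s g ω 1 : ℝ) ^ 2 ≤ (dm Z - dm (kr s Z g) - δ) * ‖T s g ω‖ ^ 2 := by
      intro ω hω
      by_contra h2
      push Not at h2
      have h3 := hcon ω hω h2.le
      rw [h3.1] at h2
      have : (0 : L G) 1 = (0 : ℝ) := rfl
      rw [this] at h2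
      simp at h2
    have h4 := ranknull Z hZ.closed hZ.inv (T s g) (fun y ω => T_lam s g y ω) h.le h1
    change dm Z ≤ dm (kr s Z g) + _ at h4
    linarith

/-- the drop of the dimension for some element, simultaneously for a larger space -/
theorem drop {c : ℝ} (mo : Mo G c) [Nonempty ι] (gen : ∀ g : G, ∃ l, pr s l = g) (σ : ι → ι)
    (hσ : Function.Involutive σ) (hs : ∀ i, s (σ i) = (s i)⁻¹) {Z' : Submodule ℝ (L (ι × G))}
    (hZ' : Good s Z') (hZ : Good s Z) (hle : Z' ≤ Z) {t : ℝ} (ht0 : 0 ≤ t)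
    (ht : t * (dm Z' + c) < dm Z') :
    ∃ g, dm (kr s Z' g) + t ≤ dm Z' ∧ dm (kr s Z g) + t ≤ dm Z := by
  have h1 : ∃ g, ∃ ω ∈ Z', t * ‖T s g ω‖ ^ 2 < (T s g ω 1 : ℝ) ^ 2 := by
    by_contra hcon
    push Not at hcon
    exact absurd (mo ι s gen σ hσ hs Z' hZ' t ht0 hcon) (not_le.2 ht)
  obtain ⟨g, ω, hω, h2⟩ := h1
  have hne : T s g ω ≠ 0 := by
    intro h
    rw [h] at h2
    have h' : (0 : L G) 1 = (0 : ℝ) := rfl
    rw [h'] at h2
    simp at h2
  exact ⟨g, rank_le hZ' g hω hne h2.le, rank_le hZ g (hle hω) hne h2.le⟩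

/-- Hall's inequality along a chain of kernels, with a free first step. -/
theorem hall4 (gen : ∀ g : G, ∃ l, pr s l = g) (hZ : Good s Z) (a : G)
    (hZa : ∀ ω ∈ Z, T s a ω = 0) (p0 : ℝ) (f0 : G → ℝ) (v0 : L G)
    (hv0 : ∀ x, v0 x = f0 (x * a) - f0 x) (hp0 : p0 * ‖v0‖ ^ 2 ≤ (v0 1 : ℝ) ^ 2)
    (hn0 : v0 ≠ 0 ∨ p0 ≤ 0) (g1 g2 g3 : G) (X A1 A2 A3 V : Finset G)
    (hX : ∀ x ∈ X, x ∈ V ∧ x * a ∈ V) (h1 : ∀ x ∈ A1, x ∈ V ∧ x * g1 ∈ V)
    (h2 : ∀ x ∈ A2, x ∈ V ∧ x * g2 ∈ V) (h3 : ∀ x ∈ A3, x ∈ V ∧ x * g3 ∈ V) :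
    p0 * X.card + (dm Z - dm (kr s Z g1)) * A1.card +
      (dm (kr s Z g1) - dm (kr s (kr s Z g1) g2)) * A2.card +
      (dm (kr s (kr s Z g1) g2) - dm (kr s (kr s (kr s Z g1) g2) g3)) * A3.card ≤ V.card := by
  classical
  have hZ1 := hZ.kr g1
  have hZ2 := hZ1.kr g2
  set Z1 := kr s Z g1 with hZ1d
  set Z2 := kr s Z1 g2 with hZ2d
  set d1 : ℝ := dm Z - dm Z1 with hd1
  set d2 : ℝ := dm Z1 - dm Z2 with hd2
  set d3 : ℝ := dm Z2 - dm (kr s Z2 g3) with hd3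
  have key : ∀ δ : ℝ, 0 < δ → p0 * X.card + (d1 - δ) * A1.card + (d2 - δ) * A2.card +
      (d3 - δ) * A3.card ≤ V.card := by
    intro δ hδ
    obtain ⟨ω1, hω1, hp1, hn1⟩ := step_vec hZ g1 hδ
    obtain ⟨ω2, hω2, hp2, hn2⟩ := step_vec hZ1 g2 hδ
    obtain ⟨ω3, hω3, hp3, hn3⟩ := step_vec hZ2 g3 hδ
    have hω2' : ω2 ∈ Z := kr_le g1 hω2
    have hω3' : ω3 ∈ Z1 := kr_le g2 hω3
    have hω3'' : ω3 ∈ Z := kr_le g1 hω3'
    have hz : ∀ (g : G) (ω : L (ι × G)), ω ∈ Z → T s g ω = 0 → ∀ x,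
        T s (x * g) ω 1 = T s x ω 1 := by
      intro g ω hω h x
      have h5 := T_incr gen hZ hω g x
      rw [h] at h5
      have : (0 : L G) x = (0 : ℝ) := rfl
      rw [this] at h5
      linarith
    have hmain := hall_pot (G := G) ![a, g1, g2, g3] ![p0, d1 - δ, d2 - δ, d3 - δ]
      ![f0, fun x => T s x ω1 1, fun x => T s x ω2 1, fun x => T s x ω3 1]
      ![v0, T s g1 ω1, T s g2 ω2, T s g3 ω3] ?_ ?_ ?_ ?_ ![X, A1, A2, A3]
    · refine le_trans (le_of_eq ?_) (hmain.trans ?_)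
      · rw [Fin.sum_univ_four]
        simp
      · have hsub : ((univ : Finset (Fin 4)).biUnion
            fun i => (![X, A1, A2, A3] : Fin 4 → Finset G) i ∪
              ((![X, A1, A2, A3] : Fin 4 → Finset G) i).image
                (fun x => x * (![a, g1, g2, g3] : Fin 4 → G) i)) ⊆ V := by
          intro x hx
          rw [mem_biUnion] at hx
          obtain ⟨i, -, hx⟩ := hx
          rw [mem_union, mem_image] at hx
          fin_cases i
          · rcases hx with hx | ⟨y, hy, rfl⟩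
            · exact (hX x hx).1
            · exact (hX y hy).2
          · rcases hx with hx | ⟨y, hy, rfl⟩
            · exact (h1 x hx).1
            · exact (h1 y hy).2
          · rcases hx with hx | ⟨y, hy, rfl⟩
            · exact (h2 x hx).1
            · exact (h2 y hy).2
          · rcases hx with hx | ⟨y, hy, rfl⟩
            · exact (h3 x hx).1
            · exact (h3 y hy).2
        exact_mod_cast card_le_card hsub
    · intro i x
      fin_cases i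
      · exact hv0 x
      · exact T_incr gen hZ hω1 g1 x
      · exact T_incr gen hZ hω2' g2 x
      · exact T_incr gen hZ hω3'' g3 x
    · intro i j hij x
      fin_cases i <;> fin_cases j <;> first | (exfalso; revert hij; decide) | skip
      · exact hz a ω1 hω1 (hZa _ hω1) x
      · exact hz a ω2 hω2' (hZa _ hω2') x
      · exact hz g1 ω2 hω2' (kr_zero hω2) x
      · exact hz a ω3 hω3'' (hZa _ hω3'') x
      · exact hz g1 ω3 hω3'' (kr_zero hω3') x
      · exact hz g2 ω3 hω3'' (kr_zero hω3) x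
    · intro i
      fin_cases i
      · exact hn0
      · exact hn1
      · exact hn2
      · exact hn3
    · intro i
      fin_cases i
      · exact hp0
      · exact hp1
      · exact hp2
      · exact hp3
  refine le_of_forall_pos_le_add fun ε hε => ?_
  set N : ℝ := (A1.card : ℝ) + A2.card + A3.card with hN
  have hN0 : 0 ≤ N := by positivity
  have h5 := key (ε / (N + 1)) (by positivity)
  have h6 : ε / (N + 1) * N ≤ ε := by
    rw [div_mul_eq_mul_div, div_le_iff₀ (by positivity)]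
    nlinarith
  have h7 : p0 * X.card + (d1 - ε / (N + 1)) * A1.card + (d2 - ε / (N + 1)) * A2.card +
      (d3 - ε / (N + 1)) * A3.card = p0 * X.card + d1 * A1.card + d2 * A2.card + d3 * A3.card -
      ε / (N + 1) * N := by
    rw [hN]; ring
  rw [h7] at h5
  linarith

theorem dm_kr_le (hZ : Good s Z) (g : G) : dm (kr s Z g) ≤ dm Z := by
  refine le_of_forall_pos_le_add fun ε hε => ?_
  by_cases h : ∃ ω ∈ Z, T s g ω ≠ 0
  · obtain ⟨ω, hω, hne⟩ := h
    have h1 := rank_le (t := 0) hZ g hω hne (by rw [zero_mul]; positivity)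
    change dm (kr s Z g) + 0 ≤ _ at h1
    linarith
  · push Not at h
    have : kr s Z g = Z := by
      refine le_antisymm (kr_le g) fun ω hω => ⟨hω, h ω hω⟩
    rw [this]
    linarith

/-- An element `a` of finite order `m ≥ 3` for which all functions of `Z` are `a`-invariant. -/
theorem tarski_fin {c : ℝ} (hc1 : 1 ≤ c) (mo : Mo G c) [Nonempty ι]
    (gen : ∀ g : G, ∃ l, pr s l = g) (σ : ι → ι)
    (hσ : Function.Involutive σ) (hs : ∀ i, s (σ i) = (s i)⁻¹) (hZ : Good s Z) (a : G)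
    (hZa : ∀ ω ∈ Z, T s a ω = 0) (m : ℕ) (hm : 3 ≤ m) (ha : orderOf a = m) {t1 : ℝ}
    (ht3 : 1 / 3 ≤ t1) (ht1 : t1 * (dm Z + c) < dm Z) (ht2 : c < t1 * (dm Z - t1 + c))
    (hD : 4 / 3 + c / 2 ≤ dm Z) : TarskiLE G 6 := by
  classical
  have hc : 0 < c := by linarith
  have ht0 : 0 ≤ t1 := by linarith
  set D := dm Z with hDd
  -- the first element
  obtain ⟨g0, h0, -⟩ := drop mo gen σ hσ hs hZ hZ le_rfl ht0 ht1
  have hZ1 := hZ.kr g0
  -- the second element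
  have h2 : ∃ g1, 1 ≤ D - dm (kr s (kr s Z g0) g1) := by
    by_cases hu : 1 ≤ D - dm (kr s Z g0)
    · exact ⟨g0, by rw [kr_idem]; exact hu⟩
    · push Not at hu
      set u := D - dm (kr s Z g0) with hud
      have hK1 : dm (kr s Z g0) = D - u := by rw [hud]; ring
      have hu1 : t1 ≤ u := by rw [hud]; linarith
      obtain ⟨g1, h1, -⟩ := drop (t := 1 - u) mo gen σ hσ hs hZ1 hZ1 le_rfl (by linarith) (by
        rw [hK1]
        -- `c < u * (D - u + c)`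
        have h3 : t1 * (D - t1 + c) ≤ u * (D - u + c) := by
          nlinarith [mul_nonneg (sub_nonneg.2 hu1) (by linarith : 0 ≤ D + c - u - t1)]
        nlinarith)
      exact ⟨g1, by linarith⟩
  obtain ⟨g1, hr12⟩ := h2
  have hZ2 := hZ1.kr g1
  have hle2 : kr s (kr s Z g0) g1 ≤ Z := (kr_le g1).trans (kr_le g0)
  -- the third element
  set r : ℝ := (m : ℝ)⁻¹ with hr
  have hm0 : (0 : ℝ) < m := by positivity
  have hr0 : 0 < r := by positivity
  have hr3 : r ≤ 1 / 3 := by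
    rw [hr, one_div]
    exact inv_anti₀ (by norm_num) (by exact_mod_cast hm)
  have ht1r : r ≤ t1 := by linarith
  have h3 : ∃ g2, 1 + r ≤ D - dm (kr s (kr s (kr s Z g0) g1) g2) ∧ r ≤ D - dm (kr s Z g2) := by
    by_cases hy : 1 + r ≤ D - dm (kr s (kr s Z g0) g1)
    · refine ⟨g0, ?_, by linarith⟩
      have := dm_kr_le hZ2 g0
      linarith
    · push Not at hy
      obtain ⟨g2, h4, h5⟩ := drop (t := r) mo gen σ hσ hs hZ2 hZ hle2 hr0.le (by
        set y := dm (kr s (kr s Z g0) g1) with hyd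
        have hy1 : D - 1 - r < y := by linarith
        have h6 : (1 / 3 + c / 2 - r) * (1 - r) ≤ (D - 1 - r) * (1 - r) := by
          have : 0 ≤ 1 - r := by linarith
          nlinarith
        nlinarith [mul_pos (sub_pos.2 hy1) (by linarith : (0 : ℝ) < 1 - r),
          mul_nonneg (by linarith : (0 : ℝ) ≤ 1 / 3 - r) (by linarith : (0 : ℝ) ≤ 1 - r),
          mul_nonneg hc.le (by linarith : (0 : ℝ) ≤ 1 / 3 - r)])
      exact ⟨g2, by linarith, by linarith⟩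
  obtain ⟨g2, hR, hq⟩ := h3
  obtain ⟨f0, v0, hv0, hp0, hn0⟩ := pot_fin a m (by omega) ha
  refine tarski_of_ineq ![1, a, g2] ![1, g0, g1] 0 rfl ?_
  intro X Y V hXV hYV
  have hX1 : ∀ x ∈ X, x ∈ V := fun x hx => by simpa using hXV x hx 0
  have hX2 : ∀ x ∈ X, x * a ∈ V := fun x hx => by simpa using hXV x hx 1
  have hX3 : ∀ x ∈ X, x * g2 ∈ V := fun x hx => by simpa using hXV x hx 2
  have hY1 : ∀ x ∈ Y, x ∈ V := fun x hx => by simpa using hYV x hx 0
  have hY2 : ∀ x ∈ Y, x * g0 ∈ V := fun x hx => by simpa using hYV x hx 1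
  have hY3 : ∀ x ∈ Y, x * g1 ∈ V := fun x hx => by simpa using hYV x hx 2
  have hα := hall4 gen hZ a hZa _ f0 v0 hv0 hp0 hn0 g0 g1 g2 X Y Y X V
    (fun x hx => ⟨hX1 x hx, hX2 x hx⟩) (fun x hx => ⟨hY1 x hx, hY2 x hx⟩)
    (fun x hx => ⟨hY1 x hx, hY3 x hx⟩) (fun x hx => ⟨hX1 x hx, hX3 x hx⟩)
  have hβ := hall4 gen hZ a hZa _ f0 v0 hv0 hp0 hn0 g2 g0 g1 X X Y Y V
    (fun x hx => ⟨hX1 x hx, hX2 x hx⟩) (fun x hx => ⟨hX1 x hx, hX3 x hx⟩)
    (fun x hx => ⟨hY1 x hx, hY2 x hx⟩) (fun x hx => ⟨hY1 x hx, hY3 x hx⟩)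
  have hcomm : kr s (kr s (kr s Z g2) g0) g1 = kr s (kr s (kr s Z g0) g1) g2 := by
    rw [kr_comm (Z := Z) g2 g0, kr_comm (Z := kr s Z g0) g2 g1]
  rw [hcomm] at hβ
  set x : ℝ := (X.card : ℝ)
  set y : ℝ := (Y.card : ℝ)
  set v : ℝ := (V.card : ℝ)
  set K0 := dm (kr s Z g0)
  set K01 := dm (kr s (kr s Z g0) g1)
  set K := dm (kr s (kr s (kr s Z g0) g1) g2)
  set K2 := dm (kr s Z g2)
  set K20 := dm (kr s (kr s Z g2) g0)
  have hx0 : 0 ≤ x := Nat.cast_nonneg _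
  have hy0 : 0 ≤ y := Nat.cast_nonneg _
  have hfin : x + y ≤ v := by
    rcases le_total x y with hxy | hxy
    · nlinarith [mul_nonneg (by linarith : (0 : ℝ) ≤ D - K01 - 1) (sub_nonneg.2 hxy),
        mul_nonneg (by linarith : (0 : ℝ) ≤ D - K - 1 - r) hx0]
    · nlinarith [mul_nonneg (by linarith : (0 : ℝ) ≤ D - K2 - r) (sub_nonneg.2 hxy),
        mul_nonneg (by linarith : (0 : ℝ) ≤ D - K - 1 - r) hy0]
  have hfin' : (X.card : ℝ) + Y.card ≤ V.card := hfin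
  exact_mod_cast hfin'

/-- An element of infinite order. -/
theorem tarski_inf {c : ℝ} (hc1 : 1 ≤ c) (mo : Mo G c) [Nonempty ι]
    (gen : ∀ g : G, ∃ l, pr s l = g) (σ : ι → ι)
    (hσ : Function.Involutive σ) (hs : ∀ i, s (σ i) = (s i)⁻¹) (hZ : Good s Z) (a : G)
    (hZa : ∀ ω ∈ Z, T s a ω = 0) (ha : ∀ i j : ℤ, a ^ i = a ^ j → i = j) {t1 t2 : ℝ}
    (ht0 : 0 ≤ t1) (ht1 : t1 * (dm Z + c) < dm Z) (ht12 : t1 ≤ t2) (ht21 : t2 ≤ 1)
    (hA : (t2 - t1) * (dm Z - t1 + c) < dm Z - t1) (hB : c < t2 * (dm Z - t2 + c))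
    (hD : 1 ≤ dm Z) : TarskiLE G 6 := by
  classical
  set D := dm Z with hDd
  obtain ⟨g0, h0, -⟩ := drop mo gen σ hσ hs hZ hZ le_rfl ht0 ht1
  have hZ1 := hZ.kr g0
  have h2 : ∃ g1, t2 ≤ D - dm (kr s (kr s Z g0) g1) := by
    by_cases hu : t2 ≤ D - dm (kr s Z g0)
    · exact ⟨g0, by rw [kr_idem]; exact hu⟩
    · push Not at hu
      set u := D - dm (kr s Z g0) with hud
      have hK1 : dm (kr s Z g0) = D - u := by rw [hud]; ring
      have hu1 : t1 ≤ u := by rw [hud]; linarith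
      obtain ⟨g1, h1, -⟩ := drop (t := t2 - u) mo gen σ hσ hs hZ1 hZ1 le_rfl (by linarith) (by
        rw [hK1]
        nlinarith [mul_nonneg (sub_nonneg.2 hu1) (by linarith : 0 ≤ D - u + c),
          mul_nonneg (sub_nonneg.2 hu1) (sub_nonneg.2 hu.le),
          mul_nonneg (sub_nonneg.2 hu1) (sub_nonneg.2 ht12)])
      exact ⟨g1, by linarith⟩
  obtain ⟨g1, hr12⟩ := h2
  have hZ2 := hZ1.kr g1
  have h3 : ∃ g2, 1 ≤ D - dm (kr s (kr s (kr s Z g0) g1) g2) := by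
    by_cases hu : 1 ≤ D - dm (kr s (kr s Z g0) g1)
    · exact ⟨g1, by rw [kr_idem]; exact hu⟩
    · push Not at hu
      set u := D - dm (kr s (kr s Z g0) g1) with hud
      have hK1 : dm (kr s (kr s Z g0) g1) = D - u := by rw [hud]; ring
      obtain ⟨g2, h1, -⟩ := drop (t := 1 - u) mo gen σ hσ hs hZ2 hZ2 le_rfl (by linarith) (by
        rw [hK1]
        have h3 : t2 * (D - t2 + c) ≤ u * (D - u + c) := by
          nlinarith [mul_nonneg (sub_nonneg.2 hr12) (by linarith : 0 ≤ D + c - u - t2)]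
        nlinarith)
      exact ⟨g2, by linarith⟩
  obtain ⟨g2, hR⟩ := h3
  have h6 : TarskiLE G (2 + 4) := by
    refine tarski_of_ineq ![1, a] ![1, g0, g1, g2] 0 rfl ?_
    intro X Y V hXV hYV
    have hX1 : ∀ x ∈ X, x ∈ V := fun x hx => by simpa using hXV x hx 0
    have hX2 : ∀ x ∈ X, x * a ∈ V := fun x hx => by simpa using hXV x hx 1
    have hY1 : ∀ x ∈ Y, x ∈ V := fun x hx => by simpa using hYV x hx 0
    have hY2 : ∀ x ∈ Y, x * g0 ∈ V := fun x hx => by simpa using hYV x hx 1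
    have hY3 : ∀ x ∈ Y, x * g1 ∈ V := fun x hx => by simpa using hYV x hx 2
    have hY4 : ∀ x ∈ Y, x * g2 ∈ V := fun x hx => by simpa using hYV x hx 3
    obtain ⟨f0, v0, hv0, hp0, hn0⟩ := pot_inf a ha (X.card + 1) (by omega)
    have hα := hall4 gen hZ a hZa _ f0 v0 hv0 hp0 hn0 g0 g1 g2 X Y Y Y V
      (fun x hx => ⟨hX1 x hx, hX2 x hx⟩) (fun x hx => ⟨hY1 x hx, hY2 x hx⟩)
      (fun x hx => ⟨hY1 x hx, hY3 x hx⟩) (fun x hx => ⟨hY1 x hx, hY4 x hx⟩)
    have hx0 : (0 : ℝ) ≤ X.card := Nat.cast_nonneg _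
    have hy0 : (0 : ℝ) ≤ Y.card := Nat.cast_nonneg _
    have h7 : (1 - (((X.card + 1 : ℕ) : ℝ))⁻¹) * (X.card : ℝ) > X.card - 1 := by
      have h8 : (0 : ℝ) < ((X.card + 1 : ℕ) : ℝ) := by positivity
      have h9 : (((X.card + 1 : ℕ) : ℝ))⁻¹ * (X.card : ℝ) < 1 := by
        rw [inv_mul_lt_iff₀ h8]
        push_cast
        linarith
      linarith
    have h10 : (X.card : ℝ) + Y.card < V.card + 1 := by
      nlinarith [mul_nonneg (by linarith : (0 : ℝ) ≤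
        D - dm (kr s (kr s (kr s Z g0) g1) g2) - 1) hy0]
    have h11 : X.card + Y.card < V.card + 1 := by exact_mod_cast h10
    omega
  exact h6

end Pool.Agent.Lib.MP_354e85_al.L2B
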