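import Pool.Agent.Lib.MP_354e85_al.Tarski

/-! A torsion group has no paradoxical decomposition with at most five pieces. -/

set_option autoImplicit false

namespace Pool.Agent.Lib.MP_354e85_al.L2B

/-- A half with at most two pieces. If `G` is the disjoint union of the translates of `m ≤ 2`
disjoint sets then, in a torsion group, these sets cover `G`. -/
private theorem two_cover {G : Type} [Group G] (ht : ∀ g : G, ∃ n : ℕ, 0 < n ∧ g ^ n = 1)
    {m : ℕ} (hm : m ≤ 2) (A : Fin m → Set G) (g : Fin m → G)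
    (hd : ∀ i j : Fin m, ∀ x, x ∈ A i → x ∈ A j → i = j)
    (hc : ∀ x : G, ∃! i : Fin m, (g i)⁻¹ * x ∈ A i) (x : G) : ∃ i, x ∈ A i := by
  classical
  interval_cases m
  · exact absurd (hc 1).choose.isLt (Nat.not_lt_zero _)
  · obtain ⟨i, hi, -⟩ := hc (g 0 * x)
    have e : i = 0 := Subsingleton.elim _ _
    subst e
    refine ⟨0, ?_⟩
    have : (g 0)⁻¹ * (g 0 * x) ∈ A 0 := hi
    rwa [inv_mul_cancel_left] at this
  · -- `A 0 ⊔ t • A 1 = G` with `t = (g 0)⁻¹ * g 1`
    obtain ⟨t, htd⟩ : ∃ t : G, t = (g 0)⁻¹ * g 1 := ⟨_, rfl⟩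
    have key : ∀ y : G, y ∈ A 0 ↔ ¬ (t⁻¹ * y ∈ A 1) := by
      intro y
      obtain ⟨i, hi, hi'⟩ := hc (g 0 * y)
      have e0 : (g 0)⁻¹ * (g 0 * y) = y := inv_mul_cancel_left _ _
      have e1 : (g 1)⁻¹ * (g 0 * y) = t⁻¹ * y := by
        rw [htd, mul_inv_rev, inv_inv, mul_assoc]
      have hi0 : (y ∈ A 0) → i = 0 := by
        intro h
        refine (hi' 0 ?_).symm
        change (g 0)⁻¹ * (g 0 * y) ∈ A 0
        rw [e0]
        exact h
      have hi1 : (t⁻¹ * y ∈ A 1) → i = 1 := by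
        intro h
        refine (hi' 1 ?_).symm
        change (g 1)⁻¹ * (g 0 * y) ∈ A 1
        rw [e1]
        exact h
      constructor
      · intro h h'
        have := (hi0 h).symm.trans (hi1 h')
        exact absurd this (by decide)
      · intro h
        by_cases hi01 : i = 0
        · subst hi01
          have h3 : (g 0)⁻¹ * (g 0 * y) ∈ A 0 := hi
          rwa [e0] at h3
        · have hi1' : i = 1 := by
            have := i.isLt
            omega
          subst hi1'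
          have h3 : (g 1)⁻¹ * (g 0 * y) ∈ A 1 := hi
          rw [e1] at h3
          exact absurd h3 h
    -- `A 1 ⊆ t • A 1`
    have hsub : ∀ y ∈ A 1, t⁻¹ * y ∈ A 1 := by
      intro y hy
      by_contra h
      have h1 : y ∈ A 0 := (key y).2 h
      exact absurd (hd 0 1 y h1 hy) (by decide)
    have hpow : ∀ (n : ℕ), ∀ y ∈ A 1, t⁻¹ ^ n * y ∈ A 1 := by
      intro n
      induction n with
      | zero =>
        intro y hy
        rwa [pow_zero, one_mul]
      | succ n ih =>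
        intro y hy
        have h1 := hsub _ (ih y hy)
        rwa [← mul_assoc, ← pow_succ'] at h1
    obtain ⟨n, hn, htn⟩ := ht t⁻¹
    by_cases hx : x ∈ A 0
    · exact ⟨0, hx⟩
    · refine ⟨1, ?_⟩
      have h1 : t⁻¹ * x ∈ A 1 := by
        by_contra h
        exact hx ((key x).2 h)
      obtain ⟨k, rfl⟩ : ∃ k, n = k + 1 := ⟨n - 1, by omega⟩
      have h2 := hpow k _ h1
      rwa [← mul_assoc, ← pow_succ, htn, one_mul] at h2

/-- A torsion group has Tarski number at least six. -/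
theorem tor {G : Type} [Group G] (ht : ∀ g : G, ∃ n : ℕ, 0 < n ∧ g ^ n = 1) :
    ¬ TarskiLE G 5 := by
  rintro ⟨m, n, hmn, A, B, g, h, h1, h2, h3⟩
  have hdA : ∀ i j : Fin m, ∀ x, x ∈ A i → x ∈ A j → i = j := by
    intro i j x hi hj
    exact Sum.inl_injective ((h1 x).unique (y₁ := Sum.inl i) (y₂ := Sum.inl j) hi hj)
  have hdB : ∀ i j : Fin n, ∀ x, x ∈ B i → x ∈ B j → i = j := by
    intro i j x hi hj
    exact Sum.inr_injective ((h1 x).unique (y₁ := Sum.inr i) (y₂ := Sum.inr j) hi hj)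
  obtain ⟨i0, hi0, -⟩ := h2 1
  obtain ⟨j0, hj0, -⟩ := h3 1
  rcases Nat.lt_or_ge 2 m with hm | hm
  · have hn : n ≤ 2 := by omega
    obtain ⟨j, hj⟩ := two_cover ht hn B h hdB h3 ((g i0)⁻¹ * 1)
    exact Sum.inl_ne_inr ((h1 ((g i0)⁻¹ * 1)).unique (y₁ := Sum.inl i0) (y₂ := Sum.inr j) hi0 hj)
  · obtain ⟨i, hi⟩ := two_cover ht hm A g hdA h2 ((h j0)⁻¹ * 1)
    exact Sum.inl_ne_inr ((h1 ((h j0)⁻¹ * 1)).unique (y₁ := Sum.inl i) (y₂ := Sum.inr j0) hi hj0)

end Pool.Agent.Lib.MP_354e85_al.L2B
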