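import Pool.Agent.Lib.MP_354e85_al.L2B.Defs

/-! Averages over the random walk. -/

set_option autoImplicit false

namespace Pool.Agent.Lib.MP_354e85_al.L2B

open Finset
open scoped InnerProductSpace

variable {G : Type} [Group G] {ι : Type} [Fintype ι]
variable {V : Type*} [AddCommGroup V] [Module ℝ V] {V' : Type*} [AddCommGroup V'] [Module ℝ V']

/-- The average of `F` over the products of `n` independent random letters. -/
noncomputable def W (s : ι → G) : ℕ → (G → V) → V
  | 0, F => F 1
  | n + 1, F => W s n (fun g => (Fintype.card ι : ℝ)⁻¹ • ∑ i, F (g * s i))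

/-- Conjugation: `CJ g f x = f (g⁻¹ * (x * g))`. -/
noncomputable def CJ (g : G) : L G →ₗᵢ[ℝ] L G := (RR g).comp (LL g⁻¹)

@[simp] theorem CJ_apply (g : G) (f : L G) (x : G) : CJ g f x = f (g⁻¹ * (x * g)) := rfl

/-- The average of the conjugations by the letters. -/
noncomputable def P (s : ι → G) : L G →L[ℝ] L G :=
  (Fintype.card ι : ℝ)⁻¹ • ∑ i, (CJ (s i)).toContinuousLinearMap

private theorem W_succ (s : ι → G) (n : ℕ) (F : G → V) :
    W s (n + 1) F = W s n (fun g => (Fintype.card ι : ℝ)⁻¹ • ∑ i, F (g * s i)) := rfl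

theorem W_add (s : ι → G) (n : ℕ) (F F' : G → V) :
    W s n (fun g => F g + F' g) = W s n F + W s n F' := by
  induction n generalizing F F' with
  | zero => rfl
  | succ n ih =>
    rw [W_succ, W_succ, W_succ, ← ih]
    congr 1
    funext g
    rw [sum_add_distrib, smul_add]

theorem W_smul (s : ι → G) (n : ℕ) (c : ℝ) (F : G → V) :
    W s n (fun g => c • F g) = c • W s n F := by
  induction n generalizing F with
  | zero => rfl
  | succ n ih =>
    rw [W_succ, W_succ, ← ih]
    congr 1
    funext g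
    rw [← smul_sum, smul_comm]

theorem W_map (s : ι → G) (n : ℕ) (A : V →ₗ[ℝ] V') (F : G → V) :
    A (W s n F) = W s n (fun g => A (F g)) := by
  induction n generalizing F with
  | zero => rfl
  | succ n ih =>
    rw [W_succ, W_succ, ih]
    congr 1
    funext g
    rw [map_smul, map_sum]

theorem W_const [Nonempty ι] (s : ι → G) (n : ℕ) (v : V) : W s n (fun _ => v) = v := by
  induction n with
  | zero => rfl
  | succ n ih =>
    rw [W_succ]
    have h : (fun _ : G => (Fintype.card ι : ℝ)⁻¹ • ∑ _i : ι, v) = fun _ => v := by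
      funext g
      have h1 : (Fintype.card ι : ℝ) ≠ 0 := by
        exact_mod_cast Fintype.card_ne_zero
      rw [sum_const, card_univ, ← Nat.cast_smul_eq_nsmul ℝ, smul_smul, inv_mul_cancel₀ h1, one_smul]
    rw [h]
    exact ih

theorem W_mono (s : ι → G) (n : ℕ) {F F' : G → ℝ} (h : ∀ g, F g ≤ F' g) :
    W s n F ≤ W s n F' := by
  induction n generalizing F F' with
  | zero => exact h 1
  | succ n ih =>
    rw [W_succ, W_succ]
    refine ih fun g => ?_
    rw [smul_eq_mul, smul_eq_mul]
    exact mul_le_mul_of_nonneg_left (sum_le_sum fun i _ => h _) (by positivity)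

/-- Expand `0 ≤ W ((F - t) ^ 2)` with `t = W F`. -/
theorem W_sq [Nonempty ι] (s : ι → G) (n : ℕ) (F : G → ℝ) :
    (W s n F) ^ 2 ≤ W s n (fun g => F g ^ 2) := by
  set t : ℝ := W s n F with ht
  have h1 : W s n (fun _ => (0 : ℝ)) ≤ W s n (fun g => (F g - t) ^ 2) :=
    W_mono s n fun g => sq_nonneg _
  have h2 : (fun g => (F g - t) ^ 2) = fun g => (F g ^ 2 + (-(2 * t)) • F g) + t ^ 2 := by
    funext g
    rw [smul_eq_mul]
    ring
  rw [h2, W_add s n (fun g => F g ^ 2 + (-(2 * t)) • F g) (fun _ => t ^ 2),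
    W_add s n (fun g => F g ^ 2) (fun g => (-(2 * t)) • F g), W_smul, W_const, W_const, ← ht,
    smul_eq_mul] at h1
  nlinarith

private theorem W_sum (s : ι → G) (n : ℕ) {κ : Type*} (S : Finset κ) (F : κ → G → V) :
    W s n (fun g => ∑ i ∈ S, F i g) = ∑ i ∈ S, W s n (F i) := by
  classical
  induction S using Finset.induction_on with
  | empty =>
    have h := W_smul s n 0 (fun _ : G => (0 : V))
    simp only [zero_smul] at h
    simpa using h
  | insert a S ha ih =>
    rw [sum_insert ha, ← ih, ← W_add]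
    congr 1
    funext g
    rw [sum_insert ha]

private theorem W_left (s : ι → G) (n : ℕ) (F : G → V) :
    W s (n + 1) F = (Fintype.card ι : ℝ)⁻¹ • ∑ i, W s n (fun g => F (s i * g)) := by
  induction n generalizing F with
  | zero =>
    show (Fintype.card ι : ℝ)⁻¹ • ∑ i, F (1 * s i) = (Fintype.card ι : ℝ)⁻¹ • ∑ i, F (s i * 1)
    simp only [one_mul, mul_one]
  | succ n ih =>
    rw [W_succ, ih]
    congr 1
    refine sum_congr rfl fun i _ => ?_
    rw [W_succ]
    congr 1
    funext g
    simp only [mul_assoc]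

/-- Induction with the left recursion `W (n + 1) F = q⁻¹ • ∑ i, W n (fun g => F (s i * g))`
(itself an induction) and the reindexing of the letters by `σ`. -/
theorem W_inv (s : ι → G) (σ : ι → ι) (hσ : Function.Involutive σ)
    (hs : ∀ i, s (σ i) = (s i)⁻¹) (n : ℕ) (F : G → V) :
    W s n (fun g => F g⁻¹) = W s n F := by
  induction n generalizing F with
  | zero =>
    show F (1 : G)⁻¹ = F 1
    rw [inv_one]
  | succ n ih =>
    have h1 : (fun g : G => (Fintype.card ι : ℝ)⁻¹ • ∑ i, F (g * s i)⁻¹)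
        = fun g => (Fintype.card ι : ℝ)⁻¹ • ∑ i, F (s i * g⁻¹) := by
      funext g
      congr 1
      refine Fintype.sum_equiv (Function.Involutive.toPerm σ hσ) _ _ fun i => ?_
      rw [Function.Involutive.coe_toPerm, hs, mul_inv_rev]
    rw [W_succ, h1, ih fun g => (Fintype.card ι : ℝ)⁻¹ • ∑ i, F (s i * g), W_smul, W_sum, ← W_left]

/-- Induction on `n`, `Θ` general: `CJ (g * h) Θ = CJ g (CJ h Θ)`. -/
theorem W_conj (s : ι → G) (n : ℕ) (Θ : L G) :
    W s n (fun g => CJ g Θ) = (P s ^ n) Θ := by
  induction n generalizing Θ with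
  | zero =>
    show CJ 1 Θ = (P s ^ 0) Θ
    rw [pow_zero]
    refine L_ext fun x => ?_
    rw [CJ_apply, inv_one, one_mul, mul_one]
    rfl
  | succ n ih =>
    have h1 : (fun g : G => (Fintype.card ι : ℝ)⁻¹ • ∑ i, CJ (g * s i) Θ)
        = fun g => CJ g (P s Θ) := by
      funext g
      have h2 : P s Θ = (Fintype.card ι : ℝ)⁻¹ • ∑ i, CJ (s i) Θ := by
        unfold P
        rw [ContinuousLinearMap.smul_apply, ContinuousLinearMap.sum_apply]
        rfl
      rw [h2, map_smul, map_sum]
      congr 1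
      refine sum_congr rfl fun i _ => L_ext fun x => ?_
      simp only [CJ_apply, mul_inv_rev, mul_assoc]
    rw [W_succ, h1, ih, pow_succ]
    rfl

end Pool.Agent.Lib.MP_354e85_al.L2B
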